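import Mathlib
import Pool.Agent.Lib.MP_551055_al.Trim.LS.Stmts
import Pool.Agent.Lib.MP_551055_al.Trim.MT.Defs

/-!
# Many trees: change of rings
-/

set_option autoImplicit false

namespace Pool.Agent.Lib.MP_551055_al
end Pool.Agent.Lib.MP_551055_al

namespace Pool.Agent.Lib.MP_551055_al.MT

open Pool.Agent.Lib.MP_551055_al

open Matrix

section

variable {N N' : Type} [Monoid N] [Monoid N']

/-- The ring homomorphism of a monoid homomorphism. -/
noncomputable abbrev mdh (h : N →* N') : ZM N →+* ZM N' := MonoidAlgebra.mapDomainRingHom ℤ h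

theorem mdh_single (h : N →* N') (m : N) (c : ℤ) :
    mdh h (MonoidAlgebra.single m c) = MonoidAlgebra.single (h m) c :=
  MonoidAlgebra.mapDomain_single

theorem mdh_coeff (h : N →* N') (x : ZM N) :
    (mdh h x).coeff = Finsupp.mapDomain h x.coeff := rfl

theorem coeff_mdh_ne {h : N →* N'} {x : ZM N} {m : N'} (hx : (mdh h x).coeff m ≠ 0) :
    ∃ a, h a = m ∧ x.coeff a ≠ 0 := by
  classical
  rw [mdh_coeff] at hx
  have h1 := Finsupp.mapDomain_support (Finsupp.mem_support_iff.2 hx)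
  obtain ⟨a, ha, hm⟩ := Finset.mem_image.1 h1
  exact ⟨a, hm, Finsupp.mem_support_iff.1 ha⟩

theorem coeff_mdh_apply {h : N →* N'} (hh : Function.Injective h) (x : ZM N) (a : N) :
    (mdh h x).coeff (h a) = x.coeff a := by
  rw [mdh_coeff, Finsupp.mapDomain_apply hh]

theorem mdh_injective {h : N →* N'} (hh : Function.Injective h) : Function.Injective (mdh h) :=
  MonoidAlgebra.mapDomain_injective hh

end

section

variable {Γ : Type} [Group Γ] {D : Type} {P : D → Type} [∀ i, PartialOrder (P i)]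
  [∀ i, MulAction Γ (P i)] {N N' : Type} [Monoid N] [Monoid N']

variable {π : N →* Γ} {π' : N' →* Γ} {h : N →* N'} {U : Finset D} {r : ℤ}

theorem Ct.map {X Y : Ob P} {f : Matrix X.ι Y.ι (ZM N)} (hf : Ct π U r X Y f)
    (hh : ∀ m, π' (h m) = π m) : Ct π' U r X Y (f.map (mdh h)) := by
  intro l k m hm
  obtain ⟨a, ha, h1⟩ := coeff_mdh_ne hm
  rw [← ha, hh a]
  exact hf l k a h1

/-- If the image of a matrix is controlled, the matrix is controlled. -/
theorem Ct.of_map {X Y : Ob P} {f : Matrix X.ι Y.ι (ZM N)} (hh : ∀ m, π' (h m) = π m)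
    (hi : Function.Injective h) (hf : Ct π' U r X Y (f.map (mdh h))) : Ct π U r X Y f := by
  intro l k m hm
  rw [← hh m]
  refine hf l k (h m) ?_
  rw [Matrix.map_apply, coeff_mdh_apply hi]
  exact hm

theorem map_one' {ι : Type} [DecidableEq ι] (φ : ZM N →+* ZM N') :
    (1 : Matrix ι ι (ZM N)).map φ = 1 := Matrix.map_one φ φ.map_zero φ.map_one

theorem map_mul' {α β γ : Type} [Fintype β] (φ : ZM N →+* ZM N') (f : Matrix α β (ZM N))
    (g : Matrix β γ (ZM N)) : (f * g).map φ = f.map φ * g.map φ := Matrix.map_mul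

theorem map_add' {α β : Type} (φ : ZM N →+* ZM N') (f g : Matrix α β (ZM N)) :
    (f + g).map φ = f.map φ + g.map φ := Matrix.map_add φ (fun a b => φ.map_add a b) f g

theorem map_sub' {α β : Type} (φ : ZM N →+* ZM N') (f g : Matrix α β (ZM N)) :
    (f - g).map φ = f.map φ - g.map φ := Matrix.map_sub φ (fun a b => φ.map_sub a b) f g

theorem map_neg' {α β : Type} (φ : ZM N →+* ZM N') (f : Matrix α β (ZM N)) :
    (-f).map φ = -(f.map φ) := by
  ext i j
  exact congrArg (fun x => (x : ZM N').coeff _) (φ.map_neg (f i j))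

theorem map_zero' {α β : Type} (φ : ZM N →+* ZM N') :
    (0 : Matrix α β (ZM N)).map φ = 0 := Matrix.map_zero φ φ.map_zero

theorem map_smul' {α β : Type} (φ : ZM N →+* ZM N') (a : ZM N) (f : Matrix α β (ZM N)) :
    (a • f).map φ = φ a • f.map φ := by
  ext i j
  exact congrArg (fun x => (x : ZM N').coeff _) (φ.map_mul a (f i j))

theorem IsCx.map {X : Co P N} (hX : IsCx π U X) (hh : ∀ m, π' (h m) = π m) :
    IsCx π' U (X.map (mdh h)) :=
  ⟨hX.1.map hh, by
    change X.d.map (mdh h) * X.d.map (mdh h) = 0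
    rw [← map_mul', hX.2, map_zero']⟩

theorem Ch.map {X Y : Co P N} {f : Matrix X.ι Y.ι (ZM N)} (hf : Ch π U X Y f)
    (hh : ∀ m, π' (h m) = π m) :
    Ch π' U (X.map (mdh h)) (Y.map (mdh h)) (f.map (mdh h)) :=
  ⟨hf.1.map hh, by
    change X.d.map (mdh h) * f.map (mdh h) = f.map (mdh h) * Y.d.map (mdh h)
    rw [← map_mul', hf.2, map_mul']⟩

theorem Nul.map {X Y : Co P N} {f : Matrix X.ι Y.ι (ZM N)} (hf : Nul π U X Y f)
    (hh : ∀ m, π' (h m) = π m) :
    Nul π' U (X.map (mdh h)) (Y.map (mdh h)) (f.map (mdh h)) := by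
  obtain ⟨s, hs, h1⟩ := hf
  refine ⟨s.map (mdh h), hs.map hh, ?_⟩
  change f.map (mdh h) = X.d.map (mdh h) * s.map (mdh h) + s.map (mdh h) * Y.d.map (mdh h)
  rw [h1, map_add', map_mul', map_mul']

theorem Contr.map {X : Co P N} (hX : Contr π U X) (hh : ∀ m, π' (h m) = π m) :
    Contr π' U (X.map (mdh h)) := by
  have h1 := Nul.map hX hh
  rw [map_one'] at h1
  exact h1

theorem HI.map {X : Co P N} {e : Matrix X.ι X.ι (ZM N)} (he : HI π U X e)
    (hh : ∀ m, π' (h m) = π m) : HI π' U (X.map (mdh h)) (e.map (mdh h)) := by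
  refine ⟨he.1.map hh, ?_⟩
  have h1 := he.2.map hh
  rw [map_sub', map_mul'] at h1
  exact h1

theorem Iso.map {X Y : Co P N} {e : Matrix X.ι X.ι (ZM N)} {e' : Matrix Y.ι Y.ι (ZM N)}
    (hi : Iso π U X e Y e') (hh : ∀ m, π' (h m) = π m) :
    Iso π' U (X.map (mdh h)) (e.map (mdh h)) (Y.map (mdh h)) (e'.map (mdh h)) := by
  obtain ⟨u, v, hu, hv, h1, h2⟩ := hi
  refine ⟨u.map (mdh h), v.map (mdh h), hu.map hh, hv.map hh, ?_, ?_⟩
  · have h3 := h1.map hh
    rw [map_sub', map_mul'] at h3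
    exact h3
  · have h3 := h2.map hh
    rw [map_sub', map_mul'] at h3
    exact h3

theorem cone_map {X Y : Co P N} (f : Matrix X.ι Y.ι (ZM N)) (φ : ZM N →+* ZM N') :
    (cone X Y f).map φ = cone (X.map φ) (Y.map φ) (f.map φ) := by
  change (⟨⟨_, _, _, _, _⟩, _⟩ : Co P N') = ⟨⟨_, _, _, _, _⟩, _⟩
  congr 1
  change (Matrix.fromBlocks (-X.d) f 0 Y.d).map φ = Matrix.fromBlocks (-(X.d.map φ)) (f.map φ) 0
    (Y.d.map φ)
  rw [Matrix.fromBlocks_map, map_neg', map_zero']

end

/-! ## `G`, `G × ℕ`, `G × ℤ` -/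

section

variable {G : Type} [Group G] {Γ : Type} [Group Γ] (π : G →* Γ)

theorem pN_hInc (m : G) : pN π (hInc G m) = π m := rfl

theorem pZ_hLoc (m : GN G) : pZ π (hLoc G m) = pN π m := rfl

theorem hInc_injective : Function.Injective (hInc G) := fun _ _ h => congrArg Prod.fst h

theorem hLoc_injective : Function.Injective (hLoc G) := by
  rintro ⟨a, m⟩ ⟨b, n⟩ h
  have h1 : a = b := congrArg Prod.fst h
  have h2 : natInt m = natInt n := congrArg Prod.snd h
  have h3 : ((Multiplicative.toAdd m : ℕ) : ℤ) = (Multiplicative.toAdd n : ℕ) := h2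
  have h4 : Multiplicative.toAdd m = Multiplicative.toAdd n := Int.ofNat_inj.1 h3
  exact Prod.ext h1 h4

theorem loc_injective : Function.Injective (loc G) := mdh_injective hLoc_injective

theorem loc_zN (a : ℕ) : loc G (zN G a) = zZ G a := mdh_single _ _ _

end

end Pool.Agent.Lib.MP_551055_al.MT
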