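import Mathlib
import Pool.Agent.Lib.MP_551055_al.Trim.LS.Stmts
import Pool.Agent.Lib.MP_551055_al.Trim.MT.Base
import Pool.Agent.Lib.MP_551055_al.Trim.MT.Defs
import Pool.Agent.Lib.MP_551055_al.Trim.MT.Map

/-!
# Many trees: target complexes, the telescope
-/

set_option autoImplicit false

namespace Pool.Agent.Lib.MP_551055_al
end Pool.Agent.Lib.MP_551055_al

namespace Pool.Agent.Lib.MP_551055_al.MT

open Pool.Agent.Lib.MP_551055_al

open Matrix

section

variable {N : Type} [Monoid N]

/-- The linear map `x ↦ ∑ x_l g_l`. -/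
noncomputable def lin {ι : Type} [Fintype ι] {V : Type} [AddCommGroup V] [Module (ZM N) V]
    (g : ι → V) : (ι → ZM N) →ₗ[ZM N] V where
  toFun x := ∑ l, x l • g l
  map_add' x y := by
    rw [← Finset.sum_add_distrib]
    exact Finset.sum_congr rfl fun l _ => by rw [Pi.add_apply, add_smul]
  map_smul' a x := by
    rw [RingHom.id_apply, Finset.smul_sum]
    exact Finset.sum_congr rfl fun l _ => by rw [Pi.smul_apply, smul_eq_mul, mul_smul]

theorem lin_apply {ι : Type} [Fintype ι] {V : Type} [AddCommGroup V] [Module (ZM N) V]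
    (g : ι → V) (x : ι → ZM N) : lin g x = ∑ l, x l • g l := rfl

theorem lin_single {ι : Type} [Fintype ι] [DecidableEq ι] {V : Type} [AddCommGroup V]
    [Module (ZM N) V] (g : ι → V) (l : ι) (a : ZM N) : lin g (Pi.single l a) = a • g l := by
  rw [lin_apply, Finset.sum_eq_single l]
  · rw [Pi.single_eq_same]
  · intro k _ hk
    rw [Pi.single_eq_of_ne hk, zero_smul]
  · intro h
    exact absurd (Finset.mem_univ l) h

theorem lin_matrix {ι κ : Type} [Fintype ι] (g : Matrix ι κ (ZM N)) (x : ι → ZM N) :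
    lin (V := κ → ZM N) g x = x ᵥ* g := by
  rw [lin_apply]
  funext k
  rw [Finset.sum_apply]
  rfl

/-- Every linear map on a finite free module is of the form `lin g`. -/
theorem lin_ext {ι : Type} [Fintype ι] [DecidableEq ι] {V : Type} [AddCommGroup V]
    [Module (ZM N) V] (f : (ι → ZM N) →ₗ[ZM N] V) (x : ι → ZM N) :
    f x = lin (fun l => f (Pi.single l 1)) x := by
  rw [lin_apply]
  have h : x = ∑ l, x l • (Pi.single l (1 : ZM N) : ι → ZM N) := by
    funext k
    rw [Finset.sum_apply, Finset.sum_eq_single k]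
    · rw [Pi.smul_apply, Pi.single_eq_same, smul_eq_mul, mul_one]
    · intro l _ hl
      rw [Pi.smul_apply, Pi.single_eq_of_ne (Ne.symm hl), smul_zero]
    · intro h
      exact absurd (Finset.mem_univ k) h
  conv_lhs => rw [h]
  rw [map_sum]
  exact Finset.sum_congr rfl fun l _ => by rw [map_smul]

end

section

variable {Γ : Type} [Group Γ] {D : Type} {P : D → Type} [∀ i, PartialOrder (P i)]
  [∀ i, MulAction Γ (P i)] {N : Type} [Monoid N]

/-- A finite free complex as a target. -/
noncomputable def Tg.ofCo [SzAct Γ P] {π : N →* Γ} {U : Finset D} (X : Co P N)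
    (h : IsCx π U X) : Tg P π U where
  V := X.ι → ZM N
  ag := inferInstance
  md := inferInstance
  fam := MT.fam π U X.toOb
  d := {  toFun := fun x => x ᵥ* X.d
          map_add' := fun x y => Matrix.add_vecMul _ _ _
          map_smul' := fun a x => Matrix.smul_vecMul _ _ _ }
  anti := fun _ _ _ hB => fam_anti hB
  act := fun m _ _ _ hx => fam_act hx m
  d_mem := fun _ _ _ hx => fam_vecMul h.1 hx
  dd := fun x => by
    change (x ᵥ* X.d) ᵥ* X.d = 0
    rw [Matrix.vecMul_vecMul, h.2, Matrix.vecMul_zero]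

/-- Restriction of scalars along `h : N → N'`. -/
noncomputable def Tg.res {N' : Type} [Monoid N'] {π : N →* Γ} {π' : N' →* Γ} {U : Finset D}
    (T : Tg P π' U) (h : N →* N') (hh : ∀ m, π' (h m) = π m) : Tg P π U :=
  letI md : Module (ZM N) T.V := Module.compHom T.V (mdh h)
  { V := T.V
    ag := T.ag
    md := md
    fam := T.fam
    d := {  toFun := T.d
            map_add' := T.d.map_add
            map_smul' := fun a x => T.d.map_smul (mdh h a) x }
    anti := T.anti
    act := fun m B q x hx => by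
      have h1 := T.act (h m) B q x hx
      rw [hh m] at h1
      have h2 : (mdh h (MonoidAlgebra.single m (1 : ℤ))) • x ∈ T.fam (π m • B) q := by
        rw [mdh_single]
        exact h1
      exact h2
    d_mem := T.d_mem
    dd := T.dd }

section

variable {N' : Type} [Monoid N'] {π : N →* Γ} {π' : N' →* Γ} {U : Finset D}
    (T : Tg P π' U) (h : N →* N') (hh : ∀ m, π' (h m) = π m)

/-- Scalars act through `mdh h`. -/
theorem Tg.res_smul (a : ZM N) (x : (T.res h hh).V) :
    a • x = (show (T.res h hh).V from (mdh h a • (show T.V from x) : T.V)) := rfl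

end

/-- The complex `K` with the homotopy idempotent `e` is isomorphic to `T` in the homotopy
category. -/
def IsoL {π : N →* Γ} {U : Finset D} (T : Tg P π U) (K : Co P N)
    (e : Matrix K.ι K.ι (ZM N)) : Prop :=
  ∃ (u : (K.ι → ZM N) →ₗ[ZM N] T.V) (v : T.V →ₗ[ZM N] (K.ι → ZM N))
    (r : T.V →ₗ[ZM N] T.V) (s : Matrix K.ι K.ι (ZM N)),
    (∀ B q, ∀ x ∈ fam π U K.toOb B q, u x ∈ T.fam B q) ∧
    (∀ B q, ∀ y ∈ T.fam B q, v y ∈ fam π U K.toOb B q) ∧
    (∀ B q, ∀ y ∈ T.fam B q, r y ∈ T.fam B (q + 1)) ∧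
    Ct π U 1 K.toOb K.toOb s ∧
    (∀ x, u (x ᵥ* K.d) = T.d (u x)) ∧ (∀ y, v (T.d y) = v y ᵥ* K.d) ∧
    (∀ x, v (u x) = x ᵥ* (e + K.d * s + s * K.d)) ∧
    ∀ y, u (v y) = y + T.d (r y) + r (T.d y)

end

section

variable {D : Type} {P : D → Type} {G : Type} [Group G]

/-- The matrix `(1 - e) + z e`. -/
noncomputable def al {ι : Type} [DecidableEq ι] (e : Matrix ι ι (ZM G)) :
    Matrix ι ι (ZM (GN G)) := (1 - e).map (inc G) + zN G 1 • e.map (inc G)

/-- The cone of `(1 - e) + z e : W[z] → W'[z]`, where `W'` is `W` with the sizes `s`. -/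
noncomputable def tel (W : Co P G) (s : W.ι → Sz P) (e : Matrix W.ι W.ι (ZM G)) : Co P (GN G) :=
  cone (W.map (inc G)) ((W.withSz s).map (inc G)) (al e)

end

end Pool.Agent.Lib.MP_551055_al.MT
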