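import Mathlib
import Pool.Agent.Lib.MP_551055_al.Trim.LS.PStmts
import Pool.Agent.Lib.MP_551055_al.Trim.LS.PStmts2
import Pool.Agent.Lib.MP_551055_al.Trim.MT.Defs
import Pool.Agent.Lib.MP_551055_al.Trim.MT.Map
import Pool.Agent.Lib.MP_551055_al.Trim.MT.Tg

/-!
# Many trees: the statements of part A (controlled complexes, no trees)
-/

set_option autoImplicit false

namespace Pool.Agent.Lib.MP_551055_al
end Pool.Agent.Lib.MP_551055_al

namespace Pool.Agent.Lib.MP_551055_al.MT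

open Pool.Agent.Lib.MP_551055_al

open Matrix

/-- Module CC. The cone of a homotopy equivalence is contractible, and conversely. -/
def StCC : Prop :=
  ∀ (Γ : Type) [Group Γ] (D : Type) (P : D → Type) [∀ i, PartialOrder (P i)]
    [∀ i, MulAction Γ (P i)] [SzAct Γ P] (N : Type) [Monoid N] (π : N →* Γ) (U : Finset D)
    (X Y : Co P N) (f : Matrix X.ι Y.ι (ZM N)),
    Ch π U X Y f →
    (∀ g : Matrix Y.ι X.ι (ZM N), Ch π U Y X g → Nul π U X X (f * g - 1) →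
      Nul π U Y Y (g * f - 1) → Contr π U (cone X Y f)) ∧
    (Contr π U (cone X Y f) → ∃ g : Matrix Y.ι X.ι (ZM N), Ch π U Y X g ∧
      Nul π U X X (f * g - 1) ∧ Nul π U Y Y (g * f - 1))

/-- Module C1. Every homotopy idempotent can be moved to a complex which is contractible in the
directions in which the idempotent is null-homotopic. -/
def StC : Prop :=
  ∀ (Γ : Type) [Group Γ] (D : Type) [DecidableEq D] (P : D → Type) [∀ i, PartialOrder (P i)]
    [∀ i, MulAction Γ (P i)] [SzAct Γ P] (N : Type) [Monoid N] (π : N →* Γ) (U I : Finset D)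
    (K : Co P N) (e : Matrix K.ι K.ι (ZM N)),
    IsCx π U K → HI π U K e → (∀ i ∈ I, Nul π (U.erase i) K K e) →
    ∃ (C : Co P N) (eC : Matrix C.ι C.ι (ZM N)), IsCx π U C ∧ HI π U C eC ∧
      (∀ i ∈ I, Contr π (U.erase i) C) ∧ Iso π U K e C eC

/-- Module Nest. Nested sizes in one direction. -/
def StNest : Prop :=
  ∀ (Γ : Type) [Group Γ] (D : Type) (P : D → Type) [∀ i, PartialOrder (P i)]
    [∀ i, MulAction Γ (P i)] [SzAct Γ P] (N : Type) [Monoid N] (π : N →* Γ) (κ : Type)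
    [Fintype κ] (deg : κ → ℤ) (d : Matrix κ κ (ZM N)),
    (∀ l k m, (d l k).coeff m ≠ 0 → deg k = deg l - 1) →
    ∀ (j : D) (F : κ → Set (P j)), (∀ l, (F l).Finite) →
      ∃ A : κ → P j, (∀ l, ∀ a ∈ F l, a ≤ A l) ∧
        ∀ l k m, (d l k).coeff m ≠ 0 → A l ≤ π m • A k

/-- Module W1. The combinatorial core of the construction of new directions. -/
def StW1 : Prop :=
  ∀ (Γ : Type) [Group Γ] (D : Type) [DecidableEq D] (P : D → Type) [∀ i, PartialOrder (P i)]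
    [∀ i, MulAction Γ (P i)] [SzAct Γ P] (N : Type) [Monoid N] (π : N →* Γ) (U : Finset D)
    (C : Co P N), IsCx π U C → ∀ (I : Finset D) (c : D → Matrix C.ι C.ι (ZM N)),
    (∀ i ∈ I, Ct π (U.erase i) 1 C.toOb C.toOb (c i) ∧ C.d * c i + c i * C.d = 1) →
    ∃ (κ : Type) (_ : Fintype κ) (_ : DecidableEq κ) (deg : κ → ℤ) (β : κ → C.ι)
      (φ : κ → Finset D) (d : Matrix κ κ (ZM N)) (s : Matrix C.ι κ (ZM N))
      (p : Matrix κ C.ι (ZM N)) (t : D → Matrix κ κ (ZM N)),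
      d * d = 0 ∧ s * p = 1 ∧ C.d * s = s * d ∧ d * p = p * C.d ∧ (∀ l, φ l ⊆ I) ∧
      (∀ l k m, (d l k).coeff m ≠ 0 → deg k = deg l - 1 ∧
        ((φ l = φ k ∧ (C.d (β l) (β k)).coeff m ≠ 0) ∨ (m = 1 ∧ β l = β k ∧ φ l ⊆ φ k))) ∧
      (∀ l k m, (s l k).coeff m ≠ 0 → deg k = C.deg l ∧
        ∀ i ∈ U, i ∉ φ k → C.sz l i ≤ π m • C.sz (β k) i) ∧
      (∀ l k m, (p l k).coeff m ≠ 0 → C.deg k = deg l ∧ m = 1 ∧ β l = k ∧ φ l = ∅) ∧
      ∀ i ∈ I, d * t i + t i * d = 1 ∧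
        ∀ l k m, (t i l k).coeff m ≠ 0 →
          deg k = deg l + 1 ∧ m = 1 ∧ β l = β k ∧ ∀ i', i' ≠ i → (i' ∈ φ l ↔ i' ∈ φ k)

/-- Module W2. A new direction `j`. -/
def StW : Prop :=
  ∀ (Γ : Type) [Group Γ] (D : Type) [DecidableEq D] (P : D → Type) [∀ i, PartialOrder (P i)]
    [∀ i, MulAction Γ (P i)] [SzAct Γ P] (N : Type) [Monoid N] (π : N →* Γ) (U I : Finset D)
    (j : D), j ∉ U → I ⊆ U → ∀ (C : Co P N) (e : Matrix C.ι C.ι (ZM N)), IsCx π U C →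
    Ct π U 0 C.toOb C.toOb e → (∀ i ∈ I, Contr π (U.erase i) C) →
    ∃ (W : Co P N) (sz' : W.ι → Sz P) (s : Matrix C.ι W.ι (ZM N)) (p : Matrix W.ι C.ι (ZM N)),
      IsCx π (insert j U) W ∧ IsCx π (insert j U) (W.withSz sz') ∧
      (∀ l i, i ≠ j → sz' l i = W.sz l i) ∧ (∀ l, W.sz l j ≤ sz' l j) ∧
      Ch π U C W s ∧ Ch π U W C p ∧ s * p = 1 ∧
      Ct π (insert j U) 0 W.toOb (W.withSz sz').toOb (p * e * s) ∧
      ∀ i ∈ I, Contr π ((insert j U).erase i) W ∧ Contr π ((insert j U).erase i) (W.withSz sz')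

/-- Module Tel. The telescope. -/
def StTel : Prop :=
  ∀ (Γ : Type) [Group Γ] (D : Type) (P : D → Type) [∀ i, PartialOrder (P i)]
    [∀ i, MulAction Γ (P i)] [SzAct Γ P] (G : Type) [Group G] (π : G →* Γ) (V : Finset D)
    (W : Co P G) (sz' : W.ι → Sz P) (e : Matrix W.ι W.ι (ZM G)),
    IsCx π V W → IsCx π V (W.withSz sz') → (∀ l, ∀ i ∈ V, W.sz l i ≤ sz' l i) →
    Ct π V 0 W.toOb (W.withSz sz').toOb e → W.d * e = e * W.d →
    IsCx (pN π) V (tel W sz' e) ∧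
    (∀ V', V' ⊆ V → Contr π V' W → Contr π V' (W.withSz sz') →
      Contr (pN π) V' (tel W sz' e)) ∧
    (∀ V', V' ⊆ V → (∀ l, ∀ i ∈ V', sz' l i = W.sz l i) → HI π V' W e →
      Contr (pZ π) V' ((tel W sz' e).map (loc G)))

/-- Module Clr. Clearing denominators. -/
def StClr : Prop :=
  ∀ (Γ : Type) [Group Γ] (D : Type) (P : D → Type) [∀ i, PartialOrder (P i)]
    [∀ i, MulAction Γ (P i)] (G : Type) [Group G] (π : G →* Γ) (V : Finset D) (X Y : Ob P)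
    (r : ℤ),
    (∀ f : Matrix X.ι Y.ι (ZM (GZ G)), Ct (pZ π) V r X Y f →
      ∃ (a : ℕ) (f' : Matrix X.ι Y.ι (ZM (GN G))), Ct (pN π) V r X Y f' ∧
        f'.map (loc G) = zZ G a • f) ∧
    (∀ (B : Sz P) (x : X.ι → ZM (GZ G)), x ∈ fam (pZ π) V X B r →
      ∃ (a : ℕ) (x' : X.ι → ZM (GN G)), x' ∈ fam (pN π) V X B r ∧
        (fun l => loc G (x' l)) = zZ G a • x)

/-- Module Fr. A homotopy equivalence over `ℤ[G × ℤ]` gives a map over `ℤ[G × ℕ]` whose cone is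
killed by a power of the variable. -/
def StFr : Prop :=
  ∀ (Γ : Type) [Group Γ] (D : Type) (P : D → Type) [∀ i, PartialOrder (P i)]
    [∀ i, MulAction Γ (P i)] [SzAct Γ P] (G : Type) [Group G] (π : G →* Γ) (V : Finset D)
    (M₁ N₁ : Co P (GN G)), IsCx (pN π) V M₁ → IsCx (pN π) V N₁ →
    Iso (pZ π) V (M₁.map (loc G)) 1 (N₁.map (loc G)) 1 →
    ∃ f : Matrix M₁.ι N₁.ι (ZM (GN G)), Ch (pN π) V M₁ N₁ f ∧
      ∃ (m : ℕ) (H : Matrix (cone M₁ N₁ f).ι (cone M₁ N₁ f).ι (ZM (GN G))),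
        Ct (pN π) V 1 (cone M₁ N₁ f).toOb (cone M₁ N₁ f).toOb H ∧
        (cone M₁ N₁ f).d * H + H * (cone M₁ N₁ f).d = zN G m • 1

/-- Module Tor. A complex over `ℤ[G × ℕ]` killed by a power of the variable is, over `ℤ[G]`,
isomorphic to a finite complex with a homotopy idempotent. -/
def StTor : Prop :=
  ∀ (Γ : Type) [Group Γ] (D : Type) (P : D → Type) [∀ i, PartialOrder (P i)]
    [∀ i, MulAction Γ (P i)] [SzAct Γ P] (G : Type) [Group G] (π : G →* Γ) (V : Finset D)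
    (B : Co P (GN G)), IsCx (pN π) V B →
    ∀ (m : ℕ) (H : Matrix B.ι B.ι (ZM (GN G))), Ct (pN π) V 1 B.toOb B.toOb H →
      B.d * H + H * B.d = zN G m • 1 →
    ∃ (K : Co P G) (e : Matrix K.ι K.ι (ZM G)), IsCx π V K ∧ HI π V K e ∧
      (∀ V', V' ⊆ V → Contr (pN π) V' B → Nul π V' K K e) ∧
      ∀ V', V' ⊆ V → ∀ h : IsCx (pN π) V' B,
        IsoL ((Tg.ofCo B h).res (π := π) (hInc G) (pN_hInc π)) K e

/-- Module K1. The telescope is isomorphic to `(W, e)` over `ℤ[G]`. -/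
def StK1 : Prop :=
  ∀ (Γ : Type) [Group Γ] (D : Type) (P : D → Type) [∀ i, PartialOrder (P i)]
    [∀ i, MulAction Γ (P i)] [SzAct Γ P] (G : Type) [Group G] (π : G →* Γ) (V : Finset D)
    (W : Co P G) (sz' : W.ι → Sz P) (e : Matrix W.ι W.ι (ZM G)),
    IsCx π V W → (∀ l, ∀ i ∈ V, sz' l i = W.sz l i) → HI π V W e →
    ∀ h : IsCx (pN π) V (tel W sz' e),
      IsoL ((Tg.ofCo (tel W sz' e) h).res (π := π) (hInc G) (pN_hInc π)) W e

/-- Module K2. The cone of a map from a contractible complex. -/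
def StK2 : Prop :=
  ∀ (Γ : Type) [Group Γ] (D : Type) (P : D → Type) [∀ i, PartialOrder (P i)]
    [∀ i, MulAction Γ (P i)] [SzAct Γ P] (G : Type) [Group G] (π : G →* Γ) (V : Finset D)
    (M₁ N₁ : Co P (GN G)) (f : Matrix M₁.ι N₁.ι (ZM (GN G))) (W : Co P G)
    (e : Matrix W.ι W.ι (ZM G)), IsCx (pN π) V M₁ → ∀ h : IsCx (pN π) V N₁,
    Ch (pN π) V M₁ N₁ f → Contr (pN π) V M₁ →
    IsoL ((Tg.ofCo N₁ h).res (π := π) (hInc G) (pN_hInc π)) W e →
    ∀ h' : IsCx (pN π) V (cone M₁ N₁ f),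
      IsoL ((Tg.ofCo (cone M₁ N₁ f) h').res (π := π) (hInc G) (pN_hInc π)) W e

/-- Module Link. -/
def StLink : Prop :=
  ∀ (Γ : Type) [Group Γ] (D : Type) (P : D → Type) [∀ i, PartialOrder (P i)]
    [∀ i, MulAction Γ (P i)] [SzAct Γ P] (N : Type) [Monoid N] (π : N →* Γ) (V : Finset D)
    (T : Tg P π V) (K K' : Co P N) (e : Matrix K.ι K.ι (ZM N)) (e' : Matrix K'.ι K'.ι (ZM N)),
    IsCx π V K → IsCx π V K' → HI π V K e → HI π V K' e' →
    IsoL T K e → IsoL T K' e' → Iso π V K e K' e'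

/-! ## The induction -/

section

variable {Γ : Type} [Group Γ] {D : Type} (P : D → Type) [∀ i, PartialOrder (P i)]
  [∀ i, MulAction Γ (P i)]

/-- Kernels of matrices over `R` have finite resolutions by finitely generated free modules. -/
def RC (R : Type) [Ring R] : Prop :=
  ∀ (n m : ℕ) (f : (Fin n → R) →ₗ[R] (Fin m → R)), ∃ d, LS.FFF R d (LinearMap.ker f)

/-- The rings `ℤ[H × ℤ^m]` and `ℤ[H × ℤ^m × ℕ]` have the property `RC`. -/
def RCs (H : Type) [Group H] : Prop :=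
  ∀ m : ℕ, RC (ZM (H × LS.ZN m)) ∧ RC (ZM (GN (H × LS.ZN m)))

/-- The stabilisers of all sizes are fine. -/
def Good {G : Type} [Group G] (π : G →* Γ) : Prop :=
  ∀ A : Sz P, RCs ((MulAction.stabilizer Γ A).comap π)

variable [Fintype D] [DecidableEq D]

/-- The lattice property. -/
def Lat {G : Type} [Group G] (π : G →* Γ) : Prop :=
  ∀ (I : Finset D) (M : Co P (GZ G)), IsCx (pZ π) Finset.univ M →
    (∀ i ∈ I, Contr (pZ π) (Finset.univ.erase i) M) →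
    ∃ M₁ : Co P (GN G), IsCx (pN π) Finset.univ M₁ ∧
      (∀ i ∈ I, Contr (pN π) (Finset.univ.erase i) M₁) ∧
      Iso (pZ π) Finset.univ (M₁.map (loc G)) 1 M 1

/-- Homotopy idempotents with control in `U` come from finite complexes with full control. -/
def SU (Γ : Type) [Group Γ] {D : Type} (P : D → Type) [∀ i, PartialOrder (P i)]
    [∀ i, MulAction Γ (P i)] [Fintype D] [DecidableEq D] (U : Finset D) : Prop :=
  ∀ (G : Type) [Group G] (π : G →* Γ), Good P π → ∀ I : Finset D, I ⊆ U →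
    ∀ (K : Co P G) (e : Matrix K.ι K.ι (ZM G)), IsCx π U K → HI π U K e →
      (∀ i ∈ I, Nul π (U.erase i) K K e) →
      ∃ M : Co P G, IsCx π Finset.univ M ∧ (∀ i ∈ I, Contr π (Finset.univ.erase i) M) ∧
        Iso π U K e M 1

end

/-- Module Step. -/
def StStep : Prop :=
  ∀ (Γ : Type) [Group Γ] (D : Type) [Fintype D] [DecidableEq D] (P : D → Type)
    [∀ i, PartialOrder (P i)] [∀ i, MulAction Γ (P i)] [SzAct Γ P],
    (∀ (G : Type) [Group G] (π : G →* Γ), Good P π → Good P (pZ π)) →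
    (∀ (G : Type) [Group G] (π : G →* Γ), Good P π → Lat P π) →
    ∀ (U : Finset D) (j : D), j ∉ U → SU Γ P (insert j U) → SU Γ P U

end Pool.Agent.Lib.MP_551055_al.MT
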