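import Mathlib
import Pool.Agent.Lib.MP_551055_al.Trim.MT.Base
import Pool.Agent.Lib.MP_551055_al.Trim.MT.Defs
import Pool.Agent.Lib.MP_551055_al.Trim.MT.StA
import Pool.Agent.Lib.MP_551055_al.Trim.MT.Tg

/-!
# Many trees: cycles, boundaries, targets, families of subgroups (definitions and basic facts)
-/

set_option autoImplicit false

namespace Pool.Agent.Lib.MP_551055_al
end Pool.Agent.Lib.MP_551055_al

namespace Pool.Agent.Lib.MP_551055_al.MT

open Pool.Agent.Lib.MP_551055_al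

open Matrix

section

variable {N : Type} [Monoid N]

theorem zm_sum (x : ZM N) :
    x = ∑ m ∈ x.coeff.support, MonoidAlgebra.single m (x.coeff m) := by
  have h3 := Finsupp.sum_single x.coeff
  apply MonoidAlgebra.coeff_injective
  rw [MonoidAlgebra.coeff_sum]
  conv_lhs => rw [← h3]
  rfl

theorem single_one_smul' {V : Type} [AddCommGroup V] [Module (ZM N) V] (v : V) :
    (MonoidAlgebra.single (1 : N) (1 : ℤ) : ZM N) • v = v := by
  rw [← MonoidAlgebra.one_def, one_smul]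

/-- If `W` contains the translates `m v` for the terms `m` of `x`, then `x v ∈ W`. -/
theorem smul_mem_of_terms {V : Type} [AddCommGroup V] [Module (ZM N) V] (W : AddSubgroup V)
    {x : ZM N} {v : V}
    (h : ∀ m, x.coeff m ≠ 0 → (MonoidAlgebra.single m (1 : ℤ) : ZM N) • v ∈ W) : x • v ∈ W := by
  rw [zm_sum x, Finset.sum_smul]
  refine AddSubgroup.sum_mem _ fun m hm => ?_
  have h4 : (MonoidAlgebra.single m (x.coeff m) : ZM N) • v
      = x.coeff m • ((MonoidAlgebra.single m (1 : ℤ) : ZM N) • v) := by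
    rw [← smul_assoc, MonoidAlgebra.smul_single, smul_eq_mul, mul_one]
  rw [h4]
  exact AddSubgroup.zsmul_mem _ (h m (Finsupp.mem_support_iff.1 hm)) _

end

section

variable {Γ : Type} [Group Γ] {D : Type} {P : D → Type} [∀ i, PartialOrder (P i)]
  [∀ i, MulAction Γ (P i)] {N : Type} [Monoid N]

/-- The elements of `N` which fix the size `A`. -/
def stabM (π : N →* Γ) (A : Sz P) : Submonoid N where
  carrier := {m | π m • A = A}
  one_mem' := by
    change π 1 • A = A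
    rw [map_one, one_smul]
  mul_mem' {a b} ha hb := by
    change π (a * b) • A = A
    change π a • A = A at ha
    change π b • A = A at hb
    rw [map_mul, mul_smul, hb, ha]

theorem mem_stabM {π : N →* Γ} {A : Sz P} {m : N} : m ∈ stabM π A ↔ π m • A = A := Iff.rfl

/-- Every element of `N` acts like a unit of `N`. -/
def UL (π : N →* Γ) : Prop := ∀ m : N, ∃ u : Nˣ, π u = π m

theorem ul_group {G : Type} [Group G] (π : G →* Γ) : UL π := fun m => ⟨toUnits m, rfl⟩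

theorem ul_pN {G : Type} [Group G] (π : G →* Γ) : UL (pN π) := fun m =>
  ⟨Units.map (hInc G) (toUnits m.1), rfl⟩

/-- The rings of the stabilisers have the property `RC`. -/
def HN (P : D → Type) [∀ i, PartialOrder (P i)] [∀ i, MulAction Γ (P i)] (π : N →* Γ) : Prop :=
  ∀ A : Sz P, RC (ZM (stabM π A))

/-- The elements of degree `q` and size at least `B` which are killed by the matrix `f`. -/
def kerF (π : N →* Γ) (U : Finset D) (X : Ob P) {κ : Type} (f : Matrix X.ι κ (ZM N)) (q : ℤ)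
    (B : Sz P) : AddSubgroup (X.ι → ZM N) where
  carrier := {x | x ∈ fam π U X B q ∧ x ᵥ* f = 0}
  zero_mem' := ⟨AddSubgroup.zero_mem _, Matrix.zero_vecMul _⟩
  add_mem' ha hb := ⟨AddSubgroup.add_mem _ ha.1 hb.1, by
    rw [Matrix.add_vecMul, ha.2, hb.2, add_zero]⟩
  neg_mem' ha := ⟨AddSubgroup.neg_mem _ ha.1, by rw [Matrix.neg_vecMul, ha.2, neg_zero]⟩

/-- The cycles of degree `q` and size at least `B`. -/
abbrev ZC (π : N →* Γ) (U : Finset D) (K : Co P N) (q : ℤ) (B : Sz P) :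
    AddSubgroup (K.ι → ZM N) := kerF π U K.toOb K.d q B

/-- The boundaries of elements of degree `q + 1` and size at least `B`. -/
def BC (π : N →* Γ) (U : Finset D) (K : Co P N) (q : ℤ) (B : Sz P) :
    AddSubgroup (K.ι → ZM N) where
  carrier := {x | ∃ y ∈ fam π U K.toOb B (q + 1), y ᵥ* K.d = x}
  zero_mem' := ⟨0, AddSubgroup.zero_mem _, Matrix.zero_vecMul _⟩
  add_mem' := by
    rintro _ _ ⟨a, ha, rfl⟩ ⟨b, hb, rfl⟩
    exact ⟨a + b, AddSubgroup.add_mem _ ha hb, Matrix.add_vecMul _ _ _⟩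
  neg_mem' := by
    rintro _ ⟨a, ha, rfl⟩
    exact ⟨-a, AddSubgroup.neg_mem _ ha, Matrix.neg_vecMul _ _⟩

/-- The cycles of a target. -/
def Tg.Zc {π : N →* Γ} {U : Finset D} (T : Tg P π U) (q : ℤ) (B : Sz P) : AddSubgroup T.V where
  carrier := {x | x ∈ T.fam B q ∧ T.d x = 0}
  zero_mem' := ⟨AddSubgroup.zero_mem _, map_zero _⟩
  add_mem' ha hb := ⟨AddSubgroup.add_mem _ ha.1 hb.1, by rw [map_add, ha.2, hb.2, add_zero]⟩
  neg_mem' ha := ⟨AddSubgroup.neg_mem _ ha.1, by rw [map_neg, ha.2, neg_zero]⟩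

/-- The boundaries of a target. -/
def Tg.Bc {π : N →* Γ} {U : Finset D} (T : Tg P π U) (q : ℤ) (B : Sz P) : AddSubgroup T.V where
  carrier := {x | ∃ y ∈ T.fam B (q + 1), T.d y = x}
  zero_mem' := ⟨0, AddSubgroup.zero_mem _, map_zero _⟩
  add_mem' := by
    rintro _ _ ⟨a, ha, rfl⟩ ⟨b, hb, rfl⟩
    exact ⟨a + b, AddSubgroup.add_mem _ ha hb, map_add _ _ _⟩
  neg_mem' := by
    rintro _ ⟨a, ha, rfl⟩
    exact ⟨-a, AddSubgroup.neg_mem _ ha, map_neg _ _⟩

/-- A family of additive subgroups indexed by the sizes, compatible with order and action. -/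
structure Fam (π : N →* Γ) {V : Type} [AddCommGroup V] [Module (ZM N) V]
    (L : Sz P → AddSubgroup V) : Prop where
  anti : ∀ B B', B ≤ B' → L B' ≤ L B
  act : ∀ (m : N) (B : Sz P), ∀ x ∈ L B,
    (MonoidAlgebra.single m (1 : ℤ) : ZM N) • x ∈ L (π m • B)

/-- Controlled chain maps to a target. -/
def ChT {π : N →* Γ} {U : Finset D} (K : Co P N) (T : Tg P π U) (g : K.ι → T.V) : Prop :=
  (∀ l, g l ∈ T.fam (K.sz l) (K.deg l)) ∧
    ∀ x : K.ι → ZM N, lin (N := N) g (x ᵥ* K.d) = T.d (lin (N := N) g x)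

/-- Controlled null-homotopic maps to a target. -/
def NulT {π : N →* Γ} {U : Finset D} (K : Co P N) (T : Tg P π U) (g : K.ι → T.V) : Prop :=
  ∃ s : K.ι → T.V, (∀ l, s l ∈ T.fam (K.sz l) (K.deg l + 1)) ∧
    ∀ x : K.ι → ZM N, lin (N := N) g x
      = lin (N := N) s (x ᵥ* K.d) + T.d (lin (N := N) s x)

/-- `g : K → T` is injective in homology. -/
def InjT {π : N →* Γ} {U : Finset D} (K : Co P N) (T : Tg P π U) (g : K.ι → T.V) (q : ℤ) :
    Prop :=
  ∀ B, ∀ x ∈ ZC π U K q B, lin (N := N) g x ∈ T.Bc q B → x ∈ BC π U K q B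

/-- `g : K → T` is surjective in homology. -/
def SurT {π : N →* Γ} {U : Finset D} (K : Co P N) (T : Tg P π U) (g : K.ι → T.V) (q : ℤ) :
    Prop :=
  ∀ B, ∀ y ∈ T.Zc q B, ∃ x ∈ ZC π U K q B, lin (N := N) g x - y ∈ T.Bc q B

/-- The chain map `j : K → A` is injective in homology. -/
def HInj (π : N →* Γ) (U : Finset D) (K A : Co P N) (j : Matrix K.ι A.ι (ZM N)) (q : ℤ) :
    Prop :=
  ∀ B, ∀ x ∈ ZC π U K q B, x ᵥ* j ∈ BC π U A q B → x ∈ BC π U K q B

/-- The chain map `j : K → A` is surjective in homology. -/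
def HSur (π : N →* Γ) (U : Finset D) (K A : Co P N) (j : Matrix K.ι A.ι (ZM N)) (q : ℤ) :
    Prop :=
  ∀ B, ∀ y ∈ ZC π U A q B, ∃ x ∈ ZC π U K q B, x ᵥ* j - y ∈ BC π U A q B

/-- `K` is exact in degree `q`. -/
def Exa (π : N →* Γ) (U : Finset D) (K : Co P N) (q : ℤ) : Prop :=
  ∀ B, ZC π U K q B ≤ BC π U K q B

/-- The complex shifted down by one (with the opposite differential). -/
noncomputable abbrev Co.us (X : Co P N) : Co P N where
  ι := X.ι
  ft := X.ft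
  de := X.de
  deg := fun l => X.deg l - 1
  sz := X.sz
  d := -X.d

end

section

variable {Γ : Type} [Group Γ] {D : Type} {P : D → Type} [∀ i, PartialOrder (P i)]
  [∀ i, MulAction Γ (P i)] {N : Type} [Monoid N] {π : N →* Γ} {U : Finset D}

/-! ## Targets -/

theorem Tg.smul_mem (T : Tg P π U) {A B : Sz P} {q : ℤ} {x : ZM N} {v : T.V}
    (hx : ∀ m, x.coeff m ≠ 0 → ∀ i ∈ U, B i ≤ π m • A i) (hv : v ∈ T.fam A q) :
    x • v ∈ T.fam B q :=
  smul_mem_of_terms _ fun m hm => T.anti B (π m • A) q (hx m hm) (T.act m A q v hv)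

theorem Tg.lin_mem (T : Tg P π U) {X : Ob P} {g : X.ι → T.V} {r : ℤ}
    (hg : ∀ l, g l ∈ T.fam (X.sz l) (X.deg l + r)) {B : Sz P} {q : ℤ} {x : X.ι → ZM N}
    (hx : x ∈ MT.fam π U X B q) : lin (N := N) g x ∈ T.fam B (q + r) := by
  classical
  rw [lin_apply]
  refine AddSubgroup.sum_mem _ fun l _ => ?_
  by_cases h0 : x l = 0
  · rw [h0, zero_smul]
    exact AddSubgroup.zero_mem _
  · have h1 : ∃ m, (x l).coeff m ≠ 0 := by
      by_contra hn
      push Not at hn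
      apply h0
      apply MonoidAlgebra.coeff_injective
      ext m
      exact hn m
    obtain ⟨m, hm⟩ := h1
    rw [← (hx l m hm).1]
    exact T.smul_mem (fun m hm => (hx l m hm).2) (hg l)

theorem Tg.lin_mem' (T : Tg P π U) {X : Ob P} {g : X.ι → T.V} {r s : ℤ}
    (hg : ∀ l, g l ∈ T.fam (X.sz l) (X.deg l + r)) {B : Sz P} {q : ℤ} {x : X.ι → ZM N}
    (hx : x ∈ MT.fam π U X B q) (hs : q + r = s) : lin (N := N) g x ∈ T.fam B s :=
  hs ▸ T.lin_mem hg hx

theorem ChT.mem {K : Co P N} {T : Tg P π U} {g : K.ι → T.V} (hg : ChT K T g) {B : Sz P} {q : ℤ}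
    {x : K.ι → ZM N} (hx : x ∈ fam π U K.toOb B q) : lin (N := N) g x ∈ T.fam B q :=
  T.lin_mem' (r := 0) (fun l => by rw [add_zero]; exact hg.1 l) hx (add_zero q)

theorem ChT.mem_Zc {K : Co P N} {T : Tg P π U} {g : K.ι → T.V} (hg : ChT K T g) {B : Sz P}
    {q : ℤ} {x : K.ι → ZM N} (hx : x ∈ ZC π U K q B) : lin (N := N) g x ∈ T.Zc q B :=
  ⟨hg.mem hx.1, by rw [← hg.2, hx.2, map_zero]⟩

theorem Ch.mem_ZC [SzAct Γ P] {K A : Co P N} {j : Matrix K.ι A.ι (ZM N)} (hj : Ch π U K A j)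
    {B : Sz P} {q : ℤ} {x : K.ι → ZM N} (hx : x ∈ ZC π U K q B) : x ᵥ* j ∈ ZC π U A q B := by
  refine ⟨fam_vecMul' hj.1 hx.1 (add_zero q), ?_⟩
  rw [Matrix.vecMul_vecMul, ← hj.2, ← Matrix.vecMul_vecMul, hx.2, Matrix.zero_vecMul]

theorem Ch.mem_BC [SzAct Γ P] {K A : Co P N} {j : Matrix K.ι A.ι (ZM N)} (hj : Ch π U K A j)
    {B : Sz P} {q : ℤ} {x : K.ι → ZM N} (hx : x ∈ BC π U K q B) : x ᵥ* j ∈ BC π U A q B := by
  obtain ⟨y, hy, rfl⟩ := hx
  refine ⟨y ᵥ* j, fam_vecMul' hj.1 hy (add_zero _), ?_⟩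
  rw [Matrix.vecMul_vecMul, Matrix.vecMul_vecMul, hj.2]

theorem Tg.Bc_anti (T : Tg P π U) (q : ℤ) {B B' : Sz P} (hB : ∀ i ∈ U, B i ≤ B' i) :
    T.Bc q B' ≤ T.Bc q B := by
  rintro _ ⟨y, hy, rfl⟩
  exact ⟨y, T.anti B B' _ hB hy, rfl⟩

theorem kerF_anti {X : Ob P} {κ : Type} {f : Matrix X.ι κ (ZM N)} {q : ℤ} {B B' : Sz P}
    (hB : ∀ i ∈ U, B i ≤ B' i) : kerF π U X f q B' ≤ kerF π U X f q B :=
  fun _ hx => ⟨fam_anti hB hx.1, hx.2⟩

theorem BC_anti {K : Co P N} {q : ℤ} {B B' : Sz P} (hB : ∀ i ∈ U, B i ≤ B' i) :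
    BC π U K q B' ≤ BC π U K q B := by
  rintro _ ⟨y, hy, rfl⟩
  exact ⟨y, fam_anti hB hy, rfl⟩

theorem Tg.Bc_fam (T : Tg P π U) (q : ℤ) : Fam π (T.Bc q) where
  anti B B' hB := T.Bc_anti q fun i _ => hB i
  act m B := by
    rintro _ ⟨y, hy, rfl⟩
    exact ⟨_, T.act m B _ y hy, map_smul _ _ _⟩

theorem fam_fam [SzAct Γ P] (X : Ob P) (q : ℤ) : Fam π (fun B => fam π U X B q) where
  anti B B' hB := fam_anti fun i _ => hB i
  act m B x hx := fam_act hx m

theorem kerF_fam [SzAct Γ P] (X : Ob P) {κ : Type} (f : Matrix X.ι κ (ZM N)) (q : ℤ) :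
    Fam π (kerF π U X f q) where
  anti B B' hB x hx := ⟨fam_anti (fun i _ => hB i) hx.1, hx.2⟩
  act m B x hx := ⟨fam_act hx.1 m, by rw [Matrix.smul_vecMul, hx.2, smul_zero]⟩

theorem kerF_le_fam (X : Ob P) {κ : Type} (f : Matrix X.ι κ (ZM N)) (q : ℤ) (B : Sz P) :
    kerF π U X f q B ≤ fam π U X B q := fun _ hx => hx.1

theorem Fam.smul_mem {V : Type} [AddCommGroup V] [Module (ZM N) V]
    {L : Sz P → AddSubgroup V} (hL : Fam π L) {A B : Sz P} {x : ZM N} {v : V}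
    (hx : ∀ m, x.coeff m ≠ 0 → B ≤ π m • A) (hv : v ∈ L A) : x • v ∈ L B :=
  smul_mem_of_terms _ fun m hm => hL.anti _ _ (hx m hm) (hL.act m A v hv)

/-! ## Shifts -/

theorem IsCx.us {X : Co P N} (h : IsCx π U X) : IsCx π U X.us := by
  refine ⟨fun l k m hm => ?_, ?_⟩
  · obtain ⟨h1, h2⟩ := h.1 l k m (coeff_neg_ne hm)
    exact ⟨by change X.deg k - 1 = X.deg l - 1 + -1; omega, h2⟩
  · change -X.d * -X.d = 0
    rw [Matrix.neg_mul, Matrix.mul_neg, neg_neg, h.2]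

theorem Contr.us {X : Co P N} (h : Contr π U X) : Contr π U X.us := by
  obtain ⟨s, h1, h2⟩ := h
  refine ⟨-s, fun l k m hm => ?_, ?_⟩
  · obtain ⟨h3, h4⟩ := h1 l k m (coeff_neg_ne hm)
    exact ⟨by change X.deg k - 1 = X.deg l - 1 + 1; omega, h4⟩
  · change 1 = -X.d * -s + -s * -X.d
    rw [Matrix.neg_mul, Matrix.mul_neg, neg_neg, Matrix.neg_mul, Matrix.mul_neg, neg_neg]
    exact h2

end

end Pool.Agent.Lib.MP_551055_al.MT
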