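import Mathlib
import Pool.Agent.Lib.MP_551055_al.Trim.LS.Stmts
import Pool.Agent.Lib.MP_551055_al.Trim.LS.TreeA
import Pool.Agent.Lib.MP_551055_al.Trim.LS.TreeC
import Pool.Agent.Lib.MP_551055_al.Trim.MT.Defs
import Pool.Agent.Lib.MP_551055_al.Trim.MT.Gen
import Pool.Agent.Lib.MP_551055_al.Trim.MT.StA
import Pool.Agent.Lib.MP_551055_al.Trim.PT.Hull
import Pool.Agent.Lib.MP_551055_al.Trim.PT.Stmts

/-!
# Many trees: finite subtrees as sizes, flows
-/

set_option autoImplicit false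

namespace Pool.Agent.Lib.MP_551055_al
end Pool.Agent.Lib.MP_551055_al

namespace Pool.Agent.Lib.MP_551055_al.LS
end Pool.Agent.Lib.MP_551055_al.LS

namespace Pool.Agent.Lib.MP_551055_al.PT
end Pool.Agent.Lib.MP_551055_al.PT

namespace Pool.Agent.Lib.MP_551055_al.MT

open Pool.Agent.Lib.MP_551055_al

open Pool.Agent.Lib.MP_551055_al.LS (TreeAct side)

open Pool.Agent.Lib.MP_551055_al.PT (EC)

open Matrix

/-! ## Finite subtrees -/

section

variable {Γ : Type} [Group Γ] {V : Type} [MulAction Γ V] {T : SimpleGraph V}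

/-- The finite nonempty subtrees (edge convex sets of vertices). -/
def Sub (_h : TreeAct Γ V T) : Type := {A : Set V // A.Finite ∧ A.Nonempty ∧ EC T A}

theorem smul_mem_side (h : TreeAct Γ V T) (γ : Γ) (x u v : V) :
    γ • x ∈ side T (γ • u) (γ • v) ↔ x ∈ side T u v := by
  rw [LS.mem_side_iff, LS.mem_side_iff, h.dist_eq, h.dist_eq]

theorem smul_ec (h : TreeAct Γ V T) (γ : Γ) {A : Set V} (hA : EC T A) :
    EC T ((fun x => γ • x) '' A) := by
  rintro u v huv ⟨_, ⟨x, hx, rfl⟩, hxs⟩ ⟨_, ⟨x', hx', rfl⟩, hxs'⟩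
  have hu : u = γ • (γ⁻¹ • u) := (smul_inv_smul γ u).symm
  have hv : v = γ • (γ⁻¹ • v) := (smul_inv_smul γ v).symm
  rw [hu, hv, smul_mem_side h] at hxs hxs'
  have h1 : T.Adj (γ⁻¹ • u) (γ⁻¹ • v) := h.adj γ⁻¹ u v huv
  obtain ⟨h2, h3⟩ := hA _ _ h1 ⟨x, hx, hxs⟩ ⟨x', hx', hxs'⟩
  exact ⟨⟨_, h2, smul_inv_smul γ u⟩, ⟨_, h3, smul_inv_smul γ v⟩⟩

variable (h : TreeAct Γ V T)

/-- The set of vertices of a subtree. -/
def Sub.set {h : TreeAct Γ V T} (A : Sub h) : Set V := A.1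

instance : PartialOrder (Sub h) where
  le A B := A.set ⊆ B.set
  le_refl A := Set.Subset.refl A.set
  le_trans A B C h1 h2 := Set.Subset.trans h1 h2
  le_antisymm A B h1 h2 := Subtype.ext (Set.Subset.antisymm h1 h2)

theorem Sub.le_iff {h : TreeAct Γ V T} (A B : Sub h) : A ≤ B ↔ A.set ⊆ B.set := Iff.rfl

theorem Sub.ext' {h : TreeAct Γ V T} {A B : Sub h} (hAB : A.set = B.set) : A = B :=
  Subtype.ext hAB

instance : MulAction Γ (Sub h) where
  smul γ A := ⟨(fun x => γ • x) '' A.set, A.2.1.image _, A.2.2.1.image _, smul_ec h γ A.2.2.2⟩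
  one_smul A := by
    apply Sub.ext'
    change (fun x => (1 : Γ) • x) '' A.set = A.set
    simp only [one_smul, Set.image_id']
  mul_smul a b A := by
    apply Sub.ext'
    change (fun x => (a * b) • x) '' A.set = (fun x => a • x) '' ((fun x => b • x) '' A.set)
    rw [Set.image_image]
    simp only [mul_smul]

theorem Sub.set_smul {h : TreeAct Γ V T} (γ : Γ) (A : Sub h) :
    (γ • A).set = (fun x => γ • x) '' A.set := rfl

theorem Sub.smul_mem_smul {h : TreeAct Γ V T} (γ : Γ) (A : Sub h) (x : V) :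
    γ • x ∈ (γ • A).set ↔ x ∈ A.set := by
  rw [Sub.set_smul]
  constructor
  · rintro ⟨y, hy, hyx⟩
    rwa [← MulAction.injective γ hyx]
  · exact fun hx => ⟨x, hx, rfl⟩

theorem ec_singleton (T : SimpleGraph V) (v : V) : EC T {v} := by
  rintro a b _ ⟨x, rfl, h1⟩ ⟨y, rfl, h2⟩
  exact absurd h1 h2

theorem ec_pair (hT : T.IsTree) {u v : V} (huv : T.Adj u v) : EC T {u, v} := by
  have key : ∀ a b : V, T.Adj a b → ∀ x y, x ∈ ({u, v} : Set V) → y ∈ ({u, v} : Set V) →
      x ∈ side T a b → y ∉ side T a b → a ∈ ({u, v} : Set V) ∧ b ∈ ({u, v} : Set V) := by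
    intro a b hab x y hx hy h1 h2
    have h3 := (LS.stTreeA V T hT a b hab).2.2.2
    rcases hx with rfl | rfl <;> rcases hy with rfl | rfl
    · exact absurd h1 h2
    · obtain ⟨h4, h5⟩ := h3 _ _ huv h1 h2
      rw [← h4, ← h5]
      exact ⟨Or.inr rfl, Or.inl rfl⟩
    · obtain ⟨h4, h5⟩ := h3 _ _ huv.symm h1 h2
      rw [← h4, ← h5]
      exact ⟨Or.inl rfl, Or.inr rfl⟩
    · exact absurd h1 h2
  rintro a b hab ⟨x, hx, h1⟩ ⟨y, hy, h2⟩
  exact key a b hab x y hx hy h1 h2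

/-- The subtree with one vertex. -/
def vtx (v : V) : Sub h := ⟨{v}, Set.finite_singleton v, Set.singleton_nonempty v,
  ec_singleton T v⟩

open Classical in
/-- The subtree `{u, v}` if `u` and `v` are adjacent (and `{u}` otherwise). -/
noncomputable def edg (u v : V) : Sub h :=
  if huv : T.Adj u v then ⟨{u, v}, (Set.finite_singleton v).insert u, ⟨u, Or.inl rfl⟩,
    ec_pair h.tree huv⟩ else vtx h u

theorem vtx_set (v : V) : (vtx h v).set = {v} := rfl

theorem edg_set {u v : V} (huv : T.Adj u v) : (edg h u v).set = {u, v} := by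
  rw [edg, dif_pos huv]
  rfl

theorem edg_comm {u v : V} (huv : T.Adj u v) : edg h u v = edg h v u := by
  apply Sub.ext'
  rw [edg_set h huv, edg_set h huv.symm, Set.pair_comm]

theorem vtx_le {v : V} {A : Sub h} : vtx h v ≤ A ↔ v ∈ A.set := by
  rw [Sub.le_iff, vtx_set, Set.singleton_subset_iff]

theorem edg_le {u v : V} (huv : T.Adj u v) {A : Sub h} :
    edg h u v ≤ A ↔ u ∈ A.set ∧ v ∈ A.set := by
  rw [Sub.le_iff, edg_set h huv, Set.pair_subset_iff]

theorem smul_vtx (γ : Γ) (v : V) : γ • vtx h v = vtx h (γ • v) := by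
  apply Sub.ext'
  rw [Sub.set_smul, vtx_set, vtx_set, Set.image_singleton]

theorem smul_edg (γ : Γ) {u v : V} (huv : T.Adj u v) :
    γ • edg h u v = edg h (γ • u) (γ • v) := by
  apply Sub.ext'
  rw [Sub.set_smul, edg_set h huv, edg_set h (h.adj γ u v huv), Set.image_pair]

end

/-! ## Sizes -/

section

variable {Γ : Type} [Group Γ] {D : Type} {V : D → Type} [∀ i, MulAction Γ (V i)]
  {T : ∀ i, SimpleGraph (V i)}

/-- The sizes: families of finite subtrees. -/
abbrev SP (h : ∀ i, TreeAct Γ (V i) (T i)) : D → Type := fun i => Sub (h i)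

instance szAct (h : ∀ i, TreeAct Γ (V i) (T i)) : SzAct Γ (SP h) where
  mono i γ A B hAB := Set.image_mono hAB
  dir i A B := by
    obtain ⟨C, hC, hABC, hE⟩ := PT.stHull (V i) (T i) (h i).tree (A.set ∪ B.set)
      (A.2.1.union B.2.1)
    refine ⟨⟨C, hC, ?_, hE⟩, Set.union_subset_iff.1 hABC⟩
    obtain ⟨x, hx⟩ := A.2.2.1
    exact ⟨x, hABC (Or.inl hx)⟩
  ne i := by
    obtain ⟨v⟩ := (h i).tree.connected.nonempty
    exact ⟨vtx (h i) v⟩

instance szRk (h : ∀ i, TreeAct Γ (V i) (T i)) : SzRk Γ (SP h) where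
  rk := by
    refine ⟨fun i A => A.set.ncard, fun i A B hAB => ?_, fun i γ A => ?_⟩
    · refine Set.ncard_lt_ncard ?_ B.2.1
      refine ⟨hAB.le, fun hBA => ?_⟩
      exact absurd (le_antisymm hAB.le hBA) hAB.ne
    · change ((fun x => γ • x) '' A.set).ncard = A.set.ncard
      exact Set.ncard_image_of_injective _ (MulAction.injective γ)
  fin i A := by
    have h1 : (Set.powerset A.set).Finite := A.2.1.finite_subsets
    refine Set.Finite.of_finite_image (f := fun B : Sub (h i) => B.set) (h1.subset ?_) ?_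
    · rintro _ ⟨B, hB, rfl⟩
      exact hB
    · intro B _ C _ hBC
      exact Sub.ext' hBC

variable [DecidableEq D]

/-- Change one component of a size. -/
abbrev upd {h : ∀ i, TreeAct Γ (V i) (T i)} (B : Sz (SP h)) (i : D) (A : Sub (h i)) :
    Sz (SP h) := Function.update B i A

end

/-! ## Flows -/

section

variable {V : Type} (T : SimpleGraph V) {H : Type} [AddCommGroup H]

/-- An antisymmetric function on the oriented edges with finite support. -/
structure IsFlow (y : V → V → H) : Prop where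
  anti : ∀ u v, y u v = -y v u
  adj : ∀ u v, ¬T.Adj u v → y u v = 0
  fin : {e : V × V | y e.1 e.2 ≠ 0}.Finite

/-- The inflow at `v`. -/
noncomputable def bd (y : V → V → H) (v : V) : H := ∑ᶠ u, y u v

end

/-- Module Flow. -/
def StFlow : Prop :=
  ∀ (V : Type) (T : SimpleGraph V), T.IsTree → ∀ (H : Type) [AddCommGroup H],
    (∀ y : V → V → H, IsFlow T y → {v | bd y v ≠ 0}.Finite ∧ ∑ᶠ v, bd y v = 0 ∧
      ∀ u v, T.Adj u v → y u v = ∑ᶠ w ∈ side T u v, bd y w) ∧
    (∀ x : V → H, {v | x v ≠ 0}.Finite → ∑ᶠ v, x v = 0 →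
      ∃ y : V → V → H, IsFlow T y ∧ ∀ v, bd y v = x v) ∧
    (∀ (H' : Type) [AddCommGroup H'] (y : V → V → H) (R : V → V → H' → H → Prop), IsFlow T y →
      (∀ u w z x, R u w z x → R w u (-z) (-x)) → (∀ u w, R u w 0 0) →
      (∀ u w, T.Adj u w → ∃ z, R u w z (y u w)) →
      ∃ y' : V → V → H', IsFlow T y' ∧ ∀ u w, R u w (y' u w) (y u w))

/-- Module Flow2. Finite combinations of flows. -/
def StFlow2 : Prop :=
  ∀ (V : Type) (T : SimpleGraph V) (H : Type) [AddCommGroup H],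
    (∀ y y' : V → V → H, IsFlow T y → IsFlow T y' → IsFlow T (fun u v => y u v + y' u v) ∧
      ∀ v, bd (fun u v => y u v + y' u v) v = bd y v + bd y' v) ∧
    (∀ y : V → V → H, IsFlow T y → IsFlow T (fun u v => -y u v) ∧
      ∀ v, bd (fun u v => -y u v) v = -bd y v) ∧
    (∀ (H' : Type) [AddCommGroup H'] (f : H →+ H') (y : V → V → H), IsFlow T y →
      IsFlow T (fun u v => f (y u v)) ∧ ∀ v, bd (fun u v => f (y u v)) v = f (bd y v)) ∧
    (∀ (ι : Type) (s : Finset ι) (y : ι → V → V → H), (∀ a ∈ s, IsFlow T (y a)) →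
      IsFlow T (fun u v => ∑ a ∈ s, y a u v) ∧
      ∀ v, bd (fun u v => ∑ a ∈ s, y a u v) v = ∑ a ∈ s, bd (y a) v) ∧
    (∀ (Γ : Type) [Group Γ] [MulAction Γ V] (γ : Γ) (y : V → V → H), TreeAct Γ V T →
      IsFlow T y → IsFlow T (fun u v => y (γ • u) (γ • v)) ∧
      ∀ v, bd (fun u v => y (γ • u) (γ • v)) v = bd y (γ • v)) ∧
    (∀ (v : V) (y : V → V → H), IsFlow T y → ∃ s : Finset V, (∀ u, y u v ≠ 0 → u ∈ s) ∧
      bd y v = ∑ u ∈ s, y u v)

/-! ## Acyclicity in the direction `i` -/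

section

variable {Γ : Type} [Group Γ] {D : Type} [DecidableEq D] {V : D → Type}
  [∀ i, MulAction Γ (V i)] {T : ∀ i, SimpleGraph (V i)} {h : ∀ i, TreeAct Γ (V i) (T i)}
  {H : Type} [AddCommGroup H]

/-- Every element of `Z` at the vertex `v` is the boundary of a flow in the direction `i`, modulo
`Bd`. -/
def ExF (i : D) (Z Bd : Sz (SP h) → AddSubgroup H) : Prop :=
  ∀ (B : Sz (SP h)) (v : V i), ∀ x ∈ Z (upd B i (vtx (h i) v)),
    ∃ y : V i → V i → H, IsFlow (T i) y ∧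
      (∀ u w, (T i).Adj u w → y u w ∈ Z (upd B i (edg (h i) u w))) ∧
      (∀ w, w ≠ v → bd y w ∈ Bd (upd B i (vtx (h i) w))) ∧
      bd y v - x ∈ Bd (upd B i (vtx (h i) v))

/-- A flow in the direction `i` with boundary zero is zero, modulo `Bd`. -/
def InF (i : D) (Z Bd : Sz (SP h) → AddSubgroup H) : Prop :=
  ∀ (B : Sz (SP h)) (y : V i → V i → H), IsFlow (T i) y →
    (∀ u w, (T i).Adj u w → y u w ∈ Z (upd B i (edg (h i) u w))) →
    (∀ w, bd y w ∈ Bd (upd B i (vtx (h i) w))) →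
    ∀ u w, (T i).Adj u w → y u w ∈ Bd (upd B i (edg (h i) u w))

end

/-- Module MV. The Mayer-Vietoris sequence of a finite free object. -/
def StMV : Prop :=
  ∀ (Γ : Type) [Group Γ] (D : Type) [Fintype D] [DecidableEq D] (V : D → Type)
    [∀ i, MulAction Γ (V i)] (T : ∀ i, SimpleGraph (V i)) (h : ∀ i, TreeAct Γ (V i) (T i))
    (N : Type) [Monoid N] (π : N →* Γ) (X : Ob (SP h)) (i : D) (q : ℤ) (B : Sz (SP h)),
    (∀ x ∈ fam π (Finset.univ.erase i) X B q, ∃ x' : V i → X.ι → ZM N, {w | x' w ≠ 0}.Finite ∧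
      (∀ w, x' w ∈ fam π Finset.univ X (upd B i (vtx (h i) w)) q) ∧ ∑ᶠ w, x' w = x) ∧
    (∀ w, fam π Finset.univ X (upd B i (vtx (h i) w)) q ≤ fam π (Finset.univ.erase i) X B q) ∧
    (∀ y : V i → V i → X.ι → ZM N, IsFlow (T i) y →
      (∀ w, bd y w ∈ fam π Finset.univ X (upd B i (vtx (h i) w)) q) →
      ∀ u w, (T i).Adj u w → y u w ∈ fam π Finset.univ X (upd B i (edg (h i) u w)) q)

/-- Module SA1. -/
def StSA1 : Prop :=
  ∀ (Γ : Type) [Group Γ] (D : Type) [Fintype D] [DecidableEq D] (V : D → Type)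
    [∀ i, MulAction Γ (V i)] (T : ∀ i, SimpleGraph (V i)) (h : ∀ i, TreeAct Γ (V i) (T i))
    (N : Type) [Monoid N] (π : N →* Γ) (M : Co (SP h) N) (i : D), IsCx π Finset.univ M →
    Contr π (Finset.univ.erase i) M →
    ∀ q, ExF i (ZC π Finset.univ M q) (BC π Finset.univ M q) ∧
      InF i (ZC π Finset.univ M q) (BC π Finset.univ M q)

/-- Module SA2. -/
def StSA2 : Prop :=
  ∀ (Γ : Type) [Group Γ] (D : Type) [Fintype D] [DecidableEq D] (V : D → Type)
    [∀ i, MulAction Γ (V i)] (T : ∀ i, SimpleGraph (V i)) (h : ∀ i, TreeAct Γ (V i) (T i))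
    (N : Type) [Monoid N] (π : N →* Γ) (M : Co (SP h) N) (i : D), IsCx π Finset.univ M →
    (∀ q, ExF i (ZC π Finset.univ M q) (BC π Finset.univ M q) ∧
      InF i (ZC π Finset.univ M q) (BC π Finset.univ M q)) →
    Contr π (Finset.univ.erase i) M

/-- Module Tr. Acyclicity in the direction `i` passes along isomorphisms in homology. -/
def StTr : Prop :=
  ∀ (Γ : Type) [Group Γ] (D : Type) [Fintype D] [DecidableEq D] (V : D → Type)
    [∀ i, MulAction Γ (V i)] (T : ∀ i, SimpleGraph (V i)) (h : ∀ i, TreeAct Γ (V i) (T i))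
    (N : Type) [Monoid N] (π : N →* Γ) (K A : Co (SP h) N) (j : Matrix K.ι A.ι (ZM N)) (i : D)
    (q : ℤ), IsCx π Finset.univ K → IsCx π Finset.univ A → Ch π Finset.univ K A j →
    HInj π Finset.univ K A j q → HSur π Finset.univ K A j q →
    ExF i (ZC π Finset.univ K q) (BC π Finset.univ K q) →
    InF i (ZC π Finset.univ K q) (BC π Finset.univ K q) →
    ExF i (ZC π Finset.univ A q) (BC π Finset.univ A q) ∧
      InF i (ZC π Finset.univ A q) (BC π Finset.univ A q)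

/-- Module LatA. The lowest homology has a lattice. -/
def StLatA : Prop :=
  ∀ (Γ : Type) [Group Γ] (D : Type) [Fintype D] [DecidableEq D] (V : D → Type)
    [∀ i, MulAction Γ (V i)] (T : ∀ i, SimpleGraph (V i)) (h : ∀ i, TreeAct Γ (V i) (T i))
    (G : Type) [Group G] (π : G →* Γ), HN (SP h) (pN π) → ∀ (I : Finset D)
    (M : Co (SP h) (GZ G)), IsCx (pZ π) Finset.univ M →
    (∀ i ∈ I, Contr (pZ π) (Finset.univ.erase i) M) →
    ∀ a : ℤ, (∀ q, q < a → Exa (pZ π) Finset.univ M q) →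
    ∃ (A : Co (SP h) (GN G)) (h' : Matrix M.ι A.ι (ZM (GZ G))), IsCx (pN π) Finset.univ A ∧
      (∀ i ∈ I, Contr (pN π) (Finset.univ.erase i) A) ∧
      Ch (pZ π) Finset.univ M (A.map (loc G)) h' ∧
      (∀ q, q ≤ a → HInj (pZ π) Finset.univ M (A.map (loc G)) h' q ∧
        HSur (pZ π) Finset.univ M (A.map (loc G)) h' q) ∧
      ∀ q, a < q → Exa (pZ π) Finset.univ (A.map (loc G)) q

/-- Module Lat. -/
def StLat : Prop :=
  ∀ (Γ : Type) [Group Γ] (D : Type) [Fintype D] [DecidableEq D] (V : D → Type)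
    [∀ i, MulAction Γ (V i)] (T : ∀ i, SimpleGraph (V i)) (h : ∀ i, TreeAct Γ (V i) (T i))
    (G : Type) [Group G] (π : G →* Γ), HN (SP h) (pN π) → Lat (SP h) π

end Pool.Agent.Lib.MP_551055_al.MT
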