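import Mathlib
import Pool.Agent.Lib.MP_551055_al.Trim.LS.PStmts
import Pool.Agent.Lib.MP_551055_al.Trim.LS.PStmts2
import Pool.Agent.Lib.MP_551055_al.Trim.LS.Stmts
import Pool.Agent.Lib.MP_551055_al.Trim.MT.Defs
import Pool.Agent.Lib.MP_551055_al.Trim.MT.Gen
import Pool.Agent.Lib.MP_551055_al.Trim.MT.StA
import Pool.Agent.Lib.MP_551055_al.Trim.MT.StB
import Pool.Agent.Lib.MP_551055_al.Trim.MT.Trees
import Pool.Agent.Lib.MP_551055_al.Trim.OneRelation
import Pool.Agent.Lib.MP_551055_al.Trim.Red.Defs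
import Pool.Agent.Lib.MP_551055_al.Trim.VNDefs

/-!
# Many trees: rings, centres of finite trees, Euler characteristics, the final statements
-/

set_option autoImplicit false

namespace Pool.Agent.Lib.MP_551055_al
end Pool.Agent.Lib.MP_551055_al

namespace Pool.Agent.Lib.MP_551055_al.LS
end Pool.Agent.Lib.MP_551055_al.LS

namespace Pool.Agent.Lib.MP_551055_al.Red
end Pool.Agent.Lib.MP_551055_al.Red

namespace Pool.Agent.Lib.MP_551055_al.MT

open Pool.Agent.Lib.MP_551055_al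

open Pool.Agent.Lib.MP_551055_al.LS (TreeAct side ZN PolyZ)

open Pool.Agent.Lib.MP_551055_al.Red (Img)

open Matrix

/-- `R` is left noetherian and every finitely generated left module has a finite resolution by
finitely generated free modules. -/
def FFFN (R : Type) [Ring R] : Prop :=
  IsNoetherianRing R ∧ ∀ (M : Type) [AddCommGroup M] [Module R M], Module.Finite R M →
    ∃ d, LS.FFF R d M

/-- Module R1. Regular noetherian rings all of whose projectives are stably free. -/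
def StR1 : Prop :=
  (∀ (R : Type) [Ring R], LS.RegNoeth R →
    (∀ (Q : Type) [AddCommGroup Q] [Module R Q], Module.Finite R Q → Module.Projective R Q →
      StFree R Q) → FFFN R) ∧
  (∀ (R R' : Type) [Ring R] [Ring R'], (R ≃+* R') → FFFN R → FFFN R') ∧
  (∀ (H : Type) [Group H], PolyZ H → ∀ m : ℕ, FFFN (ZM (H × ZN m))) ∧
  (∀ (R R' : Type) [Ring R] [Ring R'], (R ≃+* R') → RC R → RC R') ∧
  ∀ (R : Type) [Ring R], FFFN R → RC R

/-- Module R2a. Hilbert's basis theorem for arbitrary rings. -/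
def StR2a : Prop := ∀ (R : Type) [Ring R], IsNoetherianRing R → IsNoetherianRing (Polynomial R)

/-- The vectors of polynomials all of whose coefficient vectors are in `Y`. -/
noncomputable def polyMod {R : Type} [Ring R] {ι : Type} (Y : Submodule R (ι → R)) :
    Submodule (Polynomial R) (ι → Polynomial R) where
  carrier := {v | ∀ a : ℕ, (fun i => (v i).coeff a) ∈ Y}
  zero_mem' := fun _ => Y.zero_mem
  add_mem' {v w} hv hw := by
    intro a
    have h1 : (fun i => ((v + w) i).coeff a)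
        = (fun i => (v i).coeff a) + fun i => (w i).coeff a := by
      funext i
      rw [Pi.add_apply, Polynomial.coeff_add, Pi.add_apply]
    rw [h1]
    exact Y.add_mem (hv a) (hw a)
  smul_mem' f v hv := by
    intro a
    have h1 : (fun i => ((f • v) i).coeff a)
        = ∑ x ∈ Finset.HasAntidiagonal.antidiagonal a, f.coeff x.1 • fun i => (v i).coeff x.2 := by
      funext i
      rw [Pi.smul_apply, smul_eq_mul, Polynomial.coeff_mul, Finset.sum_apply]
      rfl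
    rw [h1]
    exact Y.sum_mem fun x _ => Y.smul_mem _ (hv x.2)

/-- Module R2b. -/
def StR2b : Prop :=
  ∀ (R : Type) [Ring R] (d : ℕ) (ι : Type) [Finite ι] (Y : Submodule R (ι → R)),
    LS.FFF R d Y → LS.FFF (Polynomial R) d (polyMod Y)

/-- Module R2. Hilbert's basis theorem and syzygy theorem for polynomial rings over arbitrary
rings. -/
def StR2 : Prop := ∀ (R : Type) [Ring R], FFFN R → FFFN (Polynomial R)

/-- Module R3. -/
def StR3 : Prop :=
  (∀ (H H' : Type) [Group H] [Group H'], (H ≃* H') → RCs H → RCs H') ∧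
  (∀ (H : Type) [Group H], RCs H → ∀ n : ℕ, RCs (H × ZN n)) ∧
  (∀ (Γ : Type) [Group Γ] (D : Type) (P : D → Type) [∀ i, PartialOrder (P i)]
    [∀ i, MulAction Γ (P i)] (G : Type) [Group G] (π : G →* Γ), Good P π →
    HN P π ∧ HN P (pN π) ∧ Good P (pZ π)) ∧
  ∀ (H : Type) [Group H], PolyZ H → RCs H

/-- Module RCE. Forgetting the sizes in a resolution over a tree. -/
def StRCE : Prop :=
  ∀ (Γ : Type) [Group Γ] (V : Type) [MulAction Γ V] (T : SimpleGraph V) (h : TreeAct Γ V T)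
    (N : Type) [Monoid N] (π : N →* Γ) (X : Ob (SP fun _ : Unit => h))
    (K₀ : Submodule (ZM N) (X.ι → ZM N)) (q c : ℤ) (R : Co (SP fun _ : Unit => h) N)
    (r : Matrix R.ι X.ι (ZM N)), IsCx π Finset.univ R →
    (∀ l k m, (r l k).coeff m ≠ 0 → R.deg l = c ∧ X.deg k = q ∧
      ∀ i, R.sz l i ≤ π m • X.sz k i) → R.d * r = 0 →
    (∀ x ∈ K₀, ∃ x' : V → X.ι → ZM N, {w | x' w ≠ 0}.Finite ∧
      (∀ w, x' w ∈ K₀ ∧ x' w ∈ fam π Finset.univ X (fun _ => vtx h w) q) ∧ ∑ᶠ w, x' w = x) →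
    (∀ B, ∀ y ∈ fam π Finset.univ R.toOb B c, y ᵥ* r ∈ K₀) →
    (∀ B, ∀ x ∈ K₀, x ∈ fam π Finset.univ X B q →
      ∃ y ∈ fam π Finset.univ R.toOb B c, y ᵥ* r = x) →
    (∀ B, ∀ y ∈ fam π Finset.univ R.toOb B c, y ᵥ* r = 0 → y ∈ BC π Finset.univ R c B) →
    (∀ n, c < n → Exa π Finset.univ R n) →
    (∀ x ∈ K₀, ∃ y : R.ι → ZM N, (∀ l, y l ≠ 0 → R.deg l = c) ∧ y ᵥ* r = x) ∧
    (∀ y : R.ι → ZM N, (∀ l, y l ≠ 0 → R.deg l = c) → y ᵥ* r = 0 →
      ∃ z : R.ι → ZM N, (∀ l, z l ≠ 0 → R.deg l = c + 1) ∧ z ᵥ* R.d = y) ∧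
    ∀ n, c < n → ∀ y : R.ι → ZM N, (∀ l, y l ≠ 0 → R.deg l = n) → y ᵥ* R.d = 0 →
      ∃ z : R.ι → ZM N, (∀ l, z l ≠ 0 → R.deg l = n + 1) ∧ z ᵥ* R.d = y

/-- Module RCF. Exact complexes of finite free modules are resolutions. -/
def StRCF : Prop :=
  ∀ (R : Type) [Ring R] (ι κ : Type) [Fintype ι] [DecidableEq ι] [Fintype κ] (deg : ι → ℤ)
    (d : Matrix ι ι R) (r : Matrix ι κ R) (c : ℤ) (K₀ : Submodule R (κ → R)),
    (∀ l, c ≤ deg l) → (∀ l k, d l k ≠ 0 → deg k = deg l - 1) → d * d = 0 → d * r = 0 →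
    (∀ y : ι → R, (∀ l, y l ≠ 0 → deg l = c) → y ᵥ* r ∈ K₀) →
    (∀ x ∈ K₀, ∃ y : ι → R, (∀ l, y l ≠ 0 → deg l = c) ∧ y ᵥ* r = x) →
    (∀ y : ι → R, (∀ l, y l ≠ 0 → deg l = c) → y ᵥ* r = 0 →
      ∃ z : ι → R, (∀ l, z l ≠ 0 → deg l = c + 1) ∧ z ᵥ* d = y) →
    (∀ n, c < n → ∀ y : ι → R, (∀ l, y l ≠ 0 → deg l = n) → y ᵥ* d = 0 →
      ∃ z : ι → R, (∀ l, z l ≠ 0 → deg l = n + 1) ∧ z ᵥ* d = y) →
    ∃ e, LS.FFF R e K₀

/-- Module RCT1. Trees with noetherian stabilisers: kernels have finite resolutions. -/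
def StRCT1 : Prop :=
  ∀ (Γ : Type) [Group Γ] (V : Type) [MulAction Γ V] (T : SimpleGraph V) (h : TreeAct Γ V T)
    (N : Type) [Monoid N] (π : N →* Γ), UL π →
    (∀ A : Sz (SP fun _ : Unit => h), FFFN (ZM (stabM π A))) → RC (ZM N)

/-- Module RCT2. Groups acting on trees with poly-`ℤ` vertex stabilisers. -/
def StRCT2 : Prop :=
  ∀ (Γ : Type) [Group Γ] (V : Type) [MulAction Γ V] (T : SimpleGraph V), TreeAct Γ V T →
    (∀ v : V, PolyZ (MulAction.stabilizer Γ v)) → RCs Γ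

/-- Module RCU. Directed unions. -/
def StRCU : Prop :=
  ∀ (H : Type) [Group H], (∀ s : Finset H, ∃ K : Subgroup H, (s : Set H) ⊆ K ∧ RCs K) → RCs H

/-- Module ResN. Families over noetherian stabilisers. -/
def StResN : Prop :=
  ∀ (Γ : Type) [Group Γ] (D : Type) [Fintype D] (P : D → Type) [∀ i, PartialOrder (P i)]
    [∀ i, MulAction Γ (P i)] [SzAct Γ P] [SzRk Γ P] (N : Type) [Monoid N] (π : N →* Γ), UL π →
    (∀ A : Sz P, FFFN (ZM (stabM π A))) →
    ∀ (X : Ob P) (q : ℤ) (L : Sz P → AddSubgroup (X.ι → ZM N)), Fam π L →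
      (∀ B, L B ≤ fam π Finset.univ X B q) → ∀ c : ℤ, HasRes π X L q c

/-- Module Cen. The stabiliser of a finite subtree fixes a vertex. -/
def StCen : Prop :=
  ∀ (Γ : Type) [Group Γ] (V : Type) [MulAction Γ V] (T : SimpleGraph V) (h : TreeAct Γ V T)
    (A : Sub h), ∃ v : V, ∀ γ : Γ, γ • A = A → γ • v = v

/-- Module Eul. -/
def StEul : Prop :=
  ∀ (R : Type) [Ring R] (n : ℕ) (μ : Type) [Fintype μ] [DecidableEq μ] (deg : μ → ℤ)
    (p : Matrix (Fin n) (Fin n) R) (d s : Matrix μ μ R) (u : Matrix (Fin n) μ R)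
    (v : Matrix μ (Fin n) R), p * p = p → d * d = 0 →
    (∀ l k, d l k ≠ 0 → deg k = deg l - 1) → (∀ l k, s l k ≠ 0 → deg k = deg l + 1) →
    (∀ l k, u l k ≠ 0 → deg k = 0) → (∀ l k, v l k ≠ 0 → deg l = 0) →
    u * d = 0 → d * v = 0 → u * v = p → v * u - 1 = d * s + s * d →
    StFree R (Img p)

/-- Module Fin. -/
def StFin : Prop :=
  ∀ (Γ : Type) [Group Γ] (D : Type) [Fintype D] [DecidableEq D] (P : D → Type)
    [∀ i, PartialOrder (P i)] [∀ i, MulAction Γ (P i)] [SzAct Γ P] (G : Type) [Group G]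
    (π : G →* Γ), Good P π → SU Γ P ∅ → VN.ProjStFree G

/-- The main theorem. -/
def StMain : Prop :=
  ∀ (G : Type) [Group G] (D : Type) [Finite D] (V : D → Type) [∀ i, MulAction G (V i)]
    (T : ∀ i, SimpleGraph (V i)), (∀ i, TreeAct G (V i) (T i)) →
    (∀ (v : ∀ i, V i) (H : Subgroup G), (∀ γ ∈ H, ∀ i, γ • v i = v i) → RCs H) →
    ∀ n : ℕ, VN.ProjStFree (G × ZN n)

end Pool.Agent.Lib.MP_551055_al.MT
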