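import Mathlib
import Pool.Agent.Lib.MP_551055_al.Trim.LS.PStmts
import Pool.Agent.Lib.MP_551055_al.Trim.LS.PStmts2
import Pool.Agent.Lib.MP_551055_al.Trim.MT.Defs
import Pool.Agent.Lib.MP_551055_al.Trim.MT.Gen
import Pool.Agent.Lib.MP_551055_al.Trim.MT.Map
import Pool.Agent.Lib.MP_551055_al.Trim.MT.StA
import Pool.Agent.Lib.MP_551055_al.Trim.MT.StC
import Pool.Agent.Lib.MP_551055_al.Trim.MT.Tg

/-!
# Many trees: module RCU
-/

set_option autoImplicit false

namespace Pool.Agent.Lib.MP_551055_al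
end Pool.Agent.Lib.MP_551055_al

namespace Pool.Agent.Lib.MP_551055_al.LS
end Pool.Agent.Lib.MP_551055_al.LS

namespace Pool.Agent.Lib.MP_551055_al.MT.RCUm
end Pool.Agent.Lib.MP_551055_al.MT.RCUm

namespace Pool.Agent.Lib.MP_551055_al.MT

open Pool.Agent.Lib.MP_551055_al

open Pool.Agent.Lib.MP_551055_al.LS (ZN)

open Matrix

namespace RCUm

section

variable {N N' : Type} [Monoid N] [Monoid N']

/-- `N` is a free right `N'`-set. -/
structure Cs (φ : N' →* N) (τ : N → N) (σ : N → N') : Prop where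
  dec : ∀ m, τ m * φ (σ m) = m
  tau : ∀ m n, τ (m * φ n) = τ m
  sig : ∀ m n, σ (m * φ n) = σ m * n

theorem zm_hom_ext {A : Type} [AddCommMonoid A] {f g : ZM N →+ A}
    (h : ∀ m r, f (MonoidAlgebra.single m r) = g (MonoidAlgebra.single m r)) (x : ZM N) :
    f x = g x := by
  rw [zm_sum x, map_sum, map_sum]
  exact Finset.sum_congr rfl fun m _ => h m _

open Classical in
/-- The component at `t`. -/
noncomputable def cmp (τ : N → N) (σ : N → N') (t : N) : ZM N →+ ZM N' where
  toFun x := x.coeff.sum fun m r => if τ m = t then MonoidAlgebra.single (σ m) r else 0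
  map_zero' := rfl
  map_add' x y := by
    rw [MonoidAlgebra.coeff_add]
    refine Finsupp.sum_add_index' (fun m => ?_) fun m r r' => ?_
    · split_ifs
      · exact MonoidAlgebra.single_zero _
      · rfl
    · split_ifs
      · exact MonoidAlgebra.single_add _ _ _
      · exact (add_zero _).symm

open Classical in
theorem cmp_single (τ : N → N) (σ : N → N') (t m : N) (r : ℤ) :
    cmp τ σ t (MonoidAlgebra.single m r) = if τ m = t then MonoidAlgebra.single (σ m) r else 0 := by
  refine (Finsupp.sum_single_index (h := fun m r => if τ m = t then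
    (MonoidAlgebra.single (σ m) r : ZM N') else 0) ?_)
  split_ifs
  · exact MonoidAlgebra.single_zero _
  · rfl

theorem cmp_mul {φ : N' →* N} {τ : N → N} {σ : N → N'} (h : Cs φ τ σ) (t : N) (a : ZM N)
    (b : ZM N') : cmp τ σ t (a * mdh φ b) = cmp τ σ t a * b := by
  have h1 : ∀ m r, cmp τ σ t (MonoidAlgebra.single m r * mdh φ b)
      = cmp τ σ t (MonoidAlgebra.single m r) * b := by
    intro m r
    have h2 := zm_hom_ext (f := (cmp τ σ t).comp
      ((AddMonoidHom.mulLeft (MonoidAlgebra.single m r)).comp (mdh φ).toAddMonoidHom))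
      (g := AddMonoidHom.mulLeft (cmp τ σ t (MonoidAlgebra.single m r))) (fun n r' => ?_) b
    · exact h2
    · change cmp τ σ t (MonoidAlgebra.single m r * mdh φ (MonoidAlgebra.single n r'))
        = cmp τ σ t (MonoidAlgebra.single m r) * MonoidAlgebra.single n r'
      rw [mdh_single, MonoidAlgebra.single_mul_single, cmp_single, cmp_single, h.tau, h.sig]
      split_ifs
      · rw [MonoidAlgebra.single_mul_single]
      · rw [zero_mul]
  have h3 := zm_hom_ext (f := (cmp τ σ t).comp (AddMonoidHom.mulRight (mdh φ b)))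
    (g := (AddMonoidHom.mulRight b).comp (cmp τ σ t)) h1 a
  exact h3

/-- Every element is the sum of its components. -/
theorem exists_cmp {φ : N' →* N} {τ : N → N} {σ : N → N'} (h : Cs φ τ σ) {ι : Type} [Finite ι]
    (x : ι → ZM N) : ∃ S : Finset N, ∀ i,
      x i = ∑ t ∈ S, MonoidAlgebra.single t (1 : ℤ) * mdh φ (cmp τ σ t (x i)) := by
  classical
  cases nonempty_fintype ι
  refine ⟨Finset.univ.biUnion fun i => (x i).coeff.support.image τ, fun i => ?_⟩
  have key : ∀ (S : Finset N) (y : ZM N), (∀ m ∈ y.coeff.support, τ m ∈ S) →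
      y = ∑ t ∈ S, MonoidAlgebra.single t (1 : ℤ) * mdh φ (cmp τ σ t y) := by
    intro S y hy
    have h1 : ∀ m ∈ y.coeff.support, MonoidAlgebra.single m (y.coeff m)
        = ∑ t ∈ S, MonoidAlgebra.single t (1 : ℤ) *
          mdh φ (cmp τ σ t (MonoidAlgebra.single m (y.coeff m))) := by
      intro m hm
      rw [Finset.sum_eq_single (τ m)]
      · rw [cmp_single, if_pos rfl, mdh_single, MonoidAlgebra.single_mul_single, h.dec, one_mul]
      · intro t _ ht
        rw [cmp_single, if_neg (Ne.symm ht), map_zero, mul_zero]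
      · intro hn
        exact absurd (hy m hm) hn
    have h2 : ∑ t ∈ S, MonoidAlgebra.single t (1 : ℤ) * mdh φ (cmp τ σ t y)
        = ∑ m ∈ y.coeff.support, ∑ t ∈ S, MonoidAlgebra.single t (1 : ℤ) *
          mdh φ (cmp τ σ t (MonoidAlgebra.single m (y.coeff m))) := by
      rw [Finset.sum_comm]
      refine Finset.sum_congr rfl fun t _ => ?_
      conv_lhs => rw [zm_sum y]
      rw [map_sum, map_sum, Finset.mul_sum]
    rw [h2, ← Finset.sum_congr rfl h1]
    exact zm_sum y
  exact key _ (x i) fun m hm => Finset.mem_biUnion.2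
    ⟨i, Finset.mem_univ i, Finset.mem_image_of_mem τ hm⟩

theorem cmp_vecMul {φ : N' →* N} {τ : N → N} {σ : N → N'} (h : Cs φ τ σ) {α β : Type} [Fintype α]
    (t : N) (x : α → ZM N) (G : Matrix α β (ZM N')) :
    (fun k => cmp τ σ t ((x ᵥ* G.map (mdh φ)) k)) = (fun l => cmp τ σ t (x l)) ᵥ* G := by
  funext k
  change cmp τ σ t (∑ l, x l * mdh φ (G l k)) = ∑ l, cmp τ σ t (x l) * G l k
  rw [map_sum]
  exact Finset.sum_congr rfl fun l _ => cmp_mul h t _ _

/-- The kernel of a matrix. -/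
noncomputable abbrev vm {α β : Type} [Fintype α] (G : Matrix α β (ZM N)) :
    (α → ZM N) →ₗ[ZM N] (β → ZM N) where
  toFun x := x ᵥ* G
  map_add' x y := Matrix.add_vecMul _ _ _
  map_smul' a x := Matrix.smul_vecMul _ _ _

theorem fff_ker {φ : N' →* N} {τ : N → N} {σ : N → N'} (h : Cs φ τ σ) (d : ℕ) :
    ∀ (α β : Type) [Fintype α] (G : Matrix α β (ZM N')),
      LS.FFF (ZM N') d (LinearMap.ker (vm G)) →
        LS.FFF (ZM N) d (LinearMap.ker (vm (G.map (mdh φ)))) := by
  classical
  -- one step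
  have step : ∀ (α β : Type) [Fintype α] (G : Matrix α β (ZM N')) (k : ℕ)
      (g : (Fin k → ZM N') →ₗ[ZM N'] LinearMap.ker (vm G)), Function.Surjective g →
      ∃ (G' : Matrix (Fin k) α (ZM N')) (F : (Fin k → ZM N) →ₗ[ZM N]
        LinearMap.ker (vm (G.map (mdh φ)))), Function.Surjective F ∧
        LinearMap.ker g = LinearMap.ker (vm G') ∧
        LinearMap.ker F = LinearMap.ker (vm (G'.map (mdh φ))) := by
    intro α β _ G k g hg
    let G' : Matrix (Fin k) α (ZM N') := fun i => (g (Pi.single i 1)).1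
    have hG' : ∀ c, (g c).1 = c ᵥ* G' := by
      intro c
      have h1 := lin_ext ((LinearMap.ker (vm G)).subtype ∘ₗ g) c
      rw [lin_matrix] at h1
      exact h1
    have h0 : G' * G = 0 := by
      ext1 i j
      have h2 := (g (Pi.single i 1)).2
      rw [LinearMap.mem_ker] at h2
      exact congrFun h2 j
    have hz : ∀ c : Fin k → ZM N, (c ᵥ* G'.map (mdh φ)) ᵥ* G.map (mdh φ) = 0 := by
      intro c
      rw [Matrix.vecMul_vecMul, ← map_mul', h0, map_zero', Matrix.vecMul_zero]
    refine ⟨G', (vm (G'.map (mdh φ))).codRestrict _ fun c => LinearMap.mem_ker.2 (hz c), ?_, ?_,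
      LinearMap.ker_codRestrict _ _ _⟩
    · rintro ⟨x, hx⟩
      rw [LinearMap.mem_ker] at hx
      obtain ⟨S, hS⟩ := exists_cmp h x
      have h3 : ∀ t, ∃ c : Fin k → ZM N', c ᵥ* G' = fun l => cmp τ σ t (x l) := by
        intro t
        have h4 : (fun l => cmp τ σ t (x l)) ∈ LinearMap.ker (vm G) := by
          rw [LinearMap.mem_ker]
          change (fun l => cmp τ σ t (x l)) ᵥ* G = 0
          rw [← cmp_vecMul h]
          have h5 : x ᵥ* G.map (mdh φ) = 0 := hx
          rw [h5]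
          funext k
          exact map_zero _
        obtain ⟨c, hc⟩ := hg ⟨_, h4⟩
        exact ⟨c, by rw [← hG', hc]⟩
      choose c hc using h3
      refine ⟨∑ t ∈ S, MonoidAlgebra.single t (1 : ℤ) • fun i => mdh φ (c t i), ?_⟩
      apply Subtype.ext
      change (∑ t ∈ S, MonoidAlgebra.single t (1 : ℤ) • fun i => mdh φ (c t i)) ᵥ*
        G'.map (mdh φ) = x
      rw [Matrix.sum_vecMul]
      funext l
      rw [Finset.sum_apply, hS l]
      refine Finset.sum_congr rfl fun t _ => ?_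
      rw [Matrix.smul_vecMul, Pi.smul_apply, smul_eq_mul, ← congrFun (hc t) l]
      congr 1
      change ∑ i, mdh φ (c t i) * mdh φ (G' i l) = mdh φ (∑ i, c t i * G' i l)
      rw [map_sum]
      exact Finset.sum_congr rfl fun i _ => (map_mul _ _ _).symm
    · ext c
      rw [LinearMap.mem_ker, LinearMap.mem_ker]
      constructor
      · intro hc
        change c ᵥ* G' = 0
        rw [← hG', hc]
        rfl
      · intro hc
        exact Subtype.ext ((hG' c).trans hc)
  induction d with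
  | zero =>
    intro α β _ G hG
    obtain ⟨k, ⟨e⟩⟩ := hG
    obtain ⟨G', F, hF, h1, h2⟩ := step α β G k e.symm.toLinearMap e.symm.surjective
    have h3 : LinearMap.ker (vm G') = ⊥ := by
      rw [← h1]
      exact LinearEquiv.ker e.symm
    have h4 : LinearMap.ker F = ⊥ := by
      rw [h2, LinearMap.ker_eq_bot']
      intro c hc
      obtain ⟨S, hS⟩ := exists_cmp h c
      have h5 : ∀ t, (fun l => cmp τ σ t (c l)) = 0 := by
        intro t
        refine LinearMap.ker_eq_bot'.1 h3 _ ?_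
        change (fun l => cmp τ σ t (c l)) ᵥ* G' = 0
        rw [← cmp_vecMul h]
        have h6 : c ᵥ* G'.map (mdh φ) = 0 := hc
        rw [h6]
        funext k
        exact map_zero _
      funext l
      rw [hS l]
      refine Finset.sum_eq_zero fun t _ => ?_
      have h7 : cmp τ σ t (c l) = 0 := congrFun (h5 t) l
      rw [h7, map_zero, mul_zero]
    exact ⟨k, ⟨(LinearEquiv.ofBijective F ⟨LinearMap.ker_eq_bot.1 h4, hF⟩).symm⟩⟩
  | succ d ih =>
    intro α β _ G hG
    obtain ⟨k, g, hg, hk⟩ := hG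
    obtain ⟨G', F, hF, h1, h2⟩ := step α β G k g hg
    refine ⟨k, F, hF, ?_⟩
    rw [h1] at hk
    rw [h2]
    exact ih (Fin k) α G' hk

theorem Cs.prod {φ : N' →* N} {τ : N → N} {σ : N → N'} (h : Cs φ τ σ) (Z : Type) [Monoid Z] :
    Cs (MonoidHom.prodMap φ (MonoidHom.id Z)) (fun m => (τ m.1, 1)) (fun m => (σ m.1, m.2)) where
  dec m := Prod.ext (h.dec m.1) (one_mul m.2)
  tau m n := Prod.ext (h.tau m.1 n.1) rfl
  sig m n := Prod.ext (h.sig m.1 n.1) rfl

end

theorem rc_of_union {N : Type} [Monoid N]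
    (h : ∀ s : Finset N, ∃ (N' : Type) (_ : Monoid N') (φ : N' →* N) (τ : N → N) (σ : N → N'),
      Cs φ τ σ ∧ (∀ m ∈ s, ∃ a, φ a = m) ∧ RC (ZM N')) : RC (ZM N) := by
  classical
  intro n k f
  let G : Matrix (Fin n) (Fin k) (ZM N) := fun i => f (Pi.single i 1)
  have hf : f = vm G := LinearMap.ext fun x => by
    have h1 := lin_ext f x
    rw [lin_matrix] at h1
    exact h1
  obtain ⟨N', _, φ, τ, σ, hC, hs, hN'⟩ := h (Finset.univ.biUnion fun i => Finset.univ.biUnion fun j =>
    (G i j).coeff.support)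
  have h2 : ∀ i j, ∃ x : ZM N', mdh φ x = G i j := by
    intro i j
    have h3 : ∀ m ∈ (G i j).coeff.support, ∃ a, φ a = m := fun m hm =>
      hs m (Finset.mem_biUnion.2 ⟨i, Finset.mem_univ i, Finset.mem_biUnion.2
        ⟨j, Finset.mem_univ j, hm⟩⟩)
    choose! a ha using h3
    refine ⟨∑ m ∈ (G i j).coeff.support, MonoidAlgebra.single (a m) ((G i j).coeff m), ?_⟩
    rw [map_sum]
    conv_rhs => rw [zm_sum (G i j)]
    exact Finset.sum_congr rfl fun m hm => by rw [mdh_single, ha m hm]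
  choose G₀ hG₀ using h2
  have h3 : (Matrix.of G₀).map (mdh φ) = G := by
    ext1 i j
    exact hG₀ i j
  obtain ⟨d, hd⟩ := hN' n k (vm (Matrix.of G₀))
  refine ⟨d, ?_⟩
  rw [hf, ← h3]
  exact fff_ker hC d _ _ _ hd

theorem exists_cs {H : Type} [Group H] (K : Subgroup H) :
    ∃ (τ : H → H) (σ : H → K), Cs K.subtype τ σ := by
  have h1 : ∀ m : H, ((m : H ⧸ K).out)⁻¹ * m ∈ K := fun m =>
    QuotientGroup.eq.1 (Quotient.out_eq' (m : H ⧸ K))
  have h2 : ∀ (m : H) (n : K), ((m * n : H) : H ⧸ K) = m := fun m n =>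
    QuotientGroup.eq.2 (by
      rw [_root_.mul_inv_rev, mul_assoc, inv_mul_cancel, mul_one]
      exact K.inv_mem n.2)
  refine ⟨fun m => (m : H ⧸ K).out, fun m => ⟨_, h1 m⟩, fun m => ?_, fun m n => ?_, fun m n => ?_⟩
  · exact mul_inv_cancel_left _ _
  · change ((m * n : H) : H ⧸ K).out = _
    rw [h2]
  · apply Subtype.ext
    change (((m * n : H) : H ⧸ K).out)⁻¹ * (m * n) = (((m : H ⧸ K).out)⁻¹ * m) * n
    rw [h2, mul_assoc]

end RCUm

open RCUm in
theorem stRCU : StRCU := by
  classical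
  intro H _ h m
  constructor
  · refine rc_of_union fun s => ?_
    obtain ⟨K, hK, hK'⟩ := h (s.image Prod.fst)
    obtain ⟨τ, σ, hC⟩ := exists_cs K
    refine ⟨K × ZN m, inferInstance, _, _, _, hC.prod (ZN m), fun x hx => ?_, (hK' m).1⟩
    exact ⟨(⟨x.1, hK (Finset.mem_coe.2 (Finset.mem_image_of_mem _ hx))⟩, x.2), rfl⟩
  · refine rc_of_union fun s => ?_
    obtain ⟨K, hK, hK'⟩ := h (s.image fun x => x.1.1)
    obtain ⟨τ, σ, hC⟩ := exists_cs K
    refine ⟨GN (K × ZN m), inferInstance, _, _, _,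
      (hC.prod (ZN m)).prod (Multiplicative ℕ), fun x hx => ?_, (hK' m).2⟩
    have h1 : x.1.1 ∈ K :=
      hK (Finset.mem_coe.2 (Finset.mem_image_of_mem (fun x : GN (H × ZN m) => x.1.1) hx))
    exact ⟨((⟨x.1.1, h1⟩, x.1.2), x.2), rfl⟩

end Pool.Agent.Lib.MP_551055_al.MT
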