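import Mathlib
import Pool.Agent.Lib.MP_551055_al.Trim.LS.Stmts
import Pool.Agent.Lib.MP_551055_al.Trim.MT.Defs
import Pool.Agent.Lib.MP_551055_al.Trim.MT.Trees

/-!
# Many trees, module Flow2: finite combinations of flows
-/

set_option autoImplicit false

namespace Pool.Agent.Lib.MP_551055_al
end Pool.Agent.Lib.MP_551055_al

namespace Pool.Agent.Lib.MP_551055_al.LS
end Pool.Agent.Lib.MP_551055_al.LS

namespace Pool.Agent.Lib.MP_551055_al.MT.Flow2Aux
end Pool.Agent.Lib.MP_551055_al.MT.Flow2Aux

namespace Pool.Agent.Lib.MP_551055_al.MT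

open Pool.Agent.Lib.MP_551055_al

open Pool.Agent.Lib.MP_551055_al.LS (TreeAct side)

namespace Flow2Aux

variable {V : Type} {T : SimpleGraph V} {H : Type} [AddCommGroup H]

/-- Finitely many edges at a vertex carry a flow. -/
theorem fin_at {y : V → V → H} (hy : IsFlow T y) (v : V) :
    (Function.support fun u => y u v).Finite := by
  have h1 : Set.InjOn (fun u : V => (u, v)) ((fun u : V => (u, v)) ⁻¹'
      {e : V × V | y e.1 e.2 ≠ 0}) := fun a _ b _ hab => congrArg Prod.fst hab
  exact hy.fin.preimage h1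

theorem add {y y' : V → V → H} (hy : IsFlow T y) (hy' : IsFlow T y') :
    IsFlow T (fun u v => y u v + y' u v) where
  anti u v := by rw [hy.anti u v, hy'.anti u v, neg_add]
  adj u v h := by rw [hy.adj u v h, hy'.adj u v h, add_zero]
  fin := by
    refine (hy.fin.union hy'.fin).subset fun e he => ?_
    by_contra hn
    rw [Set.mem_union, not_or] at hn
    have h1 : y e.1 e.2 = 0 := not_not.1 hn.1
    have h2 : y' e.1 e.2 = 0 := not_not.1 hn.2
    exact he (by rw [h1, h2, add_zero])

theorem bd_add {y y' : V → V → H} (hy : IsFlow T y) (hy' : IsFlow T y') (v : V) :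
    bd (fun u v => y u v + y' u v) v = bd y v + bd y' v :=
  finsum_add_distrib (fin_at hy v) (fin_at hy' v)

theorem zero : IsFlow T (fun _ _ => (0 : H)) where
  anti _ _ := neg_zero.symm
  adj _ _ _ := rfl
  fin := by
    refine Set.finite_empty.subset fun e he => ?_
    exact absurd rfl he

theorem bd_zero (v : V) : bd (fun _ _ => (0 : H)) v = 0 := finsum_zero

theorem map {H' : Type} [AddCommGroup H'] (f : H →+ H') {y : V → V → H} (hy : IsFlow T y) :
    IsFlow T (fun u v => f (y u v)) where
  anti u v := by rw [hy.anti u v, map_neg]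
  adj u v h := by rw [hy.adj u v h, map_zero]
  fin := by
    refine hy.fin.subset fun e he => ?_
    intro h0
    exact he (by rw [h0, map_zero])

theorem bd_map {H' : Type} [AddCommGroup H'] (f : H →+ H') {y : V → V → H} (hy : IsFlow T y)
    (v : V) : bd (fun u v => f (y u v)) v = f (bd y v) :=
  (AddMonoidHom.map_finsum f (fin_at hy v)).symm

theorem sum (ι : Type) (s : Finset ι) (y : ι → V → V → H) (hy : ∀ a ∈ s, IsFlow T (y a)) :
    IsFlow T (fun u v => ∑ a ∈ s, y a u v) ∧
      ∀ v, bd (fun u v => ∑ a ∈ s, y a u v) v = ∑ a ∈ s, bd (y a) v := by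
  classical
  induction s using Finset.induction_on with
  | empty => exact ⟨zero, fun v => bd_zero v⟩
  | insert a s ha ih =>
    obtain ⟨h1, h2⟩ := ih fun b hb => hy b (Finset.mem_insert_of_mem hb)
    have h3 := hy a (Finset.mem_insert_self a s)
    have h4 : (fun u v => ∑ b ∈ insert a s, y b u v) =
        fun u v => y a u v + ∑ b ∈ s, y b u v := by
      funext u v
      rw [Finset.sum_insert ha]
    rw [h4]
    refine ⟨add h3 h1, fun v => ?_⟩
    rw [bd_add h3 h1, h2, Finset.sum_insert ha]

end Flow2Aux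

open Flow2Aux

theorem stFlow2 : StFlow2 := by
  intro V T H _
  refine ⟨fun y y' hy hy' => ⟨add hy hy', fun v => bd_add hy hy' v⟩, fun y hy => ?_,
    fun H' _ f y hy => ⟨map f hy, fun v => bd_map f hy v⟩,
    fun ι s y hy => sum ι s y hy, ?_, ?_⟩
  · exact ⟨map (-AddMonoidHom.id H) hy, fun v => bd_map (-AddMonoidHom.id H) hy v⟩
  · intro Γ _ _ γ y hT hy
    refine ⟨⟨fun u v => hy.anti _ _, fun u v h => hy.adj _ _ fun h1 => h ?_, ?_⟩, fun v => ?_⟩
    · have h2 := hT.adj γ⁻¹ _ _ h1
      rwa [inv_smul_smul, inv_smul_smul] at h2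
    · have h1 : Set.InjOn (fun e : V × V => (γ • e.1, γ • e.2))
          ((fun e : V × V => (γ • e.1, γ • e.2)) ⁻¹' {e : V × V | y e.1 e.2 ≠ 0}) := by
        intro a _ b _ hab
        exact Prod.ext (MulAction.injective γ (congrArg Prod.fst hab))
          (MulAction.injective γ (congrArg Prod.snd hab))
      exact hy.fin.preimage h1
    · exact finsum_comp_equiv (MulAction.toPerm γ) (f := fun u => y u (γ • v))
  · intro v y hy
    refine ⟨(fin_at hy v).toFinset, fun u hu => (fin_at hy v).mem_toFinset.2 hu, ?_⟩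
    exact finsum_eq_sum_of_support_subset _ (by rw [Set.Finite.coe_toFinset])

end Pool.Agent.Lib.MP_551055_al.MT
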