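import Mathlib
import Pool.Agent.Lib.MP_551055_al.Trim.LS.PFree
import Pool.Agent.Lib.MP_551055_al.Trim.LS.PStmts2
import Pool.Agent.Lib.MP_551055_al.Trim.MT.StA
import Pool.Agent.Lib.MP_551055_al.Trim.MT.StB

/-!
# Module Ab: modules with finite free resolutions over a ring with `RC`
-/

set_option autoImplicit false

namespace Pool.Agent.Lib.MP_551055_al
end Pool.Agent.Lib.MP_551055_al

namespace Pool.Agent.Lib.MP_551055_al.MT

open Pool.Agent.Lib.MP_551055_al

variable {R : Type} [Ring R]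

section

variable {A B C : Type} [AddCommGroup A] [AddCommGroup B] [AddCommGroup C] [Module R A]
  [Module R B] [Module R C]

private theorem ab_ext (i : A →ₗ[R] B) (q : B →ₗ[R] C) (hi : Function.Injective i)
    (hq : Function.Surjective q) (hr : LinearMap.range i = LinearMap.ker q)
    (hA : ∃ d, LS.FFF R d A) (hC : ∃ d, LS.FFF R d C) : ∃ d, LS.FFF R d B := by
  obtain ⟨d, hd⟩ := hA
  obtain ⟨d', hd'⟩ := hC
  exact ⟨max d d', LS.fff_ext (max d d') i q hi hq hr (hd.mono (le_max_left _ _))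
    (hd'.mono (le_max_right _ _))⟩

private theorem ab_cok (i : A →ₗ[R] B) (q : B →ₗ[R] C) (hi : Function.Injective i)
    (hq : Function.Surjective q) (hr : LinearMap.range i = LinearMap.ker q)
    (hA : ∃ d, LS.FFF R d A) (hB : ∃ d, LS.FFF R d B) : ∃ d, LS.FFF R d C := by
  obtain ⟨d, hd⟩ := hA
  obtain ⟨d', hd'⟩ := hB
  exact ⟨max d d' + 1, LS.stPFreeSes R (max d d') A B C i q hi hq hr
    (hd.mono (le_max_left _ _)) (hd'.mono (le_max_right _ _))⟩

private theorem ab_congr (e : A ≃ₗ[R] B) (h : ∃ d, LS.FFF R d A) : ∃ d, LS.FFF R d B := by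
  obtain ⟨d, hd⟩ := h
  exact ⟨d, hd.congr e⟩

private theorem ab_free (n : ℕ) : ∃ d, LS.FFF R d (Fin n → R) :=
  ⟨0, n, ⟨LinearEquiv.refl R _⟩⟩

private theorem ab_cover (h : ∃ d, LS.FFF R d A) :
    ∃ (n : ℕ) (g : (Fin n → R) →ₗ[R] A), Function.Surjective g ∧
      ∃ d, LS.FFF R d (LinearMap.ker g) := by
  obtain ⟨d, hd⟩ := h
  obtain ⟨n, g, hg, hk⟩ := hd.succ
  exact ⟨n, g, hg, d, hk⟩

/-- Schanuel's lemma. -/
private theorem ab_schanuel (h : ∃ d, LS.FFF R d A) (n : ℕ) (g : (Fin n → R) →ₗ[R] A)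
    (hg : Function.Surjective g) : ∃ d, LS.FFF R d (LinearMap.ker g) := by
  obtain ⟨n₀, g₀, hg₀, hk₀⟩ := ab_cover h
  let X : Submodule R ((Fin n → R) × (Fin n₀ → R)) :=
    LinearMap.eqLocus (g ∘ₗ LinearMap.fst R (Fin n → R) (Fin n₀ → R))
      (g₀ ∘ₗ LinearMap.snd R (Fin n → R) (Fin n₀ → R))
  have hX : ∀ z : (Fin n → R) × (Fin n₀ → R), z ∈ X ↔ g z.1 = g₀ z.2 := fun z => Iff.rfl
  have hFX : ∃ d, LS.FFF R d X := by
    let i : LinearMap.ker g₀ →ₗ[R] X :=
      LinearMap.codRestrict X (LinearMap.inr R (Fin n → R) (Fin n₀ → R) ∘ₗ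
        (LinearMap.ker g₀).subtype) fun y => by
          rw [hX]
          change g 0 = g₀ (y : Fin n₀ → R)
          rw [map_zero, LinearMap.mem_ker.1 y.2]
    let q : X →ₗ[R] (Fin n → R) := LinearMap.fst R (Fin n → R) (Fin n₀ → R) ∘ₗ X.subtype
    refine ab_ext i q ?_ ?_ ?_ hk₀ (ab_free n)
    · intro x y hxy
      apply Subtype.ext
      exact congrArg (fun z : X => z.1.2) hxy
    · intro x
      obtain ⟨y, hy⟩ := hg₀ (g x)
      exact ⟨⟨(x, y), (hX _).2 hy.symm⟩, rfl⟩
    · ext z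
      constructor
      · rintro ⟨y, rfl⟩
        rw [LinearMap.mem_ker]
        rfl
      · intro hz
        have h1 : z.1.1 = 0 := LinearMap.mem_ker.1 hz
        have h2 : g₀ z.1.2 = 0 := by
          rw [← (hX z.1).1 z.2, h1, map_zero]
        refine ⟨⟨z.1.2, LinearMap.mem_ker.2 h2⟩, Subtype.ext ?_⟩
        exact Prod.ext h1.symm rfl
  obtain ⟨u, hu⟩ := Module.projective_lifting_property g g₀ hg
  have hu' : ∀ y, g (u y) = g₀ y := fun y => DFunLike.congr_fun hu y
  let i : (Fin n₀ → R) →ₗ[R] X :=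
    LinearMap.codRestrict X (LinearMap.prod u LinearMap.id) fun y => by
      rw [hX]
      exact hu' y
  have hiv : ∀ y, ((i y : X) : (Fin n → R) × (Fin n₀ → R)) = (u y, y) := fun y => rfl
  let q : X →ₗ[R] LinearMap.ker g :=
    LinearMap.codRestrict (LinearMap.ker g)
      ((LinearMap.fst R (Fin n → R) (Fin n₀ → R) -
        u ∘ₗ LinearMap.snd R (Fin n → R) (Fin n₀ → R)) ∘ₗ X.subtype) fun z => by
      rw [LinearMap.mem_ker]
      change g (z.1.1 - u z.1.2) = 0
      rw [map_sub, hu', (hX z.1).1 z.2, sub_self]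
  have hqv : ∀ z : X, ((q z : LinearMap.ker g) : Fin n → R) = z.1.1 - u z.1.2 := fun z => rfl
  refine ab_cok i q ?_ ?_ ?_ (ab_free n₀) hFX
  · intro x y hxy
    exact congrArg (fun z : X => z.1.2) hxy
  · intro x
    have h1 : ((x : Fin n → R), (0 : Fin n₀ → R)) ∈ X := by
      rw [hX]
      change g (x : Fin n → R) = g₀ 0
      rw [map_zero, LinearMap.mem_ker.1 x.2]
    refine ⟨⟨_, h1⟩, Subtype.ext ?_⟩
    rw [hqv]
    change (x : Fin n → R) - u 0 = (x : Fin n → R)
    rw [map_zero, sub_zero]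
  · ext z
    rw [LinearMap.mem_ker]
    constructor
    · rintro ⟨y, rfl⟩
      apply Subtype.ext
      rw [hqv, hiv]
      exact sub_self _
    · intro hz
      have h1 : z.1.1 - u z.1.2 = 0 := by
        rw [← hqv, hz]
        rfl
      refine ⟨z.1.2, Subtype.ext ?_⟩
      rw [hiv]
      exact Prod.ext (sub_eq_zero.1 h1).symm rfl

private theorem ab_rangeOf (g : A →ₗ[R] B) (hk : ∃ d, LS.FFF R d (LinearMap.ker g))
    (hA : ∃ d, LS.FFF R d A) : ∃ d, LS.FFF R d (LinearMap.range g) := by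
  refine ab_cok (LinearMap.ker g).subtype g.rangeRestrict (LinearMap.ker g).injective_subtype
    g.surjective_rangeRestrict ?_ hk hA
  rw [Submodule.range_subtype, LinearMap.ker_rangeRestrict]

/-- Maps from free modules. -/
private theorem ab_free_map (hR : RC R) (hB : ∃ d, LS.FFF R d B) (n : ℕ)
    (f : (Fin n → R) →ₗ[R] B) :
    (∃ d, LS.FFF R d (LinearMap.range f)) ∧ ∃ d, LS.FFF R d (B ⧸ LinearMap.range f) := by
  obtain ⟨m, b, hb, hkb⟩ := ab_cover hB
  obtain ⟨φ, hφ⟩ := Module.projective_lifting_property b f hb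
  have hφ' : ∀ x, b (φ x) = f x := fun x => DFunLike.congr_fun hφ x
  obtain ⟨k, ψ, hψ, -⟩ := ab_cover hkb
  let e : (Fin (n + k) → R) ≃ₗ[R] (Fin n → R) × (Fin k → R) :=
    (LinearEquiv.funCongrLeft R R finSumFinEquiv).trans
      (LinearEquiv.sumArrowLequivProdArrow (Fin n) (Fin k) R R)
  let χ : (Fin (n + k) → R) →ₗ[R] (Fin m → R) :=
    LinearMap.coprod φ ((LinearMap.ker b).subtype ∘ₗ ψ) ∘ₗ e.toLinearMap
  have hχ : ∀ z, χ z = φ (e z).1 + (ψ (e z).2 : Fin m → R) := fun z => rfl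
  have hK : LinearMap.range χ = (LinearMap.range f).comap b := by
    ext y
    rw [Submodule.mem_comap]
    constructor
    · rintro ⟨z, rfl⟩
      refine ⟨(e z).1, ?_⟩
      rw [hχ, map_add, hφ', LinearMap.mem_ker.1 (ψ (e z).2).2, add_zero]
    · rintro ⟨x, hx⟩
      have h1 : y - φ x ∈ LinearMap.ker b := by
        rw [LinearMap.mem_ker, map_sub, hφ', hx, sub_self]
      obtain ⟨w, hw⟩ := hψ ⟨_, h1⟩
      refine ⟨e.symm (x, w), ?_⟩
      rw [hχ, LinearEquiv.apply_symm_apply]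
      change φ x + (ψ w : Fin m → R) = y
      rw [hw]
      exact add_sub_cancel _ _
  have hFK : ∃ d, LS.FFF R d (LinearMap.range χ) :=
    ab_rangeOf χ (hR (n + k) m χ) (ab_free (n + k))
  constructor
  · let i : LinearMap.ker b →ₗ[R] LinearMap.range χ :=
      LinearMap.codRestrict (LinearMap.range χ) (LinearMap.ker b).subtype fun y => by
        rw [hK, Submodule.mem_comap]
        change b (y : Fin m → R) ∈ LinearMap.range f
        rw [LinearMap.mem_ker.1 y.2]
        exact zero_mem _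
    have hiv : ∀ y, ((i y : LinearMap.range χ) : Fin m → R) = (y : Fin m → R) := fun y => rfl
    let q : LinearMap.range χ →ₗ[R] LinearMap.range f :=
      LinearMap.codRestrict (LinearMap.range f) (b ∘ₗ (LinearMap.range χ).subtype) fun y => by
        change b (y : Fin m → R) ∈ LinearMap.range f
        rw [← Submodule.mem_comap, ← hK]
        exact y.2
    have hqv : ∀ y, ((q y : LinearMap.range f) : B) = b (y : Fin m → R) := fun y => rfl
    refine ab_cok i q ?_ ?_ ?_ hkb hFK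
    · intro x y hxy
      apply Subtype.ext
      exact congrArg (fun z : LinearMap.range χ => (z : Fin m → R)) hxy
    · rintro ⟨y, x, rfl⟩
      have h1 : φ x ∈ LinearMap.range χ := by
        rw [hK, Submodule.mem_comap, hφ']
        exact ⟨x, rfl⟩
      refine ⟨⟨_, h1⟩, Subtype.ext ?_⟩
      rw [hqv]
      exact hφ' x
    · ext z
      rw [LinearMap.mem_ker]
      constructor
      · rintro ⟨y, rfl⟩
        apply Subtype.ext
        rw [hqv, hiv]
        exact LinearMap.mem_ker.1 y.2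
      · intro hz
        have h1 : b (z : Fin m → R) = 0 := by
          rw [← hqv, hz]
          rfl
        exact ⟨⟨_, LinearMap.mem_ker.2 h1⟩, Subtype.ext rfl⟩
  · refine ab_cok (LinearMap.range χ).subtype ((LinearMap.range f).mkQ ∘ₗ b)
      (LinearMap.range χ).injective_subtype
      ((Submodule.mkQ_surjective _).comp hb) ?_ hFK (ab_free m)
    rw [Submodule.range_subtype, hK, LinearMap.ker_comp, Submodule.ker_mkQ]

private theorem ab_map (hR : RC R) (f : A →ₗ[R] B) (hA : ∃ d, LS.FFF R d A)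
    (hB : ∃ d, LS.FFF R d B) :
    (∃ d, LS.FFF R d (LinearMap.ker f)) ∧ (∃ d, LS.FFF R d (LinearMap.range f)) ∧
      ∃ d, LS.FFF R d (B ⧸ LinearMap.range f) := by
  obtain ⟨n, a, ha, hka⟩ := ab_cover hA
  have hr : LinearMap.range (f ∘ₗ a) = LinearMap.range f :=
    LinearMap.range_comp_of_range_eq_top f (LinearMap.range_eq_top.2 ha)
  obtain ⟨h1, h2⟩ := ab_free_map hR hB n (f ∘ₗ a)
  refine ⟨?_, ab_congr (LinearEquiv.ofEq _ _ hr) h1,
    ab_congr (Submodule.quotEquivOfEq _ _ hr) h2⟩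
  have h3 : ∃ d, LS.FFF R d (LinearMap.ker (f ∘ₗ a)) := by
    have h4 := ab_schanuel h1 n (f ∘ₗ a).rangeRestrict (f ∘ₗ a).surjective_rangeRestrict
    rw [LinearMap.ker_rangeRestrict] at h4
    exact h4
  obtain ⟨i', q', hi', hq', hr'⟩ := LS.exists_ker_comp (LinearMap.ker f).subtype f
    (LinearMap.ker f).injective_subtype (Submodule.range_subtype _) a ha
  exact ab_cok i' q' hi' hq' hr' hka h3

end

/-- Module Ab. -/
theorem stAb : StAb := fun _ _ =>
  ⟨fun _ _ _ h n g hg => ab_schanuel h n g hg, fun hR _ _ _ _ _ _ f hA hB => ab_map hR f hA hB⟩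

end Pool.Agent.Lib.MP_551055_al.MT
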