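import Mathlib
import Pool.Agent.Lib.MP_551055_al.Trim.LS.PStmts
import Pool.Agent.Lib.MP_551055_al.Trim.LS.Stmts
import Pool.Agent.Lib.MP_551055_al.Trim.MT.Defs
import Pool.Agent.Lib.MP_551055_al.Trim.MT.Gen
import Pool.Agent.Lib.MP_551055_al.Trim.MT.StA
import Pool.Agent.Lib.MP_551055_al.Trim.MT.StB
import Pool.Agent.Lib.MP_551055_al.Trim.MT.StC
import Pool.Agent.Lib.MP_551055_al.Trim.MT.Trees
import Pool.Agent.Lib.MP_551055_al.Trim.VNDefs

/-!
# Many trees: the assembly of the main theorem
-/

set_option autoImplicit false

namespace Pool.Agent.Lib.MP_551055_al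
end Pool.Agent.Lib.MP_551055_al

namespace Pool.Agent.Lib.MP_551055_al.LS
end Pool.Agent.Lib.MP_551055_al.LS

namespace Pool.Agent.Lib.MP_551055_al.MT

open Pool.Agent.Lib.MP_551055_al

open Pool.Agent.Lib.MP_551055_al.LS (TreeAct side ZN PolyZ)

open Matrix

theorem stMain (hR3 : StR3) (hPF : StPF) (hStep : StStep) (hLat : StLat)
    (hCen : StCen) (hFin : StFin) : StMain := by
  classical
  intro G _ D _ V _ T h hst n
  cases nonempty_fintype D
  let π : G × ZN n →* G := MonoidHom.fst G (ZN n)
  have hgood : Good (SP h) π := by
    intro A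
    have h1 : RCs (MulAction.stabilizer G A) := by
      choose v hv using fun i => hCen G (V i) (T i) (h i) (A i)
      refine hst v _ fun γ hγ i => hv i γ ?_
      exact congrFun (MulAction.mem_stabilizer_iff.1 hγ) i
    refine hR3.1 _ _ ?_ (hR3.2.1 _ h1 n)
    exact
      { toFun := fun x => ⟨(x.1.1, x.2), x.1.2⟩
        invFun := fun x => (⟨x.1.1, x.2⟩, x.1.2)
        left_inv := fun _ => rfl
        right_inv := fun _ => rfl
        map_mul' := fun _ _ => rfl }
  have hR := fun (G' : Type) [Group G'] (π' : G' →* G) (h' : Good (SP h) π') =>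
    hR3.2.2.1 G D (SP h) G' π' h'
  have hstep := hStep G D (SP h) (fun G' _ π' h' => (hR G' π' h').2.2)
    (fun G' _ π' h' => hLat G D V T h G' π' (hR G' π' h').2.1)
  have huniv : SU G (SP h) Finset.univ := hPF G D (SP h) fun G' _ π' h' => (hR G' π' h').1
  have hall : ∀ s : Finset D, SU G (SP h) (Finset.univ \ s) := by
    intro s
    induction s using Finset.induction_on with
    | empty => rw [Finset.sdiff_empty]; exact huniv
    | insert j s hj ih =>
      refine hstep (Finset.univ \ insert j s) j ?_ ?_
      · intro h1
        exact (Finset.mem_sdiff.1 h1).2 (Finset.mem_insert_self j s)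
      · have h2 : insert j (Finset.univ \ insert j s) = Finset.univ \ s := by
          ext i
          simp only [Finset.mem_insert, Finset.mem_sdiff, Finset.mem_univ, true_and, not_or]
          constructor
          · rintro (rfl | h3)
            · exact hj
            · exact h3.2
          · intro h3
            by_cases hij : i = j
            · exact Or.inl hij
            · exact Or.inr ⟨hij, h3⟩
        rw [h2]
        exact ih
  have hempty := hall Finset.univ
  rw [Finset.sdiff_self] at hempty
  exact hFin G D (SP h) (G × ZN n) π hgood hempty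

end Pool.Agent.Lib.MP_551055_al.MT
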