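import Mathlib
import Pool.Agent.Lib.MP_551055_al.Trim.MT.Base
import Pool.Agent.Lib.MP_551055_al.Trim.MT.Defs
import Pool.Agent.Lib.MP_551055_al.Trim.MT.StA

/-!
# Many trees: module CC (contractible cones)
-/

set_option autoImplicit false

namespace Pool.Agent.Lib.MP_551055_al
end Pool.Agent.Lib.MP_551055_al

namespace Pool.Agent.Lib.MP_551055_al.MT

open Pool.Agent.Lib.MP_551055_al

open Matrix

section

variable {Γ : Type} [Group Γ] {D : Type} {P : D → Type} [∀ i, PartialOrder (P i)]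
  [∀ i, MulAction Γ (P i)] {N : Type} [Monoid N]

variable {π : N →* Γ} {U U' : Finset D} {X Y Z W : Co P N}

/-- The blocks of a controlled matrix between cones. -/
theorem Ct.of_blocks {X' Y' : Co P N} {f : Matrix X.ι Y.ι (ZM N)} {f' : Matrix X'.ι Y'.ι (ZM N)}
    {r : ℤ} {a : Matrix X.ι X'.ι (ZM N)} {b : Matrix X.ι Y'.ι (ZM N)}
    {c : Matrix Y.ι X'.ι (ZM N)} {d : Matrix Y.ι Y'.ι (ZM N)}
    (h : Ct π U r (cone X Y f).toOb (cone X' Y' f').toOb (Matrix.fromBlocks a b c d)) :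
    Ct π U r X.toOb X'.toOb a ∧ Ct π U (r + 1) X.toOb Y'.toOb b ∧
      Ct π U (r - 1) Y.toOb X'.toOb c ∧ Ct π U r Y.toOb Y'.toOb d := by
  refine ⟨fun l k m hm => ?_, fun l k m hm => ?_, fun l k m hm => ?_, fun l k m hm => ?_⟩
  · obtain ⟨h1, h2⟩ := h (Sum.inl l) (Sum.inl k) m hm
    have h3 : X'.deg k + 1 = X.deg l + 1 + r := h1
    exact ⟨by omega, h2⟩
  · obtain ⟨h1, h2⟩ := h (Sum.inl l) (Sum.inr k) m hm
    have h3 : Y'.deg k = X.deg l + 1 + r := h1
    exact ⟨by omega, h2⟩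
  · obtain ⟨h1, h2⟩ := h (Sum.inr l) (Sum.inl k) m hm
    have h3 : X'.deg k + 1 = Y.deg l + r := h1
    exact ⟨by omega, h2⟩
  · exact h (Sum.inr l) (Sum.inr k) m hm

end

/-- Module CC. -/
theorem stCC : StCC := by
  intro Γ _ D P _ _ _ N _ π U X Y f hf
  constructor
  · intro g hg hfg hgf
    obtain ⟨h, hh, e1⟩ := hfg
    obtain ⟨k, hk, e2⟩ := hgf
    -- `f g - 1 = D h`, `g f - 1 = D k`
    obtain ⟨ν, hνd⟩ : ∃ ν, ν = h * f - f * k := ⟨_, rfl⟩
    have hνc : Ct π U 1 X.toOb Y.toOb ν := by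
      rw [hνd]
      exact (hh.mul' hf.1 (add_zero 1)).sub (hf.1.mul' hk (zero_add 1))
    have hν : X.d * ν + ν * Y.d = 0 := by
      have a1 : X.d * (f * k) = f * (Y.d * k) := by rw [← Matrix.mul_assoc, hf.2, Matrix.mul_assoc]
      have a2 : h * (f * Y.d) = h * (X.d * f) := by rw [hf.2]
      have h1 : X.d * ν + ν * Y.d = (X.d * h + h * X.d) * f - f * (Y.d * k + k * Y.d) := by
        rw [hνd]
        simp only [Matrix.mul_sub, Matrix.sub_mul, Matrix.add_mul, Matrix.mul_add,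
          Matrix.mul_assoc, a1, a2]
        abel
      rw [h1, ← e1, ← e2, Matrix.sub_mul, Matrix.mul_sub, Matrix.one_mul, Matrix.mul_one,
        Matrix.mul_assoc, sub_self]
    have hν' : ν * Y.d = -(X.d * ν) := by
      rw [eq_neg_iff_add_eq_zero, add_comm]
      exact hν
    have e1' : f * g = X.d * h + h * X.d + 1 := by rw [← e1, sub_add_cancel]
    have e2' : g * f = Y.d * k + k * Y.d + 1 := by rw [← e2, sub_add_cancel]
    have e3 : Y.d * g = g * X.d := hg.2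
    have a3 : f * (g * ν) = X.d * (h * ν) + h * (X.d * ν) + ν := by
      rw [← Matrix.mul_assoc, e1', Matrix.add_mul, Matrix.add_mul, Matrix.one_mul,
        Matrix.mul_assoc, Matrix.mul_assoc]
    have a4 : Y.d * (g * ν) = g * (X.d * ν) := by rw [← Matrix.mul_assoc, e3, Matrix.mul_assoc]
    have a5 : f * k = h * f - ν := by rw [hνd]; abel
    refine ⟨Matrix.fromBlocks h (-(h * ν)) g (-(g * ν) - k), ?_, ?_⟩
    · refine Ct.blocks hh (hh.mul' hνc rfl).neg hg.1 ?_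
      exact ((hg.1.mul' hνc (zero_add 1)).neg).sub hk
    · change 1 = Matrix.fromBlocks (-X.d) f 0 Y.d * _ + _ * Matrix.fromBlocks (-X.d) f 0 Y.d
      rw [Matrix.fromBlocks_multiply, Matrix.fromBlocks_multiply, Matrix.fromBlocks_add,
        ← Matrix.fromBlocks_one]
      congr 1
      · rw [e1', Matrix.mul_zero, add_zero, Matrix.neg_mul, Matrix.mul_neg]
        abel
      · simp only [Matrix.neg_mul, Matrix.mul_neg, Matrix.mul_sub, Matrix.sub_mul,
          Matrix.mul_assoc, hν', a3, a5, neg_neg]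
        abel
      · rw [Matrix.zero_mul, zero_add, Matrix.mul_zero, add_zero, Matrix.mul_neg, e3,
          add_neg_cancel]
      · simp only [Matrix.neg_mul, Matrix.mul_neg, Matrix.mul_sub, Matrix.sub_mul,
          Matrix.mul_assoc, Matrix.zero_mul, hν', a4, e2', neg_neg]
        abel
  · rintro ⟨c, hc, e⟩
    have hcb : c = Matrix.fromBlocks c.toBlocks₁₁ c.toBlocks₁₂ c.toBlocks₂₁ c.toBlocks₂₂ :=
      (Matrix.fromBlocks_toBlocks c).symm
    rw [hcb] at hc e
    obtain ⟨h1, h2, h3, h4⟩ := Ct.of_blocks hc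
    change 1 = Matrix.fromBlocks (-X.d) f 0 Y.d * _ + _ * Matrix.fromBlocks (-X.d) f 0 Y.d at e
    rw [Matrix.fromBlocks_multiply, Matrix.fromBlocks_multiply, Matrix.fromBlocks_add,
      ← Matrix.fromBlocks_one] at e
    obtain ⟨e1, -, e3, e4⟩ := Matrix.fromBlocks_inj.1 e
    refine ⟨c.toBlocks₂₁, ⟨h3, ?_⟩, ⟨c.toBlocks₁₁, h1, ?_⟩, ⟨-c.toBlocks₂₂, h4.neg, ?_⟩⟩
    · rw [Matrix.zero_mul, zero_add, Matrix.mul_zero, add_zero, Matrix.mul_neg] at e3
      exact (add_neg_eq_zero.1 e3.symm)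
    · rw [Matrix.mul_zero, add_zero, Matrix.neg_mul, Matrix.mul_neg] at e1
      rw [e1]
      abel
    · rw [Matrix.zero_mul, zero_add] at e4
      rw [e4, Matrix.mul_neg, Matrix.neg_mul]
      abel

end Pool.Agent.Lib.MP_551055_al.MT
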