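import Mathlib
import Pool.Agent.Lib.MP_551055_al.Trim.MT.Defs
import Pool.Agent.Lib.MP_551055_al.Trim.MT.Gen
import Pool.Agent.Lib.MP_551055_al.Trim.MT.StB
import Pool.Agent.Lib.MP_551055_al.Trim.MT.Tg

/-!
# Many trees: module CW (CW approximations)
-/

set_option autoImplicit false

namespace Pool.Agent.Lib.MP_551055_al
end Pool.Agent.Lib.MP_551055_al

namespace Pool.Agent.Lib.MP_551055_al.MT

open Pool.Agent.Lib.MP_551055_al

open Matrix

section

variable {Γ : Type} [Group Γ] {D : Type} {P : D → Type} [∀ i, PartialOrder (P i)]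
  [∀ i, MulAction Γ (P i)] {N : Type} [Monoid N]

/-- `T` is exact in the degrees in which `K` has no basis elements. -/
private theorem cw_exact {π : N →* Γ} {U : Finset D} {T : Tg P π U} {K : Co P N}
    {e : Matrix K.ι K.ι (ZM N)} (h : IsoL T K e) {q : ℤ} (hq : ∀ l, K.deg l ≠ q) (B : Sz P) :
    T.Zc q B ≤ T.Bc q B := by
  obtain ⟨u, v, r, s, -, hv, hr, -, -, -, -, huv⟩ := h
  intro y hy
  have h1 : v y = 0 := by
    funext l
    apply MonoidAlgebra.coeff_injective
    ext m
    by_contra hn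
    exact hq l (hv B q y hy.1 l m hn).1
  have h2 := huv y
  rw [h1, map_zero, hy.2, map_zero, add_zero] at h2
  refine ⟨-(r y), AddSubgroup.neg_mem _ (hr B q y hy.1), ?_⟩
  rw [map_neg]
  exact (eq_neg_of_add_eq_zero_left h2.symm).symm

/-- The empty complex. -/
private noncomputable def cwE (P : D → Type) (N : Type) [Monoid N] : Co P N where
  ι := Empty
  ft := inferInstance
  de := inferInstance
  deg := fun l => l.elim
  sz := fun l => l.elim
  d := 0

end

/-- Module CW. -/
theorem stCW (hStep : StCWStep) (hFin : StCWFin) : StCW := by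
  intro Γ _ D _ P _ _ _ _ N _ π hπ hN T K e hK hi
  obtain ⟨a, ha⟩ := (Set.finite_range K.deg).bddBelow
  obtain ⟨b, hb⟩ := (Set.finite_range K.deg).bddAbove
  have ha' : ∀ l, a ≤ K.deg l := fun l => ha ⟨l, rfl⟩
  have hb' : ∀ l, K.deg l ≤ b := fun l => hb ⟨l, rfl⟩
  have h0 : CWP T a (a - 1) (cwE P N) (fun l => l.elim) := by
    refine ⟨⟨fun l => l.elim, ?_⟩, ⟨fun l => l.elim, ?_⟩, fun l => l.elim, fun l => l.elim, ?_,
      ?_⟩
    · exact Matrix.ext fun l => l.elim
    · intro x
      have hx : x = 0 := funext fun l => l.elim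
      rw [hx, Matrix.zero_vecMul, map_zero, map_zero]
    · intro q hq B y hy
      refine ⟨0, AddSubgroup.zero_mem _, ?_⟩
      rw [map_zero, zero_sub]
      refine AddSubgroup.neg_mem _ (cw_exact hi (fun l hl => ?_) B hy)
      have := ha' l
      omega
    · intro q _ B x _ _
      have hx : x = 0 := funext fun l => l.elim
      rw [hx]
      exact AddSubgroup.zero_mem _
  have h1 : ∀ m : ℕ, ∃ (Q : Co P N) (g : Q.ι → T.V), CWP T a (a - 1 + m) Q g := by
    intro m
    induction m with
    | zero => exact ⟨_, _, by rw [Nat.cast_zero, add_zero]; exact h0⟩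
    | succ m ih =>
      obtain ⟨Q, g, hQ⟩ := ih
      obtain ⟨Q', g', h2⟩ := hStep Γ D P N π hπ hN T K e hK hi a _ Q g (by omega) hQ
      exact ⟨Q', g', by rw [Nat.cast_succ, ← add_assoc]; exact h2⟩
  obtain ⟨Q, g, hQ⟩ := h1 (max (b + 1) a - (a - 1)).toNat
  have h3 : a - 1 + ((max (b + 1) a - (a - 1)).toNat : ℤ) = max (b + 1) a := by omega
  rw [h3] at hQ
  refine hFin Γ D P N π hπ hN T a _ Q g hQ fun q hq B => cw_exact hi (fun l hl => ?_) B
  have := hb' l
  omega

end Pool.Agent.Lib.MP_551055_al.MT
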