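import Mathlib
import Pool.Agent.Lib.MP_551055_al.Trim.MT.Base
import Pool.Agent.Lib.MP_551055_al.Trim.MT.Defs
import Pool.Agent.Lib.MP_551055_al.Trim.MT.Gen
import Pool.Agent.Lib.MP_551055_al.Trim.MT.StB
import Pool.Agent.Lib.MP_551055_al.Trim.MT.Tg

/-!
# Many trees: attaching the final resolution to a CW approximation
-/

set_option autoImplicit false

namespace Pool.Agent.Lib.MP_551055_al
end Pool.Agent.Lib.MP_551055_al

namespace Pool.Agent.Lib.MP_551055_al.MT

open Pool.Agent.Lib.MP_551055_al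

open Matrix

section

variable {Γ : Type} [Group Γ] {D : Type} {P : D → Type} [∀ i, PartialOrder (P i)]
  [∀ i, MulAction Γ (P i)] {N : Type} [Monoid N]

/-- `Q` with `R` attached along `r`. -/
private noncomputable abbrev cwfQ (Q R : Co P N) (r : Matrix R.ι Q.ι (ZM N)) : Co P N where
  ι := Q.ι ⊕ R.ι
  ft := inferInstance
  de := inferInstance
  deg := Sum.elim Q.deg R.deg
  sz := Sum.elim Q.sz R.sz
  d := Matrix.fromBlocks Q.d 0 r R.d

omit [∀ i, PartialOrder (P i)] [∀ i, MulAction Γ (P i)] in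
private theorem cwf_vecMul (Q R : Co P N) (r : Matrix R.ι Q.ι (ZM N)) (x : Q.ι → ZM N)
    (y : R.ι → ZM N) :
    Sum.elim x y ᵥ* (cwfQ Q R r).d = Sum.elim (x ᵥ* Q.d + y ᵥ* r) (y ᵥ* R.d) := by
  change Sum.elim x y ᵥ* Matrix.fromBlocks Q.d 0 r R.d = _
  rw [Matrix.vecMul_fromBlocks]
  congr 1
  · change (x ᵥ* (0 : Matrix Q.ι R.ι (ZM N))) + y ᵥ* R.d = y ᵥ* R.d
    rw [Matrix.vecMul_zero, zero_add]

private theorem cwf_fam {π : N →* Γ} {U : Finset D} {Q R : Co P N} {r : Matrix R.ι Q.ι (ZM N)}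
    {B : Sz P} {q : ℤ} {x : Q.ι → ZM N} {y : R.ι → ZM N} :
    Sum.elim x y ∈ fam π U (cwfQ Q R r).toOb B q ↔
      x ∈ fam π U Q.toOb B q ∧ y ∈ fam π U R.toOb B q := by
  constructor
  · intro h
    exact ⟨fun l m hm => h (Sum.inl l) m hm, fun l m hm => h (Sum.inr l) m hm⟩
  · rintro ⟨h1, h2⟩ (l | l) m hm
    · exact h1 l m hm
    · exact h2 l m hm

/-- Vectors without admissible basis elements vanish. -/
private theorem cwf_zero {π : N →* Γ} {U : Finset D} {X : Ob P} {B : Sz P} {q : ℤ}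
    {x : X.ι → ZM N} (hx : x ∈ fam π U X B q) (h : ∀ l, X.deg l ≠ q) : x = 0 := by
  funext l
  apply MonoidAlgebra.coeff_injective
  ext m
  by_contra hm
  exact h l (hx l m hm).1

private theorem cwf_lin {ι κ : Type} [Fintype ι] [Fintype κ] {V : Type} [AddCommGroup V]
    [Module (ZM N) V] (g : ι → V) (s : κ → V) (x : ι → ZM N) (y : κ → ZM N) :
    lin (N := N) (Sum.elim g s) (Sum.elim x y) = lin (N := N) g x + lin (N := N) s y := by
  rw [lin_apply, lin_apply, lin_apply, Fintype.sum_sum_type]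
  rfl

private theorem cwf_lin_mat {ι κ : Type} [Fintype ι] [Fintype κ] {V : Type} [AddCommGroup V]
    [Module (ZM N) V] (g : κ → V) (r : Matrix ι κ (ZM N)) (x : ι → ZM N) :
    lin (N := N) (fun l => lin (N := N) g (r l)) x = lin (N := N) g (x ᵥ* r) := by
  have h : x ᵥ* r = ∑ k, x k • r k := by
    funext j
    rw [Finset.sum_apply]
    rfl
  rw [h, map_sum, lin_apply]
  exact Finset.sum_congr rfl fun k _ => by rw [map_smul]

end

theorem stCWFin (hKer : StKer) (hSolve : StSolve) : StCWFin := by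
  intro Γ _ D _ P _ _ _ _ N _ π hUL hHN T a n Q g hQ hex
  obtain ⟨R, r, hR, hRdeg, hrc, hdr, hrL, hrsur, hrinj, hRex⟩ :=
    hKer Γ D P N π hUL hHN Q.toOb Q.toOb (-1) Q.d hQ.cx.1 n (n + 1)
  -- rows of `r`
  have hrow0 : ∀ l, R.deg l ≠ n + 1 → r l = 0 := by
    intro l hl
    funext k
    apply MonoidAlgebra.coeff_injective
    ext m
    by_contra hm
    exact hl (hrc l k m hm).1
  have hrow : ∀ l, r l ∈ ZC π Finset.univ Q n (R.sz l) := by
    intro l
    by_cases hl : R.deg l = n + 1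
    · have h1 := hrL (R.sz l) (Pi.single l 1) (by
        rw [← hl]
        exact basis_mem_fam l)
      rwa [Matrix.single_one_vecMul] at h1
    · rw [hrow0 l hl]
      exact AddSubgroup.zero_mem _
  have hrd : r * Q.d = 0 := by
    funext l
    exact (hrow l).2
  -- vectors of degree `≠ n + 1` are killed by `r`
  have hkill : ∀ (B : Sz P) (q : ℤ) (y : R.ι → ZM N), q ≠ n + 1 →
      y ∈ fam π Finset.univ R.toOb B q → y ᵥ* r = 0 := by
    intro B q y hq hy
    funext k
    apply MonoidAlgebra.coeff_injective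
    ext m
    by_contra hm
    obtain ⟨j, c, d, hc, hd, -⟩ := coeff_vecMul_ne hm
    exact hq ((hy j c hc).1.symm.trans (hrc j k d hd).1)
  obtain ⟨s, hs, hsd⟩ := hSolve Γ D P N π Finset.univ R T hR 1 0
    (fun l => lin (N := N) g (r l)) (fun l => by
      by_cases hl : R.deg l = n + 1
      · rw [hl, add_zero, add_sub_cancel_right]
        exact hQ.ch.mem (hrow l).1
      · have h1 : lin (N := N) g (r l) = 0 := by rw [hrow0 l hl, map_zero]
        rw [h1]
        exact AddSubgroup.zero_mem _) (fun x => by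
      rw [cwf_lin_mat, cwf_lin_mat, ← hQ.ch.2, Matrix.vecMul_vecMul, Matrix.vecMul_vecMul, hrd,
        hdr, Matrix.vecMul_zero, map_zero, smul_zero, neg_zero]) (fun l =>
      hex _ (by have := hRdeg l; omega) _)
  have hgs : ∀ (x : Q.ι → ZM N) (y : R.ι → ZM N),
      lin (N := N) (Sum.elim g s) (Sum.elim x y) = lin (N := N) g x + lin (N := N) s y :=
    fun x y => cwf_lin g s x y
  have hsplit : ∀ z : (cwfQ Q R r).ι → ZM N,
      ∃ (x : Q.ι → ZM N) (y : R.ι → ZM N), z = Sum.elim x y := fun z =>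
    ⟨fun l => z (Sum.inl l), fun l => z (Sum.inr l), by
      funext l
      rcases l with l | l <;> rfl⟩
  have hch : ChT (cwfQ Q R r) T (Sum.elim g s) := by
    constructor
    · rintro (l | l)
      · exact hQ.ch.1 l
      · have h1 := hs l
        rw [add_zero] at h1
        exact h1
    · intro z
      obtain ⟨x, y, rfl⟩ := hsplit z
      rw [cwf_vecMul, hgs, hgs, map_add, map_add, hQ.ch.2, hsd, cwf_lin_mat, one_smul, add_assoc]
  have hdl : ∀ (B : Sz P) (q : ℤ), q ≤ n → ∀ y ∈ fam π Finset.univ R.toOb B q, y = 0 :=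
    fun B q hq y hy => cwf_zero hy fun l => by have := hRdeg l; omega
  have hdh : ∀ (B : Sz P) (q : ℤ), n < q → ∀ x ∈ fam π Finset.univ Q.toOb B q, x = 0 :=
    fun B q hq y hy => cwf_zero hy fun l => by have := hQ.hi l; omega
  -- high degrees
  have hhigh : ∀ (B : Sz P) (q : ℤ), n < q → ∀ y ∈ BC π Finset.univ R q B,
      Sum.elim (0 : Q.ι → ZM N) y ∈ BC π Finset.univ (cwfQ Q R r) q B := by
    rintro B q hq _ ⟨y, hy, rfl⟩
    refine ⟨Sum.elim (0 : Q.ι → ZM N) y, cwf_fam.2 ⟨AddSubgroup.zero_mem _, hy⟩, ?_⟩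
    rw [cwf_vecMul, Matrix.zero_vecMul, zero_add, hkill B (q + 1) y (by omega) hy]
  refine ⟨cwfQ Q R r, Sum.elim g s, ⟨?_, ?_⟩, hch, ?_, ?_⟩
  · rintro (l | l) (k | k) m hm
    · exact hQ.cx.1 l k m hm
    · exact absurd rfl hm
    · obtain ⟨h1, h2, h3⟩ := hrc l k m hm
      exact ⟨by change Q.deg k = R.deg l + -1; omega, fun i _ => h3 i⟩
    · exact hR.1 l k m hm
  · change Matrix.fromBlocks Q.d 0 r R.d * Matrix.fromBlocks Q.d 0 r R.d = 0
    rw [Matrix.fromBlocks_multiply, hQ.cx.2, hR.2, hrd, hdr, Matrix.mul_zero, Matrix.zero_mul,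
      Matrix.mul_zero, Matrix.zero_mul, add_zero, add_zero, add_zero, add_zero,
      Matrix.fromBlocks_zero]
  · intro q B z hz hzb
    obtain ⟨x, y, rfl⟩ := hsplit z
    obtain ⟨hz1, hz2⟩ := hz
    obtain ⟨hx, hy⟩ := cwf_fam.1 hz1
    rw [cwf_vecMul] at hz2
    have hz3 : x ᵥ* Q.d + y ᵥ* r = 0 := by
      funext l
      exact congrFun hz2 (Sum.inl l)
    have hz4 : y ᵥ* R.d = 0 := by
      funext l
      exact congrFun hz2 (Sum.inr l)
    rcases le_or_gt q n with hq | hq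
    · have hy0 := hdl B q hq y hy
      subst hy0
      rw [Matrix.zero_vecMul, add_zero] at hz3
      rcases hq.lt_or_eq with hq | rfl
      · rw [hgs, map_zero, add_zero] at hzb
        obtain ⟨x', hx', rfl⟩ := hQ.inj q hq B x ⟨hx, hz3⟩ hzb
        refine ⟨Sum.elim x' 0, cwf_fam.2 ⟨hx', AddSubgroup.zero_mem _⟩, ?_⟩
        rw [cwf_vecMul, Matrix.zero_vecMul, Matrix.zero_vecMul, add_zero]
      · obtain ⟨y', hy', rfl⟩ := hrsur B x ⟨hx, hz3⟩
        refine ⟨Sum.elim 0 y', cwf_fam.2 ⟨AddSubgroup.zero_mem _, hy'⟩, ?_⟩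
        rw [cwf_vecMul, Matrix.zero_vecMul, zero_add,
          hdl B q le_rfl (y' ᵥ* R.d) (fam_vecMul' hR.1 hy' (by ring))]
    · have hx0 := hdh B q hq x hx
      subst hx0
      rw [Matrix.zero_vecMul, zero_add] at hz3
      refine hhigh B q hq y ?_
      rcases (Int.add_one_le_iff.2 hq).lt_or_eq with h1 | rfl
      · exact hRex q h1 B ⟨hy, hz4⟩
      · exact hrinj B y hy hz3
  · intro q B y hy
    rcases le_or_gt q n with hq | hq
    · obtain ⟨x, hx, hxy⟩ := hQ.sur q hq B y hy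
      refine ⟨Sum.elim x 0, ⟨cwf_fam.2 ⟨hx.1, AddSubgroup.zero_mem _⟩, ?_⟩, ?_⟩
      · rw [cwf_vecMul, Matrix.zero_vecMul, Matrix.zero_vecMul, add_zero, hx.2]
        funext l
        rcases l with l | l <;> rfl
      · rw [hgs, map_zero, add_zero]
        exact hxy
    · refine ⟨0, AddSubgroup.zero_mem _, ?_⟩
      rw [map_zero, zero_sub]
      exact AddSubgroup.neg_mem _ (hex q hq.le B hy)

end Pool.Agent.Lib.MP_551055_al.MT
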