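import Mathlib
import Pool.Agent.Lib.MP_551055_al.Trim.MT.Base
import Pool.Agent.Lib.MP_551055_al.Trim.MT.Defs
import Pool.Agent.Lib.MP_551055_al.Trim.MT.Gen
import Pool.Agent.Lib.MP_551055_al.Trim.MT.StB
import Pool.Agent.Lib.MP_551055_al.Trim.MT.Tg

/-!
# Many trees: module CWStep (attaching cells)
-/

set_option autoImplicit false

set_option linter.unusedSectionVars false

namespace Pool.Agent.Lib.MP_551055_al
end Pool.Agent.Lib.MP_551055_al

namespace Pool.Agent.Lib.MP_551055_al.MT.CWS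
end Pool.Agent.Lib.MP_551055_al.MT.CWS

namespace Pool.Agent.Lib.MP_551055_al.MT

open Pool.Agent.Lib.MP_551055_al

open Matrix

namespace CWS

section

variable {Γ : Type} [Group Γ] {D : Type} {P : D → Type} [∀ i, PartialOrder (P i)]
  [∀ i, MulAction Γ (P i)] {N : Type} [Monoid N] {π : N →* Γ} {U : Finset D}

/-- Attach the cells `k : κ` of degree `n + 1` and sizes `s k` with boundaries `x k`. -/
noncomputable def att (Q : Co P N) (κ : Type) [Fintype κ] [DecidableEq κ] (s : κ → Sz P) (n : ℤ)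
    (x : Matrix κ Q.ι (ZM N)) : Co P N where
  ι := Q.ι ⊕ κ
  ft := inferInstance
  de := inferInstance
  deg := Sum.elim Q.deg (fun _ => n + 1)
  sz := Sum.elim Q.sz s
  d := Matrix.fromBlocks Q.d 0 x 0

variable (Q : Co P N) {κ : Type} [Fintype κ] [DecidableEq κ] (s : κ → Sz P) (n : ℤ)
  (x : Matrix κ Q.ι (ZM N))

/-- The vector with the components `z` and `w`. -/
def el (z : Q.ι → ZM N) (w : κ → ZM N) : (att Q κ s n x).ι → ZM N := Sum.elim z w

theorem att_vecMul (z : Q.ι → ZM N) (w : κ → ZM N) :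
    el Q s n x z w ᵥ* (att Q κ s n x).d = el Q s n x (z ᵥ* Q.d + w ᵥ* x) 0 := by
  have h : Sum.elim z w ᵥ* (Matrix.fromBlocks Q.d 0 x 0 : Matrix (Q.ι ⊕ κ) (Q.ι ⊕ κ) (ZM N)) =
      Sum.elim (z ᵥ* Q.d + w ᵥ* x) 0 := by
    rw [Matrix.vecMul_fromBlocks]
    simp only [Sum.elim_comp_inl, Sum.elim_comp_inr, Matrix.vecMul_zero, add_zero]
  exact h

theorem att_split (z : (att Q κ s n x).ι → ZM N) :
    ∃ (z1 : Q.ι → ZM N) (z2 : κ → ZM N), z = el Q s n x z1 z2 :=
  ⟨fun l => z (Sum.inl l), fun k => z (Sum.inr k), by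
    funext l
    rcases l with l | l <;> rfl⟩

theorem el_zero : el Q s n x 0 0 = 0 := by
  funext l
  rcases l with l | l <;> rfl

theorem mem_fam_att {B : Sz P} {q : ℤ} {z : Q.ι → ZM N} {w : κ → ZM N} :
    el Q s n x z w ∈ fam π U (att Q κ s n x).toOb B q ↔
      z ∈ fam π U Q.toOb B q ∧ ∀ (k : κ) (m : N), (w k).coeff m ≠ 0 →
        n + 1 = q ∧ ∀ i ∈ U, B i ≤ π m • s k i := by
  constructor
  · intro h
    exact ⟨fun l m hm => h (Sum.inl l) m hm, fun k m hm => h (Sum.inr k) m hm⟩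
  · rintro ⟨h1, h2⟩
    rintro (l | k) m hm
    · exact h1 l m hm
    · exact h2 k m hm

theorem lin_att {V : Type} [AddCommGroup V] [Module (ZM N) V] (g : Q.ι → V) (y : κ → V)
    (z : Q.ι → ZM N) (w : κ → ZM N) :
    lin (N := N) (ι := (att Q κ s n x).ι) (Sum.elim g y) (el Q s n x z w) =
      lin (N := N) g z + lin (N := N) y w :=
  Fintype.sum_sum_type (fun l => (Sum.elim z w : Q.ι ⊕ κ → ZM N) l •
    (Sum.elim g y : Q.ι ⊕ κ → V) l)

theorem att_cx [SzAct Γ P] (hQ : IsCx π U Q)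
    (hx : ∀ k, x k ∈ fam π U Q.toOb (s k) n) (hxd : ∀ k, x k ᵥ* Q.d = 0) :
    IsCx π U (att Q κ s n x) := by
  refine ⟨?_, ?_⟩
  · rintro (l | l) (k | k) m hm
    · exact hQ.1 l k m hm
    · exact absurd rfl hm
    · have h1 := hx l k m hm
      refine ⟨?_, h1.2⟩
      change Q.deg k = n + 1 + -1
      rw [h1.1]
      ring
    · exact absurd rfl hm
  · have h1 : x * Q.d = 0 := by
      funext l
      exact hxd l
    have h2 : (Matrix.fromBlocks Q.d 0 x 0 : Matrix (Q.ι ⊕ κ) (Q.ι ⊕ κ) (ZM N)) *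
        (Matrix.fromBlocks Q.d 0 x 0 : Matrix (Q.ι ⊕ κ) (Q.ι ⊕ κ) (ZM N)) = 0 := by
      rw [Matrix.fromBlocks_multiply, hQ.2, h1]
      simp only [Matrix.mul_zero, Matrix.zero_mul, add_zero, Matrix.fromBlocks_zero]
    exact h2

/-- Linearity in matrices. -/
theorem lin_vecMul {ι ι' V : Type} [Fintype ι] [Fintype ι'] [AddCommGroup V] [Module (ZM N) V]
    (g : ι' → V) (f : Matrix ι ι' (ZM N)) (w : ι → ZM N) :
    lin (N := N) g (w ᵥ* f) = lin (N := N) (fun l => lin (N := N) g (f l)) w := by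
  have h : w ᵥ* f = ∑ l, w l • (f l : ι' → ZM N) := by
    funext k
    rw [Finset.sum_apply]
    rfl
  rw [h, map_sum, lin_apply]
  exact Finset.sum_congr rfl fun l _ => by rw [map_smul]

theorem lin_lin {ι V V' : Type} [Fintype ι] [AddCommGroup V] [Module (ZM N) V]
    [AddCommGroup V'] [Module (ZM N) V'] (g : ι → V) (f : V →ₗ[ZM N] V') (w : ι → ZM N) :
    f (lin (N := N) g w) = lin (N := N) (fun l => f (g l)) w := by
  rw [lin_apply, map_sum, lin_apply]
  exact Finset.sum_congr rfl fun l _ => by rw [map_smul]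

end

section

variable {Γ : Type} [Group Γ] {D : Type} [Fintype D] {P : D → Type} [∀ i, PartialOrder (P i)]
  [∀ i, MulAction Γ (P i)] [SzAct Γ P] {N : Type} [Monoid N] {π : N →* Γ}

/-- The rows of a resolution. -/
theorem row_mem {X : Ob P} {L : Sz P → AddSubgroup (X.ι → ZM N)} {q c : ℤ} {R : Co P N}
    {r : Matrix R.ι X.ι (ZM N)}
    (h1 : ∀ l k m, (r l k).coeff m ≠ 0 → R.deg l = c ∧ X.deg k = q ∧
      ∀ i, R.sz l i ≤ π m • X.sz k i)
    (h2 : ∀ B, ∀ y ∈ fam π Finset.univ R.toOb B c, y ᵥ* r ∈ L B) (l : R.ι) :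
    r l ∈ L (R.sz l) := by
  by_cases hl : R.deg l = c
  · have h3 := h2 (R.sz l) (Pi.single l 1) (by rw [← hl]; exact basis_mem_fam l)
    rwa [Matrix.single_one_vecMul] at h3
  · have h3 : r l = 0 := by
      funext k
      apply MonoidAlgebra.coeff_injective
      ext m
      by_contra hm
      exact hl (h1 l k m hm).1
    rw [h3]
    exact AddSubgroup.zero_mem _

end

end CWS

open CWS

/-- Module CWStep. -/
theorem stCWStep (h : StKer) : StCWStep := by
  intro Γ _ D _ P _ _ _ _ N _ π hUL hHN T K e hK hiso a n Q g han hQ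
  obtain ⟨u, v, r, -, hu, hv, hr, -, hud, hvd, -, huv⟩ := hiso
  -- the complex `X`
  let vg : Matrix Q.ι K.ι (ZM N) := fun l => v (g l)
  have hvg : ∀ x : Q.ι → ZM N, x ᵥ* vg = v (lin (N := N) g x) := by
    intro x
    rw [lin_lin, ← lin_matrix]
  let X : Ob P :=
    { ι := Q.ι ⊕ K.ι
      ft := inferInstance
      de := inferInstance
      deg := Sum.elim Q.deg (fun k => K.deg k - 1)
      sz := Sum.elim Q.sz K.sz }
  let f : Matrix X.ι X.ι (ZM N) := Matrix.fromBlocks Q.d vg 0 (-K.d)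
  have hf : Ct π Finset.univ (-1) X X f := by
    rintro (l | l) (k | k) m hm
    · exact hQ.cx.1 l k m hm
    · have h1 : vg l ∈ fam π Finset.univ K.toOb (Q.sz l) (Q.deg l) :=
        hv _ _ _ (hQ.ch.1 l)
      have h2 := h1 k m hm
      refine ⟨?_, h2.2⟩
      change K.deg k - 1 = Q.deg l + -1
      rw [h2.1]
      ring
    · exact absurd rfl hm
    · have h2 := hK.1.neg l k m hm
      refine ⟨?_, h2.2⟩
      change K.deg k - 1 = K.deg l - 1 + -1
      rw [h2.1]
      ring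
  have hfv : ∀ (x : Q.ι → ZM N) (y : K.ι → ZM N),
      (Sum.elim x y : X.ι → ZM N) ᵥ* f = Sum.elim (x ᵥ* Q.d) (x ᵥ* vg - y ᵥ* K.d) := by
    intro x y
    change Sum.elim x y ᵥ* Matrix.fromBlocks Q.d vg 0 (-K.d) = _
    rw [Matrix.vecMul_fromBlocks]
    simp only [Sum.elim_comp_inl, Sum.elim_comp_inr, Matrix.vecMul_zero, add_zero,
      Matrix.vecMul_neg]
    rw [← sub_eq_add_neg]
  obtain ⟨R1, r1, -, -, ht1, -, hin1, hsu1, -, -⟩ :=
    h Γ D P N π hUL hHN X X (-1) f hf n (n + 1)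
  obtain ⟨R2, r2, -, -, ht2, -, hin2, hsu2, -, -⟩ :=
    h Γ D P N π hUL hHN K.toOb K.toOb (-1) K.d hK.1 (n + 1) (n + 1)
  -- the data of the cells
  let x1 : Matrix R1.ι Q.ι (ZM N) := fun l k => r1 l (Sum.inl k)
  let y1 : Matrix R1.ι K.ι (ZM N) := fun l k => r1 l (Sum.inr k)
  have hrow : ∀ l, r1 l = Sum.elim (x1 l) (y1 l) := fun l => (Sum.elim_comp_inl_inr (r1 l)).symm
  have hmem1 : ∀ l, r1 l ∈ kerF π Finset.univ X f n (R1.sz l) := row_mem ht1 hin1
  have hx1 : ∀ l, x1 l ∈ fam π Finset.univ Q.toOb (R1.sz l) n := fun l k m hm =>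
    (hmem1 l).1 (Sum.inl k) m hm
  have hy1 : ∀ l, y1 l ∈ fam π Finset.univ K.toOb (R1.sz l) (n + 1) := fun l k m hm => by
    have h1 := (hmem1 l).1 (Sum.inr k) m hm
    refine ⟨?_, h1.2⟩
    have h2 : K.deg k - 1 = n := h1.1
    change K.deg k = n + 1
    linarith
  have hker1 : ∀ l, x1 l ᵥ* Q.d = 0 ∧ x1 l ᵥ* vg = y1 l ᵥ* K.d := by
    intro l
    have h1 : r1 l ᵥ* f = 0 := (hmem1 l).2
    rw [hrow l, hfv] at h1
    refine ⟨?_, ?_⟩
    · funext k
      exact congrFun h1 (Sum.inl k)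
    · rw [← sub_eq_zero]
      funext k
      exact congrFun h1 (Sum.inr k)
  have hmem2 : ∀ l, r2 l ∈ kerF π Finset.univ K.toOb K.d (n + 1) (R2.sz l) := row_mem ht2 hin2
  let κ : Type := R1.ι ⊕ R2.ι
  let s : κ → Sz P := Sum.elim R1.sz R2.sz
  let x : Matrix κ Q.ι (ZM N) := Sum.elim x1 0
  let t : κ → T.V := Sum.elim (fun l => u (y1 l) - r (lin (N := N) g (x1 l))) (fun l => u (r2 l))
  have hx : ∀ k, x k ∈ fam π Finset.univ Q.toOb (s k) n := by
    rintro (l | l)
    · exact hx1 l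
    · exact AddSubgroup.zero_mem _
  have hxd : ∀ k, x k ᵥ* Q.d = 0 := by
    rintro (l | l)
    · exact (hker1 l).1
    · exact Matrix.zero_vecMul _
  have ht : ∀ k, t k ∈ T.fam (s k) (n + 1) := by
    rintro (l | l)
    · refine AddSubgroup.sub_mem _ (hu _ _ _ (hy1 l)) (hr _ _ _ ?_)
      exact hQ.ch.mem (hx1 l)
    · exact hu _ _ _ (hmem2 l).1
  have htd : ∀ k, T.d (t k) = lin (N := N) g (x k) := by
    rintro (l | l)
    · change T.d (u (y1 l) - r (lin (N := N) g (x1 l))) = lin (N := N) g (x1 l)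
      rw [map_sub, ← hud, ← (hker1 l).2, hvg, huv]
      have h1 : T.d (lin (N := N) g (x1 l)) = 0 := by
        rw [← hQ.ch.2, (hker1 l).1, map_zero]
      rw [h1, map_zero]
      abel
    · change T.d (u (r2 l)) = lin (N := N) g 0
      rw [← hud, map_zero, show r2 l ᵥ* K.d = 0 from (hmem2 l).2, map_zero]
  -- the new complex
  let Q' : Co P N := att Q κ s n x
  let g' : Q'.ι → T.V := Sum.elim g t
  have hg' : ∀ (z : Q.ι → ZM N) (w : κ → ZM N), lin (N := N) g' (el Q s n x z w) =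
      lin (N := N) g z + lin (N := N) t w := lin_att Q s n x g t
  have hd' : ∀ (z : Q.ι → ZM N) (w : κ → ZM N), el Q s n x z w ᵥ* Q'.d =
      el Q s n x (z ᵥ* Q.d + w ᵥ* x) 0 := att_vecMul Q s n x
  have hcx : IsCx π Finset.univ Q' := att_cx Q s n x hQ.cx hx hxd
  have hch : ChT Q' T g' := by
    refine ⟨?_, fun z => ?_⟩
    · rintro (l | l)
      · exact hQ.ch.1 l
      · exact ht l
    · obtain ⟨z, w, rfl⟩ := att_split Q s n x z
      rw [hd', hg', hg', map_zero, add_zero, map_add, map_add, hQ.ch.2, lin_vecMul, lin_lin t T.d w]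
      refine congrArg (_ + ·) (congrArg (fun g => lin (N := N) g w) ?_)
      funext l
      exact (htd l).symm
  -- elements of degree at most `n`
  have hlow : ∀ q, q ≤ n → ∀ B, ∀ z ∈ ZC π Finset.univ Q' q B,
      ∃ z1 ∈ ZC π Finset.univ Q q B, z = el Q s n x z1 0 := by
    intro q hq B z hz
    obtain ⟨z, w, rfl⟩ := att_split Q s n x z
    have h0 : w = 0 := by
      funext k
      apply MonoidAlgebra.coeff_injective
      ext m
      by_contra hm
      have h1 := (hz.1 (Sum.inr k) m hm).1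
      change n + 1 = q at h1
      omega
    subst h0
    refine ⟨z, ⟨fun l m hm => hz.1 (Sum.inl l) m hm, ?_⟩, rfl⟩
    have h2 : el Q s n x z 0 ᵥ* Q'.d = 0 := hz.2
    rw [hd', Matrix.zero_vecMul, add_zero] at h2
    funext k
    exact congrFun h2 (Sum.inl k)
  have helim : ∀ q B, ∀ z ∈ fam π Finset.univ Q.toOb B q,
      el Q s n x z 0 ∈ fam π Finset.univ Q'.toOb B q := fun q B z hz =>
    (mem_fam_att Q s n x).2 ⟨hz, fun _ _ hm => absurd rfl hm⟩
  refine ⟨Q', g', hcx, hch, ?_, ?_, ?_, ?_⟩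
  · rintro (l | l)
    · exact hQ.lo l
    · exact han
  · rintro (l | l)
    · exact (hQ.hi l).trans (by omega)
    · exact le_refl _
  · intro q hq B y hy
    by_cases hqn : q ≤ n
    · obtain ⟨z, hz, hzy⟩ := hQ.sur q hqn B y hy
      refine ⟨el Q s n x z 0, ⟨helim q B z hz.1, ?_⟩, ?_⟩
      · rw [hd', show z ᵥ* Q.d = 0 from hz.2, Matrix.zero_vecMul, add_zero, el_zero]
      · rw [hg', map_zero, add_zero]
        exact hzy
    · have hqe : q = n + 1 := by omega
      subst hqe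
      obtain ⟨w, hw, hwy⟩ := hsu2 B (v y) ⟨hv _ _ _ hy.1, by
        rw [← hvd, hy.2, map_zero]⟩
      refine ⟨el Q s n x 0 (Sum.elim 0 w), ⟨(mem_fam_att Q s n x).2
        ⟨AddSubgroup.zero_mem _, ?_⟩, ?_⟩, ?_⟩
      · rintro (k | k) m hm
        · exact absurd rfl hm
        · exact ⟨rfl, (hw k m hm).2⟩
      · rw [hd', Matrix.zero_vecMul, zero_add]
        have h1 : (Sum.elim 0 w : κ → ZM N) ᵥ* x = 0 := by
          funext k
          change ∑ l : R1.ι ⊕ R2.ι, _ = _
          rw [Fintype.sum_sum_type]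
          simp only [Sum.elim_inl, Sum.elim_inr, Pi.zero_apply, zero_mul, Finset.sum_const_zero,
            zero_add]
          refine Finset.sum_eq_zero fun l _ => ?_
          change w l * 0 = 0
          rw [mul_zero]
        rw [h1, el_zero]
      · rw [hg', map_zero, zero_add]
        have h1 : lin (N := N) t (Sum.elim 0 w : κ → ZM N) = u (w ᵥ* r2) := by
          rw [lin_apply]
          change ∑ l : R1.ι ⊕ R2.ι, _ = _
          rw [Fintype.sum_sum_type]
          simp only [Sum.elim_inl, Sum.elim_inr, Pi.zero_apply, zero_smul, Finset.sum_const_zero,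
            zero_add]
          have h2 := lin_lin (N := N) (V := K.ι → ZM N) (V' := T.V) r2 u w
          rw [lin_matrix, lin_apply] at h2
          exact h2.symm
        rw [h1, hwy, huv, hy.2, map_zero, add_zero, add_sub_cancel_left]
        exact ⟨r y, hr _ _ _ hy.1, rfl⟩
  · intro q hq B z hz hzB
    obtain ⟨z, h1, rfl⟩ := hlow q (by omega) B z hz
    have h3 : lin (N := N) g z ∈ T.Bc q B := by
      rwa [hg', map_zero, add_zero] at hzB
    by_cases hqn : q < n
    · obtain ⟨y, hy, hyz⟩ := hQ.inj q hqn B _ h1 h3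
      refine ⟨el Q s n x y 0, helim _ B y hy, ?_⟩
      rw [hd', Matrix.zero_vecMul, add_zero, hyz]
    · have hqe : q = n := by omega
      subst hqe
      obtain ⟨t', ht', htt⟩ := h3
      have h4 : (Sum.elim z (v t') : X.ι → ZM N) ∈ kerF π Finset.univ X f q B := by
        refine ⟨?_, ?_⟩
        · rintro (l | l) m hm
          · exact h1.1 l m hm
          · have h5 := hv _ _ _ ht' l m hm
            refine ⟨?_, h5.2⟩
            change K.deg l - 1 = q
            rw [h5.1]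
            ring
        · rw [hfv, show z ᵥ* Q.d = 0 from h1.2, hvg, ← htt, hvd, sub_self]
          exact Sum.elim_zero_zero
      obtain ⟨w, hw, hwz⟩ := hsu1 B _ h4
      refine ⟨el Q s q x 0 (Sum.elim w 0), (mem_fam_att Q s q x).2
        ⟨AddSubgroup.zero_mem _, ?_⟩, ?_⟩
      · rintro (k | k) m hm
        · exact ⟨rfl, (hw k m hm).2⟩
        · exact absurd rfl hm
      · rw [hd', Matrix.zero_vecMul, zero_add]
        have h5 : (Sum.elim w 0 : κ → ZM N) ᵥ* x = z := by
          funext k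
          change ∑ l : R1.ι ⊕ R2.ι, _ = _
          rw [Fintype.sum_sum_type]
          simp only [Sum.elim_inl, Sum.elim_inr, Pi.zero_apply, zero_mul, Finset.sum_const_zero,
            add_zero]
          exact congrFun hwz (Sum.inl k)
        rw [h5]

end Pool.Agent.Lib.MP_551055_al.MT
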