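import Mathlib
import Pool.Agent.Lib.MP_551055_al.Trim.LS.Stmts
import Pool.Agent.Lib.MP_551055_al.Trim.LS.TreeB
import Pool.Agent.Lib.MP_551055_al.Trim.MT.StC
import Pool.Agent.Lib.MP_551055_al.Trim.MT.Trees
import Pool.Agent.Lib.MP_551055_al.Trim.PT.Stmts

/-!
# Many trees: the stabiliser of a finite subtree fixes a vertex

The vertex is a point of the centre of the finite set of vertices: a vertex whose largest distance
to the vertices of the subtree is as small as possible.  Two such vertices are adjacent.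
-/

set_option autoImplicit false

namespace Pool.Agent.Lib.MP_551055_al
end Pool.Agent.Lib.MP_551055_al

namespace Pool.Agent.Lib.MP_551055_al.LS
end Pool.Agent.Lib.MP_551055_al.LS

namespace Pool.Agent.Lib.MP_551055_al.MT

open Pool.Agent.Lib.MP_551055_al

open Pool.Agent.Lib.MP_551055_al.LS (TreeAct side)

/-- All vertices of `A` have distance at most `n` to `v`. -/
private def cenBd {V : Type} (T : SimpleGraph V) (A : Set V) (n : ℕ) (v : V) : Prop :=
  ∀ a ∈ A, T.dist a v ≤ n

private theorem cen_exists {V : Type} (T : SimpleGraph V) {A : Set V} (hf : A.Finite) (v : V) :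
    ∃ n, cenBd T A n v := by
  obtain ⟨n, hn⟩ := (hf.image fun a => T.dist a v).bddAbove
  exact ⟨n, fun a ha => hn ⟨a, ha, rfl⟩⟩

private theorem cen_adj {V : Type} {T : SimpleGraph V} (hT : T.IsTree) {A : Set V}
    (hA : A.Nonempty) {n : ℕ} (hmin : ∀ m, m < n → ∀ v, ¬ cenBd T A m v) {v w : V}
    (hv : cenBd T A n v) (hw : cenBd T A n w) (hvw : v ≠ w) : T.Adj v w := by
  rcases Nat.eq_zero_or_pos n with rfl | hn
  · obtain ⟨a, ha⟩ := hA
    have h1 := Nat.le_zero.1 (hv a ha)
    have h2 := Nat.le_zero.1 (hw a ha)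
    rw [hT.connected.dist_eq_zero_iff] at h1 h2
    exact absurd (h1.symm.trans h2) hvw
  have h0 : 0 < T.dist w v := hT.connected.pos_dist_of_ne hvw.symm
  obtain ⟨k, hk⟩ : ∃ k, T.dist w v = k + 1 := ⟨T.dist w v - 1, by omega⟩
  obtain ⟨u, huv, huk⟩ := LS.tree_exists_pred hT hk
  by_cases huw : u = w
  · rw [← huw]
    exact huv.symm
  exfalso
  refine hmin (n - 1) (by omega) u ?_
  intro a ha
  have h1 := hv a ha
  have h2 := hw a ha
  have h3 : T.dist v u = 1 := T.dist_eq_one_iff_adj.2 huv.symm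
  have h4 : 0 < T.dist u w := hT.connected.pos_dist_of_ne huw
  have h5 : T.dist w u = T.dist u w := T.dist_comm
  have h6 : T.dist w v = T.dist v w := T.dist_comm
  rcases hT.dist_eq_dist_add_one_of_adj a huv with h | h
  · have h7 : T.dist a w = T.dist a v + T.dist v u + T.dist u w :=
      LS.tree_dist_add' hT (by omega) (by omega) huv.ne.symm
    omega
  · omega

private theorem cen_triangle {V : Type} {T : SimpleGraph V} (hT : T.IsTree) {u v w : V}
    (huv : T.Adj u v) (hvw : T.Adj v w) (huw : T.Adj u w) : False := by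
  have h1 : T.dist u v = 1 := T.dist_eq_one_iff_adj.2 huv
  have h2 : T.dist u w = 1 := T.dist_eq_one_iff_adj.2 huw
  rcases hT.dist_eq_dist_add_one_of_adj u hvw with h | h <;> omega

theorem stCen : StCen := by
  intro Γ _ V _ T h A
  classical
  have hex : ∃ n, ∃ v, cenBd T A.set n v := by
    obtain ⟨v, _⟩ := A.2.2.1
    obtain ⟨n, hn⟩ := cen_exists T A.2.1 v
    exact ⟨n, v, hn⟩
  obtain ⟨v, hv⟩ := Nat.find_spec hex
  have hmin : ∀ m, m < Nat.find hex → ∀ v, ¬ cenBd T A.set m v :=
    fun m hm v hv => Nat.find_min hex hm ⟨v, hv⟩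
  have hadj : ∀ {x y : V}, cenBd T A.set (Nat.find hex) x → cenBd T A.set (Nat.find hex) y →
      x ≠ y → T.Adj x y := fun hx hy => cen_adj h.tree A.2.2.1 hmin hx hy
  refine ⟨v, fun γ hγ => ?_⟩
  have hmove : ∀ x, cenBd T A.set (Nat.find hex) x → cenBd T A.set (Nat.find hex) (γ • x) := by
    intro x hx a ha
    have ha' : a ∈ (γ • A).set := by rwa [hγ]
    rw [Sub.set_smul] at ha'
    obtain ⟨b, hb, rfl⟩ := ha'
    have h1 : T.dist (γ • b) (γ • x) = T.dist b x := LS.dist_smul_smul h γ b x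
    change T.dist (γ • b) (γ • x) ≤ _
    rw [h1]
    exact hx b hb
  by_contra hne
  have h1 : T.Adj v (γ • v) := hadj hv (hmove v hv) (Ne.symm hne)
  have h2 : T.Adj (γ • v) (γ • γ • v) := h.adj γ _ _ h1
  by_cases h3 : v = γ • γ • v
  · exact h.inv γ v (γ • v) h1 rfl h3.symm
  · exact cen_triangle h.tree h1 h2 (hadj hv (hmove _ (hmove v hv)) h3)

end Pool.Agent.Lib.MP_551055_al.MT
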