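import Mathlib
import Pool.Agent.Lib.MP_551055_al.Trim.MT.Base
import Pool.Agent.Lib.MP_551055_al.Trim.MT.Defs
import Pool.Agent.Lib.MP_551055_al.Trim.MT.Map
import Pool.Agent.Lib.MP_551055_al.Trim.MT.StA

/-!
# Many trees: clearing denominators
-/

set_option autoImplicit false

namespace Pool.Agent.Lib.MP_551055_al
end Pool.Agent.Lib.MP_551055_al

namespace Pool.Agent.Lib.MP_551055_al.MT

open Pool.Agent.Lib.MP_551055_al

open Matrix

/-- One element of `ℤ[G × ℤ]` times a large power of the variable is in `ℤ[G × ℕ]`. -/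
theorem clr_one (G : Type) [Group G] (y : ZM (GZ G)) :
    ∃ a₀ : ℕ, ∀ a : ℕ, a₀ ≤ a → ∃ y' : ZM (GN G), loc G y' = zZ G a * y := by
  induction y using MonoidAlgebra.induction_linear with
  | zero => exact ⟨0, fun a _ => ⟨0, by rw [map_zero, mul_zero]⟩⟩
  | add y z hy hz =>
    obtain ⟨a₁, h₁⟩ := hy
    obtain ⟨a₂, h₂⟩ := hz
    refine ⟨max a₁ a₂, fun a ha => ?_⟩
    obtain ⟨y', hy'⟩ := h₁ a ((le_max_left _ _).trans ha)
    obtain ⟨z', hz'⟩ := h₂ a ((le_max_right _ _).trans ha)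
    exact ⟨y' + z', by rw [map_add, hy', hz', mul_add]⟩
  | single m c =>
    obtain ⟨g, k⟩ := m
    refine ⟨(-(Multiplicative.toAdd k)).toNat, fun a ha => ?_⟩
    refine ⟨MonoidAlgebra.single
      (g, Multiplicative.ofAdd ((a : ℤ) + Multiplicative.toAdd k).toNat) c, ?_⟩
    have h1 : zZ G a * MonoidAlgebra.single (g, k) c
        = MonoidAlgebra.single ((1, Multiplicative.ofAdd (a : ℤ)) * (g, k)) ((1 : ℤ) * c) :=
      MonoidAlgebra.single_mul_single _ _ _ _
    rw [h1, one_mul]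
    refine (mdh_single (hLoc G) _ _).trans ?_
    congr 1
    refine Prod.ext ?_ ?_
    · change g = 1 * g
      rw [one_mul]
    · change Multiplicative.ofAdd ((((a : ℤ) + Multiplicative.toAdd k).toNat : ℕ) : ℤ)
        = Multiplicative.ofAdd ((a : ℤ) + Multiplicative.toAdd k)
      rw [Int.toNat_of_nonneg]
      omega

/-- Finitely many elements. -/
theorem clr_fin (G : Type) [Group G] {α : Type} [Finite α] (y : α → ZM (GZ G)) :
    ∃ a : ℕ, ∀ i, ∃ y' : ZM (GN G), loc G y' = zZ G a * y i := by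
  classical
  have := Fintype.ofFinite α
  choose a₀ h using fun i => clr_one G (y i)
  exact ⟨Finset.univ.sup a₀, fun i => h i _ (Finset.le_sup (Finset.mem_univ i))⟩

/-- The terms of the cleared element. -/
theorem clr_coeff {G : Type} [Group G] {Γ : Type} [Group Γ] (π : G →* Γ) {a : ℕ}
    {y' : ZM (GN G)} {y : ZM (GZ G)} (h : loc G y' = zZ G a * y) {m : GN G}
    (hm : y'.coeff m ≠ 0) : ∃ b, y.coeff b ≠ 0 ∧ pN π m = pZ π b := by
  have h1 : (loc G y').coeff (hLoc G m) = y'.coeff m := coeff_mdh_apply hLoc_injective y' m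
  rw [← h1, h] at hm
  obtain ⟨c, b, hc, hb, hcb⟩ := coeff_mul_ne hm
  refine ⟨b, hb, ?_⟩
  have h2 : c = (1, Multiplicative.ofAdd (a : ℤ)) := coeff_single_ne hc
  rw [← pZ_hLoc, ← hcb, map_mul, h2]
  have h3 : pZ π (1, Multiplicative.ofAdd (a : ℤ)) = 1 := map_one π
  rw [h3, one_mul]

theorem stClr : StClr := by
  intro Γ _ D P _ _ G _ π V X Y r
  refine ⟨fun f hf => ?_, fun B x hx => ?_⟩
  · obtain ⟨a, ha⟩ := clr_fin G (fun p : X.ι × Y.ι => f p.1 p.2)
    choose y' hy' using ha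
    refine ⟨a, Matrix.of fun l k => y' (l, k), ?_, ?_⟩
    · intro l k m hm
      obtain ⟨b, hb, h2⟩ := clr_coeff π (hy' (l, k)) hm
      rw [h2]
      exact hf l k b hb
    · ext1 l k
      exact hy' (l, k)
  · obtain ⟨a, ha⟩ := clr_fin G x
    choose y' hy' using ha
    refine ⟨a, y', ?_, ?_⟩
    · intro l m hm
      obtain ⟨b, hb, h2⟩ := clr_coeff π (hy' l) hm
      rw [h2]
      exact hx l b hb
    · funext l
      exact hy' l

end Pool.Agent.Lib.MP_551055_al.MT
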