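import Mathlib
import Pool.Agent.Lib.MP_551055_al.Trim.MT.Defs
import Pool.Agent.Lib.MP_551055_al.Trim.MT.Gen
import Pool.Agent.Lib.MP_551055_al.Trim.MT.Map
import Pool.Agent.Lib.MP_551055_al.Trim.MT.StB

/-!
# Many trees: cosets of the stabiliser (module Cos)
-/

set_option autoImplicit false

namespace Pool.Agent.Lib.MP_551055_al
end Pool.Agent.Lib.MP_551055_al

namespace Pool.Agent.Lib.MP_551055_al.MT.CosAux
end Pool.Agent.Lib.MP_551055_al.MT.CosAux

namespace Pool.Agent.Lib.MP_551055_al.MT

open Pool.Agent.Lib.MP_551055_al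

open Matrix

namespace CosAux

section

variable {Γ : Type} [Group Γ] {N : Type} [Monoid N]

theorem map_inv_unit (π : N →* Γ) (u : Nˣ) : π ((u⁻¹ : Nˣ) : N) = (π (u : N))⁻¹ := by
  refine eq_inv_of_mul_eq_one_left ?_
  rw [← map_mul, Units.inv_mul, map_one]

variable {D : Type} {P : D → Type} [∀ i, PartialOrder (P i)] [∀ i, MulAction Γ (P i)]

theorem smul_le {Γ : Type} [Group Γ] {D : Type} {P : D → Type} [∀ i, PartialOrder (P i)]
    [∀ i, MulAction Γ (P i)] [SzAct Γ P] (γ : Γ) {A B : Sz P} (h : A ≤ B) : γ • A ≤ γ • B :=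
  fun i => SzAct.mono i γ (A i) (B i) (h i)

theorem coeff_term (π : N →* Γ) (A : Sz P) (x : ZM (stabM π A)) (v : Nˣ) (m : N) :
    (mdh (stabM π A).subtype x * MonoidAlgebra.single (v : N) 1).coeff m =
      open Classical in
      if h : m * ((v⁻¹ : Nˣ) : N) ∈ stabM π A then x.coeff ⟨m * ((v⁻¹ : Nˣ) : N), h⟩ else 0 := by
  classical
  rw [MonoidAlgebra.coeff_mul_single_eq_coeff_mul (m * ((v⁻¹ : Nˣ) : N)), mul_one]
  · split_ifs with h
    · exact coeff_mdh_apply (h := (stabM π A).subtype) Subtype.val_injective x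
        ⟨m * ((v⁻¹ : Nˣ) : N), h⟩
    · rw [mdh_coeff]
      refine Finsupp.mapDomain_notin_range _ _ ?_
      rintro ⟨a, ha⟩
      exact h (ha ▸ a.2)
  · intro m' _
    constructor
    · intro h
      rw [← h, mul_assoc, Units.mul_inv, mul_one]
    · intro h
      rw [h, mul_assoc, Units.inv_mul, mul_one]

theorem finite_le {Γ : Type} [Group Γ] {D : Type} [Finite D] {P : D → Type}
    [∀ i, PartialOrder (P i)] [∀ i, MulAction Γ (P i)] [SzRk Γ P] (A' : Sz P) :
    {B : Sz P | B ≤ A'}.Finite := by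
  have h := Set.Finite.pi (fun i : D => SzRk.fin (Γ := Γ) i (A' i))
  refine h.subset ?_
  intro B hB i _
  exact hB i

end

end CosAux

open CosAux

theorem stCos : StCos := by
  intro Γ _ D _ P _ _ _ _ N _ π hU A A'
  classical
  -- the translates of `A` below `A'`
  set S : Set (Sz P) := {B | B ≤ A' ∧ ∃ m : N, π m • B = A} with hS
  have hfin : S.Finite := (finite_le (Γ := Γ) A').subset fun B hB => hB.1
  have hfinite : Finite S := hfin
  obtain ⟨k, ⟨e⟩⟩ := Finite.exists_equiv_fin S
  have hv : ∀ B : S, ∃ v : Nˣ, π (v : N) • B.1 = A := by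
    rintro ⟨B, hB, m, hm⟩
    obtain ⟨u, hu⟩ := hU m
    exact ⟨u, by rw [hu]; exact hm⟩
  choose v hv using hv
  -- the coset of an element
  have hB : ∀ (i : Fin k) (m : N), m * (((v (e.symm i))⁻¹ : Nˣ) : N) ∈ stabM π A →
      (e.symm i).1 = (π m)⁻¹ • A := by
    intro i m h
    rw [mem_stabM, map_mul, map_inv_unit, mul_smul] at h
    have h1 : (π ((v (e.symm i) : Nˣ) : N))⁻¹ • A = (e.symm i).1 := by
      rw [inv_smul_eq_iff]
      exact (hv (e.symm i)).symm
    rw [h1] at h
    rw [← h, inv_smul_smul]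
  have huniq : ∀ (i j : Fin k) (m : N), m * (((v (e.symm i))⁻¹ : Nˣ) : N) ∈ stabM π A →
      m * (((v (e.symm j))⁻¹ : Nˣ) : N) ∈ stabM π A → i = j := by
    intro i j m hi hj
    have h1 : e.symm i = e.symm j := Subtype.ext ((hB i m hi).trans (hB j m hj).symm)
    exact e.symm.injective h1
  refine ⟨k, fun i => v (e.symm i), ?_, ?_⟩
  · intro i
    have h1 := smul_le (π ((v (e.symm i) : Nˣ) : N)) (e.symm i).2.1
    rw [hv (e.symm i)] at h1
    exact h1
  · intro y hy
    have hex : ∀ m, y.coeff m ≠ 0 → ∃ i : Fin k,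
        m * (((v (e.symm i))⁻¹ : Nˣ) : N) ∈ stabM π A := by
      intro m hm
      have h1 : (π m)⁻¹ • A ≤ A' := by
        have h2 := smul_le (π m)⁻¹ (hy m hm)
        rwa [inv_smul_smul] at h2
      have h2 : (π m)⁻¹ • A ∈ S := ⟨h1, m, smul_inv_smul _ _⟩
      refine ⟨e ⟨_, h2⟩, ?_⟩
      rw [Equiv.symm_apply_apply, mem_stabM, map_mul, map_inv_unit, mul_smul]
      have h3 : (π ((v ⟨_, h2⟩ : Nˣ) : N))⁻¹ • A = (π m)⁻¹ • A := by
        rw [inv_smul_eq_iff]
        exact (hv ⟨_, h2⟩).symm
      rw [h3, smul_inv_smul]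
    have hinj : ∀ i : Fin k, Function.Injective
        (fun s : stabM π A => (s : N) * ((v (e.symm i) : Nˣ) : N)) := by
      intro i s t h
      have h1 : (s : N) * ((v (e.symm i) : Nˣ) : N) = (t : N) * ((v (e.symm i) : Nˣ) : N) := h
      exact Subtype.ext ((Units.mul_left_inj _).mp h1)
    set r : Fin k → ZM (stabM π A) := fun i => MonoidAlgebra.ofCoeff
      (Finsupp.comapDomain (fun s : stabM π A => (s : N) * ((v (e.symm i) : Nˣ) : N)) y.coeff
        (hinj i).injOn) with hr
    have hrc : ∀ (i : Fin k) (s : stabM π A),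
        (r i).coeff s = y.coeff ((s : N) * ((v (e.symm i) : Nˣ) : N)) := fun i s => rfl
    refine ⟨r, ?_, ?_⟩
    · apply MonoidAlgebra.coeff_injective
      ext m
      simp only [MonoidAlgebra.coeff_sum, Finsupp.finset_sum_apply, coeff_term]
      have hterm : ∀ i : Fin k, (if h : m * (((v (e.symm i))⁻¹ : Nˣ) : N) ∈ stabM π A then
          (r i).coeff ⟨m * (((v (e.symm i))⁻¹ : Nˣ) : N), h⟩ else 0) =
          if m * (((v (e.symm i))⁻¹ : Nˣ) : N) ∈ stabM π A then y.coeff m else 0 := by
        intro i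
        split_ifs with h
        · rw [hrc]
          simp only
          rw [mul_assoc, Units.inv_mul, mul_one]
        · rfl
      rw [Finset.sum_congr rfl fun i _ => hterm i]
      by_cases hm : y.coeff m = 0
      · rw [hm]
        simp
      · obtain ⟨i, hi⟩ := hex m hm
        rw [Finset.sum_eq_single i, if_pos hi]
        · intro j _ hj
          rw [if_neg]
          intro h
          exact hj (huniq j i m h hi)
        · intro h
          exact absurd (Finset.mem_univ i) h
    · intro r' hr'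
      funext i
      apply MonoidAlgebra.coeff_injective
      ext s
      rw [hrc, hr']
      simp only [MonoidAlgebra.coeff_sum, Finsupp.finset_sum_apply, coeff_term]
      have hs : (s : N) * ((v (e.symm i) : Nˣ) : N) * (((v (e.symm i))⁻¹ : Nˣ) : N) = s := by
        rw [mul_assoc, Units.mul_inv, mul_one]
      have hs' : (s : N) * ((v (e.symm i) : Nˣ) : N) * (((v (e.symm i))⁻¹ : Nˣ) : N) ∈
          stabM π A := by
        rw [hs]
        exact s.2
      rw [Finset.sum_eq_single i, dif_pos hs']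
      · congr 1
        exact Subtype.ext hs.symm
      · intro j _ hj
        rw [dif_neg]
        intro h
        exact hj (huniq j i _ h hs')
      · intro h
        exact absurd (Finset.mem_univ i) h

end Pool.Agent.Lib.MP_551055_al.MT
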