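import Mathlib
import Pool.Agent.Lib.MP_551055_al.Trim.LS.Stmts
import Pool.Agent.Lib.MP_551055_al.Trim.MT.Base
import Pool.Agent.Lib.MP_551055_al.Trim.MT.Defs
import Pool.Agent.Lib.MP_551055_al.Trim.MT.Gen
import Pool.Agent.Lib.MP_551055_al.Trim.MT.Map
import Pool.Agent.Lib.MP_551055_al.Trim.MT.StA
import Pool.Agent.Lib.MP_551055_al.Trim.MT.StB

/-!
# Many trees: module Cube
-/

set_option autoImplicit false

namespace Pool.Agent.Lib.MP_551055_al
end Pool.Agent.Lib.MP_551055_al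

namespace Pool.Agent.Lib.MP_551055_al.MT

open Pool.Agent.Lib.MP_551055_al

open Matrix

section

variable {G : Type} [Group G]

/-- An element all of whose terms come from `G × ℕ` comes from `ℤ[G × ℕ]`. -/
theorem cube_elt {x : ZM (GZ G)} (hx : ∀ m, x.coeff m ≠ 0 → ∃ a, hLoc G a = m) :
    ∃ y, loc G y = x := by
  classical
  have h1 : ∀ m, ∃ a, x.coeff m ≠ 0 → hLoc G a = m := by
    intro m
    by_cases h : x.coeff m = 0
    · exact ⟨1, fun h' => absurd h h'⟩
    · obtain ⟨a, ha⟩ := hx m h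
      exact ⟨a, fun _ => ha⟩
  choose a ha using h1
  refine ⟨∑ m ∈ x.coeff.support, MonoidAlgebra.single (a m) (x.coeff m), ?_⟩
  conv_rhs => rw [zm_sum x]
  rw [map_sum]
  refine Finset.sum_congr rfl fun m hm => ?_
  rw [show loc G (MonoidAlgebra.single (a m) (x.coeff m))
    = MonoidAlgebra.single (hLoc G (a m)) (x.coeff m) from mdh_single _ _ _,
    ha m (Finsupp.mem_support_iff.1 hm)]

/-- A matrix all of whose terms come from `G × ℕ` comes from `ℤ[G × ℕ]`. -/
theorem cube_mat {α β : Type} {f : Matrix α β (ZM (GZ G))}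
    (hf : ∀ l k m, (f l k).coeff m ≠ 0 → ∃ a, hLoc G a = m) :
    ∃ g : Matrix α β (ZM (GN G)), g.map (loc G) = f := by
  choose g hg using fun l k => cube_elt (hf l k)
  exact ⟨g, by
    funext l k
    exact hg l k⟩

theorem cube_coeff {α β : Type} {g : Matrix α β (ZM (GN G))} {f : Matrix α β (ZM (GZ G))}
    (h : g.map (loc G) = f) {l : α} {k : β} {m : GN G} (hm : (g l k).coeff m ≠ 0) :
    (f l k).coeff (hLoc G m) ≠ 0 := by
  rw [← h, Matrix.map_apply, show (loc G (g l k)).coeff (hLoc G m) = (g l k).coeff m from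
    coeff_mdh_apply hLoc_injective _ _]
  exact hm

theorem cube_inj {α β : Type} {g g' : Matrix α β (ZM (GN G))}
    (h : g.map (loc G) = g'.map (loc G)) : g = g' :=
  Matrix.map_injective loc_injective h

theorem cube_eq_one {m : GN G} (h : hLoc G m = 1) : m = 1 :=
  hLoc_injective (h.trans (map_one (hLoc G)).symm)

end

/-- Module Cube. -/
theorem stCube (h1 : StW1) (h2 : StNest) : StCube := by
  classical
  intro Γ _ D _ P _ _ _ G _ π V I C hC hI
  have hc : ∀ i, ∃ c : Matrix C.ι C.ι (ZM (GZ G)), i ∈ I →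
      Ct (pZ π) (V.erase i) 1 (C.map (loc G)).toOb (C.map (loc G)).toOb c ∧
        (C.map (loc G)).d * c + c * (C.map (loc G)).d = 1 := by
    intro i
    by_cases hi : i ∈ I
    · obtain ⟨c, h3, h4⟩ := hI i hi
      exact ⟨c, fun _ => ⟨h3, h4.symm⟩⟩
    · exact ⟨0, fun h => absurd h hi⟩
  choose c hc using hc
  obtain ⟨κ, ftκ, deκ, deg, β, φ, d, s, p, t, hdd, hsp, hds, hdp, hφ, hd, hs, hp, ht⟩ :=
    h1 Γ D P (GZ G) (pZ π) V (C.map (loc G)) (hC.map (pZ_hLoc π)) I c hc
  -- the new sizes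
  have hA : ∀ i, ∃ A : C.ι → P i, (∀ l, C.sz l i ≤ A l) ∧
      (∀ l k m, (C.d l k).coeff m ≠ 0 → A l ≤ pN π m • A k) ∧
      ∀ l k m, (s l k).coeff m ≠ 0 → C.sz l i ≤ pZ π m • A (β k) := by
    intro i
    obtain ⟨A, hA1, hA2⟩ := h2 Γ D P (GN G) (pN π) C.ι C.deg C.d
      (fun l k m hm => by rw [(hC.1 l k m hm).1]; ring) i
      (fun l => {C.sz l i} ∪ ⋃ l', ⋃ k, (fun m => (pZ π m)⁻¹ • C.sz l' i) ''
        {m | (s l' k).coeff m ≠ 0})
      (fun l => (Set.finite_singleton _).union (Set.finite_iUnion fun l' => Set.finite_iUnion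
        fun k => Set.Finite.image _ ((s l' k).coeff.hasFiniteSupport)))
    refine ⟨A, fun l => hA1 l _ (Or.inl rfl), hA2, fun l k m hm => ?_⟩
    have h3 := hA1 (β k) ((pZ π m)⁻¹ • C.sz l i)
      (Or.inr (Set.mem_iUnion.2 ⟨l, Set.mem_iUnion.2 ⟨k, m, hm, rfl⟩⟩))
    have h4 := SzAct.smul_le (γ := pZ π m) h3
    rwa [smul_inv_smul] at h4
  choose A hA1 hA2 hA3 using hA
  -- the matrices over `G × ℕ`
  obtain ⟨d0, hd0⟩ := cube_mat (f := d) fun l k m hm => by
    rcases (hd l k m hm).2 with h | h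
    · obtain ⟨a, ha, -⟩ := coeff_mdh_ne h.2
      exact ⟨a, ha⟩
    · exact ⟨1, (map_one (hLoc G)).trans h.1.symm⟩
  obtain ⟨p0, hp0⟩ := cube_mat (f := p) fun l k m hm =>
    ⟨1, (map_one (hLoc G)).trans (hp l k m hm).2.1.symm⟩
  let W : Co P (GN G) :=
    { ι := κ, ft := ftκ, de := deκ, deg := deg
      sz := fun k i => if i ∈ φ k then A i (β k) else C.sz (β k) i
      d := d0 }
  have hsz : ∀ k i, W.sz k i = if i ∈ φ k then A i (β k) else C.sz (β k) i := fun _ _ => rfl
  refine ⟨W, p0, s, ⟨?_, ?_⟩, ⟨?_, ?_⟩, ⟨?_, ?_⟩, ?_, ?_⟩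
  · intro l k m hm
    obtain ⟨h3, h4⟩ := hd l k (hLoc G m) (cube_coeff hd0 hm)
    refine ⟨by change deg k = deg l + -1; omega, fun i hi => ?_⟩
    rw [hsz, hsz]
    rcases h4 with ⟨h5, h6⟩ | ⟨h5, h6, h7⟩
    · have h8 : (C.d (β l) (β k)).coeff m ≠ 0 := by
        intro h9
        refine h6 ?_
        change (loc G (C.d (β l) (β k))).coeff (hLoc G m) = 0
        rw [show (loc G (C.d (β l) (β k))).coeff (hLoc G m) = (C.d (β l) (β k)).coeff m from
          coeff_mdh_apply hLoc_injective _ _, h9]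
      rw [h5]
      split_ifs with h9
      · exact hA2 i _ _ m h8
      · exact (hC.1 _ _ m h8).2 i hi
    · rw [cube_eq_one h5, map_one, one_smul, h6]
      split_ifs with h8 h9 h9
      · exact le_refl _
      · exact absurd (h7 h8) h9
      · exact hA1 i _
      · exact le_refl _
  · apply cube_inj
    change (d0 * d0).map (loc G) = (0 : Matrix κ κ (ZM (GN G))).map (loc G)
    rw [map_mul', hd0, hdd, map_zero']
  · intro l k m hm
    obtain ⟨h3, h4, h5, h6⟩ := hp l k (hLoc G m) (cube_coeff hp0 hm)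
    refine ⟨by change C.deg k = deg l + 0; rw [add_zero]; exact h3, fun i _ => ?_⟩
    rw [hsz, h6, if_neg (Finset.notMem_empty i), h5, cube_eq_one h4, map_one, one_smul]
  · apply cube_inj
    change (d0 * p0).map (loc G) = (p0 * C.d).map (loc G)
    rw [map_mul', map_mul', hd0, hp0]
    exact hdp
  · intro l k m hm
    obtain ⟨h3, h4⟩ := hs l k m hm
    refine ⟨by change deg k = C.deg l + 0; rw [add_zero]; exact h3, fun i hi => ?_⟩
    change C.sz l i ≤ pZ π m • W.sz k i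
    rw [hsz]
    split_ifs with h5
    · exact hA3 i l k m hm
    · exact h4 i hi h5
  · change (C.map (loc G)).d * s = s * d0.map (loc G)
    rw [hd0]
    exact hds
  · rw [hp0]
    exact hsp
  · intro i hi
    obtain ⟨h3, h4⟩ := ht i hi
    obtain ⟨t0, ht0⟩ := cube_mat (f := t i) fun l k m hm =>
      ⟨1, (map_one (hLoc G)).trans (h4 l k m hm).2.1.symm⟩
    refine ⟨t0, fun l k m hm => ?_, ?_⟩
    · obtain ⟨h5, h6, h7, h8⟩ := h4 l k (hLoc G m) (cube_coeff ht0 hm)
      refine ⟨h5, fun i' hi' => ?_⟩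
      have h9 := h8 i' (Finset.mem_erase.1 hi').1
      rw [hsz, hsz, cube_eq_one h6, map_one, one_smul, h7]
      by_cases h10 : i' ∈ φ l
      · rw [if_pos h10, if_pos (h9.1 h10)]
      · rw [if_neg h10, if_neg fun h => h10 (h9.2 h)]
    · apply cube_inj
      change (1 : Matrix κ κ (ZM (GN G))).map (loc G) = (d0 * t0 + t0 * d0).map (loc G)
      rw [map_add', map_mul', map_mul', map_one', hd0, ht0, h3]

end Pool.Agent.Lib.MP_551055_al.MT
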