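import Mathlib
import Pool.Agent.Lib.MP_551055_al.Trim.MT.Defs
import Pool.Agent.Lib.MP_551055_al.Trim.MT.StC
import Pool.Agent.Lib.MP_551055_al.Trim.OneRelation
import Pool.Agent.Lib.MP_551055_al.Trim.Red.Defs

/-!
# Many trees, module Eul: Euler characteristics
-/

set_option autoImplicit false

namespace Pool.Agent.Lib.MP_551055_al
end Pool.Agent.Lib.MP_551055_al

namespace Pool.Agent.Lib.MP_551055_al.Red
end Pool.Agent.Lib.MP_551055_al.Red

namespace Pool.Agent.Lib.MP_551055_al.MT.EulM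
end Pool.Agent.Lib.MP_551055_al.MT.EulM

namespace Pool.Agent.Lib.MP_551055_al.MT

open Pool.Agent.Lib.MP_551055_al

open Pool.Agent.Lib.MP_551055_al.Red (Img)

open Matrix

namespace EulM

theorem bij_of_nil {R M M' : Type} [Ring R] [AddCommGroup M] [AddCommGroup M'] [Module R M]
    [Module R M'] (α : M →ₗ[R] M') (β : M' →ₗ[R] M)
    (h1 : IsNilpotent (β ∘ₗ α - 1 : Module.End R M))
    (h2 : IsNilpotent (α ∘ₗ β - 1 : Module.End R M')) : Function.Bijective α := by
  have k1 : IsUnit (β ∘ₗ α : Module.End R M) := by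
    have := h1.isUnit_one_add
    rwa [add_sub_cancel] at this
  have k2 : IsUnit (α ∘ₗ β : Module.End R M') := by
    have := h2.isUnit_one_add
    rwa [add_sub_cancel] at this
  rw [Module.End.isUnit_iff] at k1 k2
  exact ⟨Function.Injective.of_comp k1.1, Function.Surjective.of_comp k2.2⟩

theorem mul_ne {R : Type} [Ring R] {ι κ τ : Type} [Fintype κ] {A : Matrix ι κ R}
    {B : Matrix κ τ R} {l : ι} {k : τ} (h : (A * B) l k ≠ 0) : ∃ m, A l m ≠ 0 ∧ B m k ≠ 0 := by
  rw [Matrix.mul_apply] at h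
  obtain ⟨m, -, hm⟩ := Finset.exists_ne_zero_of_sum_ne_zero h
  exact ⟨m, left_ne_zero_of_mul hm, right_ne_zero_of_mul hm⟩

theorem nil_pow {R : Type} [Ring R] {ι : Type} [Fintype ι] [DecidableEq ι] (w : ι → ℤ)
    (N : Matrix ι ι R) (h : ∀ l k, N l k ≠ 0 → w l < w k) : ∃ K : ℕ, N ^ K = 0 := by
  have h1 : ∀ (j : ℕ) (l k : ι), (N ^ j) l k ≠ 0 → w l + j ≤ w k := by
    intro j
    induction j with
    | zero =>
      intro l k hlk
      rw [pow_zero] at hlk
      have : l = k := by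
        by_contra hne
        exact hlk (Matrix.one_apply_ne hne)
      rw [this, Nat.cast_zero, add_zero]
    | succ j ih =>
      intro l k hlk
      rw [pow_succ] at hlk
      obtain ⟨m, h2, h3⟩ := mul_ne hlk
      have h4 := ih l m h2
      have h5 := h m k h3
      push_cast
      omega
  obtain ⟨b, hb⟩ := (Set.finite_range w).bddAbove
  obtain ⟨a, ha⟩ := (Set.finite_range w).bddBelow
  refine ⟨(b - a + 1).toNat, ?_⟩
  ext l k
  by_contra hne
  have h2 := h1 _ l k hne
  have h3 := hb ⟨k, rfl⟩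
  have h4 := ha ⟨l, rfl⟩
  have h5 : b - a + 1 ≤ ((b - a + 1).toNat : ℤ) := Int.self_le_toNat _
  omega

theorem vmz {R : Type} [Ring R] {ι κ : Type} [Fintype ι] (x : ι → R) (A : Matrix ι κ R)
    (k : κ) (h : ∀ l, x l = 0 ∨ A l k = 0) : (x ᵥ* A) k = 0 := by
  change ∑ l, x l * A l k = 0
  refine Finset.sum_eq_zero fun l _ => ?_
  rcases h l with h | h
  · rw [h, zero_mul]
  · rw [h, mul_zero]

section

variable {R : Type} [Ring R] {n : ℕ} {μ : Type} (deg : μ → ℤ) (p : Matrix (Fin n) (Fin n) R)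

/-- The odd part. -/
def P0 : Submodule R (Fin n ⊕ μ → R) where
  carrier := {z | z ∘ Sum.inl ∈ Img p ∧ ∀ k, Even (deg k) → z (Sum.inr k) = 0}
  zero_mem' := ⟨(Img p).zero_mem, fun _ _ => rfl⟩
  add_mem' {a b} ha hb := ⟨(Img p).add_mem ha.1 hb.1, fun k hk => by
    rw [Pi.add_apply, ha.2 k hk, hb.2 k hk, add_zero]⟩
  smul_mem' c a ha := ⟨(Img p).smul_mem c ha.1, fun k hk => by
    rw [Pi.smul_apply, ha.2 k hk, smul_zero]⟩

/-- The even part. -/
def P1 (n : ℕ) : Submodule R (Fin n ⊕ μ → R) where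
  carrier := {z | (∀ i, z (Sum.inl i) = 0) ∧ ∀ k, ¬ Even (deg k) → z (Sum.inr k) = 0}
  zero_mem' := ⟨fun _ => rfl, fun _ _ => rfl⟩
  add_mem' {a b} ha hb := ⟨fun i => by rw [Pi.add_apply, ha.1 i, hb.1 i, add_zero], fun k hk => by
    rw [Pi.add_apply, ha.2 k hk, hb.2 k hk, add_zero]⟩
  smul_mem' c a ha := ⟨fun i => by rw [Pi.smul_apply, ha.1 i, smul_zero], fun k hk => by
    rw [Pi.smul_apply, ha.2 k hk, smul_zero]⟩

/-- Coordinates of the odd part. -/
def equivP0 : P0 deg p ≃ₗ[R] (Img p × ({k // ¬ Even (deg k)} → R)) where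
  toFun z := (⟨z.1 ∘ Sum.inl, z.2.1⟩, fun k => z.1 (Sum.inr k.1))
  invFun q := ⟨Sum.elim q.1.1 fun k => if h : Even (deg k) then 0 else q.2 ⟨k, h⟩, by
    refine ⟨?_, fun k hk => ?_⟩
    · rw [Sum.elim_comp_inl]
      exact q.1.2
    · rw [Sum.elim_inr, dif_pos hk]⟩
  left_inv z := by
    apply Subtype.ext
    funext i
    rcases i with i | k
    · rfl
    · by_cases h : Even (deg k)
      · simp only [Sum.elim_inr, dif_pos h]
        exact (z.2.2 k h).symm
      · simp only [Sum.elim_inr, dif_neg h]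
  right_inv q := by
    refine Prod.ext (Subtype.ext rfl) ?_
    funext k
    simp only [Sum.elim_inr, dif_neg k.2]
  map_add' _ _ := rfl
  map_smul' _ _ := rfl

/-- Coordinates of the even part. -/
def equivP1 : P1 (R := R) deg n ≃ₗ[R] ({k // Even (deg k)} → R) where
  toFun z := fun k => z.1 (Sum.inr k.1)
  invFun q := ⟨Sum.elim 0 fun k => if h : Even (deg k) then q ⟨k, h⟩ else 0, by
    refine ⟨fun i => rfl, fun k hk => ?_⟩
    rw [Sum.elim_inr, dif_neg hk]⟩
  left_inv z := by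
    apply Subtype.ext
    funext i
    rcases i with i | k
    · exact (z.2.1 i).symm
    · by_cases h : Even (deg k)
      · simp only [Sum.elim_inr, dif_pos h]
      · simp only [Sum.elim_inr, dif_neg h]
        exact (z.2.2 k h).symm
  right_inv q := by
    funext k
    simp only [Sum.elim_inr, dif_pos k.2]
  map_add' _ _ := rfl
  map_smul' _ _ := rfl

theorem mem_img {p : Matrix (Fin n) (Fin n) R} (hp : p * p = p) {y : Fin n → R}
    (hy : y ∈ Img p) : y ᵥ* p = y := by
  obtain ⟨x, rfl⟩ := hy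
  change (x ᵥ* p) ᵥ* p = x ᵥ* p
  rw [Matrix.vecMul_vecMul, hp]

end

end EulM

open EulM

/-- Module Eul. -/
theorem stEul : StEul := by
  intro R _ n μ _ _ deg p d s u v hp hdd hd hs hu hv hud hdv huv hvu
  -- normalised maps
  set D : Matrix μ μ R := d * s + s * d with hD
  set u' : Matrix (Fin n) μ R := p * u with hu'
  set v' : Matrix μ (Fin n) R := v * p with hv'
  set s' : Matrix μ μ R := s + s + s * D with hs'
  have e1 : u' * v' = p := by
    rw [hu', hv', Matrix.mul_assoc, ← Matrix.mul_assoc u v p, huv, hp, hp]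
  have e2 : u' * d = 0 := by rw [hu', Matrix.mul_assoc, hud, Matrix.mul_zero]
  have e3 : d * v' = 0 := by rw [hv', ← Matrix.mul_assoc, hdv, Matrix.zero_mul]
  have hvu1 : v * u = 1 + D := by rw [← hvu, add_sub_cancel]
  have hdD : d * D = D * d := by
    rw [hD, Matrix.mul_add, Matrix.add_mul, ← Matrix.mul_assoc d d s, hdd, Matrix.zero_mul,
      zero_add, Matrix.mul_assoc s d d, hdd, Matrix.mul_zero, add_zero, Matrix.mul_assoc]
  have e4 : v' * u' = 1 + (d * s' + s' * d) := by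
    have h1 : v' * u' = (v * u) * (v * u) := by
      rw [hu', hv', Matrix.mul_assoc v p (p * u), ← Matrix.mul_assoc p p u, hp, ← huv]
      simp only [Matrix.mul_assoc]
    have k1 : d * s' = d * s + d * s + d * s * D := by
      rw [hs', Matrix.mul_add, Matrix.mul_add, ← Matrix.mul_assoc]
    have k2 : s' * d = s * d + s * d + s * d * D := by
      rw [hs', Matrix.add_mul, Matrix.add_mul, Matrix.mul_assoc, ← hdD, ← Matrix.mul_assoc]
    have k3 : d * s * D + s * d * D = D * D := by rw [← Matrix.add_mul]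
    have k4 : d * s' + s' * d = D + D + D * D := by
      rw [k1, k2, ← k3]
      have k5 : d * s + d * s + d * s * D + (s * d + s * d + s * d * D) =
        (d * s + s * d) + (d * s + s * d) + (d * s * D + s * d * D) := by abel
      rw [k5]
    rw [h1, hvu1, k4, Matrix.add_mul, Matrix.one_mul, Matrix.mul_add, Matrix.mul_one]
    abel
  have hdD' : ∀ l k, D l k ≠ 0 → deg k = deg l := by
    intro l k h
    have h1 : D l k = (d * s) l k + (s * d) l k := rfl
    by_cases h2 : (d * s) l k = 0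
    · rw [h1, h2, zero_add] at h
      obtain ⟨m, h3, h4⟩ := mul_ne h
      have := hs _ _ h3
      have := hd _ _ h4
      omega
    · obtain ⟨m, h3, h4⟩ := mul_ne h2
      have := hd _ _ h3
      have := hs _ _ h4
      omega
  have ds' : ∀ l k, s' l k ≠ 0 → deg k = deg l + 1 := by
    intro l k h
    have h1 : s' l k = s l k + s l k + (s * D) l k := rfl
    by_cases h2 : s l k = 0
    · rw [h1, h2, zero_add, zero_add] at h
      obtain ⟨m, h3, h4⟩ := mul_ne h
      rw [hdD' _ _ h4]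
      exact hs _ _ h3
    · exact hs _ _ h2
  have du' : ∀ l k, u' l k ≠ 0 → deg k = 0 := by
    intro l k h
    obtain ⟨m, -, h4⟩ := mul_ne h
    exact hu _ _ h4
  have dv' : ∀ l k, v' l k ≠ 0 → deg l = 0 := by
    intro l k h
    obtain ⟨m, h3, -⟩ := mul_ne h
    exact hv _ _ h3
  -- the matrices
  set δ : Matrix (Fin n ⊕ μ) (Fin n ⊕ μ) R := Matrix.fromBlocks 0 u' v' (d - s') with hδ
  set N : Matrix (Fin n ⊕ μ) (Fin n ⊕ μ) R :=
    Matrix.fromBlocks 0 (-(u' * s')) (-(s' * v')) (s' * s') with hN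
  set E : Matrix (Fin n ⊕ μ) (Fin n ⊕ μ) R := Matrix.fromBlocks p 0 0 1 with hE
  have hδδ : δ * δ = E + N := by
    rw [hδ, hE, hN, Matrix.fromBlocks_multiply, Matrix.fromBlocks_add]
    congr 1
    · rw [Matrix.zero_mul, zero_add, e1, add_zero]
    · rw [Matrix.zero_mul, zero_add, Matrix.mul_sub, e2, zero_sub, zero_add]
    · rw [Matrix.mul_zero, zero_add, Matrix.sub_mul, e3, zero_sub, zero_add]
    · rw [e4, Matrix.sub_mul, Matrix.mul_sub, Matrix.mul_sub, hdd]
      abel
  obtain ⟨K, hK⟩ := nil_pow (Sum.elim (fun _ => (2 : ℤ)) fun k => 2 * deg k + 1) N (by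
    rintro (l | l) (k | k) h
    · exact absurd rfl h
    · have h1 : (u' * s') l k ≠ 0 := fun h1 => h (by
        change -((u' * s') l k) = 0
        rw [h1, neg_zero])
      obtain ⟨m, h2, h3⟩ := mul_ne h1
      have := du' _ _ h2
      have := ds' _ _ h3
      simp only [Sum.elim_inl, Sum.elim_inr]
      omega
    · have h1 : (s' * v') l k ≠ 0 := fun h1 => h (by
        change -((s' * v') l k) = 0
        rw [h1, neg_zero])
      obtain ⟨m, h2, h3⟩ := mul_ne h1
      have := ds' _ _ h2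
      have := dv' _ _ h3
      simp only [Sum.elim_inl, Sum.elim_inr]
      omega
    · obtain ⟨m, h2, h3⟩ := mul_ne (A := s') (B := s') h
      have := ds' _ _ h2
      have := ds' _ _ h3
      simp only [Sum.elim_inr]
      omega)
  have hvδ : ∀ z : Fin n ⊕ μ → R, z ᵥ* δ = Sum.elim ((z ∘ Sum.inr) ᵥ* v')
      ((z ∘ Sum.inl) ᵥ* u' + (z ∘ Sum.inr) ᵥ* (d - s')) := by
    intro z
    rw [hδ, Matrix.vecMul_fromBlocks, Matrix.vecMul_zero, zero_add]
  have hvE : ∀ z : Fin n ⊕ μ → R, z ∘ Sum.inl ∈ Img p → z ᵥ* E = z := by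
    intro z hz
    rw [hE, Matrix.vecMul_fromBlocks, Matrix.vecMul_zero, Matrix.vecMul_zero, Matrix.vecMul_one,
      add_zero, zero_add, mem_img hp hz, Sum.elim_comp_inl_inr]
  have dds : ∀ l k, (d - s') l k ≠ 0 → (Even (deg l) ↔ ¬ Even (deg k)) := by
    intro l k h
    have h1 : (d - s') l k = d l k - s' l k := rfl
    by_cases h2 : d l k = 0
    · rw [h1, h2, zero_sub] at h
      have h3 := ds' l k (fun h3 => h (by rw [h3, neg_zero]))
      rw [h3, Int.even_add_one, not_not]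
    · have h3 := hd l k h2
      rw [h3, Int.even_sub_one, not_not]
  have h01 : ∀ z ∈ P0 deg p, z ᵥ* δ ∈ P1 (R := R) deg n := by
    intro z hz
    rw [hvδ]
    refine ⟨fun i => ?_, fun k hk => ?_⟩
    · rw [Sum.elim_inl]
      refine vmz _ _ _ fun l => ?_
      by_cases h : v' l i = 0
      · exact Or.inr h
      · refine Or.inl (hz.2 l ?_)
        rw [dv' _ _ h]
        exact Even.zero
    · rw [Sum.elim_inr, Pi.add_apply, vmz, vmz, add_zero]
      · intro l
        by_cases h : (d - s') l k = 0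
        · exact Or.inr h
        · exact Or.inl (hz.2 l ((dds _ _ h).2 hk))
      · intro l
        by_cases h : u' l k = 0
        · exact Or.inr h
        · refine absurd ?_ hk
          rw [du' _ _ h]
          exact Even.zero
  have h10 : ∀ z ∈ P1 (R := R) deg n, z ᵥ* δ ∈ P0 deg p := by
    intro z hz
    rw [hvδ]
    refine ⟨?_, fun k hk => ?_⟩
    · rw [Sum.elim_comp_inl]
      refine ⟨(z ∘ Sum.inr) ᵥ* v, ?_⟩
      change ((z ∘ Sum.inr) ᵥ* v) ᵥ* p = _
      rw [Matrix.vecMul_vecMul]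
    · rw [Sum.elim_inr, Pi.add_apply, vmz, vmz, add_zero]
      · intro l
        by_cases h : (d - s') l k = 0
        · exact Or.inr h
        · exact Or.inl (hz.2 l (fun h1 => (dds _ _ h).1 h1 hk))
      · intro l
        exact Or.inl (hz.1 l)
  let δL : (Fin n ⊕ μ → R) →ₗ[R] (Fin n ⊕ μ → R) := Matrix.toLinearMapRight' δ
  have hδL : ∀ z, δL z = z ᵥ* δ := fun z => rfl
  let α : P0 deg p →ₗ[R] P1 (R := R) deg n := δL.restrict h01
  let β : P1 (R := R) deg n →ₗ[R] P0 deg p := δL.restrict h10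
  have hα : ∀ z, (α z : Fin n ⊕ μ → R) = (z : Fin n ⊕ μ → R) ᵥ* δ := fun z => rfl
  have hβ : ∀ z, (β z : Fin n ⊕ μ → R) = (z : Fin n ⊕ μ → R) ᵥ* δ := fun z => rfl
  have hP1 : ∀ z ∈ P1 (R := R) deg n, z ∘ Sum.inl ∈ Img p := by
    intro z hz
    have : z ∘ Sum.inl = 0 := funext hz.1
    rw [this]
    exact (Img p).zero_mem
  have n0 : IsNilpotent (β ∘ₗ α - 1 : Module.End R (P0 deg p)) := by
    refine ⟨K, ?_⟩
    have h1 : ∀ (j : ℕ) (z : P0 deg p), ((((β ∘ₗ α - 1 : Module.End R (P0 deg p)) ^ j) z :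
        P0 deg p) : Fin n ⊕ μ → R) = (z : Fin n ⊕ μ → R) ᵥ* N ^ j := by
      intro j
      induction j with
      | zero =>
        intro z
        rw [pow_zero, pow_zero, Matrix.vecMul_one]
        rfl
      | succ j ih =>
        intro z
        rw [pow_succ', pow_succ, Module.End.mul_apply, ← Matrix.vecMul_vecMul, ← ih z]
        set y := ((β ∘ₗ α - 1 : Module.End R (P0 deg p)) ^ j) z
        change ((y : Fin n ⊕ μ → R) ᵥ* δ) ᵥ* δ - (y : Fin n ⊕ μ → R) = _
        rw [Matrix.vecMul_vecMul, hδδ, Matrix.vecMul_add, hvE _ y.2.1, add_sub_cancel_left]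
    ext1 z
    apply Subtype.ext
    rw [h1, hK, Matrix.vecMul_zero]
    rfl
  have n1 : IsNilpotent (α ∘ₗ β - 1 : Module.End R (P1 (R := R) deg n)) := by
    refine ⟨K, ?_⟩
    have h1 : ∀ (j : ℕ) (z : P1 (R := R) deg n),
        ((((α ∘ₗ β - 1 : Module.End R (P1 (R := R) deg n)) ^ j) z :
          P1 (R := R) deg n) : Fin n ⊕ μ → R) = (z : Fin n ⊕ μ → R) ᵥ* N ^ j := by
      intro j
      induction j with
      | zero =>
        intro z
        rw [pow_zero, pow_zero, Matrix.vecMul_one]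
        rfl
      | succ j ih =>
        intro z
        rw [pow_succ', pow_succ, Module.End.mul_apply, ← Matrix.vecMul_vecMul, ← ih z]
        set y := ((α ∘ₗ β - 1 : Module.End R (P1 (R := R) deg n)) ^ j) z
        change ((y : Fin n ⊕ μ → R) ᵥ* δ) ᵥ* δ - (y : Fin n ⊕ μ → R) = _
        rw [Matrix.vecMul_vecMul, hδδ, Matrix.vecMul_add, hvE _ (hP1 _ y.2), add_sub_cancel_left]
    ext1 z
    apply Subtype.ext
    rw [h1, hK, Matrix.vecMul_zero]
    rfl
  have hbij := bij_of_nil α β n0 n1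
  let e : P0 deg p ≃ₗ[R] P1 (R := R) deg n := LinearEquiv.ofBijective α hbij
  let eo : ({k // ¬ Even (deg k)} → R) ≃ₗ[R] (Fin (Fintype.card {k // ¬ Even (deg k)}) → R) :=
    LinearEquiv.funCongrLeft R R (Fintype.equivFin _).symm
  let ee : ({k // Even (deg k)} → R) ≃ₗ[R] (Fin (Fintype.card {k // Even (deg k)}) → R) :=
    LinearEquiv.funCongrLeft R R (Fintype.equivFin _).symm
  refine ⟨_, _, ⟨(LinearEquiv.prodCongr (LinearEquiv.refl R _) eo.symm).trans
    ((equivP0 deg p).symm.trans (e.trans ((equivP1 deg).trans ee)))⟩⟩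

end Pool.Agent.Lib.MP_551055_al.MT
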