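import Mathlib
import Pool.Agent.Lib.MP_551055_al.Trim.LS.PFree
import Pool.Agent.Lib.MP_551055_al.Trim.MT.StB

/-!
# Many trees, module FX: resolutions by finite direct sums of modules `E e_b`
-/

set_option autoImplicit false

namespace Pool.Agent.Lib.MP_551055_al
end Pool.Agent.Lib.MP_551055_al

namespace Pool.Agent.Lib.MP_551055_al.MT

open Pool.Agent.Lib.MP_551055_al

namespace FXAux

variable {E : Type} [Ring E] {n : ℕ} {e : Fin n → E}

theorem congr {d : ℕ} {A B : Type} [AddCommGroup A] [AddCommGroup B] [Module E A] [Module E B]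
    (g : A ≃ₗ[E] B) (h : FX e d A) : FX e d B := by
  cases d with
  | zero =>
    obtain ⟨k, s, ⟨g'⟩⟩ := h
    exact ⟨k, s, ⟨g.symm.trans g'⟩⟩
  | succ d =>
    obtain ⟨k, s, f, hf, hk⟩ := h
    refine ⟨k, s, g.toLinearMap ∘ₗ f, g.surjective.comp hf, ?_⟩
    rw [LinearMap.ker_comp_of_ker_eq_bot f (LinearEquiv.ker g)]
    exact hk

theorem zero_of_subsingleton {M : Type} [AddCommGroup M] [Module E M] [Subsingleton M] :
    FX e 0 M := ⟨0, Fin.elim0, ⟨0⟩⟩

theorem succ {d : ℕ} : ∀ {M : Type} [AddCommGroup M] [Module E M], FX e d M →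
    FX e (d + 1) M := by
  induction d with
  | zero =>
    intro M _ _ h
    obtain ⟨k, s, ⟨g⟩⟩ := h
    refine ⟨k, s, g.symm.toLinearMap, g.symm.surjective, ?_⟩
    have h0 : LinearMap.ker g.symm.toLinearMap = ⊥ := LinearEquiv.ker g.symm
    have h1 : Subsingleton (LinearMap.ker g.symm.toLinearMap) := by
      rw [h0]
      infer_instance
    exact zero_of_subsingleton
  | succ d ih =>
    intro M _ _ h
    obtain ⟨k, s, f, hf, hk⟩ := h
    exact ⟨k, s, f, hf, ih hk⟩

theorem mono {d d' : ℕ} (hd : d ≤ d') {M : Type} [AddCommGroup M] [Module E M]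
    (h : FX e d M) : FX e d' M := by
  induction hd with
  | refl => exact h
  | step _ ih => exact succ ih

/-- The first module of a resolution may be replaced by an isomorphic one. -/
theorem of_surj {d : ℕ} {F M : Type} [AddCommGroup F] [Module E F] [AddCommGroup M] [Module E M]
    (hF : FX e 0 F) (f : F →ₗ[E] M) (hf : Function.Surjective f)
    (h : FX e d (LinearMap.ker f)) : FX e (d + 1) M := by
  obtain ⟨k, s, ⟨g⟩⟩ := hF
  refine ⟨k, s, f ∘ₗ g.symm.toLinearMap, hf.comp g.symm.surjective, ?_⟩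
  have hk : LinearMap.ker (f ∘ₗ g.symm.toLinearMap) = (LinearMap.ker f).comap g.symm.toLinearMap :=
    LinearMap.ker_comp _ _
  let e' : LinearMap.ker (f ∘ₗ g.symm.toLinearMap) ≃ₗ[E] LinearMap.ker f :=
    g.symm.ofSubmodules _ _ (by
      rw [hk]
      exact Submodule.map_comap_eq_of_surjective g.symm.surjective _)
  exact congr e'.symm h

theorem prod {A C : Type} [AddCommGroup A] [AddCommGroup C] [Module E A] [Module E C]
    (hA : FX e 0 A) (hC : FX e 0 C) : FX e 0 (A × C) := by
  obtain ⟨a, s, ⟨gA⟩⟩ := hA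
  obtain ⟨c, t, ⟨gC⟩⟩ := hC
  refine ⟨a + c, fun i => Sum.elim s t (finSumFinEquiv.symm i), ⟨?_⟩⟩
  exact (LinearEquiv.prodCongr gA gC).trans
    ((LinearEquiv.sumPiEquivProdPi E (Fin a) (Fin c)
      (fun i => PE (e (Sum.elim s t i)))).symm.trans
      (LinearEquiv.piCongrLeft E (fun i => PE (e (Sum.elim s t i))) finSumFinEquiv.symm).symm)

theorem proj_PE {x : E} (hx : x * x = x) : Module.Projective E (PE x) := by
  let s : E →ₗ[E] PE x :=
    { toFun := fun y => ⟨y * x, by rw [mem_PE, mul_assoc, hx]⟩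
      map_add' := fun y z => Subtype.ext (add_mul y z x)
      map_smul' := fun r y => Subtype.ext (mul_assoc r y x) }
  refine Module.Projective.of_split (PE x).subtype s ?_
  ext1 y
  exact Subtype.ext (mem_PE.1 y.2)

theorem proj_pi {k : ℕ} {s : Fin k → Fin n} (he : ∀ b, e b * e b = e b) :
    Module.Projective E (∀ i, PE (e (s i))) := by
  have h : ∀ i, Module.Projective E (PE (e (s i))) := fun i => proj_PE (he _)
  exact Module.Projective.of_equiv (DFinsupp.linearEquivFunOnFintype (R := E)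
    (M := fun i => PE (e (s i))))

theorem proj_zero (he : ∀ b, e b * e b = e b) {M : Type} [AddCommGroup M] [Module E M]
    (h : FX e 0 M) : Module.Projective E M := by
  obtain ⟨k, s, ⟨g⟩⟩ := h
  have := proj_pi (s := s) he
  exact Module.Projective.of_equiv g.symm

theorem pi_zero (k : ℕ) (s : Fin k → Fin n) : FX e 0 (∀ i, PE (e (s i))) :=
  ⟨k, s, ⟨LinearEquiv.refl _ _⟩⟩

section

variable {A B C : Type} [AddCommGroup A] [AddCommGroup B] [AddCommGroup C] [Module E A]
  [Module E B] [Module E C]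

/-- The horseshoe lemma, one step. -/
theorem exists_horseshoe (i : A →ₗ[E] B) (q : B →ₗ[E] C)
    (hi : Function.Injective i) (hq : Function.Surjective q)
    (hr : LinearMap.range i = LinearMap.ker q) {F G : Type} [AddCommGroup F] [AddCommGroup G]
    [Module E F] [Module E G] [Module.Projective E G] (fA : F →ₗ[E] A)
    (hfA : Function.Surjective fA) (fC : G →ₗ[E] C) (hfC : Function.Surjective fC) :
    ∃ (h : (F × G) →ₗ[E] B) (i' : LinearMap.ker fA →ₗ[E] LinearMap.ker h)
      (q' : LinearMap.ker h →ₗ[E] LinearMap.ker fC), Function.Surjective h ∧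
      Function.Injective i' ∧ Function.Surjective q' ∧ LinearMap.range i' = LinearMap.ker q' := by
  obtain ⟨g, hg⟩ := Module.projective_lifting_property q fC hq
  have hg' : ∀ y, q (g y) = fC y := fun y => DFunLike.congr_fun hg y
  have hqi : ∀ a, q (i a) = 0 := fun a => by
    rw [← LinearMap.mem_ker, ← hr]
    exact ⟨a, rfl⟩
  let h : (F × G) →ₗ[E] B := LinearMap.coprod (i ∘ₗ fA) g
  have hh : ∀ z, h z = i (fA z.1) + g z.2 := fun z => rfl
  have hsurj : Function.Surjective h := by
    intro b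
    obtain ⟨y, hy⟩ := hfC (q b)
    have h1 : b - g y ∈ LinearMap.range i := by
      rw [hr, LinearMap.mem_ker, map_sub, hg', hy, sub_self]
    obtain ⟨a', ha'⟩ := h1
    obtain ⟨x, rfl⟩ := hfA a'
    refine ⟨(x, y), ?_⟩
    rw [hh, ha', sub_add_cancel]
  let i' : LinearMap.ker fA →ₗ[E] LinearMap.ker h :=
    LinearMap.codRestrict (LinearMap.ker h) (LinearMap.inl E F G ∘ₗ (LinearMap.ker fA).subtype)
      fun x => by
        rw [LinearMap.mem_ker, hh]
        change i (fA (x : F)) + g 0 = 0
        rw [LinearMap.mem_ker.1 x.2, map_zero, map_zero, add_zero]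
  let q' : LinearMap.ker h →ₗ[E] LinearMap.ker fC :=
    LinearMap.codRestrict (LinearMap.ker fC)
      (LinearMap.snd E F G ∘ₗ (LinearMap.ker h).subtype)
      fun z => by
        rw [LinearMap.mem_ker]
        change fC (z : F × G).2 = 0
        have h1 := LinearMap.mem_ker.1 z.2
        rw [hh] at h1
        have h2 := congrArg q h1
        rwa [map_add, hqi, zero_add, hg', map_zero] at h2
  have hi' : Function.Injective i' := by
    intro x y hxy
    apply Subtype.ext
    have h1 : ((x : F), (0 : G)) = ((y : F), (0 : G)) := congrArg Subtype.val hxy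
    exact congrArg Prod.fst h1
  have hq' : Function.Surjective q' := by
    intro y
    have h1 : g (y : G) ∈ LinearMap.range i := by
      rw [hr, LinearMap.mem_ker, hg']
      exact LinearMap.mem_ker.1 y.2
    obtain ⟨a', ha'⟩ := h1
    obtain ⟨x, rfl⟩ := hfA a'
    have h2 : ((-x, (y : G)) : F × G) ∈ LinearMap.ker h := by
      rw [LinearMap.mem_ker, hh, map_neg, map_neg, ha', neg_add_cancel]
    exact ⟨⟨_, h2⟩, Subtype.ext rfl⟩
  have hr' : LinearMap.range i' = LinearMap.ker q' := by
    ext z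
    constructor
    · rintro ⟨x, rfl⟩
      rw [LinearMap.mem_ker]
      exact Subtype.ext rfl
    · intro hz
      have h1 : (z : F × G).2 = 0 := congrArg Subtype.val (LinearMap.mem_ker.1 hz)
      have h2 := LinearMap.mem_ker.1 z.2
      rw [hh, h1, map_zero, add_zero] at h2
      have h3 : (z : F × G).1 ∈ LinearMap.ker fA := by
        rw [LinearMap.mem_ker]
        exact hi (by rw [h2, map_zero])
      refine ⟨⟨_, h3⟩, Subtype.ext ?_⟩
      exact Prod.ext rfl h1.symm
  exact ⟨h, i', q', hsurj, hi', hq', hr'⟩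

end

/-- Extensions. -/
theorem fx_ext (he : ∀ b, e b * e b = e b) (d : ℕ) : ∀ {A B C : Type} [AddCommGroup A]
    [AddCommGroup B] [AddCommGroup C] [Module E A] [Module E B] [Module E C] (i : A →ₗ[E] B)
    (q : B →ₗ[E] C), Function.Injective i → Function.Surjective q →
    LinearMap.range i = LinearMap.ker q → FX e d A → FX e d C → FX e d B := by
  induction d with
  | zero =>
    intro A B C _ _ _ _ _ _ i q hi hq hr hA hC
    have := proj_zero he hC
    obtain ⟨g⟩ := LS.exists_split_equiv i q hi hq hr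
    exact congr g (prod hA hC)
  | succ d ih =>
    intro A B C _ _ _ _ _ _ i q hi hq hr hA hC
    obtain ⟨a, s, fA, hfA, hkA⟩ := hA
    obtain ⟨c, t, fC, hfC, hkC⟩ := hC
    have := proj_pi (s := t) he
    obtain ⟨h, i', q', hh, hi', hq', hr'⟩ := exists_horseshoe i q hi hq hr fA hfA fC hfC
    exact of_surj (prod (pi_zero a s) (pi_zero c t)) h hh (ih i' q' hi' hq' hr' hkA hkC)

theorem fx_quot (he : ∀ b, e b * e b = e b) (d : ℕ) {A B C : Type} [AddCommGroup A]
    [AddCommGroup B] [AddCommGroup C] [Module E A] [Module E B] [Module E C] (i : A →ₗ[E] B)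
    (q : B →ₗ[E] C) (hi : Function.Injective i) (hq : Function.Surjective q)
    (hr : LinearMap.range i = LinearMap.ker q) (hA : FX e d A) (hB : FX e d B) :
    FX e (d + 1) C := by
  cases d with
  | zero =>
    let e2 : A ≃ₗ[E] LinearMap.ker q :=
      (LinearEquiv.ofInjective i hi).trans (LinearEquiv.ofEq _ _ hr)
    exact of_surj hB q hq (congr e2 hA)
  | succ d =>
    obtain ⟨k, s, p, hp, hk⟩ := hB
    obtain ⟨i', q', hi', hq', hr'⟩ := LS.exists_ker_comp i q hi hr p hp
    exact ⟨k, s, q ∘ₗ p, hq.comp hp, fx_ext he (d + 1) i' q' hi' hq' hr' (succ hk) hA⟩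

end FXAux

theorem stFX : StFX := fun _ _ _ _ he =>
  ⟨fun _ _ _ _ _ hd h => FXAux.mono hd h,
    fun d _ _ _ _ _ _ _ _ _ i q hi hq hr =>
      ⟨fun hA hC => FXAux.fx_ext he d i q hi hq hr hA hC,
        fun hA hB => FXAux.fx_quot he d i q hi hq hr hA hB⟩,
    fun _ _ _ _ _ _ _ g h => FXAux.congr g h⟩

end Pool.Agent.Lib.MP_551055_al.MT
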