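import Mathlib
import Pool.Agent.Lib.MP_551055_al.Trim.MT.Base
import Pool.Agent.Lib.MP_551055_al.Trim.MT.Defs
import Pool.Agent.Lib.MP_551055_al.Trim.MT.StA
import Pool.Agent.Lib.MP_551055_al.Trim.MT.StC
import Pool.Agent.Lib.MP_551055_al.Trim.OneRelation
import Pool.Agent.Lib.MP_551055_al.Trim.Red.Defs
import Pool.Agent.Lib.MP_551055_al.Trim.Red.Idem

/-!
# Many trees: from complexes to projective modules
-/

set_option autoImplicit false

namespace Pool.Agent.Lib.MP_551055_al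
end Pool.Agent.Lib.MP_551055_al

namespace Pool.Agent.Lib.MP_551055_al.MT

open Pool.Agent.Lib.MP_551055_al

open Matrix

private theorem fin_deg {Γ : Type} [Group Γ] {D : Type} {P : D → Type} [∀ i, PartialOrder (P i)]
    [∀ i, MulAction Γ (P i)] {N : Type} [Monoid N] {π : N →* Γ} {U : Finset D} {r : ℤ}
    {X Y : Ob P} {f : Matrix X.ι Y.ι (ZM N)} (hf : Ct π U r X Y f) {l : X.ι} {k : Y.ι}
    (h : f l k ≠ 0) : Y.deg k = X.deg l + r := by
  have h1 : ∃ m, (f l k).coeff m ≠ 0 := by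
    by_contra hn
    push Not at hn
    apply h
    apply MonoidAlgebra.coeff_injective
    ext m
    exact hn m
  obtain ⟨m, hm⟩ := h1
  exact (hf l k m hm).1

theorem stFin (h : StEul) : StFin := by
  classical
  intro Γ _ D _ _ P _ _ _ G _ π hπ hSU
  refine Red.stIdem G fun n e he => ?_
  have hne : ∀ i : D, Nonempty (P i) := SzAct.ne Γ
  let K : Co P G := ⟨⟨Fin n, inferInstance, inferInstance, fun _ => 0,
    fun _ i => (hne i).some⟩, 0⟩
  have hK : IsCx π ∅ K := ⟨Ct.zero, Matrix.mul_zero _⟩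
  have heK : HI π ∅ K e := by
    refine ⟨⟨fun l k m _ => ⟨(add_zero _).symm, fun i hi => absurd hi (Finset.notMem_empty i)⟩,
      ?_⟩, ?_⟩
    · change (0 : Matrix (Fin n) (Fin n) (ZM G)) * e = e * 0
      rw [Matrix.zero_mul, Matrix.mul_zero]
    · rw [he, sub_self]
      exact Nul.zero
  obtain ⟨M, hM, -, u, v, hu, hv, ⟨s₁, -, h1⟩, ⟨s, hs, h2⟩⟩ := hSU G π hπ ∅ (Finset.Subset.refl _)
    K e hK heK (fun i hi => absurd hi (Finset.notMem_empty i))
  have hKd : K.d = 0 := rfl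
  rw [hKd, Matrix.zero_mul, Matrix.mul_zero, add_zero, sub_eq_zero] at h1
  have hud := hu.2
  rw [hKd, Matrix.zero_mul] at hud
  have hdv := hv.2
  rw [hKd, Matrix.mul_zero] at hdv
  refine h (ZM G) n M.ι M.deg e M.d s u v he hM.2 ?_ ?_ ?_ ?_ hud.symm hdv h1 h2
  · intro l k hlk
    have := fin_deg hM.1 hlk
    omega
  · intro l k hlk
    exact fin_deg hs hlk
  · intro l k hlk
    have := fin_deg hu.1 hlk
    rw [this]
    rfl
  · intro l k hlk
    have h3 : (0 : ℤ) = M.deg l + 0 := fin_deg hv.1 hlk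
    omega

end Pool.Agent.Lib.MP_551055_al.MT
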