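import Mathlib
import Pool.Agent.Lib.MP_551055_al.Trim.LS.Stmts
import Pool.Agent.Lib.MP_551055_al.Trim.LS.TreeA
import Pool.Agent.Lib.MP_551055_al.Trim.MT.Defs
import Pool.Agent.Lib.MP_551055_al.Trim.MT.Trees

/-!
# Many trees: flows on trees (module Flow)
-/

set_option autoImplicit false

namespace Pool.Agent.Lib.MP_551055_al
end Pool.Agent.Lib.MP_551055_al

namespace Pool.Agent.Lib.MP_551055_al.LS
end Pool.Agent.Lib.MP_551055_al.LS

namespace Pool.Agent.Lib.MP_551055_al.MT.Flowaux
end Pool.Agent.Lib.MP_551055_al.MT.Flowaux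

namespace Pool.Agent.Lib.MP_551055_al.MT

open Pool.Agent.Lib.MP_551055_al

open Pool.Agent.Lib.MP_551055_al.LS (TreeAct side)

namespace Flowaux

variable {V : Type} {T : SimpleGraph V} {H : Type} [AddCommGroup H]

/-- The support of a flow is contained in a finite square. -/
theorem exists_square {y : V → V → H} (hy : IsFlow T y) :
    ∃ s : Finset V, ∀ u w, y u w ≠ 0 → u ∈ s ∧ w ∈ s := by
  classical
  refine ⟨hy.fin.toFinset.image Prod.fst ∪ hy.fin.toFinset.image Prod.snd, fun u w huw => ?_⟩
  have h1 : ((u, w) : V × V) ∈ hy.fin.toFinset := by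
    rw [Set.Finite.mem_toFinset]
    exact huw
  exact ⟨Finset.mem_union_left _ (Finset.mem_image.2 ⟨_, h1, rfl⟩),
    Finset.mem_union_right _ (Finset.mem_image.2 ⟨_, h1, rfl⟩)⟩

theorem self_zero {y : V → V → H} (hy : IsFlow T y) (v : V) : y v v = 0 :=
  hy.adj v v (T.irrefl)

theorem bd_eq {y : V → V → H} {s : Finset V} (hs : ∀ u w, y u w ≠ 0 → u ∈ s ∧ w ∈ s) (v : V) :
    bd y v = ∑ u ∈ s, y u v := by
  unfold bd
  refine finsum_eq_sum_of_support_subset _ fun u hu => ?_
  exact (hs u v hu).1

theorem bd_zero {y : V → V → H} {s : Finset V} (hs : ∀ u w, y u w ≠ 0 → u ∈ s ∧ w ∈ s) {v : V}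
    (hv : v ∉ s) : bd y v = 0 := by
  rw [bd_eq hs]
  refine Finset.sum_eq_zero fun u _ => ?_
  by_contra h
  exact hv (hs u v h).2

/-- The terms of a flow on a square cancel. -/
theorem sum_square {y : V → V → H} (hy : IsFlow T y) (s : Finset V) :
    ∑ v ∈ s, ∑ u ∈ s, y u v = 0 := by
  rw [← Finset.sum_product']
  refine Finset.sum_involution (fun e _ => (e.2, e.1)) ?_ ?_ ?_ ?_
  · rintro ⟨a, b⟩ _
    change y b a + y a b = 0
    rw [hy.anti a b, add_neg_cancel]
  · rintro ⟨a, b⟩ _ hne h
    have h1 : b = a := congrArg Prod.fst h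
    subst h1
    exact hne (self_zero hy b)
  · rintro ⟨a, b⟩ hab
    rw [Finset.mem_product] at hab ⊢
    exact ⟨hab.2, hab.1⟩
  · rintro ⟨a, b⟩ _
    rfl

theorem isFlow_zero : IsFlow T (fun _ _ => (0 : H)) where
  anti _ _ := neg_zero.symm
  adj _ _ _ := rfl
  fin := by simp

theorem isFlow_add {y y' : V → V → H} (hy : IsFlow T y) (hy' : IsFlow T y') :
    IsFlow T (fun u v => y u v + y' u v) where
  anti u v := by rw [hy.anti u v, hy'.anti u v, neg_add]
  adj u v h := by rw [hy.adj u v h, hy'.adj u v h, add_zero]
  fin := by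
    refine (hy.fin.union hy'.fin).subset fun e he => ?_
    by_contra h
    have h1 : y e.1 e.2 = 0 := by
      by_contra h1
      exact h (Or.inl h1)
    have h2 : y' e.1 e.2 = 0 := by
      by_contra h2
      exact h (Or.inr h2)
    exact he (by rw [h1, h2, add_zero])

theorem bd_add {y y' : V → V → H} (hy : IsFlow T y) (hy' : IsFlow T y') (v : V) :
    bd (fun u v => y u v + y' u v) v = bd y v + bd y' v := by
  obtain ⟨s, hs⟩ := exists_square hy
  obtain ⟨s', hs'⟩ := exists_square hy'
  unfold bd
  exact finsum_add_distrib (s.finite_toSet.subset fun u hu => (hs u v hu).1)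
    (s'.finite_toSet.subset fun u hu => (hs' u v hu).1)

open Classical in
/-- The elementary flow from `a` to `b`. -/
noncomputable def elem (a b : V) (h : H) (u v : V) : H :=
  (if u = a ∧ v = b then h else 0) - (if u = b ∧ v = a then h else 0)

theorem isFlow_elem {a b : V} (hab : T.Adj a b) (h : H) : IsFlow T (elem a b h) where
  anti u v := by
    classical
    unfold elem
    have h1 : (v = a ∧ u = b) ↔ (u = b ∧ v = a) := and_comm
    have h2 : (v = b ∧ u = a) ↔ (u = a ∧ v = b) := and_comm
    simp only [h1, h2]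
    abel
  adj u v huv := by
    classical
    unfold elem
    rw [if_neg, if_neg, sub_zero]
    · rintro ⟨rfl, rfl⟩
      exact huv hab.symm
    · rintro ⟨rfl, rfl⟩
      exact huv hab
  fin := by
    classical
    refine (Set.toFinite {((a, b) : V × V), (b, a)}).subset fun e he => ?_
    by_contra h1
    simp only [Set.mem_insert_iff, Set.mem_singleton_iff, not_or] at h1
    apply he
    unfold elem
    rw [if_neg, if_neg, sub_zero]
    · rintro ⟨h2, h3⟩
      exact h1.2 (Prod.ext h2 h3)
    · rintro ⟨h2, h3⟩
      exact h1.1 (Prod.ext h2 h3)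

open Classical in
theorem bd_elem {a b : V} (hab : T.Adj a b) (h : H) (v : V) :
    bd (elem a b h) v = (if v = b then h else 0) - (if v = a then h else 0) := by
  have hne : a ≠ b := hab.ne
  have hs : ∀ u w, elem a b h u w ≠ 0 → u ∈ ({a, b} : Finset V) ∧ w ∈ ({a, b} : Finset V) := by
    intro u w huw
    by_contra h1
    apply huw
    unfold elem
    rw [if_neg, if_neg, sub_zero]
    · rintro ⟨rfl, rfl⟩
      exact h1 ⟨by simp, by simp⟩
    · rintro ⟨rfl, rfl⟩
      exact h1 ⟨by simp, by simp⟩
  rw [bd_eq hs, Finset.sum_pair hne]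
  unfold elem
  have h1 : ¬(a = b ∧ v = a) := fun h2 => hne h2.1
  have h2 : ¬(b = a ∧ v = b) := fun h2 => hne h2.1.symm
  rw [if_neg h1, if_neg h2, sub_zero, zero_sub, sub_eq_add_neg]
  simp only [true_and]

open Classical in
/-- A flow from `a` to `b`. -/
theorem exists_path (hT : T.Connected) (a b : V) (h : H) :
    ∃ y : V → V → H, IsFlow T y ∧
      ∀ v, bd y v = (if v = b then h else 0) - (if v = a then h else 0) := by
  obtain ⟨p⟩ := hT.preconnected a b
  induction p with
  | nil =>
    refine ⟨fun _ _ => 0, isFlow_zero, fun v => ?_⟩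
    rw [sub_self]
    unfold bd
    exact finsum_zero
  | @cons a c b hac p ih =>
    obtain ⟨y, hy, hyb⟩ := ih
    refine ⟨fun u v => elem a c h u v + y u v, isFlow_add (isFlow_elem hac h) hy, fun v => ?_⟩
    rw [bd_add (isFlow_elem hac h) hy, bd_elem hac, hyb]
    abel

open Classical in
theorem exists_sum (hT : T.Connected) (o : V) (x : V → H) (s : Finset V) :
    ∃ y : V → V → H, IsFlow T y ∧
      ∀ v, bd y v = (if v ∈ s then x v else 0) - (if v = o then ∑ w ∈ s, x w else 0) := by
  induction s using Finset.induction_on with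
  | empty =>
    refine ⟨fun _ _ => 0, isFlow_zero, fun v => ?_⟩
    simp only [Finset.notMem_empty, if_false, Finset.sum_empty, ite_self, sub_self]
    unfold bd
    exact finsum_zero
  | insert a s ha ih =>
    obtain ⟨y, hy, hyb⟩ := ih
    obtain ⟨y', hy', hyb'⟩ := exists_path (T := T) hT o a (x a)
    refine ⟨fun u v => y u v + y' u v, isFlow_add hy hy', fun v => ?_⟩
    rw [bd_add hy hy', hyb, hyb', Finset.sum_insert ha]
    by_cases hva : v = a
    · subst hva
      by_cases hvo : v = o
      · simp only [ha, if_false, hvo, if_true, Finset.mem_insert, true_or]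
        subst hvo
        simp only [ha, if_false]
        abel
      · simp only [ha, if_false, hvo, if_true, Finset.mem_insert, true_or]
        abel
    · by_cases hvs : v ∈ s
      · by_cases hvo : v = o
        · simp only [hva, hvs, hvo, if_false, if_true, Finset.mem_insert, or_true]
          subst hvo
          simp only [hva, hvs, if_false, if_true, or_true]
          abel
        · simp only [hva, hvs, hvo, if_false, if_true, Finset.mem_insert, or_true]
          abel
      · by_cases hvo : v = o
        · simp only [hva, hvs, hvo, if_false, if_true, Finset.mem_insert]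
          subst hvo
          simp only [hva, hvs, if_false, or_self]
          abel
        · simp only [hva, hvs, hvo, if_false, Finset.mem_insert, or_self]
          abel

end Flowaux

open Flowaux

/-- Module Flow. -/
theorem stFlow : StFlow := by
  classical
  intro V T hT H _
  refine ⟨fun y hy => ?_, fun x hx hx0 => ?_, fun H' _ y R hy hR hR0 hex => ?_⟩
  · obtain ⟨s, hs⟩ := exists_square hy
    have hsup : ∀ v, bd y v ≠ 0 → v ∈ s := by
      intro v hv
      by_contra h
      exact hv (bd_zero hs h)
    refine ⟨s.finite_toSet.subset hsup, ?_, fun u v huv => ?_⟩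
    · rw [finsum_eq_sum_of_support_subset _ (s := s) hsup]
      simp only [bd_eq hs]
      exact sum_square hy s
    · obtain ⟨hv, hu, -, hcr⟩ := LS.stTreeA V T hT u v huv
      set W := side T u v with hW
      set sW := s.filter (fun w => w ∈ W) with hsW
      set sN := s.filter (fun w => w ∉ W) with hsN
      have h1 : ∑ᶠ w ∈ W, bd y w = ∑ w ∈ sW, bd y w := by
        refine finsum_mem_eq_sum_of_inter_support_eq _ ?_
        ext w
        constructor
        · rintro ⟨h2, h3⟩
          exact ⟨by simp only [hsW, Finset.coe_filter, Set.mem_ofPred_eq]; exact ⟨hsup w h3, h2⟩, h3⟩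
        · rintro ⟨h2, h3⟩
          simp only [hsW, Finset.coe_filter, Set.mem_ofPred_eq] at h2
          exact ⟨h2.2, h3⟩
      have h2 : ∀ w, ∑ u' ∈ s, y u' w = ∑ u' ∈ sW, y u' w + ∑ u' ∈ sN, y u' w := fun w =>
        (Finset.sum_filter_add_sum_filter_not s (fun w => w ∈ W) _).symm
      rw [h1]
      simp only [bd_eq hs, h2]
      rw [Finset.sum_add_distrib, sum_square hy, zero_add, ← Finset.sum_product']
      symm
      refine (Finset.sum_eq_single ((v, u) : V × V) ?_ ?_).trans rfl
      · rintro ⟨w, u'⟩ hmem hne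
        rw [Finset.mem_product, hsW, hsN, Finset.mem_filter, Finset.mem_filter] at hmem
        by_contra h3
        have h4 : T.Adj w u' := by
          by_contra h4
          exact h3 (hy.adj u' w fun h5 => h4 h5.symm)
        obtain ⟨h5, h6⟩ := hcr w u' h4 hmem.1.2 hmem.2.2
        exact hne (Prod.ext h5 h6)
      · intro hmem
        by_contra h3
        apply hmem
        obtain ⟨h4, h5⟩ := hs u v h3
        rw [Finset.mem_product, hsW, hsN, Finset.mem_filter, Finset.mem_filter]
        exact ⟨⟨h5, hv⟩, ⟨h4, hu⟩⟩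
  · obtain ⟨o⟩ := hT.connected.nonempty
    obtain ⟨y, hy, hyb⟩ := exists_sum hT.connected o x hx.toFinset
    refine ⟨y, hy, fun v => ?_⟩
    have h1 : ∑ w ∈ hx.toFinset, x w = 0 := by
      refine Eq.trans ?_ hx0
      refine (finsum_eq_sum_of_support_subset _ fun w hw => ?_).symm
      rw [Set.Finite.coe_toFinset]
      exact hw
    rw [hyb, h1, ite_self, sub_zero]
    by_cases hv : x v = 0
    · rw [hv, ite_self]
    · rw [if_pos]
      rw [Set.Finite.mem_toFinset]
      exact hv
  · have hc : ∀ u w, ∃ z, T.Adj u w → R u w z (y u w) := by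
      intro u w
      by_cases h : T.Adj u w
      · obtain ⟨z, hz⟩ := hex u w h
        exact ⟨z, fun _ => hz⟩
      · exact ⟨0, fun h' => absurd h' h⟩
    choose c hc using hc
    have hadj : ∀ u w, y u w ≠ 0 → T.Adj u w := by
      intro u w h
      by_contra h'
      exact h (hy.adj u w h')
    let _ : LinearOrder V := linearOrderOfSTO WellOrderingRel
    let y' : V → V → H' := fun u w => if y u w = 0 then 0 else if u < w then c u w else -c w u
    have h0 : ∀ u w, y u w = 0 → y' u w = 0 := fun u w h => if_pos h
    have hswap : ∀ u w, y u w = 0 → y w u = 0 := by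
      intro u w h
      rw [hy.anti, h, neg_zero]
    have hpos : ∀ u w, y u w ≠ 0 → u < w → y' u w = c u w := by
      intro u w h h'
      change (if y u w = 0 then 0 else if u < w then c u w else -c w u) = _
      rw [if_neg h, if_pos h']
    have hneg : ∀ u w, y u w ≠ 0 → w < u → y' u w = -c w u := by
      intro u w h h'
      change (if y u w = 0 then 0 else if u < w then c u w else -c w u) = _
      rw [if_neg h, if_neg h'.le.not_gt]
    refine ⟨y', ⟨fun u w => ?_, fun u w h => h0 u w (hy.adj u w h), ?_⟩, fun u w => ?_⟩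
    · by_cases h : y u w = 0
      · rw [h0 u w h, h0 w u (hswap u w h), neg_zero]
      · have h' : y w u ≠ 0 := fun h' => h (hswap w u h')
        rcases lt_or_gt_of_ne (hadj u w h).ne with h1 | h1
        · rw [hpos u w h h1, hneg w u h' h1, neg_neg]
        · rw [hneg u w h h1, hpos w u h' h1]
    · refine hy.fin.subset fun e he => ?_
      intro h
      exact he (h0 _ _ h)
    · by_cases h : y u w = 0
      · rw [h0 u w h, h]
        exact hR0 u w
      · have h' : y w u ≠ 0 := fun h' => h (hswap w u h')
        rcases lt_or_gt_of_ne (hadj u w h).ne with h1 | h1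
        · rw [hpos u w h h1]
          exact hc u w (hadj u w h)
        · rw [hneg u w h h1, hy.anti u w]
          exact hR w u _ _ (hc w u (hadj w u h'))

end Pool.Agent.Lib.MP_551055_al.MT
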