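import Mathlib
import Pool.Agent.Lib.MP_551055_al.Trim.LS.Stmts
import Pool.Agent.Lib.MP_551055_al.Trim.MT.Base
import Pool.Agent.Lib.MP_551055_al.Trim.MT.Defs
import Pool.Agent.Lib.MP_551055_al.Trim.MT.Map
import Pool.Agent.Lib.MP_551055_al.Trim.MT.StA

/-!
# Many trees: module Fr (homotopy equivalences over `ℤ[G × ℤ]`)
-/

set_option autoImplicit false

namespace Pool.Agent.Lib.MP_551055_al
end Pool.Agent.Lib.MP_551055_al

namespace Pool.Agent.Lib.MP_551055_al.MT

open Pool.Agent.Lib.MP_551055_al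

open Matrix

section

variable {G : Type} [Group G]

/-- The powers of the variable are central. -/
theorem fr_zZ_comm (a : ℤ) (x : ZM (GZ G)) : zZ G a * x = x * zZ G a := by
  induction x using MonoidAlgebra.induction_linear with
  | zero => rw [mul_zero, zero_mul]
  | add x y hx hy => rw [mul_add, add_mul, hx, hy]
  | single m c =>
    unfold zZ
    rw [MonoidAlgebra.single_mul_single, MonoidAlgebra.single_mul_single, one_mul, mul_one]
    congr 1
    obtain ⟨g, k⟩ := m
    refine Prod.ext ?_ ?_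
    · change (1 : G) * g = g * 1
      rw [one_mul, mul_one]
    · exact mul_comm _ _

theorem fr_zZ_mul (a b : ℤ) : zZ G a * zZ G b = zZ G (a + b) := by
  unfold zZ
  rw [MonoidAlgebra.single_mul_single, one_mul, Prod.mk_mul_mk, one_mul, ← ofAdd_add]

theorem fr_zZ_zero : zZ G 0 = 1 := rfl

theorem fr_zZ_pi {Γ : Type} [Group Γ] (π : G →* Γ) (a : ℤ) (m : GZ G)
    (hm : (zZ G a).coeff m ≠ 0) : pZ π m = 1 := by
  have h : m = (1, Multiplicative.ofAdd a) := coeff_single_ne hm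
  rw [h]
  exact map_one π

/-- A central scalar can be moved through a product of matrices. -/
theorem fr_mul_smul {α β δ : Type} [Fintype β] (a : ℤ) (f : Matrix α β (ZM (GZ G)))
    (g : Matrix β δ (ZM (GZ G))) : f * (zZ G a • g) = zZ G a • (f * g) := by
  ext1 i j
  rw [Matrix.smul_apply, Matrix.mul_apply, Matrix.mul_apply, smul_eq_mul, Finset.mul_sum]
  refine Finset.sum_congr rfl fun k _ => ?_
  rw [Matrix.smul_apply, smul_eq_mul, ← mul_assoc, ← fr_zZ_comm, mul_assoc]

theorem fr_map_injective {α β : Type} {f g : Matrix α β (ZM (GN G))}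
    (h : f.map (loc G) = g.map (loc G)) : f = g := by
  ext1 i j
  exact loc_injective (congrFun (congrFun h i) j)

end

/-- Module Fr. -/
theorem stFr (h : StCC) (hClr : StClr) : StFr := by
  intro Γ _ D P _ _ _ G _ π V M₁ N₁ hM hN hiso
  obtain ⟨u, v, hu, hv, h1, h2⟩ := hiso
  obtain ⟨a, f, hf, hfa⟩ := (hClr Γ D P G π V M₁.toOb N₁.toOb 0).1 u hu.1
  have hud : M₁.d.map (loc G) * u = u * N₁.d.map (loc G) := hu.2
  have hvd : N₁.d.map (loc G) * v = v * M₁.d.map (loc G) := hv.2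
  -- `f` is a chain map
  have hfd : M₁.d * f = f * N₁.d := by
    refine fr_map_injective ?_
    rw [map_mul', map_mul', hfa, fr_mul_smul, hud, Matrix.smul_mul]
  have hfch : Ch (pN π) V M₁ N₁ f := ⟨hf, hfd⟩
  have hfch' : Ch (pZ π) V (M₁.map (loc G)) (N₁.map (loc G)) (f.map (loc G)) :=
    hfch.map (pZ_hLoc π)
  -- the inverse
  have hw : Ch (pZ π) V (N₁.map (loc G)) (M₁.map (loc G)) (zZ G (-a) • v) := by
    refine ⟨Ct.smul hv.1 (fr_zZ_pi π _), ?_⟩
    change N₁.d.map (loc G) * (zZ G (-a) • v) = (zZ G (-a) • v) * M₁.d.map (loc G)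
    rw [fr_mul_smul, hvd, Matrix.smul_mul]
  have e1 : f.map (loc G) * (zZ G (-a) • v) = u * v := by
    rw [hfa, fr_mul_smul, Matrix.smul_mul, smul_smul, fr_zZ_mul, neg_add_cancel, fr_zZ_zero,
      one_smul]
  have e2 : (zZ G (-a) • v) * f.map (loc G) = v * u := by
    rw [hfa, Matrix.smul_mul, fr_mul_smul, smul_smul, fr_zZ_mul, neg_add_cancel, fr_zZ_zero,
      one_smul]
  have hc := (h Γ D P (GZ G) (pZ π) V (M₁.map (loc G)) (N₁.map (loc G)) (f.map (loc G)) hfch').1
    (zZ G (-a) • v) hw (by rw [e1]; exact h1) (by rw [e2]; exact h2)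
  rw [← cone_map] at hc
  obtain ⟨c, hcc, hc1⟩ := hc
  obtain ⟨m, H, hH, hHm⟩ := (hClr Γ D P G π V (cone M₁ N₁ f).toOb (cone M₁ N₁ f).toOb 1).1 c hcc
  refine ⟨f, hfch, m, H, hH, fr_map_injective ?_⟩
  have hc2 : (cone M₁ N₁ f).d.map (loc G) * c + c * (cone M₁ N₁ f).d.map (loc G) = 1 := hc1.symm
  rw [map_add', map_mul', map_mul', hHm, fr_mul_smul, Matrix.smul_mul, ← smul_add, hc2,
    map_smul', map_one', loc_zN]

end Pool.Agent.Lib.MP_551055_al.MT
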