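import Mathlib
import Pool.Agent.Lib.MP_551055_al.Trim.MT.Base
import Pool.Agent.Lib.MP_551055_al.Trim.MT.Defs
import Pool.Agent.Lib.MP_551055_al.Trim.MT.Map
import Pool.Agent.Lib.MP_551055_al.Trim.MT.StA
import Pool.Agent.Lib.MP_551055_al.Trim.MT.Tg

/-!
# Many trees: module K2 (the cone of a map from a contractible complex)
-/

set_option autoImplicit false

namespace Pool.Agent.Lib.MP_551055_al
end Pool.Agent.Lib.MP_551055_al

namespace Pool.Agent.Lib.MP_551055_al.MT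

open Pool.Agent.Lib.MP_551055_al

open Matrix

section

variable {Γ : Type} [Group Γ] {D : Type} {P : D → Type} [∀ i, PartialOrder (P i)]
  [∀ i, MulAction Γ (P i)] {N : Type} [Monoid N]

/-- `IsoL` is invariant under deformation retractions of the target. -/
private theorem k2_retract {π : N →* Γ} {U : Finset D} (T T' : Tg P π U)
    (i : T.V →ₗ[ZM N] T'.V) (p : T'.V →ₗ[ZM N] T.V) (R : T'.V →ₗ[ZM N] T'.V)
    (hi : ∀ B q, ∀ x ∈ T.fam B q, i x ∈ T'.fam B q)
    (hp : ∀ B q, ∀ x ∈ T'.fam B q, p x ∈ T.fam B q)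
    (hR : ∀ B q, ∀ x ∈ T'.fam B q, R x ∈ T'.fam B (q + 1))
    (hid : ∀ x, i (T.d x) = T'.d (i x)) (hpd : ∀ x, p (T'.d x) = T.d (p x))
    (hpi : ∀ x, p (i x) = x) (hip : ∀ y, i (p y) = y + T'.d (R y) + R (T'.d y))
    (K : Co P N) (e : Matrix K.ι K.ι (ZM N)) (h : IsoL T K e) : IsoL T' K e := by
  obtain ⟨u, v, r, s, hu, hv, hr, hs, hud, hvd, hvu, huv⟩ := h
  refine ⟨i.comp u, v.comp p, R + (i.comp r).comp p, s, ?_, ?_, ?_, hs, ?_, ?_, ?_, ?_⟩
  · intro B q x hx
    exact hi B q _ (hu B q x hx)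
  · intro B q y hy
    exact hv B q _ (hp B q y hy)
  · intro B q y hy
    exact add_mem (hR B q y hy) (hi B (q + 1) _ (hr B q _ (hp B q y hy)))
  · intro x
    change i (u (x ᵥ* K.d)) = T'.d (i (u x))
    rw [hud, hid]
  · intro y
    change v (p (T'.d y)) = v (p y) ᵥ* K.d
    rw [hpd, hvd]
  · intro x
    change v (p (i (u x))) = _
    rw [hpi, hvu]
  · intro y
    change i (u (v (p y))) = y + T'.d (R y + i (r (p y))) + (R (T'.d y) + i (r (p (T'.d y))))
    rw [huv, map_add, map_add, hip, hpd, map_add T'.d, hid]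
    abel

/-- Restriction of scalars for linear maps between targets. -/
private noncomputable def k2Res {N' : Type} [Monoid N'] {π : N →* Γ} {π' : N' →* Γ} {U : Finset D}
    (h : N →* N') (hh : ∀ m, π' (h m) = π m) (T T' : Tg P π' U) (F : T.V →ₗ[ZM N'] T'.V) :
    (T.res h hh).V →ₗ[ZM N] (T'.res h hh).V where
  toFun := F
  map_add' := F.map_add
  map_smul' := fun a x => F.map_smul (mdh h a) x

end

/-- Module K2. -/
theorem stK2 : StK2 := by
  intro Γ _ D P _ _ _ G _ π V M₁ N₁ f W e hM h hf hcontr hIso h'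
  obtain ⟨t, ht, ht1⟩ := hcontr
  -- the three maps
  let i : (N₁.ι → ZM (GN G)) →ₗ[ZM (GN G)] ((cone M₁ N₁ f).ι → ZM (GN G)) :=
    { toFun := fun n => Sum.elim 0 n
      map_add' := fun x y => by
        funext l
        rcases l with l | l
        · simp
        · rfl
      map_smul' := fun a x => by
        funext l
        rcases l with l | l
        · simp
        · rfl }
  let p : ((cone M₁ N₁ f).ι → ZM (GN G)) →ₗ[ZM (GN G)] (N₁.ι → ZM (GN G)) :=
    { toFun := fun z => (fun l => z (Sum.inr l)) + ((fun l => z (Sum.inl l)) ᵥ* t) ᵥ* f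
      map_add' := fun x y => by
        have h1 : (fun l => (x + y) (Sum.inl l)) = (fun l => x (Sum.inl l)) + fun l => y (Sum.inl l) := rfl
        have h2 : (fun l => (x + y) (Sum.inr l)) = (fun l => x (Sum.inr l)) + fun l => y (Sum.inr l) := rfl
        rw [h1, h2, Matrix.add_vecMul, Matrix.add_vecMul]
        abel
      map_smul' := fun a x => by
        have h1 : (fun l => (a • x) (Sum.inl l)) = a • fun l => x (Sum.inl l) := rfl
        have h2 : (fun l => (a • x) (Sum.inr l)) = a • fun l => x (Sum.inr l) := rfl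
        rw [h1, h2, Matrix.smul_vecMul, Matrix.smul_vecMul, RingHom.id_apply, smul_add] }
  let R : ((cone M₁ N₁ f).ι → ZM (GN G)) →ₗ[ZM (GN G)] ((cone M₁ N₁ f).ι → ZM (GN G)) :=
    { toFun := fun z => Sum.elim ((fun l => z (Sum.inl l)) ᵥ* t) 0
      map_add' := fun x y => by
        have h1 : (fun l => (x + y) (Sum.inl l)) = (fun l => x (Sum.inl l)) + fun l => y (Sum.inl l) := rfl
        rw [h1, Matrix.add_vecMul]
        funext l
        rcases l with l | l
        · rfl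
        · simp
      map_smul' := fun a x => by
        have h1 : (fun l => (a • x) (Sum.inl l)) = a • fun l => x (Sum.inl l) := rfl
        rw [h1, Matrix.smul_vecMul, RingHom.id_apply]
        funext l
        rcases l with l | l
        · rfl
        · simp }
  have hd : ∀ z : (cone M₁ N₁ f).ι → ZM (GN G), z ᵥ* (cone M₁ N₁ f).d =
      Sum.elim (-((fun l => z (Sum.inl l)) ᵥ* M₁.d))
        ((fun l => z (Sum.inl l)) ᵥ* f + (fun l => z (Sum.inr l)) ᵥ* N₁.d) := by
    intro z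
    have h0 : (cone M₁ N₁ f).d = Matrix.fromBlocks (-M₁.d) f 0 N₁.d := rfl
    rw [h0, Matrix.vecMul_fromBlocks, Matrix.vecMul_neg, Matrix.vecMul_zero, add_zero]
    rfl
  have htd : ∀ m : M₁.ι → ZM (GN G), (m ᵥ* M₁.d) ᵥ* t + (m ᵥ* t) ᵥ* M₁.d = m := by
    intro m
    rw [Matrix.vecMul_vecMul, Matrix.vecMul_vecMul, ← Matrix.vecMul_add, ← ht1, Matrix.vecMul_one]
  have hfd : ∀ m : M₁.ι → ZM (GN G), (m ᵥ* M₁.d) ᵥ* f = (m ᵥ* f) ᵥ* N₁.d := by
    intro m
    rw [Matrix.vecMul_vecMul, Matrix.vecMul_vecMul, hf.2]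
  refine k2_retract _ _
    (k2Res (hInc G) (pN_hInc π) (Tg.ofCo N₁ h) (Tg.ofCo (cone M₁ N₁ f) h') i)
    (k2Res (hInc G) (pN_hInc π) (Tg.ofCo (cone M₁ N₁ f) h') (Tg.ofCo N₁ h) p)
    (k2Res (hInc G) (pN_hInc π) (Tg.ofCo (cone M₁ N₁ f) h') (Tg.ofCo (cone M₁ N₁ f) h') R)
    ?_ ?_ ?_ ?_ ?_ ?_ ?_ W e hIso
  · intro B q x hx
    change i x ∈ fam (pN π) V (cone M₁ N₁ f).toOb B q
    change x ∈ fam (pN π) V N₁.toOb B q at hx
    intro l m hm
    rcases l with l | l
    · exact absurd rfl hm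
    · exact hx l m hm
  · intro B q z hz
    change p z ∈ fam (pN π) V N₁.toOb B q
    change z ∈ fam (pN π) V (cone M₁ N₁ f).toOb B q at hz
    have h1 : (fun l => z (Sum.inl l)) ∈ fam (pN π) V M₁.toOb B (q - 1) := by
      intro l m hm
      have h2 := hz (Sum.inl l) m hm
      refine ⟨?_, h2.2⟩
      have h3 : M₁.deg l + 1 = q := h2.1
      change M₁.deg l = q - 1
      omega
    have h2 : (fun l => z (Sum.inr l)) ∈ fam (pN π) V N₁.toOb B q := fun l m hm =>
      hz (Sum.inr l) m hm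
    exact add_mem h2 (fam_vecMul' hf.1 (fam_vecMul' ht h1 (t := q) (by omega)) (by omega))
  · intro B q z hz
    change R z ∈ fam (pN π) V (cone M₁ N₁ f).toOb B (q + 1)
    change z ∈ fam (pN π) V (cone M₁ N₁ f).toOb B q at hz
    have h1 : (fun l => z (Sum.inl l)) ∈ fam (pN π) V M₁.toOb B (q - 1) := by
      intro l m hm
      have h2 := hz (Sum.inl l) m hm
      refine ⟨?_, h2.2⟩
      have h3 : M₁.deg l + 1 = q := h2.1
      change M₁.deg l = q - 1
      omega
    have h2 := fam_vecMul' ht h1 (t := q) (by omega)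
    intro l m hm
    rcases l with l | l
    · have h3 := h2 l m hm
      refine ⟨?_, h3.2⟩
      have h4 : M₁.deg l = q := h3.1
      change M₁.deg l + 1 = q + 1
      omega
    · exact absurd rfl hm
  · intro x
    change i (x ᵥ* N₁.d) = i x ᵥ* (cone M₁ N₁ f).d
    rw [hd]
    funext l
    rcases l with l | l
    · change (0 : ZM (GN G)) = (-((fun _ => (0 : ZM (GN G))) ᵥ* M₁.d)) l
      have h1 : (fun _ => (0 : ZM (GN G))) ᵥ* M₁.d = 0 := Matrix.zero_vecMul _
      rw [h1, neg_zero]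
      rfl
    · change (x ᵥ* N₁.d) l = ((fun _ => (0 : ZM (GN G))) ᵥ* f + x ᵥ* N₁.d) l
      have h1 : (fun _ => (0 : ZM (GN G))) ᵥ* f = 0 := Matrix.zero_vecMul _
      rw [h1, zero_add]
  · intro z
    change p (z ᵥ* (cone M₁ N₁ f).d) = p z ᵥ* N₁.d
    rw [hd]
    change ((fun l => z (Sum.inl l)) ᵥ* f + (fun l => z (Sum.inr l)) ᵥ* N₁.d) +
      ((-((fun l => z (Sum.inl l)) ᵥ* M₁.d)) ᵥ* t) ᵥ* f =
      ((fun l => z (Sum.inr l)) + ((fun l => z (Sum.inl l)) ᵥ* t) ᵥ* f) ᵥ* N₁.d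
    generalize (fun l => z (Sum.inl l)) = m
    generalize (fun l => z (Sum.inr l)) = n
    have h1 := htd m
    have h2 : (m ᵥ* M₁.d) ᵥ* t = m - (m ᵥ* t) ᵥ* M₁.d := by
      rw [eq_sub_iff_add_eq]
      exact h1
    rw [Matrix.neg_vecMul, h2, Matrix.neg_vecMul, Matrix.sub_vecMul, hfd, Matrix.add_vecMul]
    abel
  · intro (x : N₁.ι → ZM (GN G))
    change p (i x) = x
    change x + ((fun _ => (0 : ZM (GN G))) ᵥ* t) ᵥ* f = x
    have h1 : (fun _ => (0 : ZM (GN G))) ᵥ* t = 0 := Matrix.zero_vecMul _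
    rw [h1, Matrix.zero_vecMul, add_zero]
  · intro (z : (cone M₁ N₁ f).ι → ZM (GN G))
    change i (p z) = z + R z ᵥ* (cone M₁ N₁ f).d + R (z ᵥ* (cone M₁ N₁ f).d)
    rw [hd, hd]
    funext l
    rcases l with l | l
    · change (0 : ZM (GN G)) = z (Sum.inl l) +
        (-(((fun l => z (Sum.inl l)) ᵥ* t) ᵥ* M₁.d)) l +
        ((-((fun l => z (Sum.inl l)) ᵥ* M₁.d)) ᵥ* t) l
      have h1 := congrFun (htd fun l => z (Sum.inl l)) l
      rw [Matrix.neg_vecMul]
      rw [Pi.add_apply] at h1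
      rw [Pi.neg_apply, Pi.neg_apply]
      nth_rewrite 1 [← h1]
      abel
    · change z (Sum.inr l) + (((fun l => z (Sum.inl l)) ᵥ* t) ᵥ* f) l = z (Sum.inr l) +
        (((fun l => z (Sum.inl l)) ᵥ* t) ᵥ* f + (fun _ => (0 : ZM (GN G))) ᵥ* N₁.d) l + 0
      have h1 : (fun _ => (0 : ZM (GN G))) ᵥ* N₁.d = 0 := Matrix.zero_vecMul _
      rw [h1, add_zero, add_zero]

end Pool.Agent.Lib.MP_551055_al.MT
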