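import Mathlib
import Pool.Agent.Lib.MP_551055_al.Trim.MT.Base
import Pool.Agent.Lib.MP_551055_al.Trim.MT.Defs
import Pool.Agent.Lib.MP_551055_al.Trim.MT.Gen
import Pool.Agent.Lib.MP_551055_al.Trim.MT.StB

/-!
# Many trees: exactness of cones (module ConeH)
-/

set_option autoImplicit false

namespace Pool.Agent.Lib.MP_551055_al
end Pool.Agent.Lib.MP_551055_al

namespace Pool.Agent.Lib.MP_551055_al.MT

open Pool.Agent.Lib.MP_551055_al

open Matrix

section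

variable {Γ : Type} [Group Γ] {D : Type} {P : D → Type} [∀ i, PartialOrder (P i)]
  [∀ i, MulAction Γ (P i)] {N : Type} [Monoid N] {π : N →* Γ} {U : Finset D}

/-- The elements of a cone in components. -/
theorem mem_fam_cone {M A : Co P N} {h : Matrix M.ι A.ι (ZM N)} {B : Sz P} {q : ℤ}
    {w : M.ι ⊕ A.ι → ZM N} : w ∈ fam π U (cone M A h).toOb B q ↔
      (w ∘ Sum.inl) ∈ fam π U M.toOb B (q - 1) ∧ (w ∘ Sum.inr) ∈ fam π U A.toOb B q := by
  constructor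
  · intro hw
    refine ⟨fun l m hm => ?_, fun l m hm => ?_⟩
    · obtain ⟨h1, h2⟩ := hw (Sum.inl l) m hm
      exact ⟨by change M.deg l + 1 = q at h1; omega, h2⟩
    · exact hw (Sum.inr l) m hm
  · rintro ⟨h1, h2⟩ (l | l) m hm
    · obtain ⟨h3, h4⟩ := h1 l m hm
      exact ⟨by change M.deg l + 1 = q; omega, h4⟩
    · exact h2 l m hm

/-- The differential of a cone in components. -/
theorem vecMul_cone_d {M A : Co P N} (h : Matrix M.ι A.ι (ZM N)) (w : M.ι ⊕ A.ι → ZM N) :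
    w ᵥ* (cone M A h).d = Sum.elim (-((w ∘ Sum.inl) ᵥ* M.d))
      ((w ∘ Sum.inl) ᵥ* h + (w ∘ Sum.inr) ᵥ* A.d) := by
  change w ᵥ* Matrix.fromBlocks (-M.d) h 0 A.d = _
  rw [Matrix.vecMul_fromBlocks, Matrix.vecMul_neg, Matrix.vecMul_zero, add_zero]

end

theorem stConeH : StConeH := by
  intro Γ _ D P _ _ _ N _ π U M A h hM hA hh q hi hs B w hw
  obtain ⟨hw1, hw2⟩ := hw
  obtain ⟨hx, hy⟩ := mem_fam_cone.1 hw1
  rw [vecMul_cone_d] at hw2
  have h1 : -((w ∘ Sum.inl) ᵥ* M.d) = 0 := by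
    have := congrArg (fun f => f ∘ Sum.inl) hw2
    exact this
  have h2 : (w ∘ Sum.inl) ᵥ* h + (w ∘ Sum.inr) ᵥ* A.d = 0 := by
    have := congrArg (fun f => f ∘ Sum.inr) hw2
    exact this
  obtain ⟨x', hx', h3⟩ := hi B (w ∘ Sum.inl) ⟨hx, neg_eq_zero.1 h1⟩
    ⟨-(w ∘ Sum.inr), by rw [sub_add_cancel]; exact neg_mem hy, by
      rw [Matrix.neg_vecMul]
      exact neg_eq_of_add_eq_zero_left h2⟩
  rw [sub_add_cancel] at hx'
  obtain ⟨z, hz, b, hb, h4⟩ := hs B ((w ∘ Sum.inr) + x' ᵥ* h)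
    ⟨add_mem hy (fam_vecMul' hh.1 hx' (add_zero q)), by
      rw [Matrix.add_vecMul, Matrix.vecMul_vecMul, ← hh.2, ← Matrix.vecMul_vecMul, h3, add_comm]
      exact h2⟩
  refine ⟨Sum.elim (-x' + z) (-b), ?_, ?_⟩
  · rw [mem_fam_cone]
    refine ⟨?_, ?_⟩
    · rw [add_sub_cancel_right]
      exact add_mem (neg_mem hx') hz.1
    · exact neg_mem hb
  · rw [vecMul_cone_d, Sum.elim_comp_inl, Sum.elim_comp_inr, Matrix.add_vecMul, hz.2, add_zero,
      Matrix.neg_vecMul, neg_neg, h3, Matrix.add_vecMul, Matrix.neg_vecMul, Matrix.neg_vecMul, h4]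
    funext l
    rcases l with l | l
    · rfl
    · simp only [Sum.elim_inr, Pi.add_apply, Pi.sub_apply, Pi.neg_apply, Function.comp_apply]
      abel

end Pool.Agent.Lib.MP_551055_al.MT
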