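import Mathlib
import Pool.Agent.Lib.MP_551055_al.Trim.LS.Stmts
import Pool.Agent.Lib.MP_551055_al.Trim.MT.Base
import Pool.Agent.Lib.MP_551055_al.Trim.MT.ConeH
import Pool.Agent.Lib.MP_551055_al.Trim.MT.Defs
import Pool.Agent.Lib.MP_551055_al.Trim.MT.Fr
import Pool.Agent.Lib.MP_551055_al.Trim.MT.Gen
import Pool.Agent.Lib.MP_551055_al.Trim.MT.StB

/-!
# Many trees: module L5 (glueing of lattices)
-/

set_option autoImplicit false

namespace Pool.Agent.Lib.MP_551055_al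
end Pool.Agent.Lib.MP_551055_al

namespace Pool.Agent.Lib.MP_551055_al.MT

open Pool.Agent.Lib.MP_551055_al

open Matrix

section

variable {Γ : Type} [Group Γ] {D : Type} {P : D → Type} [∀ i, PartialOrder (P i)]
  [∀ i, MulAction Γ (P i)] {N : Type} [Monoid N] {π : N →* Γ} {U : Finset D}

/-- Homotopy equivalences are injective in homology. -/
theorem l5_inj [SzAct Γ P] {X Y : Co P N} {u : Matrix X.ι Y.ι (ZM N)}
    {v : Matrix Y.ι X.ι (ZM N)} (hv : Ch π U Y X v) (h1 : Nul π U X X (u * v - 1)) {B : Sz P}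
    {q : ℤ} {x : X.ι → ZM N} (hx : x ∈ ZC π U X q B) (hb : x ᵥ* u ∈ BC π U Y q B) :
    x ∈ BC π U X q B := by
  obtain ⟨s, hs, e⟩ := h1
  obtain ⟨y, hy, e1⟩ := hb
  refine ⟨y ᵥ* v - x ᵥ* s, sub_mem (fam_vecMul' hv.1 hy (add_zero _)) (fam_vecMul hs hx.1), ?_⟩
  have e2 : x ᵥ* (u * v - 1) = (x ᵥ* s) ᵥ* X.d := by
    rw [e, Matrix.vecMul_add, ← Matrix.vecMul_vecMul, hx.2, Matrix.zero_vecMul, zero_add,
      Matrix.vecMul_vecMul]
  rw [Matrix.sub_vecMul, ← e2, Matrix.vecMul_sub, Matrix.vecMul_one, ← Matrix.vecMul_vecMul, ← e1,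
    Matrix.vecMul_vecMul, Matrix.vecMul_vecMul, hv.2]
  abel

/-- Homotopy equivalences are surjective in homology. -/
theorem l5_sur [SzAct Γ P] {X Y : Co P N} {u : Matrix X.ι Y.ι (ZM N)}
    {v : Matrix Y.ι X.ι (ZM N)} (hv : Ch π U Y X v) (h2 : Nul π U Y Y (v * u - 1)) {B : Sz P}
    {q : ℤ} {y : Y.ι → ZM N} (hy : y ∈ ZC π U Y q B) :
    ∃ x ∈ ZC π U X q B, x ᵥ* u - y ∈ BC π U Y q B := by
  obtain ⟨r, hr, e⟩ := h2
  refine ⟨y ᵥ* v, hv.mem_ZC hy, y ᵥ* r, fam_vecMul hr hy.1, ?_⟩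
  have e2 : y ᵥ* (v * u - 1) = (y ᵥ* r) ᵥ* Y.d := by
    rw [e, Matrix.vecMul_add, ← Matrix.vecMul_vecMul, hy.2, Matrix.zero_vecMul, zero_add,
      Matrix.vecMul_vecMul]
  rw [← e2, Matrix.vecMul_sub, Matrix.vecMul_one, Matrix.vecMul_vecMul]

theorem l5_mem_us {X : Co P N} {B : Sz P} {q : ℤ} {x : X.ι → ZM N} :
    x ∈ fam π U X.us.toOb B q ↔ x ∈ fam π U X.toOb B (q + 1) := by
  constructor
  · intro hx l m hm
    obtain ⟨h1, h2⟩ := hx l m hm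
    exact ⟨by change X.deg l - 1 = q at h1; omega, h2⟩
  · intro hx l m hm
    obtain ⟨h1, h2⟩ := hx l m hm
    exact ⟨by change X.deg l - 1 = q; omega, h2⟩

end

section

variable {G : Type} [Group G] {Γ : Type} [Group Γ] {D : Type} {P : D → Type}
  [∀ i, PartialOrder (P i)] [∀ i, MulAction Γ (P i)] {π : G →* Γ} {U : Finset D}

/-- The variable acts trivially on the sizes. -/
theorem l5_smul_mem [SzAct Γ P] {X : Ob P} {B : Sz P} {q : ℤ} {x : X.ι → ZM (GZ G)} (a : ℤ)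
    (hx : x ∈ fam (pZ π) U X B q) : zZ G a • x ∈ fam (pZ π) U X B q := by
  have h := fam_act hx (1, Multiplicative.ofAdd a)
  have e : pZ π (1, Multiplicative.ofAdd a) = 1 := map_one π
  rw [e, one_smul] at h
  exact h

theorem l5_vecMul_smul {α β : Type} [Fintype α] (a : ℤ) (x : α → ZM (GZ G))
    (f : Matrix α β (ZM (GZ G))) : x ᵥ* (zZ G a • f) = zZ G a • (x ᵥ* f) := by
  funext k
  change ∑ i, x i * (zZ G a * f i k) = zZ G a * ∑ i, x i * f i k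
  rw [Finset.mul_sum]
  refine Finset.sum_congr rfl fun i _ => ?_
  rw [← mul_assoc, ← fr_zZ_comm, mul_assoc]

theorem l5_zZ_smul {α : Type} (a : ℤ) (x : α → ZM (GZ G)) : zZ G (-a) • zZ G a • x = x := by
  rw [smul_smul, fr_zZ_mul, neg_add_cancel, fr_zZ_zero, one_smul]

theorem l5_zZ_smul' {α : Type} (a : ℤ) (x : α → ZM (GZ G)) : zZ G a • zZ G (-a) • x = x := by
  rw [smul_smul, fr_zZ_mul, add_neg_cancel, fr_zZ_zero, one_smul]

end

/-- A vector times a matrix with two blocks of rows. -/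
theorem l5_vecMul_rows {R : Type} [Ring R] {α β δ : Type} [Fintype α] [Fintype β]
    (w : α ⊕ β → R) (u : Matrix (α ⊕ β) δ R) :
    w ᵥ* u = (w ∘ Sum.inl) ᵥ* u.toRows₁ + (w ∘ Sum.inr) ᵥ* u.toRows₂ := by
  funext k
  change ∑ i, w i * u i k = (∑ i, w (Sum.inl i) * u (Sum.inl i) k) +
    ∑ i, w (Sum.inr i) * u (Sum.inr i) k
  rw [Fintype.sum_sum_type]

/-- Module L5. -/
theorem stL5 (hQI : StQI) : StL5 := by
  intro Γ _ D P _ _ _ G _ π V M A Y h hM hA hY hh hiso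
  obtain ⟨u, v, hu, hv, h1, h2⟩ := hiso
  have hu2 : (cone M A h).d * u = u * Y.d := hu.2
  have hur : u = Matrix.fromRows u.toRows₁ u.toRows₂ := (Matrix.fromRows_toRows u).symm
  have e0 : Matrix.fromRows (-M.d * u.toRows₁ + h * u.toRows₂)
      ((0 : Matrix A.ι M.ι (ZM (GZ G))) * u.toRows₁ + A.d * u.toRows₂) =
      Matrix.fromRows (u.toRows₁ * Y.d) (u.toRows₂ * Y.d) := by
    rw [← Matrix.fromBlocks_mul_fromRows, ← Matrix.fromRows_mul, ← hur]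
    exact hu2
  obtain ⟨e1, e2⟩ := Matrix.fromRows_inj e0
  rw [Matrix.zero_mul, zero_add] at e2
  have hcM : Ct (pZ π) V 1 M.toOb Y.toOb u.toRows₁ := by
    intro l k m hm
    obtain ⟨h3, h4⟩ := hu.1 (Sum.inl l) k m hm
    exact ⟨by change Y.deg k = M.deg l + 1 + 0 at h3; omega, h4⟩
  have hcA : Ct (pZ π) V 0 A.toOb Y.toOb u.toRows₂ := fun l k m hm => hu.1 (Sum.inr l) k m hm
  refine ⟨u.toRows₂, ⟨hcA, e2⟩, fun a => Iso.symm ?_⟩
  have hθ : Ch (pZ π) V A Y (zZ G a • u.toRows₂) := by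
    refine ⟨hcA.smul (fr_zZ_pi π a), ?_⟩
    rw [fr_mul_smul, e2, Matrix.smul_mul]
  -- the map `ψ`
  have hψc : Ch (pZ π) V M (cone A Y (zZ G a • u.toRows₂)).us
      (Matrix.fromCols (-h) (zZ G a • u.toRows₁)) := by
    refine ⟨?_, ?_⟩
    · rintro l (k | k) m hm
      · obtain ⟨h3, h4⟩ := hh.1.neg l k m hm
        exact ⟨by change A.deg k + 1 - 1 = M.deg l + 0; omega, h4⟩
      · obtain ⟨h3, h4⟩ := (hcM.smul (fr_zZ_pi π a)) l k m hm
        exact ⟨by change Y.deg k - 1 = M.deg l + 0; omega, h4⟩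
    · change M.d * Matrix.fromCols (-h) (zZ G a • u.toRows₁) =
        Matrix.fromCols (-h) (zZ G a • u.toRows₁) *
          -Matrix.fromBlocks (-A.d) (zZ G a • u.toRows₂) 0 Y.d
      rw [Matrix.mul_neg, Matrix.fromCols_mul_fromBlocks, Matrix.mul_fromCols, Matrix.fromCols_neg]
      congr 1
      · rw [Matrix.mul_zero, add_zero, Matrix.mul_neg, Matrix.neg_mul, Matrix.mul_neg, neg_neg,
          hh.2]
      · rw [fr_mul_smul, Matrix.neg_mul, fr_mul_smul, Matrix.smul_mul, ← e1, smul_add,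
          Matrix.neg_mul, smul_neg]
        abel
  -- elements of the cone of `h`
  have hcone : ∀ {B : Sz P} {q : ℤ} {w : M.ι ⊕ A.ι → ZM (GZ G)},
      w ∈ ZC (pZ π) V (cone M A h) q B ↔ (w ∘ Sum.inl) ∈ fam (pZ π) V M.toOb B (q - 1) ∧
        (w ∘ Sum.inr) ∈ fam (pZ π) V A.toOb B q ∧ (w ∘ Sum.inl) ᵥ* M.d = 0 ∧
        (w ∘ Sum.inl) ᵥ* h + (w ∘ Sum.inr) ᵥ* A.d = 0 := by
    intro B q w
    constructor
    · rintro ⟨hw1, hw2⟩
      obtain ⟨hx, hy⟩ := mem_fam_cone.1 hw1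
      rw [vecMul_cone_d] at hw2
      have h1 : -((w ∘ Sum.inl) ᵥ* M.d) = 0 := congrArg (fun f => f ∘ Sum.inl) hw2
      have h2 : (w ∘ Sum.inl) ᵥ* h + (w ∘ Sum.inr) ᵥ* A.d = 0 :=
        congrArg (fun f => f ∘ Sum.inr) hw2
      exact ⟨hx, hy, neg_eq_zero.1 h1, h2⟩
    · rintro ⟨hx, hy, h3, h4⟩
      refine ⟨mem_fam_cone.2 ⟨hx, hy⟩, ?_⟩
      rw [vecMul_cone_d, h3, h4, neg_zero]
      funext l
      rcases l with l | l <;> rfl
  -- the differential of the target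
  have hd' : ∀ w : A.ι ⊕ Y.ι → ZM (GZ G),
      w ᵥ* (cone A Y (zZ G a • u.toRows₂)).us.d = Sum.elim ((w ∘ Sum.inl) ᵥ* A.d)
        (-(zZ G a • ((w ∘ Sum.inl) ᵥ* u.toRows₂) + (w ∘ Sum.inr) ᵥ* Y.d)) := by
    intro w
    change w ᵥ* (-(cone A Y (zZ G a • u.toRows₂)).d) = _
    rw [Matrix.vecMul_neg, vecMul_cone_d, l5_vecMul_smul]
    funext l
    rcases l with l | l
    · simp
    · simp
  have hψx : ∀ x : M.ι → ZM (GZ G), x ᵥ* Matrix.fromCols (-h) (zZ G a • u.toRows₁) =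
      Sum.elim (-(x ᵥ* h)) (zZ G a • (x ᵥ* u.toRows₁)) := by
    intro x
    rw [Matrix.vecMul_fromCols, Matrix.vecMul_neg, l5_vecMul_smul]
  refine (hQI Γ D P (GZ G) (pZ π) V M (cone A Y (zZ G a • u.toRows₂)).us hM
    (IsCx.us (hA.cone hY hθ))).1 _ hψc ?_ ?_
  · -- injectivity
    rintro q B x ⟨hx1, hx2⟩ ⟨w, hw, e⟩
    rw [l5_mem_us, mem_fam_cone] at hw
    rw [hd', hψx] at e
    have e3 : (w ∘ Sum.inl) ᵥ* A.d = -(x ᵥ* h) := congrArg (fun f => f ∘ Sum.inl) e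
    have e4 : -(zZ G a • ((w ∘ Sum.inl) ᵥ* u.toRows₂) + (w ∘ Sum.inr) ᵥ* Y.d) =
      zZ G a • (x ᵥ* u.toRows₁) := congrArg (fun f => f ∘ Sum.inr) e
    have hc : Sum.elim x (w ∘ Sum.inl) ∈ ZC (pZ π) V (cone M A h) (q + 1) B := by
      rw [hcone, Sum.elim_comp_inl, Sum.elim_comp_inr]
      refine ⟨by rw [add_sub_cancel_right]; exact hx1, ?_, hx2, by rw [e3, add_neg_cancel]⟩
      have := hw.1
      rwa [add_sub_cancel_right] at this
    have hcu : Sum.elim x (w ∘ Sum.inl) ᵥ* u ∈ BC (pZ π) V Y (q + 1) B := by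
      refine ⟨-(zZ G (-a) • (w ∘ Sum.inr)), neg_mem (l5_smul_mem _ hw.2), ?_⟩
      rw [l5_vecMul_rows, Sum.elim_comp_inl, Sum.elim_comp_inr, Matrix.neg_vecMul,
        Matrix.smul_vecMul]
      have e5 : zZ G (-a) • (-(zZ G a • ((w ∘ Sum.inl) ᵥ* u.toRows₂) + (w ∘ Sum.inr) ᵥ* Y.d)) =
        zZ G (-a) • zZ G a • (x ᵥ* u.toRows₁) := by rw [e4]
      rw [l5_zZ_smul, smul_neg, smul_add, l5_zZ_smul] at e5
      rw [← e5]
      abel
    obtain ⟨c', hc', e6⟩ := l5_inj hv h1 hc hcu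
    rw [mem_fam_cone] at hc'
    rw [vecMul_cone_d] at e6
    have e7 : -((c' ∘ Sum.inl) ᵥ* M.d) = x := by
      have := congrArg (fun f => f ∘ Sum.inl) e6
      exact this
    refine ⟨-(c' ∘ Sum.inl), neg_mem ?_, by rw [Matrix.neg_vecMul]; exact e7⟩
    have := hc'.1
    rwa [add_sub_cancel_right] at this
  · -- surjectivity
    rintro q B w ⟨hw1, hw2⟩
    rw [l5_mem_us, mem_fam_cone, add_sub_cancel_right] at hw1
    rw [hd'] at hw2
    have e3 : (w ∘ Sum.inl) ᵥ* A.d = 0 := congrArg (fun f => f ∘ Sum.inl) hw2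
    have e4 : -(zZ G a • ((w ∘ Sum.inl) ᵥ* u.toRows₂) + (w ∘ Sum.inr) ᵥ* Y.d) = 0 :=
      congrArg (fun f => f ∘ Sum.inr) hw2
    have e4' : (w ∘ Sum.inr) ᵥ* Y.d = -(zZ G a • ((w ∘ Sum.inl) ᵥ* u.toRows₂)) := by
      rw [neg_eq_zero] at e4
      exact eq_neg_of_add_eq_zero_right e4
    have hc : Sum.elim (0 : M.ι → ZM (GZ G)) (w ∘ Sum.inl) ∈ ZC (pZ π) V (cone M A h) q B := by
      rw [hcone, Sum.elim_comp_inl, Sum.elim_comp_inr]
      exact ⟨zero_mem _, hw1.1, Matrix.zero_vecMul _, by rw [Matrix.zero_vecMul, zero_add, e3]⟩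
    have hcu : Sum.elim (0 : M.ι → ZM (GZ G)) (w ∘ Sum.inl) ᵥ* u ∈ BC (pZ π) V Y q B := by
      refine ⟨-(zZ G (-a) • (w ∘ Sum.inr)), neg_mem (l5_smul_mem _ hw1.2), ?_⟩
      rw [l5_vecMul_rows, Sum.elim_comp_inl, Sum.elim_comp_inr, Matrix.neg_vecMul,
        Matrix.smul_vecMul, e4', smul_neg, neg_neg, l5_zZ_smul, Matrix.zero_vecMul, zero_add]
    obtain ⟨c', hc', e6⟩ := l5_inj hv h1 hc hcu
    rw [mem_fam_cone, add_sub_cancel_right] at hc'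
    have e6' := e6
    rw [vecMul_cone_d] at e6
    have e7 : -((c' ∘ Sum.inl) ᵥ* M.d) = 0 := congrArg (fun f => f ∘ Sum.inl) e6
    have e8 : (c' ∘ Sum.inl) ᵥ* h + (c' ∘ Sum.inr) ᵥ* A.d = w ∘ Sum.inl :=
      congrArg (fun f => f ∘ Sum.inr) e6
    -- the cycle `y₁` of `Y`
    have hcu2 : (c' ᵥ* u) ᵥ* Y.d = (w ∘ Sum.inl) ᵥ* u.toRows₂ := by
      rw [Matrix.vecMul_vecMul, ← hu2, ← Matrix.vecMul_vecMul, e6', l5_vecMul_rows,
        Sum.elim_comp_inl, Sum.elim_comp_inr, Matrix.zero_vecMul, zero_add]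
    have hy1 : zZ G (-a) • ((w ∘ Sum.inr) + zZ G a • (c' ᵥ* u)) ∈ ZC (pZ π) V Y (q + 1) B := by
      refine ⟨l5_smul_mem _ (add_mem hw1.2 (l5_smul_mem _ (fam_vecMul' hu.1
        (mem_fam_cone.2 (by rw [add_sub_cancel_right]; exact hc')) (add_zero _)))), ?_⟩
      rw [Matrix.smul_vecMul, Matrix.add_vecMul, Matrix.smul_vecMul, hcu2, e4', neg_add_cancel,
        smul_zero]
    obtain ⟨x1, hx1, b, hb, e9⟩ := l5_sur hv h2 hy1
    rw [hcone, add_sub_cancel_right] at hx1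
    obtain ⟨hx1a, hx1b, hx1c, hx1d⟩ := hx1
    refine ⟨(x1 ∘ Sum.inl) - (c' ∘ Sum.inl), ⟨sub_mem hx1a hc'.1, ?_⟩,
      Sum.elim ((x1 ∘ Sum.inr) - (c' ∘ Sum.inr)) (-(zZ G a • b)), ?_, ?_⟩
    · rw [Matrix.sub_vecMul, hx1c, neg_eq_zero.1 e7, sub_zero]
    · rw [l5_mem_us, mem_fam_cone, Sum.elim_comp_inl, Sum.elim_comp_inr, add_sub_cancel_right]
      exact ⟨sub_mem hx1b hc'.2, neg_mem (l5_smul_mem _ hb)⟩
    · rw [hd', hψx, Sum.elim_comp_inl, Sum.elim_comp_inr]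
      -- the equation in `Y`
      have e10 : zZ G a • (b ᵥ* Y.d) = zZ G a • (x1 ᵥ* u) - ((w ∘ Sum.inr) + zZ G a • (c' ᵥ* u)) := by
        rw [e9, smul_sub, l5_zZ_smul']
      rw [l5_vecMul_rows x1, l5_vecMul_rows c'] at e10
      have e11 : (x1 ∘ Sum.inr) ᵥ* A.d = -((x1 ∘ Sum.inl) ᵥ* h) :=
        eq_neg_of_add_eq_zero_right hx1d
      funext l
      rcases l with l | l
      · have e12 := congrFun e8 l
        have e13 := congrFun e11 l
        simp only [Sum.elim_inl, Matrix.sub_vecMul, Pi.sub_apply, Pi.neg_apply,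
          Pi.add_apply, Function.comp_apply] at e12 e13 ⊢
        rw [e13, ← e12]
        abel
      · have e12 := congrFun e10 l
        simp only [Sum.elim_inr, Matrix.sub_vecMul, Matrix.neg_vecMul, Matrix.smul_vecMul,
          Pi.sub_apply, Pi.neg_apply, Pi.add_apply, Pi.smul_apply, Function.comp_apply,
          smul_add, smul_sub] at e12 ⊢
        rw [e12]
        abel

end Pool.Agent.Lib.MP_551055_al.MT
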