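import Mathlib
import Pool.Agent.Lib.MP_551055_al.Trim.MT.Base
import Pool.Agent.Lib.MP_551055_al.Trim.MT.Defs
import Pool.Agent.Lib.MP_551055_al.Trim.MT.Map
import Pool.Agent.Lib.MP_551055_al.Trim.MT.StA
import Pool.Agent.Lib.MP_551055_al.Trim.MT.Tg

/-!
# Many trees: module Step (the induction step)
-/

set_option autoImplicit false

namespace Pool.Agent.Lib.MP_551055_al
end Pool.Agent.Lib.MP_551055_al

namespace Pool.Agent.Lib.MP_551055_al.MT

open Pool.Agent.Lib.MP_551055_al

open Matrix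

section

variable {Γ : Type} [Group Γ] {D : Type} {P : D → Type} [∀ i, PartialOrder (P i)]
  [∀ i, MulAction Γ (P i)] [SzAct Γ P] {N : Type} [Monoid N] {π : N →* Γ} {U : Finset D}

/-- The cone of a map between contractible complexes is contractible. -/
theorem contr_cone (hCC : StCC) {X Y : Co P N} {f : Matrix X.ι Y.ι (ZM N)}
    (hf : Ch π U X Y f) (hX : Contr π U X) (hY : Contr π U Y) : Contr π U (cone X Y f) := by
  refine (hCC Γ D P N π U X Y f hf).1 0 Ch.zero ?_ ?_
  · rw [Matrix.mul_zero, zero_sub]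
    exact Nul.neg hX
  · rw [Matrix.zero_mul, zero_sub]
    exact Nul.neg hY

end

/-- Module Step. -/
theorem stStep (hCC : StCC) (hC : StC) (hW : StW) (hTel : StTel) (hFr : StFr) (hTor : StTor)
    (hK1 : StK1) (hK2 : StK2) (hLink : StLink) : StStep := by
  intro Γ _ D _ _ P _ _ _ hgood hlat U j hj hS G _ π hπ I hI K e hK he hnul
  -- move to a complex which is contractible in the directions of `I`
  obtain ⟨C, eC, hCx, heC, hCc, iso1⟩ := hC Γ D P G π U I K e hK he hnul
  -- the new direction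
  obtain ⟨W, sz', s, p, hWx, hWx', hsz, hszj, hs, hp, hsp, hε, hWc⟩ :=
    hW Γ D P G π U I j hj hI C eC hCx heC.1.1 hCc
  have hUj : U ⊆ insert j U := Finset.subset_insert j U
  have hszU : ∀ l, ∀ i ∈ U, sz' l i = W.sz l i := fun l i hi =>
    hsz l i fun h => hj (h ▸ hi)
  have hszle : ∀ l, ∀ i ∈ insert j U, W.sz l i ≤ sz' l i := by
    intro l i hi
    by_cases hij : i = j
    · subst hij
      exact hszj l
    · exact (hsz l i hij).ge
  -- `(C, eC)` and `(W, ε)`
  have hεch : Ch π U W W (p * eC * s) := (hp.mul heC.1).mul hs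
  have hεε : p * eC * s * (p * eC * s) = p * (eC * eC) * s := by
    have h1 : p * eC * s * (p * eC * s) = p * (eC * (s * p) * eC) * s := by
      simp only [Matrix.mul_assoc]
    rw [h1, hsp, Matrix.mul_one]
  have hεHI : HI π U W (p * eC * s) := by
    refine ⟨hεch, ?_⟩
    rw [hεε, ← Matrix.sub_mul, ← Matrix.mul_sub]
    exact (hp.mul_nul heC.2).mul_ch hs
  have iso2 : Iso π U C eC W (p * eC * s) := by
    refine ⟨eC * s, p, heC.1.mul hs, hp, ?_, ?_⟩
    · rw [Matrix.mul_assoc, hsp, Matrix.mul_one, sub_self]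
      exact Nul.zero
    · rw [← Matrix.mul_assoc, sub_self]
      exact Nul.zero
  -- the telescope
  obtain ⟨hT1, hT2, hT3⟩ := hTel Γ D P G π (insert j U) W sz' (p * eC * s) hWx hWx' hszle hε
    hεch.2
  -- apply the hypothesis over `G × ℤ`
  have hTloc : IsCx (pZ π) (insert j U) ((tel W sz' (p * eC * s)).map (loc G)) :=
    hT1.map (pZ_hLoc π)
  have hTcontr : ∀ i ∈ insert j I,
      Contr (pZ π) ((insert j U).erase i) ((tel W sz' (p * eC * s)).map (loc G)) := by
    intro i hi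
    rcases Finset.mem_insert.1 hi with rfl | hi
    · rw [Finset.erase_insert hj]
      exact hT3 U hUj hszU hεHI
    · exact (hT2 _ (Finset.erase_subset _ _) (hWc i hi).1 (hWc i hi).2).map (pZ_hLoc π)
  obtain ⟨M, hM, hMc, isoM⟩ := hS (GZ G) (pZ π) (hgood G π hπ) (insert j I)
    (Finset.insert_subset_insert j hI) _ 1 hTloc HI.one hTcontr
  -- the lattice
  obtain ⟨M₁, hM₁, hM₁c, isoM₁⟩ := hlat G π hπ (insert j I) M hM hMc
  have iso3 : Iso (pZ π) (insert j U) (M₁.map (loc G)) 1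
      ((tel W sz' (p * eC * s)).map (loc G)) 1 :=
    (isoM₁.mono (Finset.subset_univ _)).trans HI.one HI.one isoM.symm
  have hM₁' : IsCx (pN π) (insert j U) M₁ := hM₁.mono (Finset.subset_univ _)
  obtain ⟨f, hf, m, H, hH, hHm⟩ := hFr Γ D P G π (insert j U) M₁ _ hM₁' hT1 iso3
  have hB : IsCx (pN π) (insert j U) (cone M₁ (tel W sz' (p * eC * s)) f) := hM₁'.cone hT1 hf
  obtain ⟨K', e', hK', he', hnul', hisoL⟩ := hTor Γ D P G π (insert j U) _ hB m H hH hHm
  -- `K'` is null-homotopic in the directions of `I`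
  have hBc : ∀ i ∈ I, Contr (pN π) ((insert j U).erase i)
      (cone M₁ (tel W sz' (p * eC * s)) f) := by
    intro i hi
    refine contr_cone hCC (hf.mono (Finset.erase_subset _ _)) ?_ ?_
    · exact (hM₁c i (Finset.mem_insert_of_mem hi)).mono
        (Finset.erase_subset_erase i (Finset.subset_univ _))
    · exact hT2 _ (Finset.erase_subset _ _) (hWc i hi).1 (hWc i hi).2
  obtain ⟨M₂, hM₂, hM₂c, iso5⟩ := hS G π hπ I (hI.trans hUj) K' e' hK' he'
    fun i hi => hnul' _ (Finset.erase_subset _ _) (hBc i hi)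
  -- comparison over `U`
  have hUT : IsCx (pN π) U (tel W sz' (p * eC * s)) := hT1.mono hUj
  have hUB : IsCx (pN π) U (cone M₁ (tel W sz' (p * eC * s)) f) := hB.mono hUj
  have hM₁U : Contr (pN π) U M₁ := (hM₁c j (Finset.mem_insert_self j I)).mono fun i hi =>
    Finset.mem_erase.2 ⟨fun h => hj (h ▸ hi), Finset.mem_univ i⟩
  have hL1 := hK2 Γ D P G π U M₁ (tel W sz' (p * eC * s)) f W (p * eC * s)
    (hM₁'.mono hUj) hUT (hf.mono hUj) hM₁U
    (hK1 Γ D P G π U W sz' (p * eC * s) (hWx.mono hUj) hszU hεHI hUT) hUB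
  have iso4 : Iso π U W (p * eC * s) K' e' :=
    hLink Γ D P G π U _ W K' _ e' (hWx.mono hUj) (hK'.mono hUj) hεHI (he'.mono hUj) hL1
      (hisoL U hUj hUB)
  exact ⟨M₂, hM₂, hM₂c, (((iso1.trans he hεHI iso2).trans he (he'.mono hUj) iso4).trans he
    HI.one (iso5.mono hUj))⟩

end Pool.Agent.Lib.MP_551055_al.MT
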