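import Mathlib
import Pool.Agent.Lib.MP_551055_al.Trim.LS.Stmts
import Pool.Agent.Lib.MP_551055_al.Trim.MT.Base
import Pool.Agent.Lib.MP_551055_al.Trim.MT.Defs
import Pool.Agent.Lib.MP_551055_al.Trim.MT.Fr
import Pool.Agent.Lib.MP_551055_al.Trim.MT.Gen
import Pool.Agent.Lib.MP_551055_al.Trim.MT.Map
import Pool.Agent.Lib.MP_551055_al.Trim.MT.StA
import Pool.Agent.Lib.MP_551055_al.Trim.MT.StB
import Pool.Agent.Lib.MP_551055_al.Trim.MT.Step
import Pool.Agent.Lib.MP_551055_al.Trim.MT.Trees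

/-!
# Many trees, module Lat: the lattice property
-/

set_option autoImplicit false

namespace Pool.Agent.Lib.MP_551055_al
end Pool.Agent.Lib.MP_551055_al

namespace Pool.Agent.Lib.MP_551055_al.LS
end Pool.Agent.Lib.MP_551055_al.LS

namespace Pool.Agent.Lib.MP_551055_al.MT.LatAux
end Pool.Agent.Lib.MP_551055_al.MT.LatAux

namespace Pool.Agent.Lib.MP_551055_al.MT

open Pool.Agent.Lib.MP_551055_al

open Pool.Agent.Lib.MP_551055_al.LS (TreeAct side)

open Matrix

namespace LatAux

section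

variable {Γ : Type} [Group Γ] {D : Type} {P : D → Type} [∀ i, PartialOrder (P i)]
  [∀ i, MulAction Γ (P i)] {N : Type} [Monoid N] {π : N →* Γ} {U : Finset D}

/-- The empty complex. -/
noncomputable def emp (P : D → Type) (N : Type) [Monoid N] : Co P N where
  ι := Empty
  ft := inferInstance
  de := inferInstance
  deg := fun i => i.elim
  sz := fun i => i.elim
  d := 0

theorem emp_cx : IsCx π U (emp P N) :=
  ⟨fun l _ _ _ => l.elim, by ext1 l _; exact l.elim⟩

theorem emp_contr : Contr π U (emp P N) :=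
  ⟨0, fun l _ _ _ => l.elim, by ext1 l _; exact l.elim⟩

/-- A complex without elements of degree `q` is exact in degree `q`. -/
theorem exa_of_deg {K : Co P N} {q : ℤ} (h : ∀ l, K.deg l ≠ q) : Exa π U K q := by
  intro B x hx
  have h0 : x = 0 := by
    funext l
    apply MonoidAlgebra.coeff_injective
    ext m
    by_contra hn
    exact h l (hx.1 l m hn).1
  rw [h0]
  exact AddSubgroup.zero_mem _

theorem hInj_of_exa {K A : Co P N} {j : Matrix K.ι A.ι (ZM N)} {q : ℤ} (h : Exa π U K q) :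
    HInj π U K A j q := fun B _ hx _ => h B hx

theorem hSur_of_exa {K A : Co P N} {j : Matrix K.ι A.ι (ZM N)} {q : ℤ} (h : Exa π U A q) :
    HSur π U K A j q := by
  intro B y hy
  refine ⟨0, AddSubgroup.zero_mem _, ?_⟩
  rw [Matrix.zero_vecMul, zero_sub]
  exact AddSubgroup.neg_mem _ (h B hy)

omit [∀ i, PartialOrder (P i)] in
theorem us_map {N' : Type} [Monoid N'] (X : Co P N) (φ : ZM N →+* ZM N') :
    X.us.map φ = (X.map φ).us := by
  change (⟨⟨_, _, _, _, _⟩, _⟩ : Co P N') = ⟨⟨_, _, _, _, _⟩, _⟩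
  congr 1
  exact map_neg' φ X.d

end

end LatAux

open LatAux

theorem stLat (hCC : StCC) (hQI : StQI) (hLatA : StLatA) (hConeH : StConeH) (hL5 : StL5)
    (hClr : StClr) : StLat := by
  intro Γ _ D _ _ V _ T h G _ π HN
  have claim : ∀ (n : ℕ) (I : Finset D) (M : Co (SP h) (GZ G)), IsCx (pZ π) Finset.univ M →
      (∀ i ∈ I, Contr (pZ π) (Finset.univ.erase i) M) → ∀ a : ℤ,
      (∀ q, q < a → Exa (pZ π) Finset.univ M q) →
      (∀ q, a + n ≤ q → Exa (pZ π) Finset.univ M q) →
      ∃ M₁ : Co (SP h) (GN G), IsCx (pN π) Finset.univ M₁ ∧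
        (∀ i ∈ I, Contr (pN π) (Finset.univ.erase i) M₁) ∧
        Iso (pZ π) Finset.univ (M₁.map (loc G)) 1 M 1 := by
    intro n
    induction n with
    | zero =>
      intro I M hM hMc a h1 h2
      have hex : ∀ q, Exa (pZ π) Finset.univ M q := by
        intro q
        rcases lt_or_ge q a with hq | hq
        · exact h1 q hq
        · exact h2 q (by push_cast; omega)
      have hc : Contr (pZ π) Finset.univ M :=
        (hQI Γ D (SP h) (GZ G) (pZ π) Finset.univ M M hM hM).2 hex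
      refine ⟨emp (SP h) (GN G), emp_cx, fun i _ => emp_contr, ?_⟩
      refine ⟨0, 0, Ch.zero, Ch.zero, ?_, ?_⟩
      · exact ⟨0, fun l _ _ _ => l.elim, by ext1 l _; exact l.elim⟩
      · rw [Matrix.zero_mul, zero_sub]
        exact Nul.neg hc
    | succ n ih =>
      intro I M hM hMc a h1 h2
      obtain ⟨A, h', hA, hAc, hh', hHS, hAex⟩ := hLatA Γ D V T h G π HN I M hM hMc a h1
      have hAl : IsCx (pZ π) Finset.univ (A.map (loc G)) := hA.map (pZ_hLoc π)
      have hM'x : IsCx (pZ π) Finset.univ (cone M (A.map (loc G)) h') := hM.cone hAl hh'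
      have hM'c : ∀ i ∈ I, Contr (pZ π) (Finset.univ.erase i) (cone M (A.map (loc G)) h') :=
        fun i hi => contr_cone hCC (hh'.mono (Finset.erase_subset _ _)) (hMc i hi)
          ((hAc i hi).map (pZ_hLoc π))
      have hex1 : ∀ q, q < a + 2 → Exa (pZ π) Finset.univ (cone M (A.map (loc G)) h') q := by
        intro q hq
        refine hConeH Γ D (SP h) (GZ G) (pZ π) Finset.univ M (A.map (loc G)) h' hM hAl hh' q
          (hHS (q - 1) (by omega)).1 ?_
        rcases le_or_gt q a with hqa | hqa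
        · exact (hHS q hqa).2
        · exact hSur_of_exa (hAex q hqa)
      have hex2 : ∀ q, a + 2 + n ≤ q →
          Exa (pZ π) Finset.univ (cone M (A.map (loc G)) h') q := by
        intro q hq
        refine hConeH Γ D (SP h) (GZ G) (pZ π) Finset.univ M (A.map (loc G)) h' hM hAl hh' q
          (hInj_of_exa (h2 (q - 1) (by push_cast; omega))) ?_
        exact hSur_of_exa (hAex q (by omega))
      obtain ⟨M₁, hM₁, hM₁c, hiso⟩ := ih I _ hM'x hM'c (a + 2) hex1 hex2
      have hM₁l : IsCx (pZ π) Finset.univ (M₁.map (loc G)) := hM₁.map (pZ_hLoc π)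
      obtain ⟨θ, hθ, hL⟩ := hL5 Γ D (SP h) G π Finset.univ M (A.map (loc G)) (M₁.map (loc G)) h'
        hM hAl hM₁l hh' hiso.symm
      obtain ⟨m, θ₀, hθ₀, hθm⟩ := (hClr Γ D (SP h) G π Finset.univ A.toOb M₁.toOb 0).1 θ hθ.1
      have hθd : A.d.map (loc G) * θ = θ * M₁.d.map (loc G) := hθ.2
      have hθ₀c : Ch (pN π) Finset.univ A M₁ θ₀ := by
        refine ⟨hθ₀, fr_map_injective ?_⟩
        rw [map_mul', map_mul', hθm, fr_mul_smul, hθd, Matrix.smul_mul]
      refine ⟨(cone A M₁ θ₀).us, (hA.cone hM₁ hθ₀c).us, fun i hi => Contr.us ?_, ?_⟩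
      · exact contr_cone hCC (hθ₀c.mono (Finset.erase_subset _ _)) (hAc i hi) (hM₁c i hi)
      · have h3 := hL m
        have h4 : (cone (A.map (loc G)) (M₁.map (loc G)) (zZ G m • θ)).us =
            (cone A M₁ θ₀).us.map (loc G) := by
          rw [us_map, cone_map, hθm]
        exact h4 ▸ h3
  intro I M hM hMc
  obtain ⟨a, ha⟩ : ∃ a : ℤ, ∀ l, a ≤ M.deg l := by
    obtain ⟨a, ha⟩ := (Set.finite_range M.deg).bddBelow
    exact ⟨a, fun l => ha ⟨l, rfl⟩⟩
  obtain ⟨b, hb⟩ : ∃ b : ℤ, ∀ l, M.deg l ≤ b := by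
    obtain ⟨b, hb⟩ := (Set.finite_range M.deg).bddAbove
    exact ⟨b, fun l => hb ⟨l, rfl⟩⟩
  refine claim (b + 1 - a).toNat I M hM hMc a (fun q hq => exa_of_deg fun l hl => ?_)
    (fun q hq => exa_of_deg fun l hl => ?_)
  · have := ha l
    omega
  · have := hb l
    omega

end Pool.Agent.Lib.MP_551055_al.MT
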