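import Mathlib
import Pool.Agent.Lib.MP_551055_al.Trim.LS.Stmts
import Pool.Agent.Lib.MP_551055_al.Trim.MT.Base
import Pool.Agent.Lib.MP_551055_al.Trim.MT.Defs
import Pool.Agent.Lib.MP_551055_al.Trim.MT.Gen
import Pool.Agent.Lib.MP_551055_al.Trim.MT.Map
import Pool.Agent.Lib.MP_551055_al.Trim.MT.StB
import Pool.Agent.Lib.MP_551055_al.Trim.MT.Trees

/-!
# Many trees, module LatA: the lowest homology has a lattice
-/

set_option autoImplicit false

namespace Pool.Agent.Lib.MP_551055_al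
end Pool.Agent.Lib.MP_551055_al

namespace Pool.Agent.Lib.MP_551055_al.LS
end Pool.Agent.Lib.MP_551055_al.LS

namespace Pool.Agent.Lib.MP_551055_al.MT.LatAAux
end Pool.Agent.Lib.MP_551055_al.MT.LatAAux

namespace Pool.Agent.Lib.MP_551055_al.MT

open Pool.Agent.Lib.MP_551055_al

open Pool.Agent.Lib.MP_551055_al.LS (TreeAct side)

open Matrix

namespace LatAAux

section

variable {Γ : Type} [Group Γ] {D : Type} {P : D → Type} [∀ i, PartialOrder (P i)]
  [∀ i, MulAction Γ (P i)] [SzAct Γ P] {N : Type} [Monoid N] {π : N →* Γ} {U : Finset D}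
  {X Y Z : Co P N} {f : Matrix X.ι Y.ι (ZM N)} {g : Matrix Y.ι Z.ι (ZM N)} {q : ℤ}

theorem hinj_comp (hf : Ch π U X Y f) (h1 : HInj π U X Y f q) (h2 : HInj π U Y Z g q) :
    HInj π U X Z (f * g) q := by
  intro B x hx hxg
  rw [← Matrix.vecMul_vecMul] at hxg
  exact h1 B x hx (h2 B _ (hf.mem_ZC hx) hxg)

theorem hsur_comp (hg : Ch π U Y Z g) (h1 : HSur π U X Y f q) (h2 : HSur π U Y Z g q) :
    HSur π U X Z (f * g) q := by
  intro B y hy
  obtain ⟨z, hz, hzy⟩ := h2 B y hy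
  obtain ⟨x, hx, hxz⟩ := h1 B z hz
  refine ⟨x, hx, ?_⟩
  have h3 := AddSubgroup.add_mem _ (hg.mem_BC hxz) hzy
  have e : (x ᵥ* f - z) ᵥ* g + (z ᵥ* g - y) = x ᵥ* (f * g) - y := by
    rw [Matrix.sub_vecMul, Matrix.vecMul_vecMul]
    abel
  rwa [e] at h3

end

section

variable {Γ : Type} [Group Γ] {D : Type} [DecidableEq D] {V : D → Type}
  [∀ i, MulAction Γ (V i)] {T : ∀ i, SimpleGraph (V i)} {h : ∀ i, TreeAct Γ (V i) (T i)}
  {H : Type} [AddCommGroup H]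

theorem isFlow_zero {V' : Type} (T' : SimpleGraph V') : IsFlow T' (fun _ _ => (0 : H)) where
  anti _ _ := neg_zero.symm
  adj _ _ _ := rfl
  fin := by
    have e : {e : V' × V' | (0 : H) ≠ 0} = ∅ := by
      ext e
      simp
    rw [e]
    exact Set.finite_empty

theorem bd_zero {V' : Type} (v : V') : bd (fun _ _ : V' => (0 : H)) v = 0 := finsum_zero

theorem exF_of_le (i : D) {Z Bd : Sz (SP h) → AddSubgroup H} (hle : ∀ B, Z B ≤ Bd B) :
    ExF i Z Bd := by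
  intro B v x hx
  refine ⟨fun _ _ => 0, isFlow_zero _, fun _ _ _ => AddSubgroup.zero_mem _, fun w _ => ?_, ?_⟩
  · rw [bd_zero]
    exact AddSubgroup.zero_mem _
  · rw [bd_zero, zero_sub]
    exact AddSubgroup.neg_mem _ (hle _ hx)

theorem inF_of_le (i : D) {Z Bd : Sz (SP h) → AddSubgroup H} (hle : ∀ B, Z B ≤ Bd B) :
    InF i Z Bd := fun _ _ _ hy _ u w huw => hle _ (hy u w huw)

end

end LatAAux

open LatAAux

/-- Module LatA. -/
theorem stLatA (hN1 : StN1) (hTrunc : StTrunc) (hSA1 : StSA1) (hTr : StTr) (hSA2 : StSA2)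
    (hLocH : StLocH) : StLatA := by
  intro Γ _ D _ _ V _ T h G _ π hN I M hM hMc a hex
  obtain ⟨N₁, κ, hN₁, hNc, hκ, hκi, hκs⟩ := hN1 Γ D (SP h) G π Finset.univ I M hM hMc
  obtain ⟨A, j, hA, hj, hjq, hAex⟩ := hTrunc Γ D (SP h) (GN G) (pN π) (ul_pN π) hN N₁ hN₁ a
  have hL := hLocH Γ D (SP h) G π Finset.univ N₁ A j hN₁ hA hj
  have hj' : Ch (pZ π) Finset.univ (N₁.map (loc G)) (A.map (loc G)) (j.map (loc G)) :=
    hj.map (pZ_hLoc π)
  refine ⟨A, κ * j.map (loc G), hA, fun i hi => ?_, hκ.mul hj', fun q hq => ⟨?_, ?_⟩,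
    fun q hq => (hL q).2.2 (hAex q hq)⟩
  · refine hSA2 Γ D V T h (GN G) (pN π) A i hA fun q => ?_
    rcases le_or_gt q a with hq | hq
    · obtain ⟨h1, h2⟩ := hSA1 Γ D V T h (GN G) (pN π) N₁ i hN₁ (hNc i hi) q
      exact hTr Γ D V T h (GN G) (pN π) N₁ A j i q hN₁ hA hj (hjq q hq).1 (hjq q hq).2 h1 h2
    · exact ⟨exF_of_le i (hAex q hq), inF_of_le i (hAex q hq)⟩
  · exact hinj_comp (X := M) (Y := N₁.map (loc G)) (Z := A.map (loc G)) (f := κ)
      (g := j.map (loc G)) hκ (hκi q) ((hL q).1 (hjq q hq).1)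
  · exact hsur_comp (X := M) (Y := N₁.map (loc G)) (Z := A.map (loc G)) (f := κ)
      (g := j.map (loc G)) hj' (hκs a hex q hq) ((hL q).2.1 (hjq q hq).2)

end Pool.Agent.Lib.MP_551055_al.MT
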