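import Mathlib
import Pool.Agent.Lib.MP_551055_al.Trim.MT.Base
import Pool.Agent.Lib.MP_551055_al.Trim.MT.Defs
import Pool.Agent.Lib.MP_551055_al.Trim.MT.StA
import Pool.Agent.Lib.MP_551055_al.Trim.MT.Tg

/-!
# Many trees: module Link
-/

set_option autoImplicit false

namespace Pool.Agent.Lib.MP_551055_al
end Pool.Agent.Lib.MP_551055_al

namespace Pool.Agent.Lib.MP_551055_al.MT

open Pool.Agent.Lib.MP_551055_al

open Matrix

section

variable {Γ : Type} [Group Γ] {D : Type} {P : D → Type} [∀ i, PartialOrder (P i)]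
  [∀ i, MulAction Γ (P i)] [SzAct Γ P] {N : Type} [Monoid N] {π : N →* Γ} {V : Finset D}

/-- The matrix of a linear map. -/
noncomputable def linkMat {ι κ : Type} [DecidableEq ι]
    (φ : (ι → ZM N) →ₗ[ZM N] (κ → ZM N)) : Matrix ι κ (ZM N) := fun l => φ (Pi.single l 1)

theorem vecMul_linkMat {ι κ : Type} [Fintype ι] [DecidableEq ι]
    (φ : (ι → ZM N) →ₗ[ZM N] (κ → ZM N)) (x : ι → ZM N) : x ᵥ* linkMat φ = φ x := by
  rw [← lin_matrix, lin_ext φ x]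
  rfl

theorem link_mat_ext {ι κ : Type} [Fintype ι] [DecidableEq ι] {f g : Matrix ι κ (ZM N)}
    (h : ∀ x : ι → ZM N, x ᵥ* f = x ᵥ* g) : f = g := by
  funext l
  have h1 := h (Pi.single l 1)
  rwa [Matrix.single_one_vecMul, Matrix.single_one_vecMul] at h1

omit [SzAct Γ P] in
/-- The two maps between `K` and `K'`, one half of the statement. -/
theorem link_half {T : Tg P π V} {K K' : Co P N} {e : Matrix K.ι K.ι (ZM N)}
    {u : (K.ι → ZM N) →ₗ[ZM N] T.V}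
    {v : T.V →ₗ[ZM N] (K.ι → ZM N)} {s : Matrix K.ι K.ι (ZM N)}
    {u' : (K'.ι → ZM N) →ₗ[ZM N] T.V} {v' : T.V →ₗ[ZM N] (K'.ι → ZM N)}
    {r' : T.V →ₗ[ZM N] T.V}
    (hu : ∀ B q, ∀ x ∈ fam π V K.toOb B q, u x ∈ T.fam B q)
    (hv : ∀ B q, ∀ y ∈ T.fam B q, v y ∈ fam π V K.toOb B q)
    (hs : Ct π V 1 K.toOb K.toOb s)
    (hud : ∀ x, u (x ᵥ* K.d) = T.d (u x)) (hvd : ∀ y, v (T.d y) = v y ᵥ* K.d)
    (hvu : ∀ x, v (u x) = x ᵥ* (e + K.d * s + s * K.d))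
    (hv' : ∀ B q, ∀ y ∈ T.fam B q, v' y ∈ fam π V K'.toOb B q)
    (hr' : ∀ B q, ∀ y ∈ T.fam B q, r' y ∈ T.fam B (q + 1))
    (hvd' : ∀ y, v' (T.d y) = v' y ᵥ* K'.d)
    (huv' : ∀ y, u' (v' y) = y + T.d (r' y) + r' (T.d y)) :
    Ch π V K K' (linkMat (v' ∘ₗ u)) ∧
      Nul π V K K (linkMat (v' ∘ₗ u) * linkMat (v ∘ₗ u') - e) := by
  refine ⟨⟨?_, ?_⟩, s + linkMat (v ∘ₗ r' ∘ₗ u), ?_, ?_⟩
  · rw [ct_iff]
    intro l
    rw [add_zero]
    exact hv' _ _ _ (hu _ _ _ (basis_mem_fam l))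
  · apply link_mat_ext
    intro x
    rw [← Matrix.vecMul_vecMul, ← Matrix.vecMul_vecMul, vecMul_linkMat, vecMul_linkMat]
    change v' (u (x ᵥ* K.d)) = v' (u x) ᵥ* K'.d
    rw [hud, hvd']
  · refine hs.add ?_
    rw [ct_iff]
    intro l
    exact hv _ _ _ (hr' _ _ _ (hu _ _ _ (basis_mem_fam l)))
  · apply link_mat_ext
    intro x
    rw [Matrix.vecMul_sub, ← Matrix.vecMul_vecMul, vecMul_linkMat, vecMul_linkMat,
      Matrix.mul_add, Matrix.add_mul, Matrix.vecMul_add, Matrix.vecMul_add, Matrix.vecMul_add,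
      ← Matrix.vecMul_vecMul (M := K.d) (N := linkMat _),
      ← Matrix.vecMul_vecMul (M := linkMat _) (N := K.d), vecMul_linkMat, vecMul_linkMat]
    change v (u' (v' (u x))) - x ᵥ* e = x ᵥ* (K.d * s) + v (r' (u (x ᵥ* K.d)))
      + (x ᵥ* (s * K.d) + v (r' (u x)) ᵥ* K.d)
    rw [huv', map_add, map_add, hvu, hvd, ← hud, Matrix.vecMul_add, Matrix.vecMul_add]
    abel

end

/-- Module Link. -/
theorem stLink : StLink := by
  intro Γ _ D P _ _ _ N _ π V T K K' e e' _ _ _ _ hK hK'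
  obtain ⟨u, v, r, s, hu, hv, hr, hs, hud, hvd, hvu, huv⟩ := hK
  obtain ⟨u', v', r', s', hu', hv', hr', hs', hud', hvd', hvu', huv'⟩ := hK'
  obtain ⟨h1, h2⟩ := link_half hu hv hs hud hvd hvu hv' hr' hvd' huv'
  obtain ⟨h3, h4⟩ := link_half hu' hv' hs' hud' hvd' hvu' hv hr hvd huv
  exact ⟨_, _, h1, h3, h2, h4⟩

end Pool.Agent.Lib.MP_551055_al.MT
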