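import Mathlib
import Pool.Agent.Lib.MP_551055_al.Trim.LS.Stmts
import Pool.Agent.Lib.MP_551055_al.Trim.MT.Base
import Pool.Agent.Lib.MP_551055_al.Trim.MT.Defs
import Pool.Agent.Lib.MP_551055_al.Trim.MT.Gen
import Pool.Agent.Lib.MP_551055_al.Trim.MT.Map
import Pool.Agent.Lib.MP_551055_al.Trim.MT.StA
import Pool.Agent.Lib.MP_551055_al.Trim.MT.StB

/-!
# Many trees, module LocH: localisation and homology
-/

set_option autoImplicit false

namespace Pool.Agent.Lib.MP_551055_al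
end Pool.Agent.Lib.MP_551055_al

namespace Pool.Agent.Lib.MP_551055_al.MT.LocHAux
end Pool.Agent.Lib.MP_551055_al.MT.LocHAux

namespace Pool.Agent.Lib.MP_551055_al.MT

open Pool.Agent.Lib.MP_551055_al

open Matrix

namespace LocHAux

section

variable {G : Type} [Group G]

/-- `loc` on vectors. -/
noncomputable def lv {ι : Type} (x : ι → ZM (GN G)) : ι → ZM (GZ G) := fun l => loc G (x l)

theorem lv_inj {ι : Type} {x y : ι → ZM (GN G)} (h : lv x = lv y) : x = y :=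
  funext fun l => loc_injective (congrFun h l)

theorem lv_zero {ι : Type} : lv (0 : ι → ZM (GN G)) = 0 := funext fun _ => map_zero (loc G)

theorem lv_sub {ι : Type} (x y : ι → ZM (GN G)) : lv (x - y) = lv x - lv y :=
  funext fun l => map_sub (loc G) (x l) (y l)

theorem lv_vecMul {ι κ : Type} [Fintype ι] (x : ι → ZM (GN G)) (f : Matrix ι κ (ZM (GN G))) :
    lv (x ᵥ* f) = lv x ᵥ* f.map (loc G) := by
  funext k
  change loc G (∑ l, x l * f l k) = ∑ l, loc G (x l) * loc G (f l k)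
  rw [map_sum]
  exact Finset.sum_congr rfl fun l _ => map_mul _ _ _

theorem lv_zN {ι : Type} (a : ℕ) (x : ι → ZM (GN G)) : lv (zN G a • x) = zZ G a • lv x := by
  funext l
  change loc G (zN G a * x l) = zZ G a * loc G (x l)
  rw [map_mul, loc_zN]

theorem zZ_add (a b : ℤ) : zZ G (a + b) = zZ G a * zZ G b := by
  unfold zZ
  rw [MonoidAlgebra.single_mul_single, mul_one]
  have h : ((1 : G), Multiplicative.ofAdd (a + b)) =
      (1, Multiplicative.ofAdd a) * (1, Multiplicative.ofAdd b) :=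
    Prod.ext (one_mul (1 : G)).symm rfl
  rw [h]

theorem zZ_smul {ι : Type} (a b : ℤ) (x : ι → ZM (GZ G)) :
    zZ G a • zZ G b • x = zZ G (a + b) • x := by
  rw [smul_smul, zZ_add]

theorem zZ_zero_smul {ι : Type} (x : ι → ZM (GZ G)) : zZ G 0 • x = x := by
  have h : zZ G 0 = 1 := rfl
  rw [h, one_smul]

theorem zZ_neg_smul {ι : Type} (a : ℤ) (x : ι → ZM (GZ G)) : zZ G (-a) • zZ G a • x = x := by
  rw [zZ_smul, neg_add_cancel, zZ_zero_smul]

end

variable {Γ : Type} [Group Γ] {D : Type} {P : D → Type} [∀ i, PartialOrder (P i)]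
  [∀ i, MulAction Γ (P i)] {G : Type} [Group G] {π : G →* Γ} {V : Finset D}

theorem lv_mem {X : Ob P} {B : Sz P} {q : ℤ} {x : X.ι → ZM (GN G)}
    (hx : x ∈ fam (pN π) V X B q) : lv x ∈ fam (pZ π) V X B q := by
  intro l m hm
  obtain ⟨a, ha, h1⟩ := coeff_mdh_ne hm
  rw [← ha, pZ_hLoc]
  exact hx l a h1

section

variable [SzAct Γ P]

theorem zN_mem {X : Ob P} {B : Sz P} {q : ℤ} {x : X.ι → ZM (GN G)}
    (hx : x ∈ fam (pN π) V X B q) (a : ℕ) : zN G a • x ∈ fam (pN π) V X B q := by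
  have h := fam_act hx (1, Multiplicative.ofAdd a)
  have h1 : pN π (1, Multiplicative.ofAdd a) = 1 := map_one π
  rw [h1, one_smul] at h
  exact h

theorem zZ_mem {X : Ob P} {B : Sz P} {q : ℤ} {x : X.ι → ZM (GZ G)}
    (hx : x ∈ fam (pZ π) V X B q) (a : ℤ) : zZ G a • x ∈ fam (pZ π) V X B q := by
  have h := fam_act hx (1, Multiplicative.ofAdd a)
  have h1 : pZ π (1, Multiplicative.ofAdd a) = 1 := map_one π
  rw [h1, one_smul] at h
  exact h

/-- The elements which become boundaries after multiplication with a power of `z`. -/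
theorem backB {A : Co P (GN G)} {q a : ℤ} {B : Sz P} {y' : A.ι → ZM (GN G)}
    {y : A.ι → ZM (GZ G)} (h : y' ∈ BC (pN π) V A q B) (hy : lv y' = zZ G a • y) :
    y ∈ BC (pZ π) V (A.map (loc G)) q B := by
  obtain ⟨w, hw, h1⟩ := h
  refine ⟨zZ G (-a) • lv w, zZ_mem (lv_mem hw) (-a), ?_⟩
  change (zZ G (-a) • lv w) ᵥ* A.d.map (loc G) = y
  rw [Matrix.smul_vecMul, ← lv_vecMul, h1, hy, zZ_neg_smul]

end

theorem clearZ (hC : StClr) {A : Co P (GN G)} {κ : Type} {f : Matrix A.ι κ (ZM (GN G))} {q : ℤ}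
    {B : Sz P} {y : A.ι → ZM (GZ G)}
    (h : y ∈ kerF (pZ π) V A.toOb (f.map (loc G)) q B) :
    ∃ (a : ℕ) (y' : A.ι → ZM (GN G)), y' ∈ kerF (pN π) V A.toOb f q B ∧ lv y' = zZ G a • y := by
  obtain ⟨a, y', h1, h2⟩ := (hC Γ D P G π V A.toOb A.toOb q).2 B y h.1
  have h2' : lv y' = zZ G a • y := h2
  refine ⟨a, y', ⟨h1, lv_inj ?_⟩, h2⟩
  rw [lv_vecMul, h2', Matrix.smul_vecMul, h.2, smul_zero, lv_zero]

end LocHAux

open LocHAux

theorem stLocH (h : StClr) : StLocH := by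
  intro Γ _ D P _ _ _ G _ π V K A j hK hA hj q
  refine ⟨fun hi => ?_, fun hs => ?_, fun he => ?_⟩
  · intro B x hx hxj
    obtain ⟨y, hy, hyx⟩ := hxj
    have hyx' : y ᵥ* A.d.map (loc G) = x ᵥ* j.map (loc G) := hyx
    obtain ⟨a, x', hx', hxx⟩ := clearZ h (A := K) (f := K.d) hx
    obtain ⟨b, y', hy', hyy⟩ := (h Γ D P G π V A.toOb A.toOb (q + 1)).2 B y hy
    have hyy' : lv y' = zZ G b • y := hyy
    have h1 : zN G b • x' ∈ ZC (pN π) V K q B := by
      refine ⟨zN_mem hx'.1 b, ?_⟩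
      rw [Matrix.smul_vecMul, hx'.2, smul_zero]
    have h2 : (zN G b • x') ᵥ* j ∈ BC (pN π) V A q B := by
      refine ⟨zN G a • y', zN_mem hy' a, lv_inj ?_⟩
      rw [lv_vecMul, lv_vecMul, lv_zN, lv_zN, hyy', hxx, zZ_smul, zZ_smul, Matrix.smul_vecMul,
        Matrix.smul_vecMul, hyx', add_comm (a : ℤ) b]
    refine backB (a := (b : ℤ) + a) (hi B _ h1 h2) ?_
    rw [lv_zN, hxx, zZ_smul]
  · intro B y hy
    obtain ⟨a, y', hy', hyy⟩ := clearZ h (A := A) (f := A.d) hy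
    obtain ⟨x, hx, hxy⟩ := hs B y' hy'
    refine ⟨zZ G (-a) • lv x, ⟨zZ_mem (lv_mem hx.1) _, ?_⟩, backB (a := (a : ℤ)) hxy ?_⟩
    · change (zZ G (-a) • lv x) ᵥ* K.d.map (loc G) = 0
      rw [Matrix.smul_vecMul, ← lv_vecMul, hx.2, lv_zero, smul_zero]
    · rw [lv_sub, hyy, lv_vecMul, smul_sub]
      congr 1
      change _ = zZ G a • ((zZ G (-a) • lv x) ᵥ* j.map (loc G))
      rw [Matrix.smul_vecMul, zZ_smul, add_neg_cancel, zZ_zero_smul]
  · intro B y hy
    obtain ⟨a, y', hy', hyy⟩ := clearZ h (A := A) (f := A.d) hy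
    exact backB (a := (a : ℤ)) (he B hy') hyy

end Pool.Agent.Lib.MP_551055_al.MT
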