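import Mathlib
import Pool.Agent.Lib.MP_551055_al.Trim.LS.Stmts
import Pool.Agent.Lib.MP_551055_al.Trim.LS.TreeA
import Pool.Agent.Lib.MP_551055_al.Trim.MT.Base
import Pool.Agent.Lib.MP_551055_al.Trim.MT.Defs
import Pool.Agent.Lib.MP_551055_al.Trim.MT.Gen
import Pool.Agent.Lib.MP_551055_al.Trim.MT.Trees
import Pool.Agent.Lib.MP_551055_al.Trim.PT.Stmts

/-!
# Many trees: the Mayer-Vietoris sequence of a finite free object
-/

set_option autoImplicit false

namespace Pool.Agent.Lib.MP_551055_al
end Pool.Agent.Lib.MP_551055_al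

namespace Pool.Agent.Lib.MP_551055_al.LS
end Pool.Agent.Lib.MP_551055_al.LS

namespace Pool.Agent.Lib.MP_551055_al.PT
end Pool.Agent.Lib.MP_551055_al.PT

namespace Pool.Agent.Lib.MP_551055_al.MT

open Pool.Agent.Lib.MP_551055_al

open Pool.Agent.Lib.MP_551055_al.LS (TreeAct side)

open Pool.Agent.Lib.MP_551055_al.PT (EC)

open Matrix

section

variable {N : Type} [Monoid N]

open Classical in
/-- The terms of `x` which are assigned to `w`. -/
private noncomputable def mvPart {W : Type} (x : ZM N) (c : N → W) (w : W) : ZM N :=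
  ∑ m ∈ x.coeff.support.filter (fun m => c m = w), MonoidAlgebra.single m (x.coeff m)

private theorem mvPart_ne {W : Type} {x : ZM N} {c : N → W} {w : W} {m : N}
    (h : (mvPart x c w).coeff m ≠ 0) : x.coeff m ≠ 0 ∧ c m = w := by
  classical
  obtain ⟨a, ha, h1⟩ := coeff_sum_ne h
  rw [Finset.mem_filter, Finsupp.mem_support_iff] at ha
  rw [coeff_single_ne h1]
  exact ha

open Classical in
private theorem mvPart_sum {W : Type} (x : ZM N) (c : N → W) (S : Finset W)
    (hS : ∀ m, x.coeff m ≠ 0 → c m ∈ S) : ∑ w ∈ S, mvPart x c w = x := by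
  conv_rhs => rw [zm_sum x]
  rw [← Finset.sum_fiberwise_of_maps_to (s := x.coeff.support) (t := S) (g := c)
    (fun m hm => hS m (Finsupp.mem_support_iff.1 hm))]
  refine Finset.sum_congr rfl fun w _ => ?_
  rw [mvPart]

private theorem mv_upd_ne {Γ : Type} [Group Γ] {D : Type} [DecidableEq D] {V : D → Type}
    [∀ i, MulAction Γ (V i)] {T : ∀ i, SimpleGraph (V i)} {h : ∀ i, TreeAct Γ (V i) (T i)}
    (B : Sz (SP h)) (i : D) (A : Sub (h i)) {j : D} (hj : j ≠ i) : upd B i A j = B j :=
  Function.update_of_ne hj _ _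

private theorem mv_upd_eq {Γ : Type} [Group Γ] {D : Type} [DecidableEq D] {V : D → Type}
    [∀ i, MulAction Γ (V i)] {T : ∀ i, SimpleGraph (V i)} {h : ∀ i, TreeAct Γ (V i) (T i)}
    (B : Sz (SP h)) (i : D) (A : Sub (h i)) : upd B i A i = A :=
  Function.update_self _ _ _

end

theorem stMV (hF : StFlow) : StMV := by
  intro Γ _ D _ _ V _ T h N _ π X i q B
  refine ⟨fun x hx => ?_, fun w x hx l m hm => ?_, fun y hy hb u w huw => ?_⟩
  · -- every term is assigned to a vertex
    have hc : ∀ (l : X.ι) (m : N), ∃ v : V i, v ∈ (π m • X.sz l i).set := fun l m =>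
      (π m • X.sz l i).2.2.1
    choose c hc using hc
    classical
    let S : Finset (V i) := Finset.univ.biUnion fun l : X.ι => (x l).coeff.support.image (c l)
    have hS : ∀ (l : X.ι) (m : N), (x l).coeff m ≠ 0 → c l m ∈ S := fun l m hm =>
      Finset.mem_biUnion.2 ⟨l, Finset.mem_univ l,
        Finset.mem_image_of_mem _ (Finsupp.mem_support_iff.2 hm)⟩
    have hsupp : ∀ w, (fun l => mvPart (x l) (c l) w) ≠ 0 → w ∈ S := by
      intro w hw
      by_contra hn
      apply hw
      funext l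
      apply MonoidAlgebra.coeff_injective
      ext m
      by_contra hm
      obtain ⟨h1, h2⟩ := mvPart_ne hm
      exact hn (h2 ▸ hS l m h1)
    refine ⟨fun w l => mvPart (x l) (c l) w, ?_, ?_, ?_⟩
    · exact S.finite_toSet.subset fun w hw => hsupp w hw
    · intro w l m hm
      obtain ⟨h1, h2⟩ := mvPart_ne hm
      obtain ⟨h3, h4⟩ := hx l m h1
      refine ⟨h3, fun j _ => ?_⟩
      by_cases hj : j = i
      · subst hj
        rw [mv_upd_eq, vtx_le, ← h2]
        exact hc l m
      · rw [mv_upd_ne _ _ _ hj]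
        exact h4 j (Finset.mem_erase.2 ⟨hj, Finset.mem_univ j⟩)
    · rw [finsum_eq_finsetSum_of_support_subset (s := S) _ fun w hw => hsupp w hw]
      funext l
      rw [Finset.sum_apply]
      exact mvPart_sum (x l) (c l) S (hS l)
  · obtain ⟨h1, h2⟩ := hx l m hm
    refine ⟨h1, fun j hj => ?_⟩
    have h3 := h2 j (Finset.mem_univ j)
    rwa [mv_upd_ne _ _ _ (Finset.ne_of_mem_erase hj)] at h3
  · obtain ⟨-, -, hst⟩ := (hF (V i) (T i) (h i).tree (X.ι → ZM N)).1 y hy
    -- a term of a flow occurs in the inflow at a vertex of the side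
    have key : ∀ u w, (T i).Adj u w → ∀ (l : X.ι) (m : N), (y u w l).coeff m ≠ 0 →
        ∃ w' ∈ side (T i) u w, X.deg l = q ∧ (∀ j, j ≠ i → B j ≤ π m • X.sz l j) ∧
          w' ∈ (π m • X.sz l i).set := by
      intro u w huw l m hm
      by_contra hn
      apply hm
      rw [hst u w huw]
      refine finsum_mem_induction (fun z : X.ι → ZM N => (z l).coeff m = 0) rfl
        (fun a b ha hb => ?_) (fun w' hw' => ?_)
      · change (a l + b l).coeff m = 0
        rw [MonoidAlgebra.coeff_add, Finsupp.add_apply]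
        rw [ha, hb, add_zero]
      · by_contra h0
        obtain ⟨h1, h2⟩ := hb w' l m h0
        refine hn ⟨w', hw', h1, fun j hj => ?_, ?_⟩
        · have h3 := h2 j (Finset.mem_univ j)
          rwa [mv_upd_ne _ _ _ hj] at h3
        · have h3 := h2 i (Finset.mem_univ i)
          rwa [mv_upd_eq, vtx_le] at h3
    intro l m hm
    obtain ⟨w', h1, h2, h3, h4⟩ := key u w huw l m hm
    have hm' : (y w u l).coeff m ≠ 0 := by
      intro h0
      apply hm
      rw [hy.anti u w]
      change (-(y w u l)).coeff m = 0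
      rw [MonoidAlgebra.coeff_neg, Finsupp.neg_apply, h0, neg_zero]
    obtain ⟨w'', h5, -, -, h6⟩ := key w u huw.symm l m hm'
    rw [← LS.side_compl (h i).tree huw] at h5
    obtain ⟨h7, h8⟩ := (π m • X.sz l i).2.2.2 u w huw ⟨w', h4, h1⟩ ⟨w'', h6, h5⟩
    refine ⟨h2, fun j _ => ?_⟩
    by_cases hj : j = i
    · subst hj
      rw [mv_upd_eq, edg_le _ huw]
      exact ⟨h7, h8⟩
    · rw [mv_upd_ne _ _ _ hj]
      exact h3 j hj

end Pool.Agent.Lib.MP_551055_al.MT
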