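import Mathlib
import Pool.Agent.Lib.MP_551055_al.Trim.LS.Stmts
import Pool.Agent.Lib.MP_551055_al.Trim.MT.Base
import Pool.Agent.Lib.MP_551055_al.Trim.MT.Defs
import Pool.Agent.Lib.MP_551055_al.Trim.MT.Gen
import Pool.Agent.Lib.MP_551055_al.Trim.MT.Map
import Pool.Agent.Lib.MP_551055_al.Trim.MT.StA
import Pool.Agent.Lib.MP_551055_al.Trim.MT.StB

/-!
# Module N1: a finite complex over `ℤ[G × ℕ]` whose localisation is `M ⊕ M[1]`
-/

set_option autoImplicit false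

namespace Pool.Agent.Lib.MP_551055_al
end Pool.Agent.Lib.MP_551055_al

namespace Pool.Agent.Lib.MP_551055_al.MT

open Pool.Agent.Lib.MP_551055_al

open Matrix

/-! ## The central variable -/

section

variable {G : Type} [Group G]

private theorem n1_zcomm (a : ℤ) (x : ZM (GZ G)) : x * zZ G a = zZ G a * x := by
  refine (MonoidAlgebra.single_commute (fun m => ?_) (fun _ => Commute.one_left _) x).symm
  change (1, Multiplicative.ofAdd a) * m = m * (1, Multiplicative.ofAdd a)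
  exact Prod.ext ((one_mul _).trans (mul_one _).symm) (mul_comm _ _)

private theorem n1_zz (a : ℤ) : zZ G (-a) * zZ G a = 1 := by
  rw [zZ, zZ, MonoidAlgebra.single_mul_single, MonoidAlgebra.one_def]
  congr 1
  exact Prod.ext (one_mul _) (by
    change Multiplicative.ofAdd (-a + a) = 1
    rw [neg_add_cancel]
    rfl)

private theorem n1_vecMul_z {α β : Type} [Fintype α] (a : ℤ) (x : α → ZM (GZ G))
    (f : Matrix α β (ZM (GZ G))) : x ᵥ* (zZ G a • f) = zZ G a • (x ᵥ* f) := by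
  funext k
  change ∑ j, x j * (zZ G a * f j k) = zZ G a * ∑ j, x j * f j k
  rw [Finset.mul_sum]
  refine Finset.sum_congr rfl fun j _ => ?_
  rw [← mul_assoc, n1_zcomm, mul_assoc]

private theorem n1_mul_z {α β γ : Type} [Fintype β] (a : ℤ) (f : Matrix α β (ZM (GZ G)))
    (g : Matrix β γ (ZM (GZ G))) : f * (zZ G a • g) = zZ G a • (f * g) := by
  funext l
  exact n1_vecMul_z a (f l) g

end

/-! ## Homology -/

section

variable {Γ : Type} [Group Γ] {D : Type} {P : D → Type} [∀ i, PartialOrder (P i)]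
  [∀ i, MulAction Γ (P i)] {N : Type} [Monoid N]

variable {π : N →* Γ} {U U' : Finset D}

private theorem n1_contr_cone [SzAct Γ P] (hCC : StCC) {X Y : Co P N}
    {f : Matrix X.ι Y.ι (ZM N)} (hf : Ch π U X Y f) (hX : Contr π U X) (hY : Contr π U Y) :
    Contr π U (cone X Y f) := by
  refine (hCC Γ D P N π U X Y f hf).1 0 Ch.zero ?_ ?_
  · rw [Matrix.mul_zero, zero_sub]
    exact Nul.neg hX
  · rw [Matrix.zero_mul, zero_sub]
    exact Nul.neg hY

/-- Null-homotopic maps send cycles to boundaries. -/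
private theorem n1_nul {X Y : Co P N} {f : Matrix X.ι Y.ι (ZM N)} [SzAct Γ P]
    (hf : Nul π U X Y f) {q : ℤ} {B : Sz P} {x : X.ι → ZM N} (hx : x ∈ ZC π U X q B) :
    x ᵥ* f ∈ BC π U Y q B := by
  obtain ⟨s, hs, rfl⟩ := hf
  refine ⟨x ᵥ* s, fam_vecMul hs hx.1, ?_⟩
  rw [Matrix.vecMul_add, ← Matrix.vecMul_vecMul, ← Matrix.vecMul_vecMul, hx.2,
    Matrix.zero_vecMul, zero_add]

private theorem n1_nul_sub {X : Co P N} {f : Matrix X.ι X.ι (ZM N)} [SzAct Γ P]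
    (hf : Nul π U X X (f - 1)) {q : ℤ} {B : Sz P} {x : X.ι → ZM N} (hx : x ∈ ZC π U X q B) :
    x ᵥ* f - x ∈ BC π U X q B := by
  have h1 := n1_nul hf hx
  rwa [Matrix.vecMul_sub, Matrix.vecMul_one] at h1

private theorem n1_exa [SzAct Γ P] {X Y : Co P N} (h : Iso π U X 1 Y 1) {q : ℤ}
    (hY : Exa π U Y q) : Exa π U X q := by
  obtain ⟨u, v, hu, hv, h1, h2⟩ := h
  intro B x hx
  have h3 : x ᵥ* (u * v) - x ∈ BC π U X q B := n1_nul_sub h1 hx
  have h4 : x ᵥ* (u * v) ∈ BC π U X q B := by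
    rw [← Matrix.vecMul_vecMul]
    exact hv.mem_BC (hY B (hu.mem_ZC hx))
  have h5 := AddSubgroup.sub_mem _ h4 h3
  rwa [sub_sub_cancel] at h5

/-- The elements of a cone. -/
private theorem n1_mem_cone {X Y : Co P N} {f : Matrix X.ι Y.ι (ZM N)} {B : Sz P} {q : ℤ}
    {v : X.ι ⊕ Y.ι → ZM N} :
    v ∈ fam π U (cone X Y f).toOb B q ↔
      v ∘ Sum.inl ∈ fam π U X.toOb B (q - 1) ∧ v ∘ Sum.inr ∈ fam π U Y.toOb B q := by
  constructor
  · intro h
    refine ⟨fun l m hm => ?_, fun l m hm => h (Sum.inr l) m hm⟩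
    obtain ⟨h1, h2⟩ := h (Sum.inl l) m hm
    have h3 : X.deg l + 1 = q := h1
    exact ⟨by omega, h2⟩
  · rintro ⟨h1, h2⟩ (l | l) m hm
    · obtain ⟨h3, h4⟩ := h1 l m hm
      exact ⟨by change X.deg l + 1 = q; omega, h4⟩
    · exact h2 l m hm

private theorem n1_elim_mem {X Y : Co P N} {f : Matrix X.ι Y.ι (ZM N)} {B : Sz P} {q : ℤ}
    {x : X.ι → ZM N} {y : Y.ι → ZM N} (hx : x ∈ fam π U X.toOb B (q - 1))
    (hy : y ∈ fam π U Y.toOb B q) : Sum.elim x y ∈ fam π U (cone X Y f).toOb B q :=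
  n1_mem_cone.2 ⟨hx, hy⟩

omit [∀ i, PartialOrder (P i)] in
private theorem n1_cone_d {X Y : Co P N} {f : Matrix X.ι Y.ι (ZM N)} (v : X.ι ⊕ Y.ι → ZM N) :
    v ᵥ* (cone X Y f).d
      = Sum.elim (-((v ∘ Sum.inl) ᵥ* X.d)) ((v ∘ Sum.inl) ᵥ* f + (v ∘ Sum.inr) ᵥ* Y.d) := by
  change v ᵥ* Matrix.fromBlocks (-X.d) f 0 Y.d = _
  rw [Matrix.vecMul_fromBlocks, Matrix.vecMul_neg, Matrix.vecMul_zero, add_zero]

end

section

variable {Γ : Type} [Group Γ] {D : Type} {P : D → Type} [∀ i, PartialOrder (P i)]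
  [∀ i, MulAction Γ (P i)] [SzAct Γ P] {G : Type} [Group G] {π : G →* Γ} {V : Finset D}

private theorem n1_z_mem {X : Ob P} {B : Sz P} {q : ℤ} {x : X.ι → ZM (GZ G)}
    (hx : x ∈ fam (pZ π) V X B q) (a : ℤ) : zZ G a • x ∈ fam (pZ π) V X B q := by
  have h1 := fam_act hx (1, Multiplicative.ofAdd a)
  have h2 : pZ π (1, Multiplicative.ofAdd a) = 1 := map_one π
  rw [h2, one_smul] at h1
  exact h1

/-- The complex `cone (z^a (1 - e))` where `e = p s` and `s p = 1`: the homology of `M₀`. -/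
private theorem n1_core {M₀ W : Co P (GZ G)} (a : ℤ) {p : Matrix W.ι M₀.ι (ZM (GZ G))}
    {s : Matrix M₀.ι W.ι (ZM (GZ G))} (hp : Ch (pZ π) V W M₀ p) (hs : Ch (pZ π) V M₀ W s)
    (hsp : s * p = 1) :
    ∃ κ : Matrix M₀.ι (cone W W (zZ G a • (1 - p * s))).ι (ZM (GZ G)),
      Ch (pZ π) V M₀ (cone W W (zZ G a • (1 - p * s))) κ ∧
      (∀ q, HInj (pZ π) V M₀ (cone W W (zZ G a • (1 - p * s))) κ q) ∧
      ∀ q, Exa (pZ π) V M₀ (q - 1) → HSur (pZ π) V M₀ (cone W W (zZ G a • (1 - p * s))) κ q := by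
  have hκ : ∀ x : M₀.ι → ZM (GZ G), x ᵥ* Matrix.fromCols 0 s
      = (Sum.elim 0 (x ᵥ* s) : W.ι ⊕ W.ι → ZM (GZ G)) := fun x => by
    rw [Matrix.vecMul_fromCols, Matrix.vecMul_zero]
  have hd : ∀ v : W.ι ⊕ W.ι → ZM (GZ G), v ᵥ* (cone W W (zZ G a • (1 - p * s))).d
      = Sum.elim (-((v ∘ Sum.inl) ᵥ* W.d))
        (zZ G a • ((v ∘ Sum.inl) - (v ∘ Sum.inl) ᵥ* (p * s)) + (v ∘ Sum.inr) ᵥ* W.d) := by
    intro v
    rw [n1_cone_d, n1_vecMul_z, Matrix.vecMul_sub, Matrix.vecMul_one]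
  have hzz : ∀ x : W.ι → ZM (GZ G), zZ G (-a) • zZ G a • x = x := fun x => by
    rw [smul_smul, n1_zz, one_smul]
  have hzz' : ∀ x : W.ι → ZM (GZ G), zZ G a • zZ G (-a) • x = x := fun x => by
    rw [smul_smul, ← n1_zcomm, n1_zz, one_smul]
  refine ⟨Matrix.fromCols 0 s, ⟨?_, ?_⟩, ?_, ?_⟩
  · rintro l (k | k) m hm
    · exact absurd rfl hm
    · exact hs.1 l k m hm
  · change M₀.d * Matrix.fromCols 0 s = Matrix.fromCols 0 s *
      Matrix.fromBlocks (-W.d) (zZ G a • (1 - p * s)) 0 W.d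
    rw [Matrix.mul_fromCols, Matrix.fromCols_mul_fromBlocks, Matrix.mul_zero, Matrix.zero_mul,
      Matrix.mul_zero, Matrix.zero_mul, add_zero, zero_add, hs.2]
  · rintro q B x hx ⟨v, hv, hvx⟩
    rw [hκ, hd] at hvx
    have h1 : zZ G a • ((v ∘ Sum.inl) - (v ∘ Sum.inl) ᵥ* (p * s)) + (v ∘ Sum.inr) ᵥ* W.d
        = x ᵥ* s := by
      funext k
      exact congrFun hvx (Sum.inr k)
    have h2 := congrArg (fun y => y ᵥ* p) h1
    simp only at h2
    rw [Matrix.add_vecMul, Matrix.smul_vecMul, Matrix.sub_vecMul, Matrix.vecMul_vecMul,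
      Matrix.mul_assoc, hsp, Matrix.mul_one, sub_self, smul_zero, zero_add,
      Matrix.vecMul_vecMul, Matrix.vecMul_vecMul, hsp, Matrix.vecMul_one, hp.2,
      ← Matrix.vecMul_vecMul] at h2
    exact ⟨(v ∘ Sum.inr) ᵥ* p, fam_vecMul' hp.1 (n1_mem_cone.1 hv).2 (add_zero _), h2⟩
  · intro q hq B c hc
    obtain ⟨hc1, hc2⟩ := n1_mem_cone.1 hc.1
    have hc3 := hc.2
    rw [hd] at hc3
    generalize hx : c ∘ Sum.inl = x at hc1 hc3
    generalize hy : c ∘ Sum.inr = y at hc2 hc3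
    have hcxy : c = Sum.elim x y := by
      rw [← hx, ← hy, Sum.elim_comp_inl_inr]
    have h1 : x ᵥ* W.d = 0 := by
      funext k
      have h2 := congrFun hc3 (Sum.inl k)
      exact neg_eq_zero.1 h2
    have h2 : zZ G a • (x - x ᵥ* (p * s)) + y ᵥ* W.d = 0 := by
      funext k
      exact congrFun hc3 (Sum.inr k)
    -- `x p` is a boundary
    obtain ⟨b, hb, hbx⟩ := hq B (hp.mem_ZC (show x ∈ ZC (pZ π) V W (q - 1) B from ⟨hc1, h1⟩))
    rw [sub_add_cancel] at hb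
    -- `x` is a boundary
    have h3 : x - x ᵥ* (p * s) = -(zZ G (-a) • (y ᵥ* W.d)) := by
      rw [← hzz (x - x ᵥ* (p * s)), eq_neg_of_add_eq_zero_left h2, smul_neg]
    have h4 : x ᵥ* (p * s) = (b ᵥ* s) ᵥ* W.d := by
      rw [← Matrix.vecMul_vecMul, ← hbx, Matrix.vecMul_vecMul, Matrix.vecMul_vecMul, hs.2]
    obtain ⟨b', hb'⟩ : ∃ b', b ᵥ* s - zZ G (-a) • y = b' := ⟨_, rfl⟩
    have hb'm : b' ∈ fam (pZ π) V W.toOb B q := by
      rw [← hb']
      exact AddSubgroup.sub_mem _ (fam_vecMul' hs.1 hb (add_zero _)) (n1_z_mem hc2 _)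
    have h5 : b' ᵥ* W.d = x := by
      rw [← hb', Matrix.sub_vecMul, Matrix.smul_vecMul, ← h4, sub_eq_add_neg, ← h3,
        add_sub_cancel]
    have hps : p * s * W.d = W.d * (p * s) := by
      rw [Matrix.mul_assoc, ← hs.2, ← Matrix.mul_assoc, ← hp.2, Matrix.mul_assoc]
    have hpsC : Ct (pZ π) V 0 W.toOb W.toOb (p * s) := hp.1.mul' hs.1 (add_zero 0)
    obtain ⟨y', hy'⟩ : ∃ y', y + zZ G a • (b' - b' ᵥ* (p * s)) = y' := ⟨_, rfl⟩
    have hy'm : y' ∈ fam (pZ π) V W.toOb B q := by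
      rw [← hy']
      exact AddSubgroup.add_mem _ hc2 (n1_z_mem (AddSubgroup.sub_mem _ hb'm
        (fam_vecMul' hpsC hb'm (add_zero _))) _)
    have hy'd : y' ᵥ* W.d = 0 := by
      rw [← hy', Matrix.add_vecMul, Matrix.smul_vecMul, Matrix.sub_vecMul, Matrix.vecMul_vecMul,
        hps, ← Matrix.vecMul_vecMul, h5, add_comm]
      exact h2
    have hb'' : b' - zZ G (-a) • y' ∈ fam (pZ π) V W.toOb B q :=
      AddSubgroup.sub_mem _ hb'm (n1_z_mem hy'm _)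
    refine ⟨y' ᵥ* p, hp.mem_ZC ⟨hy'm, hy'd⟩, Sum.elim (b' - zZ G (-a) • y') 0, ?_, ?_⟩
    · refine n1_elim_mem ?_ (AddSubgroup.zero_mem _)
      rw [add_sub_cancel_right]
      exact hb''
    · rw [hd, Sum.elim_comp_inl, Sum.elim_comp_inr, Matrix.zero_vecMul, add_zero, hκ, hcxy]
      have e1 : (b' - zZ G (-a) • y') ᵥ* W.d = x := by
        rw [Matrix.sub_vecMul, Matrix.smul_vecMul, hy'd, smul_zero, sub_zero, h5]
      have e2 : zZ G a • (b' - zZ G (-a) • y' - (b' - zZ G (-a) • y') ᵥ* (p * s))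
          = y' ᵥ* p ᵥ* s - y := by
        have e3 : b' - zZ G (-a) • y' - (b' - zZ G (-a) • y') ᵥ* (p * s)
            = (b' - b' ᵥ* (p * s)) - zZ G (-a) • (y' - y' ᵥ* (p * s)) := by
          rw [Matrix.sub_vecMul, Matrix.smul_vecMul, smul_sub]
          abel
        have e4 : zZ G a • (b' - b' ᵥ* (p * s)) = y' - y := by
          rw [← hy', add_sub_cancel_left]
        rw [e3, smul_sub, hzz', e4, Matrix.vecMul_vecMul]
        abel
      rw [e1, e2]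
      funext k
      rcases k with k | k
      · exact (zero_sub _).symm
      · rfl

end

/-- Module N1. -/
theorem stN1 (hCC : StCC) (hClr : StClr) (hResc : StResc) (hCube : StCube) : StN1 := by
  intro Γ _ D _ P _ _ _ G _ π V I M hM hMc
  obtain ⟨M₀, hM₀, iso⟩ := hResc Γ D P G π V M hM
  have hM₀c : ∀ i ∈ I, Contr (pZ π) (V.erase i) (M₀.map (loc G)) := fun i hi =>
    Iso.nul HI.one (iso.mono (Finset.erase_subset _ _)).symm (hMc i hi)
  obtain ⟨W, p, s, hW, hp, hs, hsp, hWc⟩ := hCube Γ D P G π V I M₀ hM₀ hM₀c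
  have hpL : Ch (pZ π) V (W.map (loc G)) (M₀.map (loc G)) (p.map (loc G)) :=
    hp.map (pZ_hLoc π)
  have hps : Ch (pZ π) V (W.map (loc G)) (W.map (loc G)) (p.map (loc G) * s) := hpL.mul hs
  have h1ps : Ch (pZ π) V (W.map (loc G)) (W.map (loc G)) (1 - p.map (loc G) * s) :=
    Ch.one.sub hps
  obtain ⟨a, g, hg, hgz⟩ := (hClr Γ D P G π V W.toOb W.toOb 0).1 _ h1ps.1
  have hgch : Ch (pN π) V W W g := by
    refine ⟨hg, ?_⟩
    apply Matrix.map_injective loc_injective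
    change (W.d * g).map (loc G) = (g * W.d).map (loc G)
    rw [map_mul', map_mul', hgz, n1_mul_z, Matrix.smul_mul]
    exact congrArg (fun f => zZ G a • f) h1ps.2
  have hcm : (cone W W g).map (loc G) = cone (W.map (loc G)) (W.map (loc G))
      (zZ G a • (1 - p.map (loc G) * s)) := by
    rw [cone_map, hgz]
  have core := n1_core (a : ℤ) hpL hs hsp
  rw [← hcm] at core
  obtain ⟨κ₀, hκ₀, hinj, hsur⟩ := core
  have iso' := iso
  obtain ⟨u, v, hu, hv, h1, h2⟩ := iso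
  refine ⟨cone W W g, v * κ₀, hW.cone hW hgch, fun i hi => ?_, hv.mul hκ₀, ?_, ?_⟩
  · exact n1_contr_cone hCC (hgch.mono (Finset.erase_subset _ _)) (hWc i hi) (hWc i hi)
  · intro q B x hx hxκ
    rw [← Matrix.vecMul_vecMul] at hxκ
    have h3 := hinj q B _ (hv.mem_ZC hx) hxκ
    have h4 : x ᵥ* (v * u) ∈ BC (pZ π) V M q B := by
      rw [← Matrix.vecMul_vecMul]
      exact hu.mem_BC h3
    have h5 := AddSubgroup.sub_mem _ h4 (n1_nul_sub h2 hx)
    rwa [sub_sub_cancel] at h5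
  · intro a' ha' q hq B c hc
    have h3 : Exa (pZ π) V (M₀.map (loc G)) (q - 1) := n1_exa iso' (ha' (q - 1) (by omega))
    obtain ⟨w, hw, hwc⟩ := hsur q h3 B c hc
    refine ⟨w ᵥ* u, hu.mem_ZC hw, ?_⟩
    have h4 : w ᵥ* (u * v) - w ∈ BC (pZ π) V (M₀.map (loc G)) q B := n1_nul_sub h1 hw
    have h5 := AddSubgroup.add_mem _ (hκ₀.mem_BC h4) hwc
    rw [Matrix.sub_vecMul, ← Matrix.vecMul_vecMul, Matrix.vecMul_vecMul (w ᵥ* u)] at h5
    have h6 : (w ᵥ* u) ᵥ* (v * κ₀) - w ᵥ* κ₀ + (w ᵥ* κ₀ - c) = (w ᵥ* u) ᵥ* (v * κ₀) - c := by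
      abel
    rwa [h6] at h5

end Pool.Agent.Lib.MP_551055_al.MT
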