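import Mathlib
import Pool.Agent.Lib.MP_551055_al.Trim.MT.Defs
import Pool.Agent.Lib.MP_551055_al.Trim.MT.StA

/-!
# Many trees: nested sizes in one direction (module Nest)
-/

set_option autoImplicit false

namespace Pool.Agent.Lib.MP_551055_al
end Pool.Agent.Lib.MP_551055_al

namespace Pool.Agent.Lib.MP_551055_al.MT.Nestaux
end Pool.Agent.Lib.MP_551055_al.MT.Nestaux

namespace Pool.Agent.Lib.MP_551055_al.MT

open Pool.Agent.Lib.MP_551055_al

open Matrix

namespace Nestaux

/-- Finite sets of sizes have upper bounds. -/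
theorem ub {Γ : Type} [Group Γ] {D : Type} {P : D → Type} [∀ i, PartialOrder (P i)]
    [∀ i, MulAction Γ (P i)] [SzAct Γ P] (j : D) {S : Set (P j)} (hS : S.Finite) :
    ∃ c : P j, ∀ a ∈ S, a ≤ c := by
  classical
  induction S, hS using Set.Finite.induction_on with
  | empty =>
    obtain ⟨c⟩ := SzAct.ne (Γ := Γ) (P := P) j
    exact ⟨c, fun a ha => absurd ha (Set.notMem_empty a)⟩
  | insert _ _ ih =>
    rename_i b S _ _
    obtain ⟨c, hc⟩ := ih
    obtain ⟨c', h1, h2⟩ := SzAct.dir (Γ := Γ) (P := P) j b c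
    refine ⟨c', fun a ha => ?_⟩
    rcases Set.mem_insert_iff.1 ha with h | h
    · rw [h]; exact h1
    · exact (hc a h).trans h2

/-- The demands on the size of `k`. -/
theorem demand_finite {Γ : Type} [Group Γ] {P : Type} [PartialOrder P] [MulAction Γ P]
    {N : Type} [Monoid N] (π : N →* Γ) {κ : Type} [Fintype κ] (d : Matrix κ κ (ZM N)) (k : κ)
    (A : κ → P) : {a : P | ∃ l m, (d l k).coeff m ≠ 0 ∧ a = (π m)⁻¹ • A l}.Finite := by
  classical
  have h : {a : P | ∃ l m, (d l k).coeff m ≠ 0 ∧ a = (π m)⁻¹ • A l} ⊆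
      ⋃ l : κ, (fun m => (π m)⁻¹ • A l) '' ((d l k).coeff.support : Set N) := by
    rintro a ⟨l, m, hm, rfl⟩
    exact Set.mem_iUnion.2 ⟨l, ⟨m, Finset.mem_coe.2 (Finsupp.mem_support_iff.2 hm), rfl⟩⟩
  exact (Set.finite_iUnion fun l => (Finset.finite_toSet _).image _).subset h

end Nestaux

open Nestaux

theorem stNest : StNest := by
  classical
  intro Γ _ D P _ _ _ N _ π κ _ deg d hd j F hF
  obtain ⟨top, htop⟩ : ∃ top : ℤ, ∀ k, deg k ≤ top := by
    obtain ⟨t, ht⟩ := (Set.finite_range deg).bddAbove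
    exact ⟨t, fun k => ht ⟨k, rfl⟩⟩
  have key : ∀ n : ℕ, ∃ A : κ → P j, (∀ l, ∀ a ∈ F l, a ≤ A l) ∧
      ∀ l k m, (d l k).coeff m ≠ 0 → (top - deg k).toNat ≤ n → A l ≤ π m • A k := by
    intro n
    induction n with
    | zero =>
      choose A hA using fun l => ub (Γ := Γ) j (hF l)
      refine ⟨A, hA, fun l k m hm hk => ?_⟩
      have h1 := hd l k m hm
      have h2 := htop l
      have h3 : (top - deg k).toNat = 0 := Nat.le_zero.1 hk
      omega
    | succ n ih =>
      obtain ⟨A, hA, hA2⟩ := ih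
      have hfin : ∀ k, (F k ∪ {a | ∃ l m, (d l k).coeff m ≠ 0 ∧ a = (π m)⁻¹ • A l}).Finite :=
        fun k => (hF k).union (demand_finite π d k A)
      choose B hB using fun k => ub (Γ := Γ) j (hfin k)
      refine ⟨fun k => if (top - deg k).toNat = n + 1 then B k else A k, fun l a ha => ?_,
        fun l k m hm hk => ?_⟩
      · by_cases h : (top - deg l).toNat = n + 1
        · simp only [h, if_true]
          exact hB l a (Or.inl ha)
        · simp only [h, if_false]
          exact hA l a ha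
      · have h1 := hd l k m hm
        have h2 := htop l
        have h3 : ¬ (top - deg l).toNat = n + 1 := by omega
        by_cases h : (top - deg k).toNat = n + 1
        · simp only [h, h3, if_true, if_false]
          have h4 := hB k _ (Or.inr ⟨l, m, hm, rfl⟩)
          have h5 := SzAct.mono (Γ := Γ) (P := P) j (π m) _ _ h4
          rwa [smul_inv_smul] at h5
        · simp only [h, h3, if_false]
          exact hA2 l k m hm (by omega)
  have hmax : ∃ n : ℕ, ∀ k, (top - deg k).toNat ≤ n := by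
    obtain ⟨t, ht⟩ := (Set.finite_range fun k => (top - deg k).toNat).bddAbove
    exact ⟨t, fun k => ht ⟨k, rfl⟩⟩
  obtain ⟨n, hn⟩ := hmax
  obtain ⟨A, h1, h2⟩ := key n
  exact ⟨A, h1, fun l k m hm => h2 l k m hm (hn k)⟩

end Pool.Agent.Lib.MP_551055_al.MT
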