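import Mathlib
import Pool.Agent.Lib.MP_551055_al.Trim.MT.Base
import Pool.Agent.Lib.MP_551055_al.Trim.MT.Defs
import Pool.Agent.Lib.MP_551055_al.Trim.MT.Gen
import Pool.Agent.Lib.MP_551055_al.Trim.MT.StA
import Pool.Agent.Lib.MP_551055_al.Trim.MT.StB
import Pool.Agent.Lib.MP_551055_al.Trim.MT.Tg

/-!
# Many trees: module QI (maps which are isomorphisms in homology are homotopy equivalences)
-/

set_option autoImplicit false

namespace Pool.Agent.Lib.MP_551055_al
end Pool.Agent.Lib.MP_551055_al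

namespace Pool.Agent.Lib.MP_551055_al.MT

open Pool.Agent.Lib.MP_551055_al

open Matrix

section

variable {Γ : Type} [Group Γ] {D : Type} {P : D → Type} [∀ i, PartialOrder (P i)]
  [∀ i, MulAction Γ (P i)] [SzAct Γ P] {N : Type} [Monoid N] {π : N →* Γ} {U : Finset D}

omit [∀ i, PartialOrder (P i)] in
theorem qi_lin {K : Co P N} (x : K.ι → ZM N) : lin (N := N) (V := K.ι → ZM N)
    (fun l => Pi.single l (1 : ZM N)) x = x :=
  (lin_ext (LinearMap.id : (K.ι → ZM N) →ₗ[ZM N] (K.ι → ZM N)) x).symm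

omit [∀ i, PartialOrder (P i)] in
theorem qi_aux {K : Co P N} (s : Matrix K.ι K.ι (ZM N))
    (h : ∀ x : K.ι → ZM N, (lin (N := N) (V := K.ι → ZM N) s x) ᵥ* K.d =
      lin (N := N) (V := K.ι → ZM N) (fun l => Pi.single l (1 : ZM N)) x +
        (-1 : ℤ) • lin (N := N) (V := K.ι → ZM N) s (x ᵥ* K.d)) :
    1 = K.d * s + s * K.d := by
  refine Matrix.ext fun l => congrFun ?_
  have h1 := h (Pi.single l 1)
  rw [qi_lin, lin_matrix, lin_matrix, neg_smul, one_smul, Matrix.vecMul_vecMul,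
    Matrix.vecMul_vecMul] at h1
  have h2 : ∀ M : Matrix K.ι K.ι (ZM N), (Pi.single l (1 : ZM N)) ᵥ* M = M l := fun M =>
    Matrix.single_one_vecMul l M
  rw [h2, h2] at h1
  have h3 := h2 1
  rw [Matrix.vecMul_one] at h3
  refine h3.symm.trans ?_
  change Pi.single l (1 : ZM N) = (K.d * s) l + (s * K.d) l
  rw [h1]
  abel

/-- An exact complex is contractible. -/
theorem qi_contr (h : StSolve) {K : Co P N} (hK : IsCx π U K) (hE : ∀ q, Exa π U K q) :
    Contr π U K := by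
  obtain ⟨s, hs1, hs2⟩ := h Γ D P N π U K (Tg.ofCo K hK) hK (-1) 1
    (fun l => (Pi.single l (1 : ZM N) : K.ι → ZM N))
    (fun l => by
      have h1 := basis_mem_fam (π := π) (U := U) (X := K.toOb) l
      change _ ∈ MT.fam π U K.toOb (K.sz l) (K.deg l + 1 - 1)
      rwa [add_sub_cancel_right])
    (fun x => by
      change (lin (N := N) (V := K.ι → ZM N) (fun l => Pi.single l (1 : ZM N)) x) ᵥ* K.d =
        -((-1 : ℤ) • lin (N := N) (V := K.ι → ZM N) (fun l => Pi.single l (1 : ZM N)) (x ᵥ* K.d))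
      rw [qi_lin, qi_lin, neg_smul, one_smul, neg_neg])
    (fun l => hE _ _)
  exact ⟨s, hs1, qi_aux s hs2⟩

end

/-- Module QI. -/
theorem stQI (hCC : StCC) (h : StSolve) (hC : StConeH) : StQI := by
  intro Γ _ D P _ _ _ N _ π U Q K hQ hK
  refine ⟨fun g hg hinj hsur => ?_, qi_contr h hK⟩
  have h1 : Contr π U (cone Q K g) := qi_contr h (hQ.cone hK hg) fun q =>
    hC Γ D P N π U Q K g hQ hK hg q (hinj (q - 1)) (hsur q)
  obtain ⟨g', hg', h2, h3⟩ := (hCC Γ D P N π U Q K g hg).2 h1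
  exact ⟨g, g', hg, hg', h2, h3⟩

end Pool.Agent.Lib.MP_551055_al.MT
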