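import Mathlib
import Pool.Agent.Lib.MP_551055_al.Trim.LS.Final
import Pool.Agent.Lib.MP_551055_al.Trim.LS.Main
import Pool.Agent.Lib.MP_551055_al.Trim.LS.PFree
import Pool.Agent.Lib.MP_551055_al.Trim.LS.PStmts
import Pool.Agent.Lib.MP_551055_al.Trim.LS.PStmts2
import Pool.Agent.Lib.MP_551055_al.Trim.LS.Stmts
import Pool.Agent.Lib.MP_551055_al.Trim.MT.Defs
import Pool.Agent.Lib.MP_551055_al.Trim.MT.StA
import Pool.Agent.Lib.MP_551055_al.Trim.MT.StC
import Pool.Agent.Lib.MP_551055_al.Trim.OneRelation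
import Pool.Agent.Lib.MP_551055_al.Trim.VNDefs

/-!
# Module R1: regular noetherian rings all of whose projectives are stably free
-/

set_option autoImplicit false

namespace Pool.Agent.Lib.MP_551055_al
end Pool.Agent.Lib.MP_551055_al

namespace Pool.Agent.Lib.MP_551055_al.LS
end Pool.Agent.Lib.MP_551055_al.LS

namespace Pool.Agent.Lib.MP_551055_al.MT

open Pool.Agent.Lib.MP_551055_al

open Pool.Agent.Lib.MP_551055_al.LS (ZN PolyZ FFF FFR RegNoeth piSemi kerSemi trSemi)

/-- If projectives are stably free, then finite projective resolutions give finite free ones. -/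
theorem r1_up {R : Type} [Ring R]
    (hP : ∀ (Q : Type) [AddCommGroup Q] [Module R Q], Module.Finite R Q → Module.Projective R Q →
      StFree R Q) (d : ℕ) :
    ∀ (M : Type) [AddCommGroup M] [Module R M], FFR R d M → FFF R (d + 1) M := by
  induction d with
  | zero =>
    intro M _ _ h
    exact (LS.stPFreeProj R M).2 (hP M h.1 h.2)
  | succ d ih =>
    intro M _ _ h
    obtain ⟨n, f, hf, hk⟩ := h
    exact ⟨n, f, hf, ih _ hk⟩

section Semi

variable {R R' : Type} [Ring R] [Ring R'] {σ : R →+* R'} {σ' : R' →+* R}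
  [RingHomInvPair σ σ'] [RingHomInvPair σ' σ]

/-- Transport of finite free resolutions along semilinear equivalences. -/
theorem r1_semi (d : ℕ) : ∀ {M M' : Type} [AddCommGroup M] [AddCommGroup M'] [Module R M]
    [Module R' M'] (_ : M ≃ₛₗ[σ] M'), FFF R d M → FFF R' d M' := by
  induction d with
  | zero =>
    intro M M' _ _ _ _ E h
    obtain ⟨n, ⟨e⟩⟩ := h
    have En : (Fin n → R) ≃ₛₗ[σ] (Fin n → R') := piSemi n
    exact ⟨n, ⟨E.symm.trans (e.trans En)⟩⟩
  | succ d ih =>
    intro M M' _ _ _ _ E h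
    obtain ⟨n, f, hf, hk⟩ := h
    let En : (Fin n → R) ≃ₛₗ[σ] (Fin n → R') := piSemi n
    refine ⟨n, trSemi En E f, ?_, ?_⟩
    · intro y
      obtain ⟨x, hx⟩ := hf (E.symm y)
      refine ⟨En x, ?_⟩
      change E (f (En.symm (En x))) = y
      rw [LinearEquiv.symm_apply_apply, hx, LinearEquiv.apply_symm_apply]
    · refine ih (kerSemi En f (trSemi En E f) fun y => ?_) hk
      change f y = 0 ↔ E (f (En.symm (En y))) = 0
      rw [LinearEquiv.symm_apply_apply]
      exact (map_eq_zero_iff E E.injective).symm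

end Semi

/-- Transport of the property `RC`. -/
theorem r1_rcSemi {R R' : Type} [Ring R] [Ring R'] (σ : R →+* R') (σ' : R' →+* R)
    [RingHomInvPair σ σ'] [RingHomInvPair σ' σ] (h : RC R) : RC R' := by
  intro n m f'
  let E : (Fin n → R') ≃ₛₗ[σ'] (Fin n → R) := piSemi n
  let E' : (Fin m → R') ≃ₛₗ[σ'] (Fin m → R) := piSemi m
  obtain ⟨d, hd⟩ := h n m (trSemi E E' f')
  have K : LinearMap.ker f' ≃ₛₗ[σ'] LinearMap.ker (trSemi E E' f') :=
    kerSemi E f' (trSemi E E' f') fun y => by
      change f' y = 0 ↔ E' (f' (E.symm (E y))) = 0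
      rw [LinearEquiv.symm_apply_apply]
      exact (map_eq_zero_iff E' E'.injective).symm
  exact ⟨d, r1_semi d K.symm hd⟩

/-- Transport of `FFFN` along ring isomorphisms. -/
theorem r1_congr {R R' : Type} [Ring R] [Ring R'] (e : R ≃+* R') (h : FFFN R) : FFFN R' := by
  refine ⟨?_, ?_⟩
  · have := h.1
    exact isNoetherianRing_of_ringEquiv R e
  · intro M _ inst hM
    let _ : Module R M := Module.compHom M (e : R →+* R')
    have : RingHomInvPair (e : R →+* R') (e.symm : R' →+* R) := RingHomInvPair.of_ringEquiv e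
    have : RingHomInvPair (e.symm : R' →+* R) (e : R →+* R') := RingHomInvPair.symm _ _
    let E : M ≃ₛₗ[(e : R →+* R')] M :=
      { toFun := fun y => y
        map_add' := fun _ _ => rfl
        map_smul' := fun _ _ => rfl
        invFun := fun y => y
        left_inv := fun _ => rfl
        right_inv := fun _ => rfl }
    have hfin : Module.Finite R M :=
      Module.Finite.of_surjective (σ := (e.symm : R' →+* R)) E.symm.toLinearMap E.symm.surjective
    obtain ⟨d, hd⟩ := h.2 M hfin
    exact ⟨d, r1_semi d E hd⟩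

/-- Module R1. -/
theorem stR1 : StR1 := by
  refine ⟨?_, ?_, ?_, ?_, ?_⟩
  · intro R _ hR hP
    refine ⟨hR.1, fun M _ _ hM => ?_⟩
    obtain ⟨d, hd⟩ := hR.2 M hM
    exact ⟨d + 1, r1_up hP d M hd⟩
  · intro R R' _ _ e h
    exact r1_congr e h
  · intro H _ hH m
    have h1 : RegNoeth (ZM (H × ZN m)) := LS.lsPFin H hH m
    have h2 : VN.ProjStFree (H × ZN m) := LS.lsPPoly H hH m
    refine ⟨h1.1, fun M _ _ hM => ?_⟩
    obtain ⟨d, hd⟩ := h1.2 M hM
    exact ⟨d + 1, r1_up h2 d M hd⟩
  · intro R R' _ _ e h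
    have : RingHomInvPair (e : R →+* R') (e.symm : R' →+* R) := RingHomInvPair.of_ringEquiv e
    have : RingHomInvPair (e.symm : R' →+* R) (e : R →+* R') := RingHomInvPair.symm _ _
    exact r1_rcSemi (e : R →+* R') (e.symm : R' →+* R) h
  · intro R _ h n m f
    have := h.1
    exact h.2 (LinearMap.ker f) inferInstance

end Pool.Agent.Lib.MP_551055_al.MT
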