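import Mathlib
import Pool.Agent.Lib.MP_551055_al.Trim.LS.PFree
import Pool.Agent.Lib.MP_551055_al.Trim.LS.PStmts2
import Pool.Agent.Lib.MP_551055_al.Trim.LS.Stmts
import Pool.Agent.Lib.MP_551055_al.Trim.MT.StC

/-!
# Many trees: Hilbert's syzygy theorem for polynomial rings over arbitrary rings
-/

set_option autoImplicit false

namespace Pool.Agent.Lib.MP_551055_al
end Pool.Agent.Lib.MP_551055_al

namespace Polynomial
end Polynomial

namespace Pool.Agent.Lib.MP_551055_al.MT

open Pool.Agent.Lib.MP_551055_al

open Polynomial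

namespace Syz

section

variable {R : Type} [Ring R] {n a : ℕ}

/-- Evaluation `w ↦ ∑ w_b X ^ b`. -/
noncomputable def ev (a : ℕ) : (Fin n × Fin a → R[X]) →ₗ[R[X]] (Fin n → R[X]) where
  toFun w := fun i => ∑ b : Fin a, w (i, b) * X ^ (b : ℕ)
  map_add' v w := by
    funext i
    rw [Pi.add_apply, ← Finset.sum_add_distrib]
    exact Finset.sum_congr rfl fun b _ => by rw [Pi.add_apply, add_mul]
  map_smul' p w := by
    funext i
    rw [RingHom.id_apply, Pi.smul_apply, Finset.smul_sum]
    exact Finset.sum_congr rfl fun b _ => by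
      rw [Pi.smul_apply, smul_eq_mul, smul_eq_mul, mul_assoc]

theorem ev_apply (w : Fin n × Fin a → R[X]) (i : Fin n) :
    ev a w i = ∑ b : Fin a, w (i, b) * X ^ (b : ℕ) := rfl

theorem coeff_ev (w : Fin n × Fin a → R[X]) (i : Fin n) (k : ℕ) :
    (ev a w i).coeff k = ∑ b : Fin a, if (b : ℕ) ≤ k then (w (i, b)).coeff (k - b) else 0 := by
  rw [ev_apply, finset_sum_coeff]
  exact Finset.sum_congr rfl fun b _ => coeff_mul_X_pow' _ _ _

/-- The vectors of polynomials of degree less than `a` in `K`. -/
noncomputable def YY (K : Submodule R[X] (Fin n → R[X])) (a : ℕ) :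
    Submodule R (Fin n × Fin a → R) where
  carrier := {v | ev a (fun p => C (v p)) ∈ K}
  zero_mem' := by
    have h : ev a (fun p : Fin n × Fin a => C ((0 : Fin n × Fin a → R) p)) = 0 := by
      have h1 : (fun p : Fin n × Fin a => C ((0 : Fin n × Fin a → R) p)) = 0 := by
        funext p
        exact C_0
      rw [h1, map_zero]
    change ev a (fun p : Fin n × Fin a => C ((0 : Fin n × Fin a → R) p)) ∈ K
    rw [h]
    exact K.zero_mem
  add_mem' {v w} hv hw := by
    change ev a (fun p => C ((v + w) p)) ∈ K
    have h1 : (fun p => C ((v + w) p)) = (fun p => C (v p)) + fun p => C (w p) := by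
      funext p
      exact C_add
    rw [h1, map_add]
    exact K.add_mem hv hw
  smul_mem' r v hv := by
    change ev a (fun p => C ((r • v) p)) ∈ K
    have h1 : (fun p => C ((r • v) p)) = C r • fun p => C (v p) := by
      funext p
      exact C_mul
    rw [h1, map_smul]
    exact K.smul_mem _ hv

theorem mem_YY {K : Submodule R[X] (Fin n → R[X])} {v : Fin n × Fin a → R} :
    v ∈ YY K a ↔ ev a (fun p => C (v p)) ∈ K := Iff.rfl

/-- Add a zero at the end. -/
def sn {A : Type} [Zero A] (w : Fin n × Fin a → A) : Fin n × Fin (a + 1) → A :=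
  fun p => Fin.snoc (α := fun _ => A) (fun b => w (p.1, b)) 0 p.2

/-- Add a zero at the beginning. -/
def co {A : Type} [Zero A] (w : Fin n × Fin a → A) : Fin n × Fin (a + 1) → A :=
  fun p => Fin.cons (α := fun _ => A) 0 (fun b => w (p.1, b)) p.2

theorem sn_castSucc {A : Type} [Zero A] (w : Fin n × Fin a → A) (i : Fin n) (b : Fin a) :
    sn w (i, b.castSucc) = w (i, b) := Fin.snoc_castSucc (α := fun _ => A) _ _ _

theorem sn_last {A : Type} [Zero A] (w : Fin n × Fin a → A) (i : Fin n) :
    sn w (i, Fin.last a) = 0 := Fin.snoc_last (α := fun _ => A) _ _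

theorem co_succ {A : Type} [Zero A] (w : Fin n × Fin a → A) (i : Fin n) (b : Fin a) :
    co w (i, b.succ) = w (i, b) := rfl

theorem co_zero {A : Type} [Zero A] (w : Fin n × Fin a → A) (i : Fin n) :
    co w (i, 0) = 0 := rfl

theorem sn_map {A B : Type} [Zero A] [Zero B] (f : A → B) (hf : f 0 = 0)
    (w : Fin n × Fin a → A) : (fun p => f (sn w p)) = sn fun p => f (w p) := by
  funext ⟨i, b⟩
  induction b using Fin.lastCases with
  | last => rw [sn_last, sn_last, hf]
  | cast b => rw [sn_castSucc, sn_castSucc]

theorem co_map {A B : Type} [Zero A] [Zero B] (f : A → B) (hf : f 0 = 0)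
    (w : Fin n × Fin a → A) : (fun p => f (co w p)) = co fun p => f (w p) := by
  funext ⟨i, b⟩
  induction b using Fin.cases with
  | zero => exact hf
  | succ b => rfl

theorem ev_sn (w : Fin n × Fin a → R[X]) : ev (a + 1) (sn w) = ev a w := by
  funext i
  rw [ev_apply, ev_apply, Fin.sum_univ_castSucc, sn_last, zero_mul, add_zero]
  exact Finset.sum_congr rfl fun b _ => by rw [sn_castSucc, Fin.val_castSucc]

theorem ev_co (w : Fin n × Fin a → R[X]) : ev (a + 1) (co w) = (X : R[X]) • ev a w := by
  funext i
  rw [Pi.smul_apply, ev_apply, ev_apply, Fin.sum_univ_succ, co_zero, zero_mul, zero_add,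
    smul_eq_mul, X_mul, Finset.sum_mul]
  exact Finset.sum_congr rfl fun b _ => by rw [co_succ, Fin.val_succ, pow_succ, mul_assoc]

/-- The first map. -/
noncomputable def ii (a : ℕ) :
    (Fin n × Fin a → R[X]) →ₗ[R[X]] (Fin n × Fin (a + 1) → R[X]) where
  toFun w := fun p => sn w p * X - co w p
  map_add' v w := by
    funext ⟨i, b⟩
    have h1 : sn (v + w) (i, b) = sn v (i, b) + sn w (i, b) := by
      induction b using Fin.lastCases with
      | last => rw [sn_last, sn_last, sn_last, add_zero]
      | cast b => rw [sn_castSucc, sn_castSucc, sn_castSucc, Pi.add_apply]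
    have h2 : co (v + w) (i, b) = co v (i, b) + co w (i, b) := by
      induction b using Fin.cases with
      | zero => exact (add_zero _).symm
      | succ b => rfl
    rw [Pi.add_apply, h1, h2, add_mul]
    abel
  map_smul' q w := by
    funext ⟨i, b⟩
    have h1 : sn (q • w) (i, b) = q * sn w (i, b) := by
      induction b using Fin.lastCases with
      | last => rw [sn_last, sn_last, mul_zero]
      | cast b => rw [sn_castSucc, sn_castSucc, Pi.smul_apply, smul_eq_mul]
    have h2 : co (q • w) (i, b) = q * co w (i, b) := by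
      induction b using Fin.cases with
      | zero => exact (mul_zero _).symm
      | succ b => rfl
    rw [RingHom.id_apply, Pi.smul_apply, h1, h2, smul_eq_mul, mul_sub, mul_assoc]

theorem ii_apply (w : Fin n × Fin a → R[X]) (p : Fin n × Fin (a + 1)) :
    ii a w p = sn w p * X - co w p := rfl

theorem ev_ii (w : Fin n × Fin a → R[X]) : ev (a + 1) (ii a w) = 0 := by
  have h1 : ii a w = (X : R[X]) • sn w - co w := by
    funext p
    rw [ii_apply, Pi.sub_apply, Pi.smul_apply, smul_eq_mul, X_mul]
  rw [h1, map_sub, map_smul, ev_sn, ev_co, sub_self]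

theorem eq_zero_of_mul_X {p : R[X]} (h : p * X = 0) : p = 0 := by
  ext k
  have h1 := congrArg (fun q : R[X] => q.coeff (k + 1)) h
  simpa [coeff_mul_X] using h1

theorem ii_injective : Function.Injective (ii (R := R) (n := n) a) := by
  rw [← LinearMap.ker_eq_bot, LinearMap.ker_eq_bot']
  intro w hw
  have h1 : ∀ (k : ℕ) (i : Fin n) (hk : k < a), w (i, ⟨k, hk⟩) = 0 := by
    intro k
    induction k with
    | zero =>
      intro i hk
      have h2 := congrFun hw (i, (⟨0, hk⟩ : Fin a).castSucc)
      rw [ii_apply, sn_castSucc] at h2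
      have h3 : co w (i, (⟨0, hk⟩ : Fin a).castSucc) = 0 := rfl
      rw [h3, sub_zero] at h2
      exact eq_zero_of_mul_X h2
    | succ k ih =>
      intro i hk
      have h2 := congrFun hw (i, (⟨k + 1, hk⟩ : Fin a).castSucc)
      rw [ii_apply, sn_castSucc] at h2
      have h3 : co w (i, (⟨k + 1, hk⟩ : Fin a).castSucc) = w (i, ⟨k, by omega⟩) := rfl
      rw [h3, ih i (by omega), sub_zero] at h2
      exact eq_zero_of_mul_X h2
  funext ⟨i, b⟩
  exact h1 b.1 i b.2

/-! ## Coefficients -/

theorem ev_cw (w : Fin n × Fin a → R[X]) (A : ℕ) (hA : ∀ p e, A ≤ e → (w p).coeff e = 0) :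
    ev a w = ∑ e ∈ Finset.range A, (X ^ e : R[X]) • ev a (fun p => C ((w p).coeff e)) := by
  have h1 : w = ∑ e ∈ Finset.range A, (X ^ e : R[X]) • fun p => C ((w p).coeff e) := by
    funext p
    rw [Finset.sum_apply]
    ext k
    rw [finset_sum_coeff]
    have h2 : ∀ e, (((X ^ e : R[X]) • fun p => C ((w p).coeff e)) p).coeff k
        = if k = e then (w p).coeff e else 0 := by
      intro e
      rw [Pi.smul_apply, smul_eq_mul, X_pow_mul, coeff_C_mul_X_pow]
    rw [Finset.sum_congr rfl fun e _ => h2 e, Finset.sum_ite_eq]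
    by_cases hk : k < A
    · rw [if_pos (Finset.mem_range.2 hk)]
    · rw [if_neg fun h => hk (Finset.mem_range.1 h), hA p k (not_lt.1 hk)]
  conv_lhs => rw [h1]
  rw [map_sum]
  exact Finset.sum_congr rfl fun e _ => map_smul _ _ _

theorem exists_bound {ι : Type} [Finite ι] (w : ι → R[X]) :
    ∃ A : ℕ, ∀ p e, A ≤ e → (w p).coeff e = 0 := by
  cases nonempty_fintype ι
  refine ⟨Finset.univ.sup (fun p => (w p).natDegree) + 1, fun p e he => ?_⟩
  refine coeff_eq_zero_of_natDegree_lt ?_
  have h1 : (w p).natDegree ≤ Finset.univ.sup (fun p => (w p).natDegree) :=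
    Finset.le_sup (f := fun p => (w p).natDegree) (Finset.mem_univ p)
  omega

variable {K : Submodule R[X] (Fin n → R[X])}

theorem ev_mem {w : Fin n × Fin a → R[X]} (hw : w ∈ polyMod (YY K a)) : ev a w ∈ K := by
  obtain ⟨A, hA⟩ := exists_bound w
  rw [ev_cw w A hA]
  exact K.sum_mem fun e _ => K.smul_mem _ (hw e)

theorem ii_mem {w : Fin n × Fin a → R[X]} (hw : w ∈ polyMod (YY K a)) :
    ii a w ∈ polyMod (YY K (a + 1)) := by
  intro e
  rw [mem_YY]
  have h1 : (fun p => C ((ii a w p).coeff e)) = (fun p => C ((sn w p * X).coeff e))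
      - co fun p => C ((w p).coeff e) := by
    funext p
    rw [ii_apply, coeff_sub, C_sub, Pi.sub_apply]
    have h2 := congrFun (co_map (fun q : R[X] => C (q.coeff e)) (by simp) w) p
    change C (((co w p)).coeff e) = _ at h2
    rw [h2]
  rw [h1, map_sub, ev_co]
  refine K.sub_mem ?_ (K.smul_mem _ (hw e))
  rcases e with _ | e
  · have h3 : (fun p => C ((sn w p * X).coeff 0)) = 0 := by
      funext p
      rw [mul_coeff_zero, coeff_X_zero, mul_zero, C_0]
      rfl
    rw [h3, map_zero]
    exact K.zero_mem
  · have h3 : (fun p => C ((sn w p * X).coeff (e + 1))) = sn fun p => C ((w p).coeff e) := by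
      rw [← sn_map (fun q : R[X] => C (q.coeff e)) (by simp) w]
      funext p
      rw [coeff_mul_X]
    rw [h3, ev_sn]
    exact hw e

theorem exists_ii (A : ℕ) : ∀ w : Fin n × Fin (a + 1) → R[X], w ∈ polyMod (YY K (a + 1)) →
    (∀ p e, A ≤ e → (w p).coeff e = 0) → ev (a + 1) w = 0 →
    ∃ w' ∈ polyMod (YY K a), ii a w' = w := by
  induction A with
  | zero =>
    intro w _ h0 _
    refine ⟨0, Submodule.zero_mem _, ?_⟩
    rw [map_zero]
    funext p
    ext e
    rw [h0 p e (Nat.zero_le e)]
    rfl
  | succ A ih =>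
    intro w hw h0 hev
    -- the last coefficient
    have h1 : ∀ i, (w (i, Fin.last a)).coeff A = 0 := by
      intro i
      have h2 : (ev (a + 1) w i).coeff (a + A) = 0 := by
        rw [hev]
        exact coeff_zero _
      rw [coeff_ev, Fin.sum_univ_castSucc, Finset.sum_eq_zero, zero_add] at h2
      · rw [if_pos (by rw [Fin.val_last]; omega), Fin.val_last, Nat.add_sub_cancel_left] at h2
        exact h2
      · intro b _
        have hb := b.2
        rw [Fin.val_castSucc, if_pos (by omega)]
        exact h0 _ _ (by omega)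
    let u : Fin n × Fin a → R := fun p => (w (p.1, p.2.castSucc)).coeff A
    have hsn : (sn u : Fin n × Fin (a + 1) → R) = fun p => (w p).coeff A := by
      funext ⟨i, b⟩
      induction b using Fin.lastCases with
      | last => rw [sn_last, h1]
      | cast b => rw [sn_castSucc]
    have hu : ev a (fun p => C (u p)) ∈ K := by
      rw [← ev_sn, ← sn_map (fun r : R => (C r : R[X])) C_0 u, hsn]
      exact hw A
    rcases A with _ | A
    · -- constant vectors
      refine ⟨0, Submodule.zero_mem _, ?_⟩
      rw [map_zero]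
      funext ⟨i, b⟩
      ext e
      rcases e with _ | e
      · have h2 : (ev (a + 1) w i).coeff b = 0 := by
          rw [hev]
          exact coeff_zero _
        rw [coeff_ev, Finset.sum_eq_single b] at h2
        · rw [if_pos le_rfl, Nat.sub_self] at h2
          rw [h2]
          rfl
        · intro b' _ hb'
          by_cases hle : (b' : ℕ) ≤ b
          · rw [if_pos hle]
            refine h0 _ _ ?_
            have h3 : (b' : ℕ) ≠ b := fun h => hb' (Fin.ext h)
            omega
          · rw [if_neg hle]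
        · intro h
          exact absurd (Finset.mem_univ b) h
      · rw [h0 _ _ (by omega)]
        rfl
    · let v : Fin n × Fin a → R[X] := (X ^ A : R[X]) • fun p => C (u p)
      have hvc : ∀ p e, (v p).coeff e = if e = A then u p else 0 := by
        intro p e
        change ((X ^ A : R[X]) * C (u p)).coeff e = _
        rw [X_pow_mul, coeff_C_mul_X_pow]
      have hv : v ∈ polyMod (YY K a) := by
        intro e
        rw [mem_YY]
        by_cases he : e = A
        · have h2 : (fun p => C ((v p).coeff e)) = fun p => C (u p) := by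
            funext p
            rw [hvc, if_pos he]
          rw [h2]
          exact hu
        · have h2 : (fun p => C ((v p).coeff e)) = 0 := by
            funext p
            rw [hvc, if_neg he, C_0]
            rfl
          rw [h2, map_zero]
          exact K.zero_mem
      -- the coefficients of degree at least `A + 1`
      have h10 : ∀ p e, A + 1 ≤ e → ((w - ii a v) p).coeff e = 0 := by
        intro p e he
        obtain ⟨e, rfl⟩ : ∃ e', e = e' + 1 := ⟨e - 1, by omega⟩
        have h4 : (sn v p).coeff e = sn (fun p => (v p).coeff e) p :=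
          congrFun (sn_map (fun q : R[X] => q.coeff e) (coeff_zero e) v) p
        have h5 : (co v p).coeff (e + 1) = co (fun p => (v p).coeff (e + 1)) p :=
          congrFun (co_map (fun q : R[X] => q.coeff (e + 1)) (coeff_zero (e + 1)) v) p
        have h6 : (fun p => (v p).coeff (e + 1)) = 0 := by
          funext p
          rw [hvc, if_neg (by omega)]
          rfl
        have h7 : co (0 : Fin n × Fin a → R) p = 0 := by
          obtain ⟨i, b⟩ := p
          induction b using Fin.cases with
          | zero => rfl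
          | succ b => rfl
        rw [Pi.sub_apply, ii_apply, coeff_sub, coeff_sub, coeff_mul_X, h4, h5, h6, h7, sub_zero]
        by_cases heA : e = A
        · have h8 : (fun p => (v p).coeff e) = u := by
            funext p
            rw [hvc, if_pos heA]
          rw [h8, hsn, heA, sub_self]
        · have h8 : (fun p => (v p).coeff e) = 0 := by
            funext p
            rw [hvc, if_neg heA]
            rfl
          have h9 : sn (0 : Fin n × Fin a → R) p = 0 := by
            obtain ⟨i, b⟩ := p
            induction b using Fin.lastCases with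
            | last => exact sn_last _ _
            | cast b => exact sn_castSucc _ _ _
          rw [h8, h9, sub_zero]
          exact h0 _ _ (by omega)
      obtain ⟨w', hw', h3⟩ := ih (w - ii a v) (Submodule.sub_mem _ hw (ii_mem hv)) h10
        (by rw [map_sub, hev, ev_ii, sub_zero])
      refine ⟨w' + v, Submodule.add_mem _ hw' hv, ?_⟩
      rw [map_add, h3, sub_add_cancel]

/-! ## The short exact sequence -/

theorem surj_ev (hK : K.FG) : ∃ a : ℕ, ∀ x ∈ K, ∃ w ∈ polyMod (YY K (a + 1)), ev (a + 1) w = x := by
  obtain ⟨S, hS⟩ := hK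
  have hb : ∃ a : ℕ, ∀ g ∈ S, ∀ i e, a ≤ e → (g i).coeff e = 0 := by
    classical
    have h1 := fun g : Fin n → R[X] => exists_bound g
    choose A hA using h1
    exact ⟨S.sup A, fun g hg i e he => hA g i e ((Finset.le_sup hg).trans he)⟩
  obtain ⟨a, ha⟩ := hb
  refine ⟨a, fun x hx => ?_⟩
  have h2 : Submodule.span R[X] S ≤ (polyMod (YY K (a + 1))).map (ev (a + 1)) := by
    refine Submodule.span_le.2 fun g hg => ?_
    have hgK : g ∈ K := hS ▸ Submodule.subset_span hg
    let w : Fin n × Fin (a + 1) → R[X] := fun p => C ((g p.1).coeff p.2)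
    have hev : ev (a + 1) w = g := by
      funext i
      ext k
      rw [coeff_ev]
      by_cases hk : k < a + 1
      · rw [Finset.sum_eq_single (⟨k, hk⟩ : Fin (a + 1))]
        · rw [if_pos le_rfl, Nat.sub_self]
          exact coeff_C_zero
        · intro b _ hb
          by_cases hle : (b : ℕ) ≤ k
          · rw [if_pos hle]
            have h3 : (b : ℕ) ≠ k := fun h => hb (Fin.ext h)
            exact coeff_C_of_ne_zero (by omega)
          · rw [if_neg hle]
        · intro h
          exact absurd (Finset.mem_univ _) h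
      · rw [ha g hg i k (by omega)]
        refine Finset.sum_eq_zero fun b _ => ?_
        have hb := b.2
        rw [if_pos (by omega)]
        exact coeff_C_of_ne_zero (by omega)
    refine ⟨w, fun e => ?_, hev⟩
    rw [mem_YY]
    rcases e with _ | e
    · have h3 : (fun p => C ((w p).coeff 0)) = w := by
        funext p
        exact congrArg C coeff_C_zero
      rw [h3, hev]
      exact hgK
    · have h3 : (fun p => C ((w p).coeff (e + 1))) = 0 := by
        funext p
        change C ((C ((g p.1).coeff p.2) : R[X]).coeff (e + 1)) = 0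
        rw [coeff_C_succ, C_0]
      rw [h3, map_zero]
      exact K.zero_mem
  exact h2 (hS.symm ▸ hx)

theorem fff_sub (hb : StR2b) (hR : FFFN R) (hK : K.FG) : ∃ d, LS.FFF R[X] d K := by
  obtain ⟨a, ha⟩ := surj_ev hK
  have hY : ∀ a, ∃ d, LS.FFF R[X] d (polyMod (YY K a)) := by
    intro a
    have := hR.1
    obtain ⟨d, hd⟩ := hR.2 (YY K a) (Module.Finite.of_fg (IsNoetherian.noetherian _))
    exact ⟨d, hb R d _ _ hd⟩
  obtain ⟨d₁, h₁⟩ := hY a
  obtain ⟨d₂, h₂⟩ := hY (a + 1)
  let i : polyMod (YY K a) →ₗ[R[X]] polyMod (YY K (a + 1)) :=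
    (ii a).restrict fun w hw => ii_mem hw
  let q : polyMod (YY K (a + 1)) →ₗ[R[X]] K := (ev (a + 1)).restrict fun w hw => ev_mem hw
  refine ⟨max d₁ d₂ + 1, LS.stPFreeSes R[X] (max d₁ d₂) _ _ _ i q ?_ ?_ ?_
    (h₁.mono (le_max_left _ _)) (h₂.mono (le_max_right _ _))⟩
  · intro v w h
    exact Subtype.ext (ii_injective (congrArg Subtype.val h))
  · rintro ⟨x, hx⟩
    obtain ⟨w, hw, h⟩ := ha x hx
    exact ⟨⟨w, hw⟩, Subtype.ext h⟩
  · ext w
    rw [LinearMap.mem_range, LinearMap.mem_ker]
    constructor
    · rintro ⟨v, rfl⟩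
      exact Subtype.ext (ev_ii v.1)
    · intro h
      obtain ⟨A, hA⟩ := exists_bound w.1
      obtain ⟨w', hw', h'⟩ := exists_ii A w.1 w.2 hA (congrArg Subtype.val h)
      exact ⟨⟨w', hw'⟩, Subtype.ext h'⟩

end

end Syz

theorem stR2 (ha : StR2a) (hb : StR2b) : StR2 := by
  intro R _ hR
  have hN : IsNoetherianRing R[X] := ha R hR.1
  refine ⟨hN, fun M _ _ hM => ?_⟩
  obtain ⟨n, f, hf⟩ := Module.Finite.exists_fin' R[X] M
  obtain ⟨d, hd⟩ := Syz.fff_sub hb hR (K := LinearMap.ker f) (IsNoetherian.noetherian _)
  exact ⟨d + 1, n, f, hf, hd⟩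

end Pool.Agent.Lib.MP_551055_al.MT
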