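import Mathlib
import Pool.Agent.Lib.MP_551055_al.Trim.MT.StC

/-!
# Many trees: Hilbert's basis theorem for polynomial rings over arbitrary rings
-/

set_option autoImplicit false

namespace Polynomial
end Polynomial

namespace Pool.Agent.Lib.MP_551055_al.MT

open Polynomial

section

variable {R : Type} [Ring R]

/-- The coefficients of `X ^ n` of the elements of degree at most `n` of a left ideal. -/
private def lcN (I : Submodule R[X] R[X]) (n : ℕ) : Submodule R R where
  carrier := {r | ∃ f ∈ I, (∀ m, n < m → f.coeff m = 0) ∧ f.coeff n = r}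
  zero_mem' := ⟨0, I.zero_mem, fun _ _ => coeff_zero _, coeff_zero _⟩
  add_mem' := by
    rintro _ _ ⟨f, hf, h1, rfl⟩ ⟨g, hg, h2, rfl⟩
    exact ⟨f + g, I.add_mem hf hg, fun m hm => by rw [coeff_add, h1 m hm, h2 m hm, add_zero],
      coeff_add _ _ _⟩
  smul_mem' := by
    rintro a _ ⟨f, hf, h1, rfl⟩
    exact ⟨C a * f, I.smul_mem (C a) hf, fun m hm => by rw [coeff_C_mul, h1 m hm, mul_zero],
      coeff_C_mul _⟩

private theorem lcN_mono {I J : Submodule R[X] R[X]} (h : I ≤ J) (n : ℕ) : lcN I n ≤ lcN J n := by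
  rintro _ ⟨f, hf, h1, rfl⟩
  exact ⟨f, h hf, h1, rfl⟩

private theorem lcN_succ (I : Submodule R[X] R[X]) (n : ℕ) : lcN I n ≤ lcN I (n + 1) := by
  rintro _ ⟨f, hf, h1, rfl⟩
  refine ⟨X * f, I.smul_mem X hf, fun m hm => ?_, coeff_X_mul _ _⟩
  obtain ⟨k, rfl⟩ : ∃ k, m = k + 1 := ⟨m - 1, by omega⟩
  rw [coeff_X_mul]
  exact h1 k (by omega)

/-- Two left ideals with the same leading coefficients are equal. -/
private theorem lcN_le {I J : Submodule R[X] R[X]} (hJI : J ≤ I) (h : ∀ n, lcN I n ≤ lcN J n) :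
    I ≤ J := by
  have key : ∀ n, ∀ f ∈ I, (∀ m, n ≤ m → f.coeff m = 0) → f ∈ J := by
    intro n
    induction n with
    | zero =>
      intro f _ h0
      have : f = 0 := by
        ext m
        rw [h0 m (Nat.zero_le m), coeff_zero]
      rw [this]
      exact J.zero_mem
    | succ n ih =>
      intro f hf h0
      obtain ⟨g, hg, h1, h2⟩ := h n ⟨f, hf, fun m hm => h0 m hm, rfl⟩
      have h3 : f - g ∈ J := by
        refine ih _ (I.sub_mem hf (hJI hg)) fun m hm => ?_
        rw [coeff_sub]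
        rcases hm.eq_or_lt with rfl | hm
        · rw [h2, sub_self]
        · rw [h0 m hm, h1 m hm, sub_zero]
      have h4 := J.add_mem h3 hg
      rwa [sub_add_cancel] at h4
  intro f hf
  exact key (f.natDegree + 1) f hf fun m hm => coeff_eq_zero_of_natDegree_lt (by omega)

private theorem lcN_fin [IsNoetherianRing R] (I : Submodule R[X] R[X]) (n : ℕ) :
    ∃ F : Set R[X], F.Finite ∧ F ⊆ I ∧ lcN I n ≤ lcN (Submodule.span R[X] F) n := by
  obtain ⟨S, hS⟩ := IsNoetherian.noetherian (lcN I n)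
  have h0 : ∀ r : R, r ∈ lcN I n → ∃ f ∈ I, (∀ m, n < m → f.coeff m = 0) ∧ f.coeff n = r :=
    fun r hr => hr
  choose! g hg1 hg2 hg3 using h0
  refine ⟨g '' S, S.finite_toSet.image g, ?_, ?_⟩
  · rintro _ ⟨s, hs, rfl⟩
    exact hg1 s (hS ▸ Submodule.subset_span hs)
  · rw [← hS, Submodule.span_le]
    intro s hs
    have h1 : s ∈ lcN I n := hS ▸ Submodule.subset_span hs
    exact ⟨g s, Submodule.subset_span ⟨s, hs, rfl⟩, hg2 s h1, hg3 s h1⟩

end

theorem stR2a : StR2a := by
  intro R _ hR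
  rw [isNoetherianRing_iff, isNoetherian_def]
  intro I
  choose F hF1 hF2 hF3 using fun n => lcN_fin I n
  obtain ⟨N, hN⟩ := (monotone_stabilizes_iff_noetherian (R := R) (M := R)).2 hR
    ⟨fun n => lcN I n, monotone_nat_of_le_succ (lcN_succ I)⟩
  have hN' : ∀ m, N ≤ m → lcN I N = lcN I m := hN
  have hfin : (⋃ n ∈ Finset.range (N + 1), F n).Finite :=
    Set.Finite.biUnion (Finset.finite_toSet _) fun n _ => hF1 n
  have hJI : Submodule.span R[X] (⋃ n ∈ Finset.range (N + 1), F n) ≤ I := by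
    rw [Submodule.span_le]
    intro f hf
    obtain ⟨n, -, hn⟩ := Set.mem_iUnion₂.1 hf
    exact hF2 n hn
  have h1 : ∀ n, n ≤ N →
      lcN I n ≤ lcN (Submodule.span R[X] (⋃ n ∈ Finset.range (N + 1), F n)) n := by
    intro n hn
    refine (hF3 n).trans (lcN_mono (Submodule.span_mono ?_) n)
    exact Set.subset_biUnion_of_mem (u := fun n => F n)
      (Finset.mem_coe.2 (Finset.mem_range.2 (Nat.lt_succ_of_le hn)))
  have hmono : Monotone (fun n =>
      lcN (Submodule.span R[X] (⋃ n ∈ Finset.range (N + 1), F n)) n) :=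
    monotone_nat_of_le_succ (lcN_succ _)
  have hIJ : I ≤ Submodule.span R[X] (⋃ n ∈ Finset.range (N + 1), F n) := by
    refine lcN_le hJI fun n => ?_
    rcases le_total n N with hn | hn
    · exact h1 n hn
    · rw [← hN' n hn]
      exact (h1 N le_rfl).trans (hmono hn)
  rw [le_antisymm hIJ hJI]
  exact Submodule.fg_span hfin

end Pool.Agent.Lib.MP_551055_al.MT
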