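import Mathlib
import Pool.Agent.Lib.MP_551055_al.Trim.LS.PFree
import Pool.Agent.Lib.MP_551055_al.Trim.LS.PStmts2
import Pool.Agent.Lib.MP_551055_al.Trim.MT.Defs
import Pool.Agent.Lib.MP_551055_al.Trim.MT.StC

/-!
# Many trees: resolutions of modules of polynomials
-/

set_option autoImplicit false

namespace Pool.Agent.Lib.MP_551055_al
end Pool.Agent.Lib.MP_551055_al

namespace Pool.Agent.Lib.MP_551055_al.MT

open Pool.Agent.Lib.MP_551055_al

section

variable {R : Type} [Ring R] {ι : Type} {n : ℕ} {Y : Submodule R (ι → R)}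

private theorem r2b_sum (g : (Fin n → R) →ₗ[R] Y) (x : Fin n → R) (i : ι) :
    (g x).1 i = ∑ j, x j * (g (Pi.single j 1)).1 i := by
  have h : x = ∑ j, x j • (Pi.single j (1 : R) : Fin n → R) := by
    funext k
    rw [Finset.sum_apply, Finset.sum_eq_single k]
    · rw [Pi.smul_apply, Pi.single_eq_same, smul_eq_mul, mul_one]
    · intro l _ hl
      rw [Pi.smul_apply, Pi.single_eq_of_ne (Ne.symm hl), smul_zero]
    · intro h
      exact absurd (Finset.mem_univ k) h
  conv_lhs => rw [h]
  rw [map_sum, Submodule.coe_sum, Finset.sum_apply]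
  exact Finset.sum_congr rfl fun j _ => by rw [map_smul]; rfl

private theorem r2b_coeff (g : (Fin n → R) →ₗ[R] Y) (v : Fin n → Polynomial R) (i : ι) (a : ℕ) :
    (∑ j, v j * Polynomial.C ((g (Pi.single j 1)).1 i)).coeff a
      = (g fun j => (v j).coeff a).1 i := by
  rw [r2b_sum g, Polynomial.finsetSum_coeff]
  exact Finset.sum_congr rfl fun j _ => Polynomial.coeff_mul_C _ _ _

/-- The map of polynomials given by a linear map. -/
private noncomputable def r2bG (g : (Fin n → R) →ₗ[R] Y) :
    (Fin n → Polynomial R) →ₗ[Polynomial R] polyMod Y where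
  toFun v := ⟨fun i => ∑ j, v j * Polynomial.C ((g (Pi.single j 1)).1 i), fun a => by
    have h1 : (fun i => (∑ j, v j * Polynomial.C ((g (Pi.single j 1)).1 i)).coeff a)
        = (g fun j => (v j).coeff a).1 := funext fun i => r2b_coeff g v i a
    rw [h1]
    exact (g fun j => (v j).coeff a).2⟩
  map_add' v w := by
    apply Subtype.ext
    funext i
    change ∑ j, (v j + w j) * Polynomial.C ((g (Pi.single j 1)).1 i)
      = ∑ j, v j * Polynomial.C ((g (Pi.single j 1)).1 i)
        + ∑ j, w j * Polynomial.C ((g (Pi.single j 1)).1 i)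
    rw [← Finset.sum_add_distrib]
    exact Finset.sum_congr rfl fun j _ => add_mul _ _ _
  map_smul' c v := by
    apply Subtype.ext
    funext i
    change ∑ j, (c * v j) * Polynomial.C ((g (Pi.single j 1)).1 i)
      = c * ∑ j, v j * Polynomial.C ((g (Pi.single j 1)).1 i)
    rw [Finset.mul_sum]
    exact Finset.sum_congr rfl fun j _ => mul_assoc _ _ _

private theorem r2bG_coeff (g : (Fin n → R) →ₗ[R] Y) (v : Fin n → Polynomial R) (i : ι) (a : ℕ) :
    ((r2bG g v).1 i).coeff a = (g fun j => (v j).coeff a).1 i := r2b_coeff g v i a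

private theorem r2bG_ker (g : (Fin n → R) →ₗ[R] Y) :
    LinearMap.ker (r2bG g) = polyMod (LinearMap.ker g) := by
  ext v
  rw [LinearMap.mem_ker]
  constructor
  · intro h a
    rw [LinearMap.mem_ker]
    apply Subtype.ext
    funext i
    rw [← r2bG_coeff, h]
    rfl
  · intro h
    apply Subtype.ext
    funext i
    apply Polynomial.ext
    intro a
    have h1 : g (fun j => (v j).coeff a) = 0 := h a
    rw [r2bG_coeff, h1]
    rfl

private theorem r2bG_surj [Finite ι] (g : (Fin n → R) →ₗ[R] Y) (hg : Function.Surjective g) :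
    Function.Surjective (r2bG g) := by
  rintro ⟨w, hw⟩
  obtain ⟨M, hM⟩ := (Set.finite_range fun i => (w i).natDegree).bddAbove
  have hM' : ∀ i, (w i).natDegree ≤ M := fun i => hM ⟨i, rfl⟩
  choose x hx using fun a : ℕ => hg ⟨fun i => (w i).coeff a, hw a⟩
  refine ⟨fun j => ∑ a ∈ Finset.range (M + 1), Polynomial.monomial a (x a j), ?_⟩
  apply Subtype.ext
  funext i
  apply Polynomial.ext
  intro b
  rw [r2bG_coeff]
  have h1 : ∀ j, (∑ a ∈ Finset.range (M + 1), Polynomial.monomial a (x a j)).coeff b
      = if b < M + 1 then x b j else 0 := by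
    intro j
    rw [Polynomial.finsetSum_coeff]
    split_ifs with hb
    · rw [Finset.sum_eq_single b]
      · rw [Polynomial.coeff_monomial, if_pos rfl]
      · intro a _ ha
        rw [Polynomial.coeff_monomial, if_neg ha]
      · intro h
        exact absurd (Finset.mem_range.2 hb) h
    · refine Finset.sum_eq_zero fun a ha => ?_
      rw [Polynomial.coeff_monomial, if_neg]
      rintro rfl
      exact hb (Finset.mem_range.1 ha)
  rw [funext h1]
  split_ifs with hb
  · rw [hx b]
  · have h2 : (fun _ : Fin n => (0 : R)) = 0 := rfl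
    rw [h2, map_zero]
    change (0 : R) = (w i).coeff b
    rw [Polynomial.coeff_eq_zero_of_natDegree_lt]
    have := hM' i
    omega

end

theorem stR2b : StR2b := by
  intro R _ d
  induction d with
  | zero =>
    intro ι _ Y hY
    obtain ⟨n, ⟨e⟩⟩ := hY
    refine ⟨n, ⟨?_⟩⟩
    refine (LinearEquiv.ofBijective (r2bG (Y := Y) e.symm.toLinearMap) ⟨?_, ?_⟩).symm
    · rw [← LinearMap.ker_eq_bot, r2bG_ker, LinearEquiv.ker, eq_bot_iff]
      intro v hv
      rw [Submodule.mem_bot]
      funext i
      apply Polynomial.ext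
      intro a
      have h1 : (fun i => (v i).coeff a) = 0 := (Submodule.mem_bot R).1 (hv a)
      exact congrFun h1 i
    · exact r2bG_surj _ e.symm.surjective
  | succ d ih =>
    intro ι _ Y hY
    obtain ⟨n, f, hf, hk⟩ := hY
    refine ⟨n, r2bG f, r2bG_surj f hf, ?_⟩
    exact LS.FFF.congr (LinearEquiv.ofEq _ _ (r2bG_ker f).symm) (ih (Fin n) _ hk)

end Pool.Agent.Lib.MP_551055_al.MT
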