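import Mathlib
import Pool.Agent.Lib.MP_551055_al.Trim.LS.PStmts
import Pool.Agent.Lib.MP_551055_al.Trim.LS.Stmts
import Pool.Agent.Lib.MP_551055_al.Trim.MT.Defs
import Pool.Agent.Lib.MP_551055_al.Trim.MT.Gen
import Pool.Agent.Lib.MP_551055_al.Trim.MT.StA
import Pool.Agent.Lib.MP_551055_al.Trim.MT.StC
import Pool.Agent.Lib.MP_551055_al.Trim.OneRelation

/-!
# Many trees: module R3 (transport of the ring conditions to the stabilisers)
-/

set_option autoImplicit false

namespace Pool.Agent.Lib.MP_551055_al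
end Pool.Agent.Lib.MP_551055_al

namespace Pool.Agent.Lib.MP_551055_al.LS
end Pool.Agent.Lib.MP_551055_al.LS

namespace Pool.Agent.Lib.MP_551055_al.MT

open Pool.Agent.Lib.MP_551055_al

open Pool.Agent.Lib.MP_551055_al.LS (ZN PolyZ)

/-- Isomorphic monoids have isomorphic monoid rings. -/
noncomputable def r3_ring {N N' : Type} [Monoid N] [Monoid N'] (e : N ≃* N') : ZM N ≃+* ZM N' :=
  MonoidAlgebra.mapDomainRingEquiv ℤ e

/-- `G × ℕ` for isomorphic groups. -/
def r3_gn {G G' : Type} [Group G] [Group G'] (e : G ≃* G') : GN G ≃* GN G' :=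
  e.prodCongr (MulEquiv.refl _)

/-- The polynomial ring. -/
noncomputable def r3_poly (X : Type) [Group X] : Polynomial (ZM X) ≃+* ZM (GN X) :=
  ((Polynomial.toFinsuppIso (ZM X)).trans (AddMonoidAlgebra.toMultiplicative (ZM X) ℕ)).trans
    (MonoidAlgebra.curryRingEquiv.symm.trans (r3_ring (MulEquiv.prodComm)))

/-- `ℤⁿ × ℤᵐ = ℤⁿ⁺ᵐ`. -/
noncomputable def r3_ZN (n m : ℕ) : ZN n × ZN m ≃* ZN (n + m) where
  toFun x := Multiplicative.ofAdd (Fin.append (Multiplicative.toAdd x.1) (Multiplicative.toAdd x.2))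
  invFun y := (Multiplicative.ofAdd fun i => Multiplicative.toAdd y (Fin.castAdd m i),
    Multiplicative.ofAdd fun i => Multiplicative.toAdd y (Fin.natAdd n i))
  left_inv x := by
    refine Prod.ext ?_ ?_
    · funext i
      exact Fin.append_left _ _ _
    · funext i
      exact Fin.append_right _ _ _
  right_inv y := by
    funext i
    refine Fin.addCases (fun i => ?_) (fun i => ?_) i
    · exact Fin.append_left _ _ _
    · exact Fin.append_right _ _ _
  map_mul' x y := by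
    funext i
    refine Fin.addCases (fun i => ?_) (fun i => ?_) i
    · change Fin.append (fun i => Multiplicative.toAdd x.1 i + Multiplicative.toAdd y.1 i)
        (fun i => Multiplicative.toAdd x.2 i + Multiplicative.toAdd y.2 i) (Fin.castAdd m i) =
        Fin.append (Multiplicative.toAdd x.1) (Multiplicative.toAdd x.2) (Fin.castAdd m i) +
        Fin.append (Multiplicative.toAdd y.1) (Multiplicative.toAdd y.2) (Fin.castAdd m i)
      rw [Fin.append_left, Fin.append_left, Fin.append_left]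
    · change Fin.append (fun i => Multiplicative.toAdd x.1 i + Multiplicative.toAdd y.1 i)
        (fun i => Multiplicative.toAdd x.2 i + Multiplicative.toAdd y.2 i) (Fin.natAdd n i) =
        Fin.append (Multiplicative.toAdd x.1) (Multiplicative.toAdd x.2) (Fin.natAdd n i) +
        Fin.append (Multiplicative.toAdd y.1) (Multiplicative.toAdd y.2) (Fin.natAdd n i)
      rw [Fin.append_right, Fin.append_right, Fin.append_right]

/-- `ℤ = ℤ¹`. -/
def r3_Z1 : Multiplicative ℤ ≃* ZN 1 where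
  toFun x := Multiplicative.ofAdd fun _ => Multiplicative.toAdd x
  invFun y := Multiplicative.ofAdd (Multiplicative.toAdd y 0)
  left_inv _ := rfl
  right_inv y := by
    funext i
    rw [Subsingleton.elim i 0]
    rfl
  map_mul' _ _ := rfl

/-- `X × ℤ⁰ = X`. -/
def r3_Z0 (X : Type) [Group X] : X × ZN 0 ≃* X where
  toFun x := x.1
  invFun x := (x, 1)
  left_inv _ := Prod.ext rfl (Subsingleton.elim _ _)
  right_inv _ := rfl
  map_mul' _ _ := rfl

theorem r3_RCs_congr (h1 : StR1) {H H' : Type} [Group H] [Group H'] (e : H ≃* H')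
    (h : RCs H) : RCs H' := by
  intro m
  obtain ⟨a, b⟩ := h m
  exact ⟨h1.2.2.2.1 _ _ (r3_ring (e.prodCongr (MulEquiv.refl _))) a,
    h1.2.2.2.1 _ _ (r3_ring (r3_gn (e.prodCongr (MulEquiv.refl _)))) b⟩

theorem r3_RCs_prod (h1 : StR1) {H : Type} [Group H] (h : RCs H) (n : ℕ) :
    RCs (H × ZN n) := by
  intro m
  obtain ⟨a, b⟩ := h (n + m)
  have e : H × ZN (n + m) ≃* (H × ZN n) × ZN m :=
    ((MulEquiv.refl H).prodCongr (r3_ZN n m).symm).trans MulEquiv.prodAssoc.symm
  exact ⟨h1.2.2.2.1 _ _ (r3_ring e) a, h1.2.2.2.1 _ _ (r3_ring (r3_gn e)) b⟩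

section

variable {Γ : Type} [Group Γ] {D : Type} {P : D → Type} [∀ i, PartialOrder (P i)]
  [∀ i, MulAction Γ (P i)] {G : Type} [Group G]

/-- The stabiliser as a subgroup and as a submonoid. -/
def r3_stab (π : G →* Γ) (A : Sz P) :
    ((MulAction.stabilizer Γ A).comap π) ≃* stabM π A where
  toFun x := ⟨x.1, x.2⟩
  invFun x := ⟨x.1, x.2⟩
  left_inv _ := rfl
  right_inv _ := rfl
  map_mul' _ _ := rfl

/-- The stabiliser in `G × ℕ`. -/
def r3_stabN (π : G →* Γ) (A : Sz P) :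
    GN ((MulAction.stabilizer Γ A).comap π) ≃* stabM (pN π) A where
  toFun x := ⟨(x.1.1, x.2), x.1.2⟩
  invFun x := (⟨x.1.1, x.2⟩, x.1.2)
  left_inv _ := rfl
  right_inv _ := rfl
  map_mul' _ _ := rfl

/-- The stabiliser in `G × ℤ`. -/
def r3_stabZ (π : G →* Γ) (A : Sz P) :
    ((MulAction.stabilizer Γ A).comap π) × Multiplicative ℤ ≃*
      ((MulAction.stabilizer Γ A).comap (pZ π)) where
  toFun x := ⟨(x.1.1, x.2), x.1.2⟩
  invFun x := (⟨x.1.1, x.2⟩, x.1.2)
  left_inv _ := rfl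
  right_inv _ := rfl
  map_mul' _ _ := rfl

end

/-- Module R3. -/
theorem stR3 (h1 : StR1) (h2 : StR2) : StR3 := by
  refine ⟨fun H H' _ _ e h => r3_RCs_congr h1 e h, fun H _ h n => r3_RCs_prod h1 h n,
    ?_, ?_⟩
  · intro Γ _ D P _ _ G _ π hπ
    refine ⟨fun A => ?_, fun A => ?_, fun A => ?_⟩
    · exact h1.2.2.2.1 _ _ (r3_ring ((r3_Z0 _).trans (r3_stab π A))) (hπ A 0).1
    · exact h1.2.2.2.1 _ _ (r3_ring ((r3_gn (r3_Z0 _)).trans (r3_stabN π A))) (hπ A 0).2
    · exact r3_RCs_congr h1 (((MulEquiv.refl _).prodCongr r3_Z1.symm).trans (r3_stabZ π A))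
        (r3_RCs_prod h1 (hπ A) 1)
  · intro H _ hH m
    have h3 := h1.2.2.1 H hH m
    exact ⟨h1.2.2.2.2 _ h3, h1.2.2.2.2 _ (h1.2.1 _ _ (r3_poly _) (h2 _ h3))⟩

end Pool.Agent.Lib.MP_551055_al.MT
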