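import Mathlib
import Pool.Agent.Lib.MP_551055_al.Trim.LS.Stmts
import Pool.Agent.Lib.MP_551055_al.Trim.MT.Base
import Pool.Agent.Lib.MP_551055_al.Trim.MT.Defs
import Pool.Agent.Lib.MP_551055_al.Trim.MT.Gen
import Pool.Agent.Lib.MP_551055_al.Trim.MT.StC
import Pool.Agent.Lib.MP_551055_al.Trim.MT.Trees

/-!
# Many trees, module RCE: forgetting the sizes in a resolution over a tree
-/

set_option autoImplicit false

namespace Pool.Agent.Lib.MP_551055_al
end Pool.Agent.Lib.MP_551055_al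

namespace Pool.Agent.Lib.MP_551055_al.LS
end Pool.Agent.Lib.MP_551055_al.LS

namespace Pool.Agent.Lib.MP_551055_al.MT.RCEAux
end Pool.Agent.Lib.MP_551055_al.MT.RCEAux

namespace Pool.Agent.Lib.MP_551055_al.MT

open Pool.Agent.Lib.MP_551055_al

open Pool.Agent.Lib.MP_551055_al.LS (TreeAct side)

open Matrix

namespace RCEAux

section

variable {N : Type} [Monoid N] {α β : Type} [Fintype α]

/-- `x ↦ x f` as an additive map. -/
noncomputable def vm (f : Matrix α β (ZM N)) : (α → ZM N) →+ (β → ZM N) where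
  toFun x := x ᵥ* f
  map_zero' := Matrix.zero_vecMul f
  map_add' x y := Matrix.add_vecMul f x y

theorem vm_apply (f : Matrix α β (ZM N)) (x : α → ZM N) : vm f x = x ᵥ* f := rfl

/-- Sums of preimages. -/
theorem finsum_lift {W : Type} {x' : W → β → ZM N} (hx : {w | x' w ≠ 0}.Finite)
    (f : Matrix α β (ZM N)) (p : W → (α → ZM N) → Prop) (hp : ∀ w, p w 0)
    (h : ∀ w, ∃ b, p w b ∧ b ᵥ* f = x' w) (q : (α → ZM N) → Prop) (hq0 : q 0)
    (hqa : ∀ a b, q a → q b → q (a + b)) (hpq : ∀ w b, p w b → q b) :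
    ∃ z, q z ∧ z ᵥ* f = ∑ᶠ w, x' w := by
  classical
  have h' : ∀ w, ∃ b, p w b ∧ b ᵥ* f = x' w ∧ (x' w = 0 → b = 0) := by
    intro w
    by_cases h0 : x' w = 0
    · exact ⟨0, hp w, by rw [Matrix.zero_vecMul, h0], fun _ => rfl⟩
    · obtain ⟨b, h1, h2⟩ := h w
      exact ⟨b, h1, h2, fun h3 => absurd h3 h0⟩
  choose b hb1 hb2 hb3 using h'
  have hfin : (Function.support b).Finite := hx.subset fun w hw h0 => hw (hb3 w h0)
  refine ⟨∑ᶠ w, b w, ?_, ?_⟩
  · exact finsum_induction q hq0 hqa fun w => hpq w _ (hb1 w)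
  · rw [← vm_apply, AddMonoidHom.map_finsum (vm f) hfin]
    exact finsum_congr fun w => hb2 w

end

section

variable {Γ : Type} [Group Γ] {V : Type} [MulAction Γ V] {T : SimpleGraph V}
  {h : TreeAct Γ V T} {N : Type} [Monoid N] {π : N →* Γ}

theorem upd_unit (B : Sz (SP fun _ : Unit => h)) (A : Sub h) : upd B () A = fun _ => A := by
  funext i
  cases i
  exact Function.update_self () A B

theorem deg_of_fam {D : Type} {P : D → Type} [∀ i, PartialOrder (P i)] [∀ i, MulAction Γ (P i)]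
    {U : Finset D} {X : Ob P} {B : Sz P} {q : ℤ} {x : X.ι → ZM N} (hx : x ∈ fam π U X B q)
    (l : X.ι) (hl : x l ≠ 0) : X.deg l = q := by
  have h1 : ∃ m, (x l).coeff m ≠ 0 := by
    by_contra hn
    push Not at hn
    apply hl
    apply MonoidAlgebra.coeff_injective
    ext m
    exact hn m
  obtain ⟨m, hm⟩ := h1
  exact (hx l m hm).1

theorem deg_add {ι : Type} (deg : ι → ℤ) (n : ℤ) (a b : ι → ZM N)
    (ha : ∀ l, a l ≠ 0 → deg l = n) (hb : ∀ l, b l ≠ 0 → deg l = n) :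
    ∀ l, (a + b) l ≠ 0 → deg l = n := by
  intro l hl
  by_cases h0 : a l = 0
  · refine hb l fun h1 => hl ?_
    rw [Pi.add_apply, h0, h1, add_zero]
  · exact ha l h0

/-- The main step. -/
theorem core (hF : StFlow) (hF2 : StFlow2) (hMV : StMV) (R : Co (SP fun _ : Unit => h) N)
    (Y : Ob (SP fun _ : Unit => h)) (f : Matrix R.ι Y.ι (ZM N)) (s n : ℤ)
    (hf : Ct π Finset.univ s R.toOb Y f) (K₁ : AddSubgroup (Y.ι → ZM N))
    (h1 : ∀ w, ∀ y ∈ fam π Finset.univ R.toOb (fun _ => vtx h w) n, y ᵥ* f ∈ K₁)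
    (h2 : ∀ u w, T.Adj u w → ∀ x ∈ K₁, x ∈ fam π Finset.univ Y (fun _ => edg h u w) (n + s) →
      ∃ z ∈ fam π Finset.univ R.toOb (fun _ => edg h u w) n, z ᵥ* f = x)
    (h3 : ∀ w, ∀ y ∈ fam π Finset.univ R.toOb (fun _ => vtx h w) n, y ᵥ* f = 0 →
      y ∈ BC π Finset.univ R n (fun _ => vtx h w))
    (y : R.ι → ZM N) (hy : ∀ l, y l ≠ 0 → R.deg l = n) (hyf : y ᵥ* f = 0) :
    ∃ z : R.ι → ZM N, (∀ l, z l ≠ 0 → R.deg l = n + 1) ∧ z ᵥ* R.d = y := by
  classical
  obtain ⟨v₀⟩ := h.tree.connected.nonempty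
  obtain ⟨mv1, -, -⟩ := hMV Γ Unit (fun _ => V) (fun _ => T) (fun _ => h) N π R.toOb () n
    (fun _ => vtx h v₀)
  obtain ⟨-, -, mv3⟩ := hMV Γ Unit (fun _ => V) (fun _ => T) (fun _ => h) N π Y () (n + s)
    (fun _ => vtx h v₀)
  simp only [upd_unit] at mv1 mv3
  obtain ⟨y', hfin, hmem, hsum⟩ := mv1 y (by
    intro l m hm
    refine ⟨hy l fun h0 => hm (by rw [h0]; rfl), fun i hi => ?_⟩
    cases i
    exact absurd rfl (Finset.mem_erase.1 hi).1)
  obtain ⟨fl1, fl2, fl3⟩ := hF V T h.tree (Y.ι → ZM N)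
  obtain ⟨gl1, -, -⟩ := hF V T h.tree (R.ι → ZM N)
  obtain ⟨-, -, f2map, -, -, f2fin⟩ := hF2 V T (R.ι → ZM N)
  have hx0 : ∑ᶠ w, y' w ᵥ* f = 0 := by
    have e1 := AddMonoidHom.map_finsum (vm f) (f := y') hfin
    rw [hsum] at e1
    rw [← hyf]
    exact e1.symm
  obtain ⟨F, hFl, hbd⟩ := fl2 (fun w => y' w ᵥ* f)
    (hfin.subset fun w hw h0 => hw (by change y' w ᵥ* f = 0; rw [h0, Matrix.zero_vecMul])) hx0
  have hFe := mv3 F hFl fun w => by
    rw [hbd]
    exact fam_vecMul hf (hmem w)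
  have hFK : ∀ u w, T.Adj u w → F u w ∈ K₁ := by
    intro u w huw
    rw [(fl1 F hFl).2.2 u w huw]
    refine finsum_mem_induction (fun x => x ∈ K₁) K₁.zero_mem (fun _ _ => K₁.add_mem)
      fun w' _ => ?_
    rw [hbd]
    exact h1 w' _ (hmem w')
  obtain ⟨Z, hZl, hZ⟩ := fl3 (R.ι → ZM N) F (fun u w z x =>
    (T.Adj u w → z ∈ fam π Finset.univ R.toOb (fun _ => edg h u w) n) ∧ z ᵥ* f = x) hFl
    (by
      rintro u w z x ⟨ha, hb⟩
      refine ⟨fun hwu => ?_, by rw [Matrix.neg_vecMul, hb]⟩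
      rw [edg_comm h hwu]
      exact AddSubgroup.neg_mem _ (ha hwu.symm))
    (fun u w => ⟨fun _ => AddSubgroup.zero_mem _, Matrix.zero_vecMul f⟩)
    (fun u w huw => by
      obtain ⟨z, hz, hzx⟩ := h2 u w huw _ (hFK u w huw) (hFe u w huw)
      exact ⟨z, fun _ => hz, hzx⟩)
  have hZF : (fun u v => vm f (Z u v)) = F := by
    funext u v
    exact (hZ u v).2
  have hbZ : ∀ w, bd Z w ᵥ* f = y' w ᵥ* f := by
    intro w
    have e1 := (f2map (Y.ι → ZM N) (vm f) Z hZl).2 w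
    rw [hZF, hbd] at e1
    exact e1.symm
  have hbZm : ∀ w, bd Z w ∈ fam π Finset.univ R.toOb (fun _ => vtx h w) n := by
    intro w
    obtain ⟨t, -, ht⟩ := f2fin w Z hZl
    rw [ht]
    refine AddSubgroup.sum_mem _ fun u _ => ?_
    by_cases huw : T.Adj u w
    · refine fam_anti (fun i _ => ?_) ((hZ u w).1 huw)
      change vtx h w ≤ edg h u w
      rw [vtx_le, edg_set h huw]
      exact Or.inr rfl
    · rw [hZl.adj u w huw]
      exact AddSubgroup.zero_mem _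
  obtain ⟨gfin, gsum, -⟩ := gl1 Z hZl
  have hfin2 : {w | y' w - bd Z w ≠ 0}.Finite := by
    refine (hfin.union gfin).subset fun w hw => ?_
    by_contra hn
    rw [Set.mem_union, not_or] at hn
    have e1 : y' w = 0 := not_not.1 hn.1
    have e2 : bd Z w = 0 := not_not.1 hn.2
    exact hw (by rw [e1, e2, sub_zero])
  obtain ⟨z, hz1, hz2⟩ := finsum_lift (x' := fun w => y' w - bd Z w) hfin2 R.d
    (fun w b => b ∈ fam π Finset.univ R.toOb (fun _ => vtx h w) (n + 1))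
    (fun w => AddSubgroup.zero_mem _)
    (fun w => by
      obtain ⟨b, hb, hb2⟩ := h3 w (y' w - bd Z w) (AddSubgroup.sub_mem _ (hmem w) (hbZm w))
        (by rw [Matrix.sub_vecMul, hbZ, sub_self])
      exact ⟨b, hb, hb2⟩)
    (fun z => ∀ l, z l ≠ 0 → R.deg l = n + 1) (fun l hl => absurd rfl hl)
    (fun a b ha hb => deg_add R.deg (n + 1) a b ha hb)
    (fun w b hb => deg_of_fam hb)
  refine ⟨z, hz1, ?_⟩
  rw [hz2, finsum_sub_distrib hfin gfin, hsum, gsum, sub_zero]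

end

end RCEAux

open RCEAux

theorem stRCE (hF : StFlow) (hF2 : StFlow2) (hMV : StMV) : StRCE := by
  intro Γ _ V _ T h N _ π X K₀ q c R r hR hr hdr hK₀ h1 h2 h3 h4
  refine ⟨fun x hx => ?_, fun y hy hyr => ?_, fun n hn y hy hyd => ?_⟩
  · obtain ⟨x', hfin, hmem, hsum⟩ := hK₀ x hx
    obtain ⟨z, hz1, hz2⟩ := finsum_lift (x' := x') hfin r
      (fun w b => b ∈ fam π Finset.univ R.toOb (fun _ => vtx h w) c)
      (fun w => AddSubgroup.zero_mem _)
      (fun w => by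
        obtain ⟨b, hb, hb2⟩ := h2 _ (x' w) (hmem w).1 (hmem w).2
        exact ⟨b, hb, hb2⟩)
      (fun z => ∀ l, z l ≠ 0 → R.deg l = c) (fun l hl => absurd rfl hl)
      (fun a b ha hb => deg_add R.deg c a b ha hb)
      (fun w b hb => deg_of_fam hb)
    exact ⟨z, hz1, by rw [hz2, hsum]⟩
  · refine core (π := π) hF hF2 hMV R X r (q - c) c (fun l k m hm => ?_) K₀.toAddSubgroup
      (fun w y hy => h1 _ y hy) (fun u w _ x hx hx2 => ?_) (fun w y hy hyr => h3 _ y hy hyr)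
      y hy hyr
    · obtain ⟨e1, e2, e3⟩ := hr l k m hm
      exact ⟨by omega, fun i _ => e3 i⟩
    · have e1 : c + (q - c) = q := by omega
      rw [e1] at hx2
      exact h2 _ x hx hx2
  · let K₁ : AddSubgroup (R.ι → ZM N) :=
      { carrier := {x | x ᵥ* R.d = 0 ∧ x ᵥ* r = 0}
        zero_mem' := ⟨Matrix.zero_vecMul _, Matrix.zero_vecMul _⟩
        add_mem' := fun {a b} ha hb => ⟨by rw [Matrix.add_vecMul, ha.1, hb.1, add_zero],
          by rw [Matrix.add_vecMul, ha.2, hb.2, add_zero]⟩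
        neg_mem' := fun {a} ha => ⟨by rw [Matrix.neg_vecMul, ha.1, neg_zero],
          by rw [Matrix.neg_vecMul, ha.2, neg_zero]⟩ }
    refine core (π := π) hF hF2 hMV R R.toOb R.d (-1) n hR.1 K₁ (fun w y _ => ?_)
      (fun u w _ x hx hx2 => ?_) (fun w y hy hyd => h4 n hn _ ⟨hy, hyd⟩) y hy hyd
    · refine ⟨?_, ?_⟩
      · rw [Matrix.vecMul_vecMul, hR.2, Matrix.vecMul_zero]
      · rw [Matrix.vecMul_vecMul, hdr, Matrix.vecMul_zero]
    · have key : x ∈ BC π Finset.univ R (n + -1) (fun _ => edg h u w) := by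
        by_cases hc : n + -1 = c
        · rw [hc] at hx2 ⊢
          exact h3 _ x hx2 hx.2
        · exact h4 (n + -1) (by omega) _ ⟨hx2, hx.1⟩
      obtain ⟨z, hz, hzx⟩ := key
      have e1 : n + -1 + 1 = n := by omega
      rw [e1] at hz
      exact ⟨z, hz, hzx⟩

end Pool.Agent.Lib.MP_551055_al.MT
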