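import Mathlib
import Pool.Agent.Lib.MP_551055_al.Trim.LS.PFree
import Pool.Agent.Lib.MP_551055_al.Trim.LS.PStmts2
import Pool.Agent.Lib.MP_551055_al.Trim.MT.Defs
import Pool.Agent.Lib.MP_551055_al.Trim.MT.StC

/-!
# Module RCF: exact complexes of finite free modules are resolutions
-/

set_option autoImplicit false

namespace Pool.Agent.Lib.MP_551055_al
end Pool.Agent.Lib.MP_551055_al

namespace Pool.Agent.Lib.MP_551055_al.LS
end Pool.Agent.Lib.MP_551055_al.LS

namespace Pool.Agent.Lib.MP_551055_al.MT.RCFAux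
end Pool.Agent.Lib.MP_551055_al.MT.RCFAux

namespace Pool.Agent.Lib.MP_551055_al.MT

open Pool.Agent.Lib.MP_551055_al

open Pool.Agent.Lib.MP_551055_al.LS (FFF)

open Matrix

namespace RCFAux

variable {R : Type} [Ring R] {ι κ : Type}

/-- The vectors of degree `n`. -/
def Y (R : Type) [Ring R] {ι : Type} (deg : ι → ℤ) (n : ℤ) : Submodule R (ι → R) where
  carrier := {y | ∀ l, y l ≠ 0 → deg l = n}
  zero_mem' := fun _ h => absurd rfl h
  add_mem' {a b} ha hb := by
    intro l h
    by_cases h1 : a l = 0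
    · refine hb l fun h2 => h ?_
      rw [Pi.add_apply, h1, h2, add_zero]
    · exact ha l h1
  smul_mem' c y hy := by
    intro l h
    refine hy l fun h2 => h ?_
    rw [Pi.smul_apply, h2, smul_zero]

/-- The vectors of degree `n` are a free module. -/
noncomputable def eY (R : Type) [Ring R] {ι : Type} (deg : ι → ℤ) (n : ℤ) :
    Y R deg n ≃ₗ[R] ({l : ι // deg l = n} → R) where
  toFun y := fun l => (y : ι → R) l
  map_add' _ _ := rfl
  map_smul' _ _ := rfl
  invFun z := ⟨fun l => by
    classical
    exact if h : deg l = n then z ⟨l, h⟩ else 0, by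
    intro l h
    by_contra h1
    exact h (dif_neg h1)⟩
  left_inv y := by
    ext l
    by_cases h : deg l = n
    · exact dif_pos h
    · refine (dif_neg h).trans ?_
      by_contra h1
      exact h (y.2 l fun h2 => h1 h2.symm)
  right_inv z := by
    funext l
    exact dif_pos l.2

theorem step [Finite ι] {deg : ι → ℤ} (n : ℤ) (g : (ι → R) →ₗ[R] (κ → R))
    (M : Submodule R (κ → R)) (h1 : ∀ y ∈ Y R deg n, g y ∈ M)
    (h2 : ∀ x ∈ M, ∃ y ∈ Y R deg n, g y = x) {e : ℕ}
    (h3 : FFF R e (Y R deg n ⊓ LinearMap.ker g : Submodule R (ι → R))) : FFF R (e + 1) M := by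
  let g' : Y R deg n →ₗ[R] M :=
    LinearMap.codRestrict M (g ∘ₗ (Y R deg n).subtype) fun y => h1 y y.2
  have hg' : Function.Surjective g' := by
    rintro ⟨x, hx⟩
    obtain ⟨y, hy, rfl⟩ := h2 x hx
    exact ⟨⟨y, hy⟩, rfl⟩
  have hk : LinearMap.ker g' =
      (Y R deg n ⊓ LinearMap.ker g : Submodule R (ι → R)).comap (Y R deg n).subtype := by
    ext y
    simp only [LinearMap.mem_ker, Submodule.mem_comap, Submodule.mem_inf, Submodule.coe_subtype]
    constructor
    · intro h
      exact ⟨y.2, congrArg Subtype.val h⟩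
    · rintro ⟨-, h⟩
      exact Subtype.ext h
  have h4 : FFF R e (LinearMap.ker g') := by
    rw [hk]
    exact h3.congr (Submodule.comapSubtypeEquivOfLe inf_le_left).symm
  let E := (eY R deg n).symm
  refine LS.FFF.of_surj (g' ∘ₗ E.toLinearMap) (hg'.comp E.surjective) ?_
  have hk' : LinearMap.ker (g' ∘ₗ E.toLinearMap) = (LinearMap.ker g').comap E.toLinearMap :=
    LinearMap.ker_comp _ _
  let e' : LinearMap.ker (g' ∘ₗ E.toLinearMap) ≃ₗ[R] LinearMap.ker g' :=
    E.ofSubmodules _ _ (by
      rw [hk']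
      exact Submodule.map_comap_eq_of_surjective E.surjective _)
  exact h4.congr e'.symm

end RCFAux

open RCFAux in
/-- Module RCF. Exact complexes of finite free modules are resolutions. -/
theorem stRCF : StRCF := by
  intro R _ ι κ _ _ _ deg d r c K₀ hc hd hdd hdr h0 h1 h2 h3
  -- cycles in large degrees
  have hZ : ∀ (j : ℕ) (n : ℤ), c < n → (∀ l, deg l < n + j) →
      ∃ e, FFF R e (Y R deg n ⊓ LinearMap.ker d.vecMulLinear : Submodule R (ι → R)) := by
    intro j
    induction j with
    | zero =>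
      intro n _ hn
      refine ⟨0, ?_⟩
      have : Subsingleton (Y R deg n ⊓ LinearMap.ker d.vecMulLinear : Submodule R (ι → R)) := by
        refine ⟨fun a b => ?_⟩
        have h : ∀ x : (Y R deg n ⊓ LinearMap.ker d.vecMulLinear : Submodule R (ι → R)),
            (x : ι → R) = 0 := by
          intro x
          funext l
          by_contra h5
          have h6 := x.2.1 l h5
          have h7 := hn l
          rw [h6] at h7
          simp at h7
        exact Subtype.ext ((h a).trans (h b).symm)
      exact LS.FFF.zero_of_subsingleton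
    | succ j ih =>
      intro n hn hl
      obtain ⟨e, he⟩ := ih (n + 1) (by omega) (fun l => by
        have := hl l
        push_cast at this
        omega)
      refine ⟨e + 1, step (n + 1) d.vecMulLinear _ ?_ ?_ he⟩
      · intro y hy
        refine ⟨?_, ?_⟩
        · intro k hk
          have hk' : ∑ l, y l * d l k ≠ 0 := hk
          obtain ⟨l, -, hl'⟩ := Finset.exists_ne_zero_of_sum_ne_zero hk'
          have a1 : y l ≠ 0 := fun h => hl' (by rw [h, zero_mul])
          have a2 : d l k ≠ 0 := fun h => hl' (by rw [h, mul_zero])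
          have a3 := hd l k a2
          have a4 := hy l a1
          omega
        · change (y ᵥ* d) ᵥ* d = 0
          rw [vecMul_vecMul, hdd, vecMul_zero]
      · rintro x ⟨hx1, hx2⟩
        obtain ⟨z, hz, hzx⟩ := h3 n hn x hx1 hx2
        exact ⟨z, hz, hzx⟩
  obtain ⟨N, hN⟩ : ∃ N : ℕ, ∀ l, deg l < c + 1 + N := by
    obtain ⟨b, hb⟩ := (Set.finite_range deg).bddAbove
    refine ⟨(b - c).toNat, fun l => ?_⟩
    have h5 := hb (Set.mem_range_self l)
    omega
  obtain ⟨e, he⟩ := hZ N (c + 1) (by omega) hN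
  -- cycles in degree `c`
  have hc' : FFF R (e + 1) (Y R deg c ⊓ LinearMap.ker r.vecMulLinear : Submodule R (ι → R)) := by
    refine step (c + 1) d.vecMulLinear _ ?_ ?_ he
    · intro y hy
      refine ⟨?_, ?_⟩
      · intro k hk
        have hk' : ∑ l, y l * d l k ≠ 0 := hk
        obtain ⟨l, -, hl'⟩ := Finset.exists_ne_zero_of_sum_ne_zero hk'
        have a1 : y l ≠ 0 := fun h => hl' (by rw [h, zero_mul])
        have a2 : d l k ≠ 0 := fun h => hl' (by rw [h, mul_zero])
        have a3 := hd l k a2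
        have a4 := hy l a1
        omega
      · change (y ᵥ* d) ᵥ* r = 0
        rw [vecMul_vecMul, hdr, vecMul_zero]
    · rintro x ⟨hx1, hx2⟩
      obtain ⟨z, hz, hzx⟩ := h2 x hx1 hx2
      exact ⟨z, hz, hzx⟩
  exact ⟨e + 2, step c r.vecMulLinear K₀ h0 (fun x hx => h1 x hx) hc'⟩

end Pool.Agent.Lib.MP_551055_al.MT
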