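import Mathlib
import Pool.Agent.Lib.MP_551055_al.Trim.LS.PStmts
import Pool.Agent.Lib.MP_551055_al.Trim.LS.PStmts2
import Pool.Agent.Lib.MP_551055_al.Trim.LS.Stmts
import Pool.Agent.Lib.MP_551055_al.Trim.MT.Base
import Pool.Agent.Lib.MP_551055_al.Trim.MT.Defs
import Pool.Agent.Lib.MP_551055_al.Trim.MT.Gen
import Pool.Agent.Lib.MP_551055_al.Trim.MT.StA
import Pool.Agent.Lib.MP_551055_al.Trim.MT.StB
import Pool.Agent.Lib.MP_551055_al.Trim.MT.StC
import Pool.Agent.Lib.MP_551055_al.Trim.MT.Tg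
import Pool.Agent.Lib.MP_551055_al.Trim.MT.Trees
import Pool.Agent.Lib.MP_551055_al.Trim.PT.Hull
import Pool.Agent.Lib.MP_551055_al.Trim.PT.Stmts

/-!
# Many trees: module RCT1
-/

set_option autoImplicit false

namespace Pool.Agent.Lib.MP_551055_al
end Pool.Agent.Lib.MP_551055_al

namespace Pool.Agent.Lib.MP_551055_al.LS
end Pool.Agent.Lib.MP_551055_al.LS

namespace Pool.Agent.Lib.MP_551055_al.PT
end Pool.Agent.Lib.MP_551055_al.PT

namespace Pool.Agent.Lib.MP_551055_al.MT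

open Pool.Agent.Lib.MP_551055_al

open Pool.Agent.Lib.MP_551055_al.LS (TreeAct side ZN PolyZ)

open Pool.Agent.Lib.MP_551055_al.PT (EC)

open Matrix

section

variable {Γ : Type} [Group Γ] {V : Type} [MulAction Γ V] {T : SimpleGraph V} {h : TreeAct Γ V T}
  {N : Type} [Monoid N]

/-- The size with the vertex `w`. -/
def rctV (h : TreeAct Γ V T) (w : V) : Sz (SP fun _ : Unit => h) := fun _ => vtx h w

theorem rct_smul (γ : Γ) (w : V) : γ • rctV h w = rctV h (γ • w) := by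
  funext i
  exact smul_vtx h γ w

/-- `x` is a finite sum of elements of `K₀` at vertices. -/
def RctDec (π : N →* Γ) (X : Ob (SP fun _ : Unit => h)) (K₀ : Submodule (ZM N) (X.ι → ZM N))
    (q : ℤ) (x : X.ι → ZM N) : Prop :=
  ∃ x' : V → X.ι → ZM N, {w | x' w ≠ 0}.Finite ∧
    (∀ w, x' w ∈ K₀ ∧ x' w ∈ fam π Finset.univ X (rctV h w) q) ∧ ∑ᶠ w, x' w = x

variable {π : N →* Γ} {X : Ob (SP fun _ : Unit => h)} {K₀ : Submodule (ZM N) (X.ι → ZM N)}
  {q : ℤ}

theorem RctDec.zero : RctDec π X K₀ q 0 := by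
  refine ⟨fun _ => 0, ?_, fun w => ⟨Submodule.zero_mem _, AddSubgroup.zero_mem _⟩, ?_⟩
  · simp
  · exact finsum_zero

theorem RctDec.add {x y : X.ι → ZM N} (hx : RctDec π X K₀ q x) (hy : RctDec π X K₀ q y) :
    RctDec π X K₀ q (x + y) := by
  obtain ⟨x', h1, h2, h3⟩ := hx
  obtain ⟨y', h4, h5, h6⟩ := hy
  refine ⟨fun w => x' w + y' w, ?_, fun w => ⟨Submodule.add_mem _ (h2 w).1 (h5 w).1,
    AddSubgroup.add_mem _ (h2 w).2 (h5 w).2⟩, ?_⟩
  · refine (h1.union h4).subset fun w hw => ?_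
    by_contra hn
    have h7 : ¬(x' w ≠ 0 ∨ y' w ≠ 0) := hn
    push Not at h7
    exact hw (by
      change x' w + y' w = 0
      rw [h7.1, h7.2, add_zero])
  · rw [finsum_add_distrib h1 h4, h3, h6]

theorem RctDec.single {x : X.ι → ZM N} (w : V) (hx : x ∈ K₀)
    (hx' : x ∈ fam π Finset.univ X (rctV h w) q) : RctDec π X K₀ q x := by
  classical
  refine ⟨Pi.single w x, ?_, fun w' => ?_, ?_⟩
  · refine (Set.finite_singleton w).subset fun w' hw' => ?_
    by_contra hn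
    exact hw' (Pi.single_eq_of_ne hn _)
  · by_cases hw : w' = w
    · subst hw
      rw [Pi.single_eq_same]
      exact ⟨hx, hx'⟩
    · rw [Pi.single_eq_of_ne hw]
      exact ⟨Submodule.zero_mem _, AddSubgroup.zero_mem _⟩
  · rw [finsum_eq_single _ w fun w' hw' => Pi.single_eq_of_ne hw' _, Pi.single_eq_same]

end

/-- Module RCT1. -/
theorem stRCT1 (hE : StRCE) (hF : StRCF) (hN : StResN) (hAb : StAb) : StRCT1 := by
  classical
  intro Γ _ V _ T h N _ π hUL hst n m f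
  obtain ⟨v0⟩ := h.tree.connected.nonempty
  -- the sizes
  have hA : ∀ k : Fin m, ∃ A : Sub h, ∀ (l : Fin n) (a : N),
      (f (Pi.single l 1) k).coeff a ≠ 0 → (π a)⁻¹ • v0 ∈ A.set := by
    intro k
    obtain ⟨A, hA1, hA2, hA3⟩ := PT.stHull V T h.tree
      ({v0} ∪ ⋃ l : Fin n, (fun a => (π a)⁻¹ • v0) '' {a | (f (Pi.single l 1) k).coeff a ≠ 0})
      ((Set.finite_singleton _).union (Set.finite_iUnion fun l =>
        Set.Finite.image _ ((f (Pi.single l 1) k).coeff.hasFiniteSupport)))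
    refine ⟨⟨A, hA1, ⟨v0, hA2 (Or.inl rfl)⟩, hA3⟩, fun l a ha => ?_⟩
    exact hA2 (Or.inr (Set.mem_iUnion.2 ⟨l, a, ha, rfl⟩))
  choose A hA using hA
  let X : Ob (SP fun _ : Unit => h) :=
    { ι := Fin m, ft := inferInstance, de := inferInstance, deg := fun _ => 0
      sz := fun k _ => A k }
  let K₀ : Submodule (ZM N) (X.ι → ZM N) := LinearMap.range f
  let L : Sz (SP fun _ : Unit => h) → AddSubgroup (X.ι → ZM N) := fun B =>
    K₀.toAddSubgroup ⊓ fam π Finset.univ X B 0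
  have hL : Fam π L :=
    { anti := fun B B' hB x hx => ⟨hx.1, fam_anti (fun i _ => hB i) hx.2⟩
      act := fun a B x hx => ⟨K₀.smul_mem _ hx.1, fam_act hx.2 a⟩ }
  -- the rows of `f`
  have hrow : ∀ l : Fin n, f (Pi.single l 1) ∈ fam π Finset.univ X (rctV h v0) 0 := by
    intro l k a ha
    refine ⟨rfl, fun i _ => ?_⟩
    change vtx h v0 ≤ π a • A k
    rw [vtx_le]
    have h1 := hA k l a ha
    rw [← Sub.smul_mem_smul (π a) (A k), smul_inv_smul] at h1
    exact h1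
  have hdec : ∀ x ∈ K₀, RctDec π X K₀ 0 x := by
    rintro x ⟨y, rfl⟩
    have h1 : f y = ∑ l, y l • f (Pi.single l 1) := by
      rw [lin_ext f y, lin_apply]
    rw [h1]
    refine Finset.sum_induction _ (RctDec π X K₀ 0) (fun _ _ => RctDec.add) RctDec.zero
      fun l _ => ?_
    rw [zm_sum (y l), Finset.sum_smul]
    refine Finset.sum_induction _ (RctDec π X K₀ 0) (fun _ _ => RctDec.add) RctDec.zero
      fun a _ => ?_
    have h4 : (MonoidAlgebra.single a ((y l).coeff a) : ZM N) • f (Pi.single l 1)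
        = (y l).coeff a • ((MonoidAlgebra.single a (1 : ℤ) : ZM N) • f (Pi.single l 1)) := by
      rw [← smul_assoc, MonoidAlgebra.smul_single, smul_eq_mul, mul_one]
    rw [h4]
    have h5 : (MonoidAlgebra.single a (1 : ℤ) : ZM N) • f (Pi.single l 1)
        ∈ fam π Finset.univ X (rctV h (π a • v0)) 0 := by
      have h6 := fam_act (hrow l) a
      rwa [rct_smul] at h6
    refine RctDec.single (π a • v0) ?_ (AddSubgroup.zsmul_mem _ h5 _)
    exact K₀.toAddSubgroup.zsmul_mem (K₀.smul_mem _ ⟨_, rfl⟩) _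
  obtain ⟨R, r, hR, hlo, hr, hdr, h1, h2, h3, h4⟩ := hN Γ Unit (SP fun _ : Unit => h) N π hUL hst
    X 0 L hL (fun B x hx => hx.2) 0
  obtain ⟨e1, e2, e3⟩ := hE Γ V T h N π X K₀ 0 0 R r hR hr hdr hdec
    (fun B y hy => (h1 B y hy).1) (fun B x hx hx' => h2 B x ⟨hx, hx'⟩) h3 h4
  have hcoef : ∀ x : ZM N, x ≠ 0 → ∃ a, x.coeff a ≠ 0 := by
    intro x hx
    by_contra hn
    push Not at hn
    apply hx
    apply MonoidAlgebra.coeff_injective
    ext a
    exact hn a
  have hrK : ∀ l, r l ∈ K₀ := by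
    intro l
    by_cases hl : R.deg l = 0
    · have h5 := (h1 (R.sz l) (Pi.single l 1) (by
        have h6 := basis_mem_fam (π := π) (U := Finset.univ) (X := R.toOb) l
        rwa [hl] at h6)).1
      rwa [Matrix.single_one_vecMul] at h5
    · have h5 : r l = 0 := by
        funext k
        by_contra hn
        obtain ⟨a, ha⟩ := hcoef _ hn
        exact hl (hr l k a ha).1
      rw [h5]
      exact K₀.zero_mem
  have hK : ∃ e, LS.FFF (ZM N) e K₀ := by
    refine hF (ZM N) R.ι X.ι R.deg R.d r 0 K₀ hlo ?_ hR.2 hdr ?_ e1 e2 e3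
    · intro l k hlk
      obtain ⟨a, ha⟩ := hcoef _ hlk
      exact (hR.1 l k a ha).1
    · intro y _
      rw [← lin_matrix]
      change (∑ l, y l • r l) ∈ K₀
      exact K₀.sum_mem fun l _ => K₀.smul_mem _ (hrK l)
  obtain ⟨d, hd⟩ := (hAb (ZM N)).1 K₀ hK n f.rangeRestrict f.surjective_rangeRestrict
  rw [LinearMap.ker_rangeRestrict] at hd
  exact ⟨d, hd⟩

end Pool.Agent.Lib.MP_551055_al.MT
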