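import Mathlib
import Pool.Agent.Lib.MP_551055_al.Trim.LS.PStmts
import Pool.Agent.Lib.MP_551055_al.Trim.LS.Stmts
import Pool.Agent.Lib.MP_551055_al.Trim.MT.Defs
import Pool.Agent.Lib.MP_551055_al.Trim.MT.Gen
import Pool.Agent.Lib.MP_551055_al.Trim.MT.StA
import Pool.Agent.Lib.MP_551055_al.Trim.MT.StC
import Pool.Agent.Lib.MP_551055_al.Trim.MT.Trees
import Pool.Agent.Lib.MP_551055_al.Trim.OneRelation
import Pool.Agent.Lib.MP_551055_al.Trim.PT.PSub

/-!
# Many trees: groups acting on a tree with poly-`ℤ` vertex stabilisers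
-/

set_option autoImplicit false

namespace Pool.Agent.Lib.MP_551055_al
end Pool.Agent.Lib.MP_551055_al

namespace Pool.Agent.Lib.MP_551055_al.LS
end Pool.Agent.Lib.MP_551055_al.LS

namespace Pool.Agent.Lib.MP_551055_al.MT

open Pool.Agent.Lib.MP_551055_al

open Pool.Agent.Lib.MP_551055_al.LS (TreeAct side ZN PolyZ)

/-- `ℤ[X × ℕ]` is the polynomial ring over `ℤ[X]`. -/
private theorem rct2_poly (X : Type) [Monoid X] :
    Nonempty (Polynomial (ZM X) ≃+* ZM (X × Multiplicative ℕ)) :=
  ⟨(Polynomial.toFinsuppIso (ZM X)).trans ((AddMonoidAlgebra.toMultiplicative (ZM X) ℕ).trans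
    ((MonoidAlgebra.mapDomainRingEquiv ℤ (MulEquiv.prodComm (M := X)
      (N := Multiplicative ℕ))).trans MonoidAlgebra.curryRingEquiv).symm)⟩

/-- The stabiliser in a product. -/
private theorem rct2_stab {Γ : Type} [Group Γ] {D : Type} {P : D → Type}
    [∀ i, PartialOrder (P i)] [∀ i, MulAction Γ (P i)] {N Q : Type} [Monoid N] [Monoid Q]
    (π : N →* Γ) (e : N ≃* Γ × Q) (he : ∀ n, (e n).1 = π n) (A : Sz P) :
    Nonempty (stabM π A ≃* MulAction.stabilizer Γ A × Q) :=
  ⟨{  toFun := fun n => (⟨(e n.1).1, by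
        rw [MulAction.mem_stabilizer_iff, he]
        exact n.2⟩, (e n.1).2)
      invFun := fun p => ⟨e.symm (p.1.1, p.2), by
        change π (e.symm (p.1.1, p.2)) • A = A
        rw [← he, e.apply_symm_apply]
        exact p.1.2⟩
      left_inv := fun n => by
        apply Subtype.ext
        exact e.symm_apply_apply n.1
      right_inv := fun p => by
        apply Prod.ext
        · apply Subtype.ext
          change (e (e.symm (p.1.1, p.2))).1 = p.1.1
          rw [e.apply_symm_apply]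
        · change (e (e.symm (p.1.1, p.2))).2 = p.2
          rw [e.apply_symm_apply]
      map_mul' := fun a b => by
        apply Prod.ext
        · apply Subtype.ext
          change (e (a.1 * b.1)).1 = (e a.1).1 * (e b.1).1
          rw [map_mul]
          rfl
        · change (e (a.1 * b.1)).2 = (e a.1).2 * (e b.1).2
          rw [map_mul]
          rfl }⟩

theorem stRCT2 (h1 : StR1) (h2 : StR2) (hCen : StCen) (hT : StRCT1) : StRCT2 := by
  intro Γ _ V _ T h hV m
  obtain ⟨-, htr, hpoly, -, -⟩ := h1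
  -- the stabilisers of finite subtrees
  have hS : ∀ A : Sz (SP fun _ : Unit => h), PolyZ (MulAction.stabilizer Γ A) := by
    intro A
    obtain ⟨v, hv⟩ := hCen Γ V T h (A ())
    let i : MulAction.stabilizer Γ A →* MulAction.stabilizer Γ v :=
      { toFun := fun γ => ⟨γ.1, hv γ.1 (congrFun (MulAction.mem_stabilizer_iff.1 γ.2) ())⟩
        map_one' := rfl
        map_mul' := fun _ _ => rfl }
    refine PT.PSub.of_injective _ (hV v) _ i fun a b hab => ?_
    apply Subtype.ext
    exact congrArg (fun x : MulAction.stabilizer Γ v => (x : Γ)) hab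
  have hF : ∀ A : Sz (SP fun _ : Unit => h), FFFN (ZM (MulAction.stabilizer Γ A × ZN m)) :=
    fun A => hpoly _ (hS A) m
  constructor
  · refine hT Γ V T h (Γ × ZN m) (MonoidHom.fst Γ (ZN m)) (ul_group _) fun A => ?_
    obtain ⟨e⟩ := rct2_stab (MonoidHom.fst Γ (ZN m)) (MulEquiv.refl (Γ × ZN m))
      (fun _ => rfl) A
    exact htr _ _ (MonoidAlgebra.mapDomainRingEquiv ℤ e.symm) (hF A)
  · refine hT Γ V T h (GN (Γ × ZN m)) (pN (MonoidHom.fst Γ (ZN m))) (ul_pN _) fun A => ?_
    obtain ⟨e⟩ := rct2_stab (pN (MonoidHom.fst Γ (ZN m)))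
      (MulEquiv.prodAssoc (M := Γ) (N := ZN m) (P := Multiplicative ℕ)) (fun _ => rfl) A
    obtain ⟨e'⟩ := rct2_poly (MulAction.stabilizer Γ A × ZN m)
    have h3 := htr _ _ e' (h2 _ (hF A))
    exact htr _ _ (MonoidAlgebra.mapDomainRingEquiv ℤ
      ((MulEquiv.prodAssoc (M := MulAction.stabilizer Γ A) (N := ZN m)
        (P := Multiplicative ℕ)).trans e.symm)) h3

end Pool.Agent.Lib.MP_551055_al.MT
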