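import Mathlib
import Pool.Agent.Lib.MP_551055_al.Trim.LS.PFree
import Pool.Agent.Lib.MP_551055_al.Trim.LS.PStmts2
import Pool.Agent.Lib.MP_551055_al.Trim.MT.Defs
import Pool.Agent.Lib.MP_551055_al.Trim.MT.Gen
import Pool.Agent.Lib.MP_551055_al.Trim.MT.Map
import Pool.Agent.Lib.MP_551055_al.Trim.MT.StB
import Pool.Agent.Lib.MP_551055_al.Trim.MT.Tg

/-!
# Many trees: module Res (finite resolutions of families)
-/

set_option autoImplicit false

namespace Pool.Agent.Lib.MP_551055_al
end Pool.Agent.Lib.MP_551055_al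

namespace Pool.Agent.Lib.MP_551055_al.MT

open Pool.Agent.Lib.MP_551055_al

open Matrix

section

variable {Γ : Type} [Group Γ] {D : Type} {P : D → Type} [∀ i, PartialOrder (P i)]
  [∀ i, MulAction Γ (P i)] [SzAct Γ P] {N : Type} [Monoid N]

theorem res_smul (π : N →* Γ) {n : ℕ} (o : Fin n → Sz P) (ι : Type) (b : Fin n)
    (r : ZM (stabM π (o b))) (v : Rw N n ι) (a : Fin n) (k : ι) :
    (jE π o b r • v) a k = if a = b then mdh (stabM π (o b)).subtype r * v b k else 0 := by
  classical
  rw [modTE_smul, jE_val]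
  by_cases h : a = b
  · subst h
    rw [if_pos rfl, Finset.sum_eq_single a]
    · rw [Matrix.single_apply_same]
    · intro c _ hc
      rw [Matrix.single_apply, if_neg (fun h => hc h.2.symm), zero_mul]
    · intro h
      exact absurd (Finset.mem_univ a) h
  · rw [if_neg h]
    refine Finset.sum_eq_zero fun c _ => ?_
    rw [Matrix.single_apply, if_neg (fun h' => h h'.1.symm), zero_mul]

/-- The matrix with the row `x` at `b`. -/
noncomputable def resRow {n : ℕ} {ι : Type} (b : Fin n) (x : ι → ZM N) : Rw N n ι :=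
  fun a => if a = b then x else 0

omit [∀ i, PartialOrder (P i)] [∀ i, MulAction Γ (P i)] [SzAct Γ P] [Group Γ] in
theorem resRow_apply {n : ℕ} {ι : Type} (b : Fin n) (x : ι → ZM N) (a : Fin n) (k : ι) :
    resRow b x a k = if a = b then x k else 0 := by
  unfold resRow
  split_ifs <;> rfl

theorem res_smul_row (π : N →* Γ) {n : ℕ} (o : Fin n → Sz P) (ι : Type) (b : Fin n)
    (r : ZM (stabM π (o b))) (x : ι → ZM N) :
    jE π o b r • resRow b x = resRow b (mdh (stabM π (o b)).subtype r • x) := by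
  funext a k
  rw [res_smul, resRow_apply, resRow_apply, if_pos rfl]
  rfl

theorem res_one_row (π : N →* Γ) {n : ℕ} (o : Fin n → Sz P) (ι : Type) (b : Fin n)
    (x : ι → ZM N) : jE π o b 1 • resRow b x = resRow b x := by
  rw [res_smul_row, map_one, one_smul]

omit [∀ i, PartialOrder (P i)] [∀ i, MulAction Γ (P i)] [SzAct Γ P] [Group Γ] in
theorem resRow_add {n : ℕ} {ι : Type} (b : Fin n) (x y : ι → ZM N) :
    resRow b (x + y) = resRow b x + resRow b y := by
  funext a k
  change resRow b (x + y) a k = resRow b x a k + resRow b y a k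
  rw [resRow_apply, resRow_apply, resRow_apply]
  split_ifs
  · rfl
  · rw [add_zero]

omit [∀ i, PartialOrder (P i)] [∀ i, MulAction Γ (P i)] [SzAct Γ P] [Group Γ] in
theorem resRow_inj {n : ℕ} {ι : Type} (b : Fin n) {x y : ι → ZM N}
    (h : resRow b x = resRow b y) : x = y := by
  funext k
  have h1 := congrFun (congrFun h b) k
  rwa [resRow_apply, resRow_apply, if_pos rfl, if_pos rfl] at h1

theorem resRow_mem (π : N →* Γ) {n : ℕ} (o : Fin n → Sz P) (ι : Type)
    (L : Sz P → AddSubgroup (ι → ZM N)) (hL : Fam π L) (b : Fin n) {x : ι → ZM N}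
    (hx : x ∈ L (o b)) : resRow b x ∈ ML π o ι L hL := by
  intro a
  change (if a = b then x else 0) ∈ L (o a)
  split_ifs with h
  · rw [h]
    exact hx
  · exact (L (o a)).zero_mem

/-- The row `b` of the module of a family. -/
noncomputable def resFwd (π : N →* Γ) {n : ℕ} (o : Fin n → Sz P) (ι : Type)
    (L : Sz P → AddSubgroup (ι → ZM N)) (hL : Fam π L) (b : Fin n) :
    famSub π L hL (o b) →ₗ[ZM (stabM π (o b))] Cr (jE π o b) (ML π o ι L hL) where
  toFun x := ⟨⟨resRow b (x.1 : ι → ZM N), resRow_mem π o ι L hL b x.2⟩,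
    Subtype.ext (res_one_row π o ι b x.1)⟩
  map_add' x y := Subtype.ext (Subtype.ext (resRow_add b x.1 y.1))
  map_smul' r x := Subtype.ext (Subtype.ext (res_smul_row π o ι b r x.1).symm)

theorem resFwd_bij (π : N →* Γ) {n : ℕ} (o : Fin n → Sz P) (ι : Type)
    (L : Sz P → AddSubgroup (ι → ZM N)) (hL : Fam π L) (b : Fin n) :
    Function.Bijective (resFwd π o ι L hL b) := by
  constructor
  · intro x y h
    exact Subtype.ext (resRow_inj b (congrArg Subtype.val (congrArg Subtype.val h)))
  · intro v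
    refine ⟨⟨(v.1.1 b : ι → ZM N), v.1.2 b⟩, ?_⟩
    apply Subtype.ext
    apply Subtype.ext
    funext a k
    change resRow b (v.1.1 b : ι → ZM N) a k = v.1.1 a k
    rw [resRow_apply]
    split_ifs with h
    · rw [h]
    · have h0 : jE π o b 1 • v.1 = v.1 := v.2
      have h1 : (jE π o b 1 • v.1.1) a k = v.1.1 a k :=
        congrFun (congrFun (congrArg Subtype.val h0) a) k
      rw [res_smul, if_neg h] at h1
      exact h1

end

/-- Module Res. -/
theorem stRes (hReps : StReps) (hTEa : StTEa) (hTri : StTri) (hResTr : StResTr) : StRes := by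
  intro Γ _ D _ P _ _ _ _ N _ π hUL hHN X q L hL hLq hFFF c
  obtain ⟨n, o, hRo, hXo⟩ := hReps Γ D P N π hUL X.ι X.sz
  have hT := hTEa Γ D P N π hUL n o hRo
  obtain ⟨d, hd⟩ := hTri (TE π o) n (fun b => ZM (stabM π (o b))) (jE π o) hT
    (fun b => hHN (o b)) (ML π o X.ι L hL) fun b => by
      obtain ⟨d, hd⟩ := hFFF (o b)
      exact ⟨d, LS.FFF.congr (LinearEquiv.ofBijective _ (resFwd_bij π o X.ι L hL b)) hd⟩
  exact hResTr Γ D P N π hUL n o hRo d X hXo q L hL hLq hd c

end Pool.Agent.Lib.MP_551055_al.MT
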