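import Mathlib
import Pool.Agent.Lib.MP_551055_al.Trim.LS.PStmts
import Pool.Agent.Lib.MP_551055_al.Trim.LS.PStmts2
import Pool.Agent.Lib.MP_551055_al.Trim.MT.Defs
import Pool.Agent.Lib.MP_551055_al.Trim.MT.Gen
import Pool.Agent.Lib.MP_551055_al.Trim.MT.StA
import Pool.Agent.Lib.MP_551055_al.Trim.MT.StB
import Pool.Agent.Lib.MP_551055_al.Trim.MT.StC
import Pool.Agent.Lib.MP_551055_al.Trim.OneRelation

/-!
# Many trees: families over noetherian stabilisers
-/

set_option autoImplicit false

namespace Pool.Agent.Lib.MP_551055_al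
end Pool.Agent.Lib.MP_551055_al

namespace Pool.Agent.Lib.MP_551055_al.MT

open Pool.Agent.Lib.MP_551055_al

/-- Families of submodules of finite free objects have finite resolutions if the rings of the
stabilisers are noetherian and regular with stably free projectives. -/
theorem stResN (h1 : StR1) (hXF : StXF) (hRes : StRes) : StResN := by
  intro Γ _ D _ P _ _ _ _ N _ π hUL hN X q L hL hLX c
  have hHN : HN P π := fun A => h1.2.2.2.2 (ZM (stabM π A)) (hN A)
  refine hRes Γ D P N π hUL hHN X q L hL hLX (fun A => ?_) c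
  obtain ⟨hnoe, hfff⟩ := hN A
  obtain ⟨n, ⟨e⟩⟩ := hXF Γ D P N π hUL X q (fam_fam X q) A
  have hle : famSub π L hL A ≤ famSub π (fun B => fam π Finset.univ X B q) (fam_fam X q) A :=
    fun x hx => hLX A hx
  have hnoeF : IsNoetherian (ZM (stabM π A))
      (famSub π (fun B => fam π Finset.univ X B q) (fam_fam X q) A) :=
    isNoetherian_of_linearEquiv e.symm
  exact hfff _ (Module.Finite.of_injective (Submodule.inclusion hle)
    (Submodule.inclusion_injective hle))

end Pool.Agent.Lib.MP_551055_al.MT
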