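import Mathlib
import Pool.Agent.Lib.MP_551055_al.Trim.MT.Base
import Pool.Agent.Lib.MP_551055_al.Trim.MT.Defs
import Pool.Agent.Lib.MP_551055_al.Trim.MT.Gen
import Pool.Agent.Lib.MP_551055_al.Trim.MT.Map
import Pool.Agent.Lib.MP_551055_al.Trim.MT.StB

/-!
# Many trees: module ResTr
-/

set_option autoImplicit false

namespace Pool.Agent.Lib.MP_551055_al
end Pool.Agent.Lib.MP_551055_al

namespace Pool.Agent.Lib.MP_551055_al.MT

open Pool.Agent.Lib.MP_551055_al

open Matrix

namespace RTr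

variable {Γ : Type} [Group Γ] {D : Type} [Fintype D] {P : D → Type} [∀ i, PartialOrder (P i)]
  [∀ i, MulAction Γ (P i)] [SzAct Γ P] {N : Type} [Monoid N] {π : N →* Γ}

/-! ## The object with the sizes `o (s i)` -/

section

variable {n : ℕ} (o : Fin n → Sz P) {k : ℕ} (s : Fin k → Fin n) (c : ℤ)

/-- The object. -/
abbrev R0 : Ob P where
  ι := Fin k
  ft := inferInstance
  de := inferInstance
  deg := fun _ => c
  sz := fun i => o (s i)

variable (π)

/-- The idempotents. -/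
noncomputable abbrev eB (b : Fin n) : TE π o := jE π o b 1

theorem eB_val (b : Fin n) : (eB π o b).1 = Matrix.single b b 1 := by
  rw [eB, jE_val, map_one]

/-- The projective modules. -/
abbrev QQ : Type := ∀ i, PE (eB π o (s i))

variable {π o s}

theorem pe_apply {b : Fin n} {x : TE π o} (hx : x ∈ PE (eB π o b)) (a b' : Fin n) (h : b' ≠ b) :
    x.1 a b' = 0 := by
  have h1 : x.1 * Matrix.single b b 1 = x.1 := by
    have h2 := congrArg Subtype.val (mem_PE.1 hx)
    rwa [Subring.coe_mul, eB_val] at h2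
  rw [← h1, Matrix.mul_single_apply_of_ne _ _ _ _ _ h]

/-- The columns. -/
def col (p : QQ π o s) (a : Fin n) : Fin k → ZM N := fun i => (p i).1.1 a (s i)

theorem col_mem (p : QQ π o s) (a : Fin n) :
    col p a ∈ fam π Finset.univ (R0 o s c) (o a) c := by
  intro i m hm
  exact ⟨rfl, fun j _ => (p i).1.2 a (s i) m hm j⟩

/-- Every family of columns comes from an element. -/
theorem exists_col (v : Fin n → Fin k → ZM N)
    (hv : ∀ a, v a ∈ fam π Finset.univ (R0 o s c) (o a) c) :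
    ∃ p : QQ π o s, ∀ a, col p a = v a := by
  refine ⟨fun i => ⟨⟨fun a b => if b = s i then v a i else 0, fun a b m hm => ?_⟩, ?_⟩,
    fun a => ?_⟩
  · change (if b = s i then v a i else 0 : ZM N).coeff m ≠ 0 at hm
    by_cases h : b = s i
    · rw [if_pos h] at hm
      intro j
      rw [h]
      exact (hv a i m hm).2 j (Finset.mem_univ j)
    · rw [if_neg h] at hm
      exact absurd rfl hm
  · rw [mem_PE]
    apply Subtype.ext
    rw [Subring.coe_mul, eB_val]
    ext1 a b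
    by_cases hb : b = s i
    · subst hb
      rw [Matrix.mul_single_apply_same, mul_one]
    · rw [Matrix.mul_single_apply_of_ne _ _ _ _ _ hb]
      change 0 = if b = s i then v a i else 0
      rw [if_neg hb]
  · funext i
    change (if s i = s i then v a i else 0) = v a i
    rw [if_pos rfl]

theorem eq_of_col {p p' : QQ π o s} (h : ∀ a, col p a = col p' a) : p = p' := by
  funext i
  apply Subtype.ext
  apply Subtype.ext
  ext1 a b
  by_cases hb : b = s i
  · subst hb
    exact congrFun (h a) i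
  · rw [pe_apply (p i).2 a b hb, pe_apply (p' i).2 a b hb]

theorem col_smul (x : TE π o) (p : QQ π o s) (a : Fin n) :
    col (x • p) a = ∑ b, x.1 a b • col p b := by
  funext i
  rw [Finset.sum_apply]
  change (x.1 * (p i).1.1) a (s i) = _
  rw [Matrix.mul_apply]
  rfl

/-- The generators. -/
noncomputable def gen (i : Fin k) : QQ π o s := Pi.single i ⟨eB π o (s i), mem_PE.2 (by
  rw [eB, ← map_mul, one_mul])⟩

theorem sum_gen (p : QQ π o s) : ∑ i, (p i).1 • gen i = p := by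
  funext i
  rw [Finset.sum_apply, Finset.sum_eq_single i]
  · apply Subtype.ext
    rw [gen, Pi.smul_apply, Pi.single_eq_same]
    exact mem_PE.1 (p i).2
  · intro j _ hj
    rw [gen, Pi.smul_apply, Pi.single_eq_of_ne (Ne.symm hj), smul_zero]
  · intro h
    exact absurd (Finset.mem_univ i) h

theorem eB_smul_gen (i : Fin k) : eB π o (s i) • (gen i : QQ π o s) = gen i := by
  funext j
  by_cases hj : j = i
  · subst hj
    apply Subtype.ext
    rw [gen, Pi.smul_apply, Pi.single_eq_same]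
    change eB π o (s j) * eB π o (s j) = eB π o (s j)
    rw [eB, ← map_mul, one_mul]
  · rw [gen, Pi.smul_apply, Pi.single_eq_of_ne hj, smul_zero]

variable {ι : Type} {L : Sz P → AddSubgroup (ι → ZM N)} {hL : Fam π L}

/-- The rows. -/
noncomputable def rr (f : QQ π o s →ₗ[TE π o] ML π o ι L hL) : Matrix (Fin k) ι (ZM N) :=
  fun i => (f (gen i)).1 (s i)

theorem smul_row {ι : Type} (x : TE π o) (v : Rw N n ι) (a : Fin n) :
    (x • v) a = ∑ b, x.1 a b • v b := by
  funext k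
  rw [modTE_smul, Finset.sum_apply]
  rfl

theorem f_gen (f : QQ π o s →ₗ[TE π o] ML π o ι L hL) (i : Fin k) (a : Fin n) (ha : a ≠ s i) :
    (f (gen i)).1 a = 0 := by
  have h1 : (f (gen i)).1 = eB π o (s i) • (f (gen i)).1 := by
    rw [← Submodule.coe_smul, ← map_smul, eB_smul_gen]
  rw [h1, smul_row]
  refine Finset.sum_eq_zero fun b _ => ?_
  rw [eB_val, Matrix.single_apply_of_row_ne (Ne.symm ha), zero_smul]

theorem f_apply (f : QQ π o s →ₗ[TE π o] ML π o ι L hL) (p : QQ π o s) (a : Fin n) :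
    (f p).1 a = col p a ᵥ* rr f := by
  have h1 : f p = ∑ i, (p i).1 • f (gen i) := by
    conv_lhs => rw [← sum_gen p]
    rw [map_sum]
    exact Finset.sum_congr rfl fun i _ => map_smul _ _ _
  have h2 : (f p).1 a = ∑ i, ((p i).1 • (f (gen i)).1) a := by
    rw [h1, Submodule.coe_sum]
    exact Finset.sum_apply _ _ _
  rw [h2]
  have h3 : ∀ i, ((p i).1 • (f (gen i)).1) a = col p a i • rr f i := by
    intro i
    rw [smul_row, Finset.sum_eq_single (s i)]
    · rfl
    · intro b _ hb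
      rw [f_gen f i b hb, smul_zero]
    · intro h
      exact absurd (Finset.mem_univ _) h
  rw [Finset.sum_congr rfl fun i _ => h3 i]
  funext j
  rw [Finset.sum_apply]
  rfl

theorem rr_mem (f : QQ π o s →ₗ[TE π o] ML π o ι L hL) (i : Fin k) : rr f i ∈ L (o (s i)) :=
  (f (gen i)).2 (s i)

theorem rr_vecMul (f : QQ π o s →ₗ[TE π o] ML π o ι L hL) {B : Sz P} {y : Fin k → ZM N}
    (hy : y ∈ fam π Finset.univ (R0 o s c) B c) : y ᵥ* rr f ∈ L B := by
  have h1 : y ᵥ* rr f = ∑ i, y i • rr f i := by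
    funext j
    rw [Finset.sum_apply]
    rfl
  rw [h1]
  refine AddSubgroup.sum_mem _ fun i _ => ?_
  exact hL.smul_mem (fun m hm j => (hy i m hm).2 j (Finset.mem_univ j)) (rr_mem f i)

end

/-! ## Rows -/

section

variable {n : ℕ} {o : Fin n → Sz P} {ι : Type} {L : Sz P → AddSubgroup (ι → ZM N)}

/-- A vector of size `u • o b` as the row `b` of an element of the module. -/
theorem exists_row (hL : Fam π L) (b : Fin n) (u : Nˣ) {x : ι → ZM N} (hx : x ∈ L (π u • o b)) :
    ∃ v : ML π o ι L hL, v.1 b = (MonoidAlgebra.single (↑u⁻¹ : N) (1 : ℤ) : ZM N) • x ∧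
      ∀ a, a ≠ b → v.1 a = 0 := by
  have h1 : (MonoidAlgebra.single (↑u⁻¹ : N) (1 : ℤ) : ZM N) • x ∈ L (o b) := by
    have h2 := hL.act (↑u⁻¹ : N) _ x hx
    rwa [← mul_smul, ← map_mul, Units.inv_mul, map_one, one_smul] at h2
  refine ⟨⟨fun a => if a = b then (MonoidAlgebra.single (↑u⁻¹ : N) (1 : ℤ) : ZM N) • x else 0,
    fun a => ?_⟩, ?_, fun a ha => ?_⟩
  · change (if a = b then (MonoidAlgebra.single (↑u⁻¹ : N) (1 : ℤ) : ZM N) • x else 0) ∈ L (o a)
    by_cases ha : a = b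
    · subst ha
      rw [if_pos rfl]
      exact h1
    · rw [if_neg ha]
      exact (L (o a)).zero_mem
  · exact if_pos rfl
  · exact if_neg ha

theorem unit_smul_inv (u : Nˣ) (x : ι → ZM N) :
    (MonoidAlgebra.single (u : N) (1 : ℤ) : ZM N) •
      ((MonoidAlgebra.single (↑u⁻¹ : N) (1 : ℤ) : ZM N) • x) = x := by
  rw [smul_smul, MonoidAlgebra.single_mul_single, Units.mul_inv, mul_one,
    ← MonoidAlgebra.one_def, one_smul]

/-- Nonzero vectors live only at sizes equivalent to the `o b`. -/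
theorem exists_unit (hR : Reps π o) (X : Ob P) (hX : ∀ l, ∃ b, ∃ u : Nˣ, X.sz l = π u • o b)
    {q : ℤ} {B : Sz P} {x : X.ι → ZM N} (hx : x ∈ fam π Finset.univ X B q) (h0 : x ≠ 0) :
    ∃ b, ∃ u : Nˣ, B = π u • o b := by
  have h1 : ∃ l m, (x l).coeff m ≠ 0 := by
    by_contra hn
    push Not at hn
    apply h0
    funext l
    apply MonoidAlgebra.coeff_injective
    ext m
    exact hn l m
  obtain ⟨l, m, hm⟩ := h1
  obtain ⟨b, u, hu⟩ := hX l
  refine hR.down b (m * u) B fun i => ?_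
  rw [map_mul, mul_smul, ← hu]
  exact (hx l m hm).2 i (Finset.mem_univ i)

end

/-! ## One step -/

section

variable {n : ℕ} {o : Fin n → Sz P} {k : ℕ} {s : Fin k → Fin n} {X : Ob P}
  {L : Sz P → AddSubgroup (X.ι → ZM N)} {hL : Fam π L} {q : ℤ} (c : ℤ)

theorem r0_units (l : (R0 o s c).ι) : ∃ b, ∃ u : Nˣ, (R0 o s c).sz l = π u • o b :=
  ⟨s l, 1, by rw [Units.val_one, map_one, one_smul]⟩

theorem rr_surj (hR : Reps π o) (hX : ∀ l, ∃ b, ∃ u : Nˣ, X.sz l = π u • o b)
    (hLX : ∀ B, L B ≤ fam π Finset.univ X B q) (f : QQ π o s →ₗ[TE π o] ML π o X.ι L hL)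
    (hf : Function.Surjective f) {B : Sz P} {x : X.ι → ZM N} (hx : x ∈ L B) :
    ∃ y ∈ fam π Finset.univ (R0 o s c) B c, y ᵥ* rr f = x := by
  by_cases h0 : x = 0
  · exact ⟨0, AddSubgroup.zero_mem _, by rw [Matrix.zero_vecMul, h0]⟩
  obtain ⟨b, u, rfl⟩ := exists_unit hR X hX (hLX B hx) h0
  obtain ⟨v, hv, -⟩ := exists_row hL b u hx
  obtain ⟨p, rfl⟩ := hf v
  refine ⟨(MonoidAlgebra.single (u : N) (1 : ℤ) : ZM N) • col p b, fam_act (col_mem c p b) _, ?_⟩
  rw [Matrix.smul_vecMul, ← f_apply, hv, unit_smul_inv]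

theorem rr_inj (hR : Reps π o) (f : QQ π o s →ₗ[TE π o] ML π o X.ι L hL)
    (hf : Function.Injective f) {B : Sz P} {y : Fin k → ZM N}
    (hy : y ∈ fam π Finset.univ (R0 o s c) B c) (h : y ᵥ* rr f = 0) : y = 0 := by
  by_contra h0
  obtain ⟨b, u, rfl⟩ := exists_unit hR (R0 o s c) (r0_units c) hy h0
  obtain ⟨v, hv, hv'⟩ := exists_row (fam_fam (R0 o s c) c) b u hy
  obtain ⟨p, hp⟩ := exists_col c v.1 v.2
  have h1 : f p = 0 := by
    apply Subtype.ext
    funext a
    rw [f_apply, hp]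
    by_cases ha : a = b
    · subst ha
      rw [hv, Matrix.smul_vecMul, h, smul_zero]
      rfl
    · rw [hv' a ha]
      exact Matrix.zero_vecMul _
  have h2 : p = 0 := hf (h1.trans (map_zero f).symm)
  have h3 : (MonoidAlgebra.single (↑u⁻¹ : N) (1 : ℤ) : ZM N) • y = 0 := by
    rw [← hv, ← hp, h2]
    rfl
  apply h0
  rw [← unit_smul_inv u y, h3, smul_zero]

/-- The kernel. -/
theorem ker_equiv (f : QQ π o s →ₗ[TE π o] ML π o X.ι L hL)
    (hK : Fam π (kerF π Finset.univ (R0 o s c) (rr f) c)) :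
    Nonempty (LinearMap.ker f ≃ₗ[TE π o]
      ML π o (Fin k) (kerF π Finset.univ (R0 o s c) (rr f) c) hK) := by
  let F : LinearMap.ker f →ₗ[TE π o]
      ML π o (Fin k) (kerF π Finset.univ (R0 o s c) (rr f) c) hK :=
    { toFun := fun p => ⟨fun a => col p.1 a, fun a => ⟨col_mem c p.1 a, by
        rw [← f_apply, LinearMap.mem_ker.1 p.2]
        rfl⟩⟩
      map_add' := fun p p' => rfl
      map_smul' := fun x p => by
        apply Subtype.ext
        funext a
        change col (x • p.1) a = (x • (show Rw N n (Fin k) from fun a => col p.1 a)) a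
        rw [col_smul, smul_row] }
  refine ⟨LinearEquiv.ofBijective F ⟨fun p p' h => ?_, fun v => ?_⟩⟩
  · apply Subtype.ext
    exact eq_of_col fun a => congrFun (congrArg Subtype.val h) a
  · obtain ⟨p, hp⟩ := exists_col c v.1 fun a => (v.2 a).1
    refine ⟨⟨p, ?_⟩, ?_⟩
    · rw [LinearMap.mem_ker]
      apply Subtype.ext
      funext a
      rw [f_apply, hp]
      exact (v.2 a).2
    · apply Subtype.ext
      funext a
      exact hp a

end

/-! ## Glueing -/

theorem hasRes_zero {n : ℕ} {o : Fin n → Sz P} {k : ℕ} {s : Fin k → Fin n} {X : Ob P}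
    {L : Sz P → AddSubgroup (X.ι → ZM N)} {hL : Fam π L} {q : ℤ} (c : ℤ) (hR : Reps π o)
    (hX : ∀ l, ∃ b, ∃ u : Nˣ, X.sz l = π u • o b) (hLX : ∀ B, L B ≤ fam π Finset.univ X B q)
    (f : QQ π o s →ₗ[TE π o] ML π o X.ι L hL) (hf : Function.Bijective f) :
    HasRes π X L q c := by
  let R : Co P N := { toOb := R0 o s c, d := 0 }
  refine ⟨R, rr f, ⟨Ct.zero, Matrix.mul_zero _⟩, fun _ => le_refl c, fun l k m hm => ?_,
    Matrix.zero_mul _, fun B y hy => rr_vecMul c f hy,
    fun B x hx => rr_surj c hR hX hLX f hf.2 hx, fun B y hy h => ?_, fun a ha B y hy => ?_⟩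
  · obtain ⟨h1, h2⟩ := hLX _ (rr_mem f l) k m hm
    exact ⟨rfl, h1, fun i => h2 i (Finset.mem_univ i)⟩
  · rw [rr_inj c hR f hf.1 hy h]
    exact AddSubgroup.zero_mem _
  · have h1 : y = 0 := by
      funext l
      apply MonoidAlgebra.coeff_injective
      ext m
      by_contra hm
      exact absurd (hy.1 l m hm).1 ha.ne
    rw [h1]
    exact AddSubgroup.zero_mem _

theorem fam_zero_of_deg {X : Ob P} {B : Sz P} {q : ℤ} {x : X.ι → ZM N}
    (hx : x ∈ fam π Finset.univ X B q) (h : ∀ l, X.deg l ≠ q) : x = 0 := by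
  funext l
  apply MonoidAlgebra.coeff_injective
  ext m
  by_contra hm
  exact h l (hx l m hm).1

theorem vecMul_zero_of_deg {X : Ob P} {κ : Type} {B : Sz P} {q : ℤ} {x : X.ι → ZM N}
    (hx : x ∈ fam π Finset.univ X B q) {r : Matrix X.ι κ (ZM N)}
    (h : ∀ l k m, (r l k).coeff m ≠ 0 → X.deg l ≠ q) : x ᵥ* r = 0 := by
  funext k
  apply MonoidAlgebra.coeff_injective
  ext m
  by_contra hm
  obtain ⟨l, a, b, ha, hb, -⟩ := coeff_vecMul_ne hm
  exact h l k b hb (hx l a ha).1

theorem vecMul_fromRows_elim {α β κ : Type} [Fintype α] [Fintype β] (y : α ⊕ β → ZM N)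
    (A : Matrix α κ (ZM N)) : y ᵥ* Matrix.fromRows A (0 : Matrix β κ (ZM N))
      = (fun l => y (Sum.inl l)) ᵥ* A := by
  funext k
  change ∑ l, y l * Matrix.fromRows A 0 l k = ∑ l, y (Sum.inl l) * A l k
  rw [Fintype.sum_sum_type]
  have h1 : ∑ l, y (Sum.inr l) * Matrix.fromRows A (0 : Matrix β κ (ZM N)) (Sum.inr l) k = 0 :=
    Finset.sum_eq_zero fun l _ => mul_zero _
  rw [h1, add_zero]
  rfl

/-- Glueing of a first step and a resolution of the kernel. -/
theorem hasRes_succ {X R₀ : Ob P} {L : Sz P → AddSubgroup (X.ι → ZM N)} {q c : ℤ}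
    (hc : ∀ l, R₀.deg l = c) (r : Matrix R₀.ι X.ι (ZM N))
    (hr : ∀ l k m, (r l k).coeff m ≠ 0 → X.deg k = q ∧ ∀ i, R₀.sz l i ≤ π m • X.sz k i)
    (h1 : ∀ B, ∀ y ∈ fam π Finset.univ R₀ B c, y ᵥ* r ∈ L B)
    (h2 : ∀ B, ∀ x ∈ L B, ∃ y ∈ fam π Finset.univ R₀ B c, y ᵥ* r = x)
    (h3 : HasRes π R₀ (kerF π Finset.univ R₀ r c) c (c + 1)) : HasRes π X L q c := by
  obtain ⟨R', r', hcx, hdeg, hr', hdr, hin, hsur, hinj, hex⟩ := h3
  have hr0 : r' * r = 0 := by
    ext1 l k
    by_cases hl : R'.deg l = c + 1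
    · have h4 := (hin _ _ (hl ▸ basis_mem_fam (π := π) (U := Finset.univ) (X := R'.toOb) l)).2
      rw [Matrix.single_one_vecMul] at h4
      exact congrFun h4 k
    · have h5 : r' l = 0 := by
        funext j
        apply MonoidAlgebra.coeff_injective
        ext m
        by_contra hm
        exact hl (hr' l j m hm).1
      rw [Matrix.mul_apply]
      refine Finset.sum_eq_zero fun j _ => ?_
      rw [h5, Pi.zero_apply, zero_mul]
  let R : Co P N :=
    { ι := R₀.ι ⊕ R'.ι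
      ft := inferInstance
      de := inferInstance
      deg := Sum.elim R₀.deg R'.deg
      sz := Sum.elim R₀.sz R'.sz
      d := Matrix.fromBlocks 0 0 r' R'.d }
  have hd : ∀ y : R₀.ι ⊕ R'.ι → ZM N, y ᵥ* R.d = Sum.elim ((fun l => y (Sum.inr l)) ᵥ* r')
      ((fun l => y (Sum.inr l)) ᵥ* R'.d) := by
    intro y
    have h4 := Matrix.vecMul_fromBlocks (0 : Matrix R₀.ι R₀.ι (ZM N)) 0 r' R'.d y
    rw [Matrix.vecMul_zero, Matrix.vecMul_zero, zero_add, zero_add] at h4
    exact h4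
  have hfam : ∀ {B : Sz P} {a : ℤ} {y : R₀.ι ⊕ R'.ι → ZM N},
      y ∈ fam π Finset.univ R.toOb B a ↔ (fun l => y (Sum.inl l)) ∈ fam π Finset.univ R₀ B a ∧
        (fun l => y (Sum.inr l)) ∈ fam π Finset.univ R'.toOb B a := by
    intro B a y
    constructor
    · intro hy
      exact ⟨fun l m hm => hy (Sum.inl l) m hm, fun l m hm => hy (Sum.inr l) m hm⟩
    · rintro ⟨ha, hb⟩ (l | l) m hm
      · exact ha l m hm
      · exact hb l m hm
  refine ⟨R, Matrix.fromRows r 0, ⟨?_, ?_⟩, ?_, ?_, ?_, ?_, ?_, ?_, ?_⟩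
  · rintro (l | l) (k | k) m hm
    · exact absurd rfl hm
    · exact absurd rfl hm
    · obtain ⟨h4, h5, h6⟩ := hr' l k m hm
      refine ⟨?_, fun i _ => h6 i⟩
      change R₀.deg k = R'.deg l + -1
      rw [h4, h5]
      ring
    · exact hcx.1 l k m hm
  · change Matrix.fromBlocks 0 0 r' R'.d * Matrix.fromBlocks 0 0 r' R'.d = 0
    rw [Matrix.fromBlocks_multiply, hdr, hcx.2]
    simp only [Matrix.mul_zero, Matrix.zero_mul, add_zero]
    exact Matrix.fromBlocks_zero
  · rintro (l | l)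
    · exact (hc l).ge
    · exact (by omega : c ≤ c + 1).trans (hdeg l)
  · rintro (l | l) k m hm
    · exact ⟨hc l, hr l k m hm⟩
    · exact absurd rfl hm
  · change Matrix.fromBlocks 0 0 r' R'.d * Matrix.fromRows r 0 = 0
    rw [Matrix.fromBlocks_mul_fromRows]
    simp only [Matrix.mul_zero, Matrix.zero_mul, add_zero, hr0]
    exact Matrix.fromRows_zero
  · intro B y hy
    rw [vecMul_fromRows_elim]
    exact h1 B _ (hfam.1 hy).1
  · intro B x hx
    obtain ⟨y, hy, hyx⟩ := h2 B x hx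
    refine ⟨Sum.elim y 0, hfam.2 ⟨hy, AddSubgroup.zero_mem _⟩, ?_⟩
    rw [vecMul_fromRows_elim]
    exact hyx
  · intro B y hy h
    rw [vecMul_fromRows_elim] at h
    obtain ⟨ha, hb⟩ := hfam.1 hy
    obtain ⟨z, hz, hzy⟩ := hsur B _ ⟨ha, h⟩
    have hb0 := fam_zero_of_deg hb fun l hl => by
      have := hdeg l
      omega
    refine ⟨Sum.elim 0 z, hfam.2 ⟨AddSubgroup.zero_mem _, hz⟩, ?_⟩
    rw [hd]
    have h4 : z ᵥ* R'.d = 0 := by
      refine fam_zero_of_deg (fam_vecMul' hcx.1 hz (by ring : c + 1 + -1 = c)) fun l hl => ?_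
      have := hdeg l
      omega
    funext l
    rcases l with l | l
    · exact congrFun hzy l
    · exact (congrFun h4 l).trans (congrFun hb0 l).symm
  · intro a ha B y hy
    obtain ⟨ha', hb⟩ := hfam.1 hy.1
    have h0 := fam_zero_of_deg ha' fun l hl => by
      have := hc l
      omega
    have h4 := hy.2
    rw [hd] at h4
    have h5 : (fun l => y (Sum.inr l)) ᵥ* r' = 0 := by
      funext l
      exact congrFun h4 (Sum.inl l)
    have h6 : (fun l => y (Sum.inr l)) ᵥ* R'.d = 0 := by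
      funext l
      exact congrFun h4 (Sum.inr l)
    have h7 : (fun l => y (Sum.inr l)) ∈ BC π Finset.univ R' a B := by
      rcases eq_or_ne a (c + 1) with rfl | hne
      · exact hinj B _ hb h5
      · exact hex a (by omega) B ⟨hb, h6⟩
    obtain ⟨z, hz, hzy⟩ := h7
    refine ⟨Sum.elim 0 z, hfam.2 ⟨AddSubgroup.zero_mem _, hz⟩, ?_⟩
    rw [hd]
    have h8 : z ᵥ* r' = 0 := vecMul_zero_of_deg hz fun l k m hm hl => by
      have := (hr' l k m hm).1
      omega
    funext l
    rcases l with l | l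
    · exact (congrFun h8 l).trans (congrFun h0 l).symm
    · exact congrFun hzy l

end RTr

theorem RTr.fx_congr {E : Type} [Ring E] {n : ℕ} {e : Fin n → E} {d : ℕ} {A B : Type}
    [AddCommGroup A] [AddCommGroup B] [Module E A] [Module E B] (φ : A ≃ₗ[E] B)
    (h : FX e d A) : FX e d B := by
  cases d with
  | zero =>
    obtain ⟨k, s, ⟨ψ⟩⟩ := h
    exact ⟨k, s, ⟨φ.symm.trans ψ⟩⟩
  | succ d =>
    obtain ⟨k, s, f, hf, hk⟩ := h
    refine ⟨k, s, φ.toLinearMap ∘ₗ f, φ.surjective.comp hf, ?_⟩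
    rw [LinearMap.ker_comp_of_ker_eq_bot f (LinearEquiv.ker φ)]
    exact hk

theorem stResTr : StResTr := by
  intro Γ _ D _ P _ _ _ _ N _ π hUL n o hR d
  induction d with
  | zero =>
    intro X hX q L hL hLX hFX c
    obtain ⟨k, s, ⟨e⟩⟩ := hFX
    exact RTr.hasRes_zero (s := s) c hR hX hLX e.symm.toLinearMap e.symm.bijective
  | succ d ih =>
    intro X hX q L hL hLX hFX c
    obtain ⟨k, s, f, hf, hk⟩ := hFX
    have hK : Fam π (kerF π Finset.univ (RTr.R0 o s c) (RTr.rr f) c) := kerF_fam _ _ _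
    obtain ⟨e⟩ := RTr.ker_equiv c f hK
    refine RTr.hasRes_succ (R₀ := RTr.R0 o s c) (fun _ => rfl) (RTr.rr f) (fun l k m hm => ?_)
      (fun B y hy => RTr.rr_vecMul c f hy) (fun B x hx => RTr.rr_surj c hR hX hLX f hf hx) ?_
    · obtain ⟨h1, h2⟩ := hLX _ (RTr.rr_mem f l) k m hm
      exact ⟨h1, fun i => h2 i (Finset.mem_univ i)⟩
    · refine ih (RTr.R0 o s c) (RTr.r0_units c) c _ hK (fun B => kerF_le_fam _ _ _ _)
        (RTr.fx_congr e hk) (c + 1)

end Pool.Agent.Lib.MP_551055_al.MT
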