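import Mathlib
import Pool.Agent.Lib.MP_551055_al.Trim.LS.Stmts
import Pool.Agent.Lib.MP_551055_al.Trim.MT.Base
import Pool.Agent.Lib.MP_551055_al.Trim.MT.Defs
import Pool.Agent.Lib.MP_551055_al.Trim.MT.Map
import Pool.Agent.Lib.MP_551055_al.Trim.MT.StA
import Pool.Agent.Lib.MP_551055_al.Trim.MT.StB

/-!
# Many trees: rescaling a complex over `ℤ[G × ℤ]`
-/

set_option autoImplicit false

namespace Pool.Agent.Lib.MP_551055_al
end Pool.Agent.Lib.MP_551055_al

namespace Pool.Agent.Lib.MP_551055_al.MT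

open Pool.Agent.Lib.MP_551055_al

open Matrix

/-- The variable is central. -/
theorem resc_comm (G : Type) [Group G] (a : ℤ) (x : ZM (GZ G)) :
    zZ G a * x = x * zZ G a := by
  induction x using MonoidAlgebra.induction_linear with
  | zero => rw [mul_zero, zero_mul]
  | add y z hy hz => rw [mul_add, add_mul, hy, hz]
  | single m c =>
    unfold zZ
    rw [MonoidAlgebra.single_mul_single, MonoidAlgebra.single_mul_single, one_mul, mul_one]
    congr 1
    refine Prod.ext ?_ ?_
    · change 1 * m.1 = m.1 * 1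
      rw [one_mul, mul_one]
    · exact mul_comm _ _

/-- Powers of the variable. -/
theorem resc_mul (G : Type) [Group G] (a b : ℤ) : zZ G a * zZ G b = zZ G (a + b) := by
  unfold zZ
  rw [MonoidAlgebra.single_mul_single, one_mul]
  congr 1
  refine Prod.ext ?_ ?_
  · change (1 : G) * 1 = 1
    rw [one_mul]
  · rfl

theorem resc_zero (G : Type) [Group G] : zZ G 0 = 1 := rfl

section

variable {Γ : Type} [Group Γ] {D : Type} {P : D → Type} [∀ i, PartialOrder (P i)]
  [∀ i, MulAction Γ (P i)] {G : Type} [Group G]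

/-- The diagonal matrix with the entries `z ^ (c * deg l)`. -/
noncomputable def rescD (G : Type) [Group G] (X : Ob P) (c : ℤ) :
    Matrix X.ι X.ι (ZM (GZ G)) := Matrix.diagonal fun l => zZ G (c * X.deg l)

theorem resc_ct (π : G →* Γ) (U : Finset D) (X : Ob P) (c : ℤ) :
    Ct (pZ π) U 0 X X (rescD G X c) := by
  intro l k m hm
  by_cases h : l = k
  · subst h
    unfold rescD at hm
    rw [Matrix.diagonal_apply_eq] at hm
    have h2 : m = (1, Multiplicative.ofAdd (c * X.deg l)) := coeff_single_ne hm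
    have h3 : pZ π (1, Multiplicative.ofAdd (c * X.deg l)) = 1 := map_one π
    refine ⟨(add_zero _).symm, fun i _ => ?_⟩
    rw [h2, h3, one_smul]
  · exfalso
    unfold rescD at hm
    rw [Matrix.diagonal_apply_ne _ h] at hm
    exact hm rfl

theorem resc_inv (X : Ob P) (c : ℤ) : rescD G X c * rescD G X (-c) = 1 := by
  unfold rescD
  rw [Matrix.diagonal_mul_diagonal, ← Matrix.diagonal_one]
  congr 1
  funext l
  rw [resc_mul, show c * X.deg l + -c * X.deg l = 0 by ring, resc_zero]

end

theorem stResc (h : StClr) : StResc := by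
  intro Γ _ D P _ _ _ G _ π V M hM
  obtain ⟨a, f', hf', hfa⟩ := (h Γ D P G π V M.toOb M.toOb (-1)).1 M.d hM.1
  have hdeg : ∀ l k, M.d l k ≠ 0 → M.deg k = M.deg l - 1 := by
    intro l k hlk
    have : ∃ m, (M.d l k).coeff m ≠ 0 := by
      by_contra hc
      push Not at hc
      apply hlk
      ext m
      exact hc m
    obtain ⟨m, hm⟩ := this
    exact (hM.1 l k m hm).1
  have hmap : f'.map (loc G) = (zZ G a • M.d : Matrix M.ι M.ι (ZM (GZ G))) := hfa
  have hsq : (zZ G a • M.d : Matrix M.ι M.ι (ZM (GZ G))) * (zZ G a • M.d) = 0 := by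
    have e : M.d * (zZ G a • M.d) = (zZ G a • (M.d * M.d) : Matrix M.ι M.ι (ZM (GZ G))) := by
      ext1 l k
      rw [Matrix.mul_apply, Matrix.smul_apply, Matrix.mul_apply, smul_eq_mul, Finset.mul_sum]
      refine Finset.sum_congr rfl fun j _ => ?_
      rw [Matrix.smul_apply, smul_eq_mul, ← mul_assoc, ← resc_comm, mul_assoc]
    rw [Matrix.smul_mul, e, hM.2, smul_zero, smul_zero]
  have hff : f' * f' = 0 := by
    have h1 : (f' * f').map (loc G) = 0 := by
      rw [map_mul', hmap, hsq]
    ext1 l k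
    have h2 := congrFun (congrFun h1 l) k
    have h3 : loc G ((f' * f') l k) = 0 := h2
    apply loc_injective
    rw [h3]
    exact (map_zero _).symm
  refine ⟨{ M.toOb with d := f' }, ⟨hf', hff⟩, rescD G M.toOb a, rescD G M.toOb (-a), ?_, ?_,
    ?_, ?_⟩
  · refine ⟨resc_ct π V M.toOb a, ?_⟩
    change f'.map (loc G) * rescD G M.toOb a = rescD G M.toOb a * M.d
    rw [hmap]
    unfold rescD
    ext1 l k
    rw [Matrix.mul_diagonal, Matrix.diagonal_mul, Matrix.smul_apply, smul_eq_mul]
    by_cases h0 : M.d l k = 0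
    · rw [h0, mul_zero, mul_zero, zero_mul]
    · rw [mul_assoc, ← resc_comm, ← mul_assoc, resc_mul, hdeg l k h0]
      congr 2
      ring
  · refine ⟨resc_ct π V M.toOb (-a), ?_⟩
    change M.d * rescD G M.toOb (-a) = rescD G M.toOb (-a) * f'.map (loc G)
    rw [hmap]
    unfold rescD
    ext1 l k
    rw [Matrix.mul_diagonal, Matrix.diagonal_mul, Matrix.smul_apply, smul_eq_mul]
    by_cases h0 : M.d l k = 0
    · rw [h0, mul_zero, mul_zero, zero_mul]
    · rw [← resc_comm, ← mul_assoc, resc_mul, hdeg l k h0]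
      congr 2
      ring
  · have e : rescD G M.toOb (a : ℤ) * rescD G M.toOb (-(a : ℤ)) - 1 = 0 := by
      rw [resc_inv, sub_self]
    rw [e]
    exact Nul.zero
  · have e : rescD G M.toOb (-(a : ℤ)) * rescD G M.toOb (a : ℤ) - 1 = 0 := by
      have := resc_inv (G := G) M.toOb (-(a : ℤ))
      rw [neg_neg] at this
      rw [this, sub_self]
    rw [e]
    exact Nul.zero

end Pool.Agent.Lib.MP_551055_al.MT
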