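import Mathlib
import Pool.Agent.Lib.MP_551055_al.Trim.LS.Stmts
import Pool.Agent.Lib.MP_551055_al.Trim.MT.Base
import Pool.Agent.Lib.MP_551055_al.Trim.MT.Defs
import Pool.Agent.Lib.MP_551055_al.Trim.MT.Gen
import Pool.Agent.Lib.MP_551055_al.Trim.MT.Trees

/-!
# Many trees: acyclicity in the direction `i` (module SA1)
-/

set_option autoImplicit false

namespace Pool.Agent.Lib.MP_551055_al
end Pool.Agent.Lib.MP_551055_al

namespace Pool.Agent.Lib.MP_551055_al.LS
end Pool.Agent.Lib.MP_551055_al.LS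

namespace Pool.Agent.Lib.MP_551055_al.MT.SA1Aux
end Pool.Agent.Lib.MP_551055_al.MT.SA1Aux

namespace Pool.Agent.Lib.MP_551055_al.MT

open Pool.Agent.Lib.MP_551055_al

open Pool.Agent.Lib.MP_551055_al.LS (TreeAct side)

open Matrix

namespace SA1Aux

/-- Multiplication by a matrix from the right. -/
noncomputable def rmul {R α β : Type} [Ring R] [Fintype α] (f : Matrix α β R) :
    (α → R) →+ (β → R) :=
  AddMonoidHom.mk' (fun x => x ᵥ* f) fun x y => Matrix.add_vecMul f x y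

theorem rmul_apply {R α β : Type} [Ring R] [Fintype α] (f : Matrix α β R) (x : α → R) :
    rmul f x = x ᵥ* f := rfl

/-- The identity of a contraction, on vectors. -/
theorem contr_vec {R α : Type} [Ring R] [Fintype α] [DecidableEq α] {d c : Matrix α α R}
    (h : 1 = d * c + c * d) {x : α → R} (hx : x ᵥ* d = 0) : (x ᵥ* c) ᵥ* d = x := by
  have h1 : x ᵥ* (1 : Matrix α α R) = x ᵥ* (d * c + c * d) := by rw [← h]
  rw [Matrix.vecMul_one, Matrix.vecMul_add, ← Matrix.vecMul_vecMul, ← Matrix.vecMul_vecMul, hx,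
    Matrix.zero_vecMul, zero_add] at h1
  exact h1.symm

/-- A flow with boundary zero is zero. -/
theorem flow_zero (hF : StFlow) {V : Type} {T : SimpleGraph V} (hT : T.IsTree) {H : Type}
    [AddCommGroup H] {y : V → V → H} (hy : IsFlow T y) (h0 : ∀ v, bd y v = 0) {u v : V}
    (huv : T.Adj u v) : y u v = 0 := by
  obtain ⟨h1, -, -⟩ := hF V T hT H
  obtain ⟨-, -, h2⟩ := h1 y hy
  rw [h2 u v huv]
  have h3 : ∀ w, (∑ᶠ (_ : w ∈ side T u v), bd y w) = 0 := by
    intro w
    rw [h0 w]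
    exact finsum_zero
  rw [finsum_congr h3]
  exact finsum_zero

theorem finsum_mem_addSubgroup {V H : Type} [AddCommGroup H] (A : AddSubgroup H) {f : V → H}
    (h : ∀ v, f v ∈ A) : (∑ᶠ v, f v) ∈ A := by
  classical
  by_cases hf : (Function.support f).Finite
  · rw [finsum_eq_sum f hf]
    exact AddSubgroup.sum_mem _ fun v _ => h v
  · rw [finsum_of_infinite_support hf]
    exact AddSubgroup.zero_mem _

end SA1Aux

open SA1Aux

theorem stSA1 (hF : StFlow) (hF2 : StFlow2) (hMV : StMV) : StSA1 := by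
  intro Γ _ D _ _ V _ T h N _ π M i hM hC q
  classical
  obtain ⟨c, hc, hc1⟩ := hC
  have hT := (h i).tree
  obtain ⟨hd, hdd⟩ := hM
  have hFi := hF (V i) (T i) hT (M.ι → ZM N)
  obtain ⟨hF1, hF2', -⟩ := hFi
  obtain ⟨-, -, hmap, -, -, -⟩ := hF2 (V i) (T i) (M.ι → ZM N)
  have hdv : ∀ x : M.ι → ZM N, (x ᵥ* M.d) ᵥ* M.d = 0 := by
    intro x
    rw [Matrix.vecMul_vecMul, hdd, Matrix.vecMul_zero]
  have hsup : ∀ {f : V i → M.ι → ZM N} (g : Matrix M.ι M.ι (ZM N)),
      {w | f w ≠ 0}.Finite → {w | f w ᵥ* g ≠ 0}.Finite := by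
    intro f g hf
    refine hf.subset fun w hw h0 => hw ?_
    rw [h0, Matrix.zero_vecMul]
  have hsum : ∀ {f : V i → M.ι → ZM N} (g : Matrix M.ι M.ι (ZM N)),
      {w | f w ≠ 0}.Finite → ∑ᶠ w, (f w ᵥ* g) = (∑ᶠ w, f w) ᵥ* g := by
    intro f g hf
    exact (map_finsum (rmul g) (f := f) hf).symm
  constructor
  · intro B v x hx
    obtain ⟨hx1, hx2⟩ := hx
    obtain ⟨-, hle, hedge⟩ := hMV Γ D V T h N π M.toOb i q B
    obtain ⟨hdec, -, -⟩ := hMV Γ D V T h N π M.toOb i (q + 1) B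
    have hxc : x ᵥ* c ∈ fam π (Finset.univ.erase i) M.toOb B (q + 1) :=
      fam_vecMul hc (hle v hx1)
    obtain ⟨Y, hYf, hYm, hYs⟩ := hdec _ hxc
    have hYd : ∀ w, Y w ᵥ* M.d ∈ fam π Finset.univ M.toOb (upd B i (vtx (h i) w)) q :=
      fun w => fam_vecMul' hd (hYm w) (by ring)
    set e : V i → M.ι → ZM N := fun w => if w = v then x else 0 with he
    have hef : {w | e w ≠ 0}.Finite := by
      refine (Set.finite_singleton v).subset fun w hw => ?_
      by_contra hne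
      exact hw (if_neg hne)
    set z : V i → M.ι → ZM N := fun w => e w - Y w ᵥ* M.d with hz
    have hzf : {w | z w ≠ 0}.Finite := by
      refine (hef.union (hsup M.d hYf)).subset fun w hw => ?_
      by_contra hne
      rw [Set.mem_union, not_or] at hne
      have h1 : e w = 0 := by
        by_contra h2
        exact hne.1 h2
      have h3 : Y w ᵥ* M.d = 0 := by
        by_contra h2
        exact hne.2 h2
      apply hw
      change e w - Y w ᵥ* M.d = 0
      rw [h1, h3, sub_zero]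
    have hzs : ∑ᶠ w, z w = 0 := by
      have h1 : ∑ᶠ w, z w = ∑ᶠ w, e w - ∑ᶠ w, (Y w ᵥ* M.d) :=
        finsum_sub_distrib hef (hsup M.d hYf)
      rw [h1, hsum M.d hYf, hYs, contr_vec hc1 hx2]
      have h2 : ∑ᶠ w, e w = e v := finsum_eq_single e v fun w hw => if_neg hw
      rw [h2]
      change (if v = v then x else 0) - x = 0
      rw [if_pos rfl, sub_self]
    obtain ⟨y, hy, hbd⟩ := hF2' z hzf hzs
    have hyd := (hmap (M.ι → ZM N) (rmul M.d) y hy)
    have hzero : ∀ w, bd (fun u w => rmul M.d (y u w)) w = 0 := by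
      intro w
      rw [hyd.2 w, hbd w, rmul_apply]
      change (e w - Y w ᵥ* M.d) ᵥ* M.d = 0
      rw [Matrix.sub_vecMul, hdv, sub_zero]
      change (if w = v then x else 0) ᵥ* M.d = 0
      split_ifs
      · exact hx2
      · exact Matrix.zero_vecMul _
    have hzm : ∀ w, bd y w ∈ fam π Finset.univ M.toOb (upd B i (vtx (h i) w)) q := by
      intro w
      rw [hbd w]
      refine AddSubgroup.sub_mem _ ?_ (hYd w)
      change (if w = v then x else 0) ∈ _
      split_ifs with hw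
      · rw [hw]
        exact hx1
      · exact AddSubgroup.zero_mem _
    refine ⟨y, hy, ?_, ?_, ?_⟩
    · intro u w huw
      exact ⟨hedge y hy hzm u w huw, flow_zero hF hT hyd.1 hzero huw⟩
    · intro w hw
      refine ⟨-Y w, AddSubgroup.neg_mem _ (hYm w), ?_⟩
      rw [hbd w, Matrix.neg_vecMul]
      change -(Y w ᵥ* M.d) = (if w = v then x else 0) - Y w ᵥ* M.d
      rw [if_neg hw, zero_sub]
    · refine ⟨-Y v, AddSubgroup.neg_mem _ (hYm v), ?_⟩
      rw [hbd v, Matrix.neg_vecMul]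
      change -(Y v ᵥ* M.d) = (if v = v then x else 0) - Y v ᵥ* M.d - x
      rw [if_pos rfl]
      abel
  · intro B y hy hyZ hyB
    obtain ⟨-, hle, -⟩ := hMV Γ D V T h N π M.toOb i (q + 1) B
    obtain ⟨-, -, hedge⟩ := hMV Γ D V T h N π M.toOb i (q + 1) B
    obtain ⟨hdec, -, -⟩ := hMV Γ D V T h N π M.toOb i (q + 1 + 1) B
    obtain ⟨hbf, hbs, -⟩ := hF1 y hy
    have hb : ∀ w, ∃ b ∈ fam π Finset.univ M.toOb (upd B i (vtx (h i) w)) (q + 1),
        b ᵥ* M.d = bd y w ∧ (bd y w = 0 → b = 0) := by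
      intro w
      by_cases h0 : bd y w = 0
      · exact ⟨0, AddSubgroup.zero_mem _, by rw [h0, Matrix.zero_vecMul], fun _ => rfl⟩
      · obtain ⟨b, hb1, hb2⟩ := hyB w
        exact ⟨b, hb1, hb2, fun h1 => absurd h1 h0⟩
    choose b hb1 hb2 hb3 using hb
    have hbfin : {w | b w ≠ 0}.Finite := hbf.subset fun w hw h0 => hw (hb3 w h0)
    have hbsum : (∑ᶠ w, b w) ∈ fam π (Finset.univ.erase i) M.toOb B (q + 1) :=
      finsum_mem_addSubgroup _ fun w => hle w (hb1 w)
    have hbd0 : (∑ᶠ w, b w) ᵥ* M.d = 0 := by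
      rw [← hsum M.d hbfin, finsum_congr hb2, hbs]
    have hbc : (∑ᶠ w, b w) ᵥ* c ∈ fam π (Finset.univ.erase i) M.toOb B (q + 1 + 1) :=
      fam_vecMul hc hbsum
    obtain ⟨Y, hYf, hYm, hYs⟩ := hdec _ hbc
    have hYd : ∀ w, Y w ᵥ* M.d ∈ fam π Finset.univ M.toOb (upd B i (vtx (h i) w)) (q + 1) :=
      fun w => fam_vecMul' hd (hYm w) (by ring)
    set z : V i → M.ι → ZM N := fun w => b w - Y w ᵥ* M.d with hz
    have hzf : {w | z w ≠ 0}.Finite := by
      refine (hbfin.union (hsup M.d hYf)).subset fun w hw => ?_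
      by_contra hne
      rw [Set.mem_union, not_or] at hne
      have h1 : b w = 0 := by
        by_contra h2
        exact hne.1 h2
      have h3 : Y w ᵥ* M.d = 0 := by
        by_contra h2
        exact hne.2 h2
      apply hw
      change b w - Y w ᵥ* M.d = 0
      rw [h1, h3, sub_zero]
    have hzs : ∑ᶠ w, z w = 0 := by
      have h1 : ∑ᶠ w, z w = ∑ᶠ w, b w - ∑ᶠ w, (Y w ᵥ* M.d) :=
        finsum_sub_distrib hbfin (hsup M.d hYf)
      rw [h1, hsum M.d hYf, hYs, contr_vec hc1 hbd0, sub_self]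
    obtain ⟨y', hy', hbd'⟩ := hF2' z hzf hzs
    have hzm : ∀ w, bd y' w ∈ fam π Finset.univ M.toOb (upd B i (vtx (h i) w)) (q + 1) := by
      intro w
      rw [hbd' w]
      exact AddSubgroup.sub_mem _ (hb1 w) (hYd w)
    have hyd := hmap (M.ι → ZM N) (rmul M.d) y' hy'
    obtain ⟨hadd, hneg, -, -, -, -⟩ := hF2 (V i) (T i) (M.ι → ZM N)
    have hny := hneg y hy
    have hfl := hadd _ _ hyd.1 hny.1
    have hzero : ∀ w, bd (fun u w => rmul M.d (y' u w) + -y u w) w = 0 := by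
      intro w
      rw [hfl.2 w, hyd.2 w, hny.2 w, hbd' w, rmul_apply]
      change (b w - Y w ᵥ* M.d) ᵥ* M.d + -bd y w = 0
      rw [Matrix.sub_vecMul, hdv, sub_zero, hb2, add_neg_cancel]
    intro u w huw
    refine ⟨y' u w, hedge y' hy' hzm u w huw, ?_⟩
    have h1 := flow_zero hF hT hfl.1 hzero huw
    have h2 : (y' u w ᵥ* M.d) + -y u w = 0 := h1
    exact eq_of_sub_eq_zero (by rw [sub_eq_add_neg]; exact h2)

end Pool.Agent.Lib.MP_551055_al.MT
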