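import Mathlib
import Pool.Agent.Lib.MP_551055_al.Trim.LS.Stmts
import Pool.Agent.Lib.MP_551055_al.Trim.MT.Base
import Pool.Agent.Lib.MP_551055_al.Trim.MT.Defs
import Pool.Agent.Lib.MP_551055_al.Trim.MT.Gen
import Pool.Agent.Lib.MP_551055_al.Trim.MT.StB
import Pool.Agent.Lib.MP_551055_al.Trim.MT.Trees

/-!
# Many trees: acyclicity in the direction `i` gives contractibility without the direction `i`
-/

set_option autoImplicit false

namespace Pool.Agent.Lib.MP_551055_al
end Pool.Agent.Lib.MP_551055_al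

namespace Pool.Agent.Lib.MP_551055_al.LS
end Pool.Agent.Lib.MP_551055_al.LS

namespace Pool.Agent.Lib.MP_551055_al.MT.SA2aux
end Pool.Agent.Lib.MP_551055_al.MT.SA2aux

namespace Pool.Agent.Lib.MP_551055_al.MT

open Pool.Agent.Lib.MP_551055_al

open Pool.Agent.Lib.MP_551055_al.LS (TreeAct side)

open Matrix

namespace SA2aux

/-- Multiplication by a matrix as a homomorphism. -/
noncomputable def vm {N : Type} [Monoid N] {α β : Type} [Fintype α] (f : Matrix α β (ZM N)) :
    (α → ZM N) →+ (β → ZM N) where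
  toFun x := x ᵥ* f
  map_zero' := Matrix.zero_vecMul _
  map_add' _ _ := Matrix.add_vecMul _ _ _

theorem vm_apply {N : Type} [Monoid N] {α β : Type} [Fintype α] (f : Matrix α β (ZM N))
    (x : α → ZM N) : vm f x = x ᵥ* f := rfl

theorem finsum_mem_sub {H α : Type} [AddCommGroup H] (S : AddSubgroup H) (f : α → H)
    (hf : ∀ a, f a ∈ S) : ∑ᶠ a, f a ∈ S := by
  by_cases h : (Function.support f).Finite
  · rw [finsum_eq_sum f h]
    exact S.sum_mem fun a _ => hf a
  · rw [finsum_of_infinite_support h]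
    exact S.zero_mem

end SA2aux

open SA2aux in
theorem stSA2 (hF : StFlow) (hF2 : StFlow2) (hMV : StMV) (hQI : StQI) : StSA2 := by
  intro Γ _ D _ _ V _ T h N _ π M i hM hEI
  classical
  refine (hQI Γ D (SP h) N π (Finset.univ.erase i) M M (hM.mono (Finset.erase_subset _ _))
    (hM.mono (Finset.erase_subset _ _))).2 ?_
  intro q B x hx
  obtain ⟨hMV1, hMV2, -⟩ := hMV Γ D V T h N π M.toOb i q B
  obtain ⟨-, -, hMV3⟩ := hMV Γ D V T h N π M.toOb i (q - 1) B
  obtain ⟨hF1, hFb, hFc⟩ := hF (V i) (T i) (h i).tree (M.ι → ZM N)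
  obtain ⟨-, -, hG3, -, -, hG6⟩ := hF2 (V i) (T i) (M.ι → ZM N)
  obtain ⟨x', hx'fin, hx'mem, hx'sum⟩ := hMV1 x hx.1
  -- the flow with the boundary `x' d`
  have hd1 : ∀ w, x' w ᵥ* M.d ∈ fam π Finset.univ M.toOb (upd B i (vtx (h i) w)) (q - 1) :=
    fun w => fam_vecMul' hM.1 (hx'mem w) (by ring)
  have hd2 : {w | x' w ᵥ* M.d ≠ 0}.Finite := by
    refine hx'fin.subset ?_
    intro w hw hw0
    apply hw
    rw [hw0, Matrix.zero_vecMul]
  have hd3 : ∑ᶠ w, x' w ᵥ* M.d = 0 := by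
    have h1 : ∑ᶠ w, vm M.d (x' w) = vm M.d (∑ᶠ w, x' w) :=
      ((vm M.d).map_finsum (f := x') hx'fin).symm
    rw [hx'sum] at h1
    exact h1.trans hx.2
  obtain ⟨Y, hY, hYb⟩ := hFb (fun w => x' w ᵥ* M.d) hd2 hd3
  have hYmem : ∀ u w, (T i).Adj u w →
      Y u w ∈ fam π Finset.univ M.toOb (upd B i (edg (h i) u w)) (q - 1) :=
    hMV3 Y hY (fun w => by rw [hYb w]; exact hd1 w)
  have hYd : ∀ u w, (T i).Adj u w → Y u w ᵥ* M.d = 0 := by
    intro u w huw
    obtain ⟨h1, h2⟩ := hG3 (M.ι → ZM N) (vm M.d) Y hY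
    obtain ⟨-, -, h3⟩ := hF1 _ h1
    have h4 := h3 u w huw
    change Y u w ᵥ* M.d = _ at h4
    rw [h4]
    have h5 : ∀ v, bd (fun u v => vm M.d (Y u v)) v = 0 := by
      intro v
      rw [h2 v, hYb v, vm_apply, Matrix.vecMul_vecMul, hM.2, Matrix.vecMul_zero]
    simp only [h5, finsum_zero]
  have hYZ : ∀ u w, (T i).Adj u w →
      Y u w ∈ ZC π Finset.univ M (q - 1) (upd B i (edg (h i) u w)) :=
    fun u w huw => ⟨hYmem u w huw, hYd u w huw⟩
  have hq : q - 1 + 1 = q := by ring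
  have hYB : ∀ w, bd Y w ∈ BC π Finset.univ M (q - 1) (upd B i (vtx (h i) w)) := by
    intro w
    rw [hYb w]
    exact ⟨x' w, by rw [hq]; exact hx'mem w, rfl⟩
  have hYe := (hEI (q - 1)).2 B Y hY hYZ hYB
  -- lifting the flow
  obtain ⟨y', hy', hy'R⟩ := hFc (M.ι → ZM N) Y (fun u w z x => (T i).Adj u w →
      z ∈ fam π Finset.univ M.toOb (upd B i (edg (h i) u w)) q ∧ z ᵥ* M.d = x) hY
    (fun u w z x hR hwu => by
      obtain ⟨h1, h2⟩ := hR hwu.symm
      rw [edg_comm (h i) hwu]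
      exact ⟨AddSubgroup.neg_mem _ h1, by rw [Matrix.neg_vecMul, h2]⟩)
    (fun u w _ => ⟨AddSubgroup.zero_mem _, Matrix.zero_vecMul _⟩)
    (fun u w huw => by
      obtain ⟨z, hz, hzY⟩ := hYe u w huw
      rw [hq] at hz
      exact ⟨z, fun _ => ⟨hz, hzY⟩⟩)
  have hy'd : ∀ u w, y' u w ᵥ* M.d = Y u w := by
    intro u w
    by_cases huw : (T i).Adj u w
    · exact (hy'R u w huw).2
    · rw [hy'.adj u w huw, hY.adj u w huw, Matrix.zero_vecMul]
  have hbd : ∀ w, bd y' w ᵥ* M.d = x' w ᵥ* M.d := by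
    intro w
    obtain ⟨-, h2⟩ := hG3 (M.ι → ZM N) (vm M.d) y' hy'
    have h3 := h2 w
    rw [vm_apply] at h3
    rw [← h3, ← hYb w]
    congr 1
    funext u v
    exact hy'd u v
  have hbmem : ∀ w, bd y' w ∈ fam π Finset.univ M.toOb (upd B i (vtx (h i) w)) q := by
    intro w
    obtain ⟨s, -, hs⟩ := hG6 w y' hy'
    rw [hs]
    refine AddSubgroup.sum_mem _ fun u _ => ?_
    by_cases huw : (T i).Adj u w
    · refine fam_anti (fun i' _ => ?_) (hy'R u w huw).1
      by_cases hi' : i' = i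
      · subst hi'
        rw [upd, upd, Function.update_self, Function.update_self]
        exact (vtx_le (h i')).2 (by rw [edg_set (h i') huw]; exact Or.inr rfl)
      · rw [upd, upd, Function.update_of_ne hi', Function.update_of_ne hi']
    · rw [hy'.adj u w huw]
      exact AddSubgroup.zero_mem _
  -- the cycles `x''`
  have hx''Z : ∀ w, x' w - bd y' w ∈ ZC π Finset.univ M q (upd B i (vtx (h i) w)) := by
    intro w
    refine ⟨AddSubgroup.sub_mem _ (hx'mem w) (hbmem w), ?_⟩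
    rw [Matrix.sub_vecMul, hbd w, sub_self]
  obtain ⟨hy'1, hy'2, -⟩ := hF1 y' hy'
  have hx''sum : ∑ᶠ w, (x' w - bd y' w) = x := by
    rw [finsum_sub_distrib hx'fin hy'1, hx'sum, hy'2, sub_zero]
  have hBC : ∀ w, BC π Finset.univ M q (upd B i (vtx (h i) w)) ≤
      BC π (Finset.univ.erase i) M q B := by
    rintro w _ ⟨y, hy, rfl⟩
    exact ⟨y, (hMV Γ D V T h N π M.toOb i (q + 1) B).2.1 w hy, rfl⟩
  have hx''B : ∀ w, x' w - bd y' w ∈ BC π (Finset.univ.erase i) M q B := by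
    intro w
    obtain ⟨y, hy, -, hy2, hy3⟩ := (hEI q).1 B w _ (hx''Z w)
    obtain ⟨hb1, hb2, -⟩ := hF1 y hy
    have h1 : ∑ᶠ w', (bd y w' - if w' = w then x' w - bd y' w else 0) =
        0 - (x' w - bd y' w) := by
      rw [finsum_sub_distrib hb1, hb2, finsum_eq_single _ w, if_pos rfl]
      · intro w' hw'
        rw [if_neg hw']
      · refine (Set.finite_singleton w).subset ?_
        intro w' hw'
        by_contra hne
        exact hw' (if_neg hne)
    have h2 : ∑ᶠ w', (bd y w' - if w' = w then x' w - bd y' w else 0) ∈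
        BC π (Finset.univ.erase i) M q B := by
      apply finsum_mem_sub
      intro w'
      by_cases hw' : w' = w
      · subst hw'
        rw [if_pos rfl]
        exact hBC _ hy3
      · rw [if_neg hw', sub_zero]
        exact hBC _ (hy2 w' hw')
    rw [h1, zero_sub] at h2
    have h3 := AddSubgroup.neg_mem _ h2
    rwa [neg_neg] at h3
  rw [← hx''sum]
  exact finsum_mem_sub _ _ hx''B

end Pool.Agent.Lib.MP_551055_al.MT
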