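import Mathlib
import Pool.Agent.Lib.MP_551055_al.Trim.MT.Base
import Pool.Agent.Lib.MP_551055_al.Trim.MT.Defs
import Pool.Agent.Lib.MP_551055_al.Trim.MT.Gen
import Pool.Agent.Lib.MP_551055_al.Trim.MT.StB
import Pool.Agent.Lib.MP_551055_al.Trim.MT.Tg

/-!
# Many trees: maps into exact targets, basis element by basis element
-/

set_option autoImplicit false

namespace Pool.Agent.Lib.MP_551055_al
end Pool.Agent.Lib.MP_551055_al

namespace Pool.Agent.Lib.MP_551055_al.MT

open Pool.Agent.Lib.MP_551055_al

open Matrix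

private theorem slv_comb {N : Type} [Monoid N] {ι κ : Type} [Fintype ι] [Fintype κ] {V : Type}
    [AddCommGroup V] [Module (ZM N) V] (s : κ → V) (d : Matrix ι κ (ZM N)) (x : ι → ZM N) :
    ∑ k, x k • lin (N := N) s (d k) = lin (N := N) s (x ᵥ* d) := by
  have h : x ᵥ* d = ∑ k, x k • d k := by
    funext j
    rw [Finset.sum_apply]
    rfl
  rw [h, map_sum]
  exact Finset.sum_congr rfl fun k _ => by rw [map_smul]

/-- The equation for vectors follows from the equation for the basis elements which occur. -/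
private theorem slv_ext {N : Type} [Monoid N] {ι : Type} [Fintype ι] {V : Type}
    [AddCommGroup V] [Module (ZM N) V] (D : V →ₗ[ZM N] V) (c : ℤ) (f s : ι → V)
    (d : Matrix ι ι (ZM N)) (x : ι → ZM N)
    (h : ∀ k, x k ≠ 0 → D (s k) = f k + c • lin (N := N) s (d k)) :
    D (lin (N := N) s x) = lin (N := N) f x + c • lin (N := N) s (x ᵥ* d) := by
  rw [← slv_comb, lin_apply s x, lin_apply f x, map_sum, Finset.smul_sum,
    ← Finset.sum_add_distrib]
  refine Finset.sum_congr rfl fun k _ => ?_
  rw [map_smul]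
  by_cases h0 : x k = 0
  · rw [h0, zero_smul, zero_smul, zero_smul, smul_zero, add_zero]
  · rw [h k h0, smul_add, smul_comm (x k) c]

private theorem slv_congr {N : Type} [Monoid N] {ι : Type} [Fintype ι] {V : Type}
    [AddCommGroup V] [Module (ZM N) V] (s s' : ι → V) (x : ι → ZM N)
    (h : ∀ k, x k ≠ 0 → s k = s' k) : lin (N := N) s x = lin (N := N) s' x := by
  rw [lin_apply, lin_apply]
  refine Finset.sum_congr rfl fun k _ => ?_
  by_cases h0 : x k = 0
  · rw [h0, zero_smul, zero_smul]
  · rw [h k h0]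

private theorem slv_ne {N : Type} [Monoid N] {a : ZM N} (h : a ≠ 0) : ∃ m, a.coeff m ≠ 0 := by
  by_contra hn
  push Not at hn
  apply h
  apply MonoidAlgebra.coeff_injective
  ext m
  exact hn m

theorem stSolve : StSolve := by
  intro Γ _ D P _ _ _ N _ π U R T hR c δ f hf hfd hex
  -- rows of the differential
  have hdeg : ∀ l k, R.d l k ≠ 0 → R.deg k = R.deg l - 1 := by
    intro l k h
    obtain ⟨m, hm⟩ := slv_ne h
    have h1 := (hR.1 l k m hm).1
    omega
  have hrow : ∀ l, R.d l ∈ fam π U R.toOb (R.sz l) (R.deg l - 1) := fun l => ct_iff.1 hR.1 l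
  have hrow2 : ∀ l, R.d l ᵥ* R.d = 0 := by
    intro l
    have h1 : R.d l ᵥ* R.d = (R.d * R.d) l := rfl
    rw [h1, hR.2]
    rfl
  have hsing : ∀ l, (Pi.single l (1 : ZM N) : R.ι → ZM N) ᵥ* R.d = R.d l := by
    intro l
    exact Matrix.single_one_vecMul l R.d
  have hfl : ∀ l, T.d (f l) = -(c • lin (N := N) f (R.d l)) := by
    intro l
    have h1 := hfd (Pi.single l 1)
    rw [lin_single, one_smul, hsing] at h1
    exact h1
  -- the smallest degree
  obtain ⟨n0, hn0⟩ : ∃ n0 : ℤ, ∀ l, n0 ≤ R.deg l := by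
    obtain ⟨M, hM⟩ := (Set.finite_range R.deg).bddBelow
    exact ⟨M, fun l => hM ⟨l, rfl⟩⟩
  obtain ⟨n1, hn1⟩ : ∃ n1 : ℕ, ∀ l, R.deg l < n0 + n1 := by
    obtain ⟨M, hM⟩ := (Set.finite_range R.deg).bddAbove
    refine ⟨(M - n0 + 1).toNat, fun l => ?_⟩
    have h1 : R.deg l ≤ M := hM ⟨l, rfl⟩
    have h2 := Int.self_le_toNat (M - n0 + 1)
    omega
  have key : ∀ n : ℕ, ∃ s : R.ι → T.V, (∀ l, s l ∈ T.fam (R.sz l) (R.deg l + δ)) ∧
      ∀ l, R.deg l < n0 + n → T.d (s l) = f l + c • lin (N := N) s (R.d l) := by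
    intro n
    induction n with
    | zero =>
      refine ⟨0, fun l => AddSubgroup.zero_mem _, fun l hl => ?_⟩
      have h1 := hn0 l
      push_cast at hl
      omega
    | succ n ih =>
      obtain ⟨s, hs, hsd⟩ := ih
      have hy : ∀ l, R.deg l = n0 + n → ∃ y ∈ T.fam (R.sz l) (R.deg l + δ),
          T.d y = f l + c • lin (N := N) s (R.d l) := by
        intro l hl
        have h1 : T.d (lin (N := N) s (R.d l)) = lin (N := N) f (R.d l) := by
          rw [slv_ext T.d c f s R.d (R.d l), hrow2, map_zero, smul_zero, add_zero]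
          intro k hk
          refine hsd k ?_
          rw [hdeg l k hk]
          omega
        have h2 : f l + c • lin (N := N) s (R.d l) ∈ T.Zc (R.deg l + δ - 1) (R.sz l) := by
          refine ⟨AddSubgroup.add_mem _ (hf l) (AddSubgroup.zsmul_mem _ ?_ c), ?_⟩
          · exact T.lin_mem' hs (hrow l) (by ring)
          · rw [map_add, map_zsmul, h1, hfl, neg_add_cancel]
        obtain ⟨y, hy1, hy2⟩ := hex l h2
        exact ⟨y, by rwa [sub_add_cancel] at hy1, hy2⟩
      choose y hy1 hy2 using hy
      have hss : ∀ l, R.deg l ≤ n0 + n →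
          lin (N := N) (fun l => if h : R.deg l = n0 + n then y l h else s l) (R.d l)
            = lin (N := N) s (R.d l) := by
        intro l hl
        refine slv_congr _ _ _ fun k hk => ?_
        have h3 := hdeg l k hk
        rw [dif_neg]
        omega
      refine ⟨fun l => if h : R.deg l = n0 + n then y l h else s l, fun l => ?_, fun l hl => ?_⟩
      · by_cases h : R.deg l = n0 + n
        · simp only [dif_pos h]
          exact hy1 l h
        · simp only [dif_neg h]
          exact hs l
      · push_cast at hl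
        rw [hss l (by omega)]
        by_cases h : R.deg l = n0 + n
        · simp only [dif_pos h]
          exact hy2 l h
        · simp only [dif_neg h]
          exact hsd l (by omega)
  obtain ⟨s, hs, hsd⟩ := key n1
  exact ⟨s, hs, fun x => slv_ext T.d c f s R.d x fun k _ => hsd k (hn1 k)⟩

end Pool.Agent.Lib.MP_551055_al.MT
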