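import Mathlib
import Pool.Agent.Lib.MP_551055_al.Trim.MT.Base
import Pool.Agent.Lib.MP_551055_al.Trim.MT.Defs
import Pool.Agent.Lib.MP_551055_al.Trim.MT.Gen
import Pool.Agent.Lib.MP_551055_al.Trim.MT.Map
import Pool.Agent.Lib.MP_551055_al.Trim.MT.StB

/-!
# Many trees: the ring of a system of sizes is triangular
-/

set_option autoImplicit false

namespace Pool.Agent.Lib.MP_551055_al
end Pool.Agent.Lib.MP_551055_al

namespace Pool.Agent.Lib.MP_551055_al.MT.TEaAux
end Pool.Agent.Lib.MP_551055_al.MT.TEaAux

namespace Pool.Agent.Lib.MP_551055_al.MT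

open Pool.Agent.Lib.MP_551055_al

open Matrix

namespace TEaAux

theorem corner {n : ℕ} {R : Type} [Ring R] (M : Matrix (Fin n) (Fin n) R) (a b : Fin n) :
    Matrix.single a a (1 : R) * M * Matrix.single b b (1 : R) = Matrix.single a b (M a b) := by
  refine Matrix.ext fun i j => ?_
  rw [Matrix.mul_apply, Finset.sum_eq_single b]
  · rw [Matrix.mul_apply, Finset.sum_eq_single a]
    · rw [Matrix.single_apply, Matrix.single_apply, Matrix.single_apply]
      by_cases h1 : a = i <;> by_cases h2 : b = j <;> simp [h1, h2]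
    · intro k _ hk
      rw [Matrix.single_apply, if_neg (fun h => hk h.2.symm), zero_mul]
    · intro h
      exact absurd (Finset.mem_univ _) h
  · intro k _ hk
    rw [Matrix.single_apply, if_neg (fun h => hk h.1.symm), mul_zero]
  · intro h
    exact absurd (Finset.mem_univ _) h

theorem single_inj {n : ℕ} {R : Type} [Ring R] (a b : Fin n) {x y : R}
    (h : Matrix.single a b x = Matrix.single a b y) : x = y := by
  have := congrFun (congrFun h a) b
  simpa using this

variable {Γ : Type} [Group Γ] {D : Type} {P : D → Type} [∀ i, PartialOrder (P i)]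
  [∀ i, MulAction Γ (P i)] {N : Type} [Monoid N]

theorem le_eq [SzRk Γ P] {γ : Γ} {A : Sz P} (h : A ≤ γ • A) : γ • A = A := by
  obtain ⟨rk, h1, h2⟩ := SzRk.rk (Γ := Γ) (P := P)
  funext i
  have h3 : A i ≤ γ • A i := h i
  rcases h3.lt_or_eq with h4 | h4
  · have := h1 i _ _ h4
    rw [h2] at this
    exact absurd this (lt_irrefl _)
  · exact h4.symm

end TEaAux

open TEaAux

theorem stTEa (h : StCos) : StTEa := by
  intro Γ _ D _ P _ _ _ _ N _ π hUL n o hR
  have hj1 : ∀ b, (jE π o b 1).1 = Matrix.single b b 1 := by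
    intro b
    rw [jE_val, map_one]
  have hco : ∀ (a b : Fin n) (x : TE π o), (jE π o a 1 * x * jE π o b 1).1 =
      Matrix.single a b (x.1 a b) := by
    intro a b x
    change (jE π o a 1).1 * x.1 * (jE π o b 1).1 = _
    rw [hj1, hj1, corner]
  refine ⟨?_, ?_, ?_, ?_, ?_, ?_⟩
  · intro a b hab
    apply Subtype.ext
    change (jE π o a 1).1 * (jE π o b 1).1 = 0
    rw [hj1, hj1, Matrix.single_mul_single_of_ne _ _ _ _ hab]
  · apply Subtype.ext
    rw [AddSubmonoidClass.coe_finsetSum]
    refine Matrix.ext fun i j => ?_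
    rw [Matrix.sum_apply, Finset.sum_eq_single i]
    · rw [hj1, Matrix.single_apply]
      change _ = (1 : Matrix (Fin n) (Fin n) (ZM N)) i j
      rw [Matrix.one_apply]
      simp
    · intro k _ hk
      rw [hj1, Matrix.single_apply, if_neg (fun h => hk h.1)]
    · intro h
      exact absurd (Finset.mem_univ _) h
  · intro a b x hba
    apply Subtype.ext
    rw [hco]
    have : x.1 a b = 0 := by
      by_contra hne
      have : ∃ m, (x.1 a b).coeff m ≠ 0 := by
        by_contra hn
        push Not at hn
        exact hne (MonoidAlgebra.coeff_injective (Finsupp.ext hn))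
      obtain ⟨m, hm⟩ := this
      exact absurd (hR.sort a b m (x.2 a b m hm)) (not_le.2 hba)
    rw [this, Matrix.single_zero]
    rfl
  · intro b x y hxy
    have h1 : (jE π o b x).1 = (jE π o b y).1 := by rw [hxy]
    rw [jE_val, jE_val] at h1
    exact mdh_injective (Subtype.val_injective) (single_inj b b h1)
  · intro b x hx
    have hx1 : x.1 = Matrix.single b b (x.1 b b) := by
      rw [← hco, hx]
    obtain ⟨k, u, hu, hy⟩ := h Γ D P N π hUL (o b) (o b)
    obtain ⟨r, hr, -⟩ := hy (x.1 b b) (fun m hm => x.2 b b m hm)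
    have hus : ∀ i, (u i : N) ∈ stabM π (o b) := fun i => mem_stabM.2 (le_eq (hu i))
    refine ⟨∑ i, r i * MonoidAlgebra.single (⟨u i, hus i⟩ : stabM π (o b)) 1, ?_⟩
    apply Subtype.ext
    rw [jE_val, map_sum, hx1]
    congr 1
    rw [hr]
    refine Finset.sum_congr rfl fun i _ => ?_
    rw [map_mul, mdh_single]
    rfl
  · intro a b
    obtain ⟨k, u, hu, hy⟩ := h Γ D P N π hUL (o a) (o b)
    have hxm : ∀ i, Matrix.single a b (MonoidAlgebra.single (u i : N) (1 : ℤ) : ZM N) ∈ TE π o := by
      intro i a' b' m hm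
      rw [Matrix.single_apply] at hm
      split_ifs at hm with h1
      · rw [coeff_single_ne hm, ← h1.1, ← h1.2]
        exact hu i
      · exact absurd rfl hm
    have hval : ∀ (r : Fin k → ZM (stabM π (o a))),
        (∑ i, jE π o a (r i) * (⟨_, hxm i⟩ : TE π o)).1 =
        Matrix.single a b (∑ i, mdh (stabM π (o a)).subtype (r i) *
          MonoidAlgebra.single (u i : N) 1) := by
      intro r
      rw [AddSubmonoidClass.coe_finsetSum]
      have : Matrix.single a b (∑ i, mdh (stabM π (o a)).subtype (r i) *
          (MonoidAlgebra.single (u i : N) 1 : ZM N)) = ∑ i, Matrix.single a b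
          (mdh (stabM π (o a)).subtype (r i) * (MonoidAlgebra.single (u i : N) 1 : ZM N)) := by
        refine Matrix.ext fun i' j' => ?_
        rw [Matrix.sum_apply]
        simp only [Matrix.single_apply]
        split_ifs
        · rfl
        · simp
      rw [this]
      refine Finset.sum_congr rfl fun i _ => ?_
      change (jE π o a (r i)).1 * Matrix.single a b _ = _
      rw [jE_val, Matrix.single_mul_single_same]
    refine ⟨k, fun i => ⟨_, hxm i⟩, ?_, ?_⟩
    · intro i
      apply Subtype.ext
      rw [hco]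
      change Matrix.single a b (Matrix.single a b (MonoidAlgebra.single (u i : N) (1 : ℤ) : ZM N)
        a b) = Matrix.single a b (MonoidAlgebra.single (u i : N) (1 : ℤ) : ZM N)
      rw [Matrix.single_apply_same]
    · intro y hyy
      have hy1 : y.1 = Matrix.single a b (y.1 a b) := by
        rw [← hco, hyy]
      obtain ⟨r, hr, hru⟩ := hy (y.1 a b) (fun m hm => y.2 a b m hm)
      refine ⟨r, ?_, ?_⟩
      · apply Subtype.ext
        rw [hval, ← hr]
        exact hy1
      · intro r' hr'
        apply hru
        have h2 : y.1 = _ := congrArg Subtype.val hr'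
        rw [hval] at h2
        rw [hy1] at h2
        exact single_inj a b h2

end Pool.Agent.Lib.MP_551055_al.MT
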