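import Mathlib
import Pool.Agent.Lib.MP_551055_al.Trim.LS.Stmts
import Pool.Agent.Lib.MP_551055_al.Trim.MT.Base
import Pool.Agent.Lib.MP_551055_al.Trim.MT.Defs
import Pool.Agent.Lib.MP_551055_al.Trim.MT.Fr
import Pool.Agent.Lib.MP_551055_al.Trim.MT.Map
import Pool.Agent.Lib.MP_551055_al.Trim.MT.StA
import Pool.Agent.Lib.MP_551055_al.Trim.MT.Tg

/-!
# Many trees: module Tel (the telescope)
-/

set_option autoImplicit false

namespace Pool.Agent.Lib.MP_551055_al
end Pool.Agent.Lib.MP_551055_al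

namespace Pool.Agent.Lib.MP_551055_al.MT

open Pool.Agent.Lib.MP_551055_al

open Matrix

section

variable {G : Type} [Group G]

private theorem tel_zN_comm (a : ℕ) (x : ZM (GN G)) : zN G a * x = x * zN G a := by
  apply loc_injective
  rw [map_mul, map_mul, loc_zN, fr_zZ_comm]

private theorem tel_mul_smul {α β δ : Type} [Fintype β] (a : ℕ) (f : Matrix α β (ZM (GN G)))
    (g : Matrix β δ (ZM (GN G))) : f * (zN G a • g) = zN G a • (f * g) := by
  ext1 i j
  rw [Matrix.smul_apply, Matrix.mul_apply, Matrix.mul_apply, smul_eq_mul, Finset.mul_sum]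
  refine Finset.sum_congr rfl fun k _ => ?_
  rw [Matrix.smul_apply, smul_eq_mul, ← mul_assoc, ← tel_zN_comm, mul_assoc]

private theorem tel_zN_pi {Γ : Type} [Group Γ] (π : G →* Γ) (a : ℕ) (m : GN G)
    (hm : (zN G a).coeff m ≠ 0) : pN π m = 1 := by
  have h : m = (1, Multiplicative.ofAdd a) := coeff_single_ne hm
  rw [h]
  exact map_one π

private theorem tel_prod {ι : Type} [Fintype ι] [DecidableEq ι] (a b : ℤ) (hab : a + b = 0)
    (E : Matrix ι ι (ZM (GZ G))) :
    (1 - E + zZ G a • E) * (1 - E + zZ G b • E) - 1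
      = zZ G a • (E - E * E) + zZ G b • (E - E * E) - (E - E * E) - (E - E * E) := by
  have h1 : (zZ G a • E) * (zZ G b • E) = E * E := by
    rw [fr_mul_smul, Matrix.smul_mul, smul_smul, fr_zZ_mul, add_comm, hab, fr_zZ_zero, one_smul]
  have h2 : (1 - E) * (zZ G b • E) = zZ G b • (E - E * E) := by
    rw [fr_mul_smul, Matrix.sub_mul, Matrix.one_mul]
  have h3 : (zZ G a • E) * (1 - E) = zZ G a • (E - E * E) := by
    rw [Matrix.smul_mul, Matrix.mul_sub, Matrix.mul_one]
  rw [Matrix.mul_add, Matrix.add_mul, Matrix.add_mul, h1, h2, h3, Matrix.mul_sub,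
    Matrix.mul_one, Matrix.sub_mul, Matrix.one_mul]
  abel

end

section

variable {Γ : Type} [Group Γ] {D : Type} {P : D → Type} [∀ i, PartialOrder (P i)]
  [∀ i, MulAction Γ (P i)]

private theorem tel_one {N : Type} [Monoid N] {π : N →* Γ} {U : Finset D} {W : Co P N}
    {s t : W.ι → Sz P} (hs : ∀ l, ∀ i ∈ U, s l i ≤ t l i) :
    Ct π U 0 (W.withSz s).toOb (W.withSz t).toOb (1 : Matrix W.ι W.ι (ZM N)) := by
  intro l k m h
  have h' : ((1 : Matrix W.ι W.ι (ZM N)) l k).coeff m ≠ 0 := h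
  by_cases hlk : l = k
  · subst hlk
    rw [Matrix.one_apply_eq] at h'
    rw [coeff_one_ne h', map_one]
    refine ⟨(add_zero _).symm, fun i hi => ?_⟩
    rw [one_smul]
    exact hs l i hi
  · rw [Matrix.one_apply_ne hlk] at h'
    exact absurd rfl h'

/-- Only the sizes in the directions of `U` matter. -/
private theorem tel_sz {N : Type} [Monoid N] {π : N →* Γ} {U : Finset D} {r : ℤ} {W : Co P N}
    {s t s' t' : W.ι → Sz P} (hs : ∀ l, ∀ i ∈ U, s l i = s' l i)
    (ht : ∀ l, ∀ i ∈ U, t l i = t' l i) {f : Matrix W.ι W.ι (ZM N)}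
    (hf : Ct π U r (W.withSz s).toOb (W.withSz t).toOb f) :
    Ct π U r (W.withSz s').toOb (W.withSz t').toOb f := by
  intro l k m h
  obtain ⟨h1, h2⟩ := hf l k m h
  refine ⟨h1, fun i hi => ?_⟩
  have h3 : s l i ≤ π m • t k i := h2 i hi
  change s' l i ≤ π m • t' k i
  rw [← hs l i hi, ← ht k i hi]
  exact h3

variable [SzAct Γ P] {G : Type} [Group G] {π : G →* Γ} {U : Finset D}

private theorem tel_nul_smul {X Y : Co P (GZ G)} {f : Matrix X.ι Y.ι (ZM (GZ G))} (a : ℤ)
    (hf : Nul (pZ π) U X Y f) : Nul (pZ π) U X Y (zZ G a • f) := by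
  obtain ⟨s, hs, h1⟩ := hf
  refine ⟨zZ G a • s, hs.smul (fr_zZ_pi π a), ?_⟩
  rw [h1, fr_mul_smul, Matrix.smul_mul, smul_add]

private theorem tel_ch {W : Co P G} {s : W.ι → Sz P} {e : Matrix W.ι W.ι (ZM G)}
    (hs : ∀ l, ∀ i ∈ U, W.sz l i ≤ s l i) (he : Ct π U 0 W.toOb (W.withSz s).toOb e)
    (hc : W.d * e = e * W.d) :
    Ch (pN π) U (W.map (inc G)) ((W.withSz s).map (inc G)) (al e) := by
  have h1 : Ct π U 0 W.toOb (W.withSz s).toOb (1 : Matrix W.ι W.ι (ZM G)) :=
    tel_one (W := W) (s := W.sz) (t := s) hs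
  refine ⟨?_, ?_⟩
  · exact Ct.add ((h1.sub he).map (pN_hInc π)) ((he.map (pN_hInc π)).smul (tel_zN_pi π 1))
  · change W.d.map (inc G) * ((1 - e).map (inc G) + zN G 1 • e.map (inc G))
      = ((1 - e).map (inc G) + zN G 1 • e.map (inc G)) * W.d.map (inc G)
    rw [Matrix.mul_add, Matrix.add_mul, tel_mul_smul, Matrix.smul_mul, ← map_mul', ← map_mul',
      ← map_mul', ← map_mul', Matrix.mul_sub, Matrix.sub_mul, Matrix.mul_one, Matrix.one_mul, hc]

end

/-- Module Tel. -/
theorem stTel (h : StCC) : StTel := by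
  intro Γ _ D P _ _ _ G _ π V W sz' e hW hW' hsz he hc
  refine ⟨?_, ?_, ?_⟩
  · exact IsCx.cone (hW.map (pN_hInc π)) (hW'.map (pN_hInc π)) (tel_ch hsz he hc)
  · intro V' hV' hX hY
    have hf : Ch (pN π) V' (W.map (inc G)) ((W.withSz sz').map (inc G)) (al e) :=
      (tel_ch hsz he hc).mono hV'
    refine (h Γ D P (GN G) (pN π) V' (W.map (inc G)) ((W.withSz sz').map (inc G)) (al e)
      hf).1 0 Ch.zero ?_ ?_
    · rw [Matrix.mul_zero, zero_sub]
      exact Nul.neg (Contr.map hX (pN_hInc π))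
    · rw [Matrix.zero_mul, zero_sub]
      exact Nul.neg (Contr.map hY (pN_hInc π))
  · intro V' hV' hV hI
    have hf : Ch (pN π) V' (W.map (inc G)) ((W.withSz sz').map (inc G)) (al e) :=
      (tel_ch hsz he hc).mono hV'
    have hf' := hf.map (π' := pZ π) (h := hLoc G) (pZ_hLoc π)
    have hV2 : ∀ l, ∀ i ∈ V', W.sz l i = sz' l i := fun l i hi => (hV l i hi).symm
    -- the homotopy idempotent for both systems of sizes
    obtain ⟨⟨heW, -⟩, s, hs, hse⟩ := hI
    have hN1 : Nul π V' W W (e - e * e) := ⟨s, hs, hse⟩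
    have hN2 : Nul π V' (W.withSz sz') (W.withSz sz') (e - e * e) :=
      ⟨s, tel_sz (W := W) (s := W.sz) (t := W.sz) hV2 hV2 hs, hse⟩
    have hM1 := (hN1.map (pN_hInc π)).map (π' := pZ π) (h := hLoc G) (pZ_hLoc π)
    have hM2 := (hN2.map (pN_hInc π)).map (π' := pZ π) (h := hLoc G) (pZ_hLoc π)
    -- the matrix `e` over `ℤ[G × ℤ]`
    obtain ⟨E, hE⟩ : ∃ E : Matrix W.ι W.ι (ZM (GZ G)), E = (e.map (inc G)).map (loc G) := ⟨_, rfl⟩
    have hEE : ((e - e * e).map (inc G)).map (loc G) = E - E * E := by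
      rw [hE, map_sub', map_sub', map_mul', map_mul']
    have hF : ((1 - e).map (inc G)).map (loc G) = 1 - E := by
      rw [hE, map_sub', map_sub', map_one', map_one']
    have hal : (al e).map (loc G) = 1 - E + zZ G 1 • E := by
      rw [al, map_add', map_smul', loc_zN, hF, hE, Nat.cast_one]
    -- the inverse
    have h1 : Ct π V' 0 (W.withSz sz').toOb W.toOb (1 - e) :=
      (tel_one (W := W) (s := sz') (t := W.sz) fun l i hi => le_of_eq (hV l i hi)).sub
        (tel_sz (W := W) (s := W.sz) (t := W.sz) hV2 (fun _ _ _ => rfl) heW)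
    have h2 : Ct π V' 0 (W.withSz sz').toOb W.toOb e :=
      tel_sz (W := W) (s := W.sz) (t := W.sz) hV2 (fun _ _ _ => rfl) heW
    have hg : Ch (pZ π) V' (((W.withSz sz').map (inc G)).map (loc G))
        ((W.map (inc G)).map (loc G)) (1 - E + zZ G (-1) • E) := by
      refine ⟨?_, ?_⟩
      · have h3 := (h1.map (pN_hInc π)).map (π' := pZ π) (h := hLoc G) (pZ_hLoc π)
        have h4 := (h2.map (pN_hInc π)).map (π' := pZ π) (h := hLoc G) (pZ_hLoc π)
        have h5 := Ct.add h3 (h4.smul (fr_zZ_pi π (-1)))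
        rw [← hF, hE]
        exact h5
      · have h3 : (W.d.map (inc G)).map (loc G) * E = E * (W.d.map (inc G)).map (loc G) := by
          rw [hE, ← map_mul', ← map_mul', ← map_mul', ← map_mul', hc]
        change (W.d.map (inc G)).map (loc G) * (1 - E + zZ G (-1) • E)
          = (1 - E + zZ G (-1) • E) * (W.d.map (inc G)).map (loc G)
        rw [Matrix.mul_add, Matrix.add_mul, fr_mul_smul, Matrix.smul_mul, Matrix.mul_sub,
          Matrix.sub_mul, Matrix.mul_one, Matrix.one_mul, h3]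
    have key : Contr (pZ π) V' (cone ((W.map (inc G)).map (loc G))
        (((W.withSz sz').map (inc G)).map (loc G)) ((al e).map (loc G))) := by
      refine (h Γ D P (GZ G) (pZ π) V' ((W.map (inc G)).map (loc G))
        (((W.withSz sz').map (inc G)).map (loc G)) ((al e).map (loc G)) hf').1
        (1 - E + zZ G (-1) • E) hg ?_ ?_
      · rw [hal]
        have h3 : Nul (pZ π) V' ((W.map (inc G)).map (loc G)) ((W.map (inc G)).map (loc G))
            (E - E * E) := by
          rw [← hEE]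
          exact hM1
        have h4 := (((tel_nul_smul 1 h3).add (tel_nul_smul (-1) h3)).sub h3).sub h3
        rw [← tel_prod 1 (-1) (by norm_num) E] at h4
        exact h4
      · rw [hal]
        have h3 : Nul (pZ π) V' (((W.withSz sz').map (inc G)).map (loc G))
            (((W.withSz sz').map (inc G)).map (loc G)) (E - E * E) := by
          rw [← hEE]
          exact hM2
        have h4 := (((tel_nul_smul (-1) h3).add (tel_nul_smul 1 h3)).sub h3).sub h3
        rw [← tel_prod (-1) 1 (by norm_num) E] at h4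
        exact h4
    have hmap : (tel W sz' e).map (loc G) = cone ((W.map (inc G)).map (loc G))
        (((W.withSz sz').map (inc G)).map (loc G)) ((al e).map (loc G)) :=
      cone_map (X := W.map (inc G)) (Y := (W.withSz sz').map (inc G)) (al e) (loc G)
    rw [hmap]
    exact key

end Pool.Agent.Lib.MP_551055_al.MT
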