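import Mathlib
import Pool.Agent.Lib.MP_551055_al.Trim.LS.Stmts
import Pool.Agent.Lib.MP_551055_al.Trim.MT.Base
import Pool.Agent.Lib.MP_551055_al.Trim.MT.Defs
import Pool.Agent.Lib.MP_551055_al.Trim.MT.Link
import Pool.Agent.Lib.MP_551055_al.Trim.MT.Map
import Pool.Agent.Lib.MP_551055_al.Trim.MT.StA
import Pool.Agent.Lib.MP_551055_al.Trim.MT.Tg

/-!
# Many trees: module Tor, the torsion trick

A complex `B` over `ℤ[G × ℕ]` with `z ^ m` null-homotopic is, over `ℤ[G]`, isomorphic to the finite
complex `K = B / z ^ m` with a homotopy idempotent.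
-/

set_option autoImplicit false

namespace Pool.Agent.Lib.MP_551055_al
end Pool.Agent.Lib.MP_551055_al

namespace Pool.Agent.Lib.MP_551055_al.MT

open Pool.Agent.Lib.MP_551055_al

open Matrix

/-! ## One component -/

section

variable {G : Type} [Group G]

/-- The shift of the exponent by `m`. -/
def torSh (m : ℕ) (p : GN G) : GN G := (p.1, Multiplicative.ofAdd (Multiplicative.toAdd p.2 + m))

/-- The element `g z ^ a`. -/
def torPt (a : ℕ) (g : G) : GN G := (g, Multiplicative.ofAdd a)

omit [Group G] in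
theorem torSh_injective (m : ℕ) : Function.Injective (torSh (G := G) m) := by
  rintro ⟨g, n⟩ ⟨g', n'⟩ h
  have h1 : g = g' := congrArg Prod.fst h
  have h2 : Multiplicative.toAdd n + m = Multiplicative.toAdd n' + m := congrArg Prod.snd h
  refine Prod.ext h1 ?_
  change Multiplicative.toAdd n = Multiplicative.toAdd n'
  omega

omit [Group G] in
theorem torPt_injective (a : ℕ) : Function.Injective (torPt (G := G) a) :=
  fun _ _ h => congrArg Prod.fst h

/-- Division by `z ^ m`, forgetting the rest. -/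
noncomputable def torDl (m : ℕ) : ZM (GN G) →+ ZM (GN G) where
  toFun x := MonoidAlgebra.ofCoeff (Finsupp.comapDomain.addMonoidHom (torSh_injective m) x.coeff)
  map_zero' := by
    rw [MonoidAlgebra.coeff_zero, map_zero]
    rfl
  map_add' x y := by
    rw [MonoidAlgebra.coeff_add, map_add]
    rfl

/-- The coefficient of `z ^ a`. -/
noncomputable def torLo (a : ℕ) : ZM (GN G) →+ ZM G where
  toFun x := MonoidAlgebra.ofCoeff (Finsupp.comapDomain.addMonoidHom (torPt_injective a) x.coeff)
  map_zero' := by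
    rw [MonoidAlgebra.coeff_zero, map_zero]
    rfl
  map_add' x y := by
    rw [MonoidAlgebra.coeff_add, map_add]
    rfl

/-- The multiple by `z ^ a`. -/
noncomputable def torUp (a : ℕ) : ZM G →+ ZM (GN G) where
  toFun x := MonoidAlgebra.ofCoeff (Finsupp.mapDomain (torPt a) x.coeff)
  map_zero' := by
    rw [MonoidAlgebra.coeff_zero, Finsupp.mapDomain_zero]
    rfl
  map_add' x y := by
    rw [MonoidAlgebra.coeff_add, Finsupp.mapDomain_add]
    rfl

theorem torDl_coeff (m : ℕ) (x : ZM (GN G)) (p : GN G) :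
    (torDl m x).coeff p = x.coeff (torSh m p) := rfl

theorem torLo_coeff (a : ℕ) (x : ZM (GN G)) (g : G) :
    (torLo a x).coeff g = x.coeff (torPt a g) := rfl

theorem torUp_coeff (a : ℕ) (x : ZM G) (p : GN G) :
    (torUp a x).coeff p = if Multiplicative.toAdd p.2 = a then x.coeff p.1 else 0 := by
  obtain ⟨g, n⟩ := p
  by_cases h : Multiplicative.toAdd n = a
  · rw [if_pos h]
    have h1 : ((g, n) : GN G) = torPt a g := by
      rw [← h]
      rfl
    rw [h1]
    exact Finsupp.mapDomain_apply (torPt_injective a) x.coeff g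
  · rw [if_neg h]
    refine Finsupp.mapDomain_of_notMem_range _ _ ?_
    rintro ⟨g', hg'⟩
    have h2 : a = Multiplicative.toAdd n := congrArg Prod.snd hg'
    exact h h2.symm

theorem torZ_coeff (m : ℕ) (x : ZM (GN G)) (p : GN G) :
    (zN G m * x).coeff p = if m ≤ Multiplicative.toAdd p.2 then
      x.coeff (p.1, Multiplicative.ofAdd (Multiplicative.toAdd p.2 - m)) else 0 := by
  obtain ⟨g, n⟩ := p
  by_cases h : m ≤ Multiplicative.toAdd n
  · rw [if_pos h]
    have h1 := x.coeff_single_mul_eq_mul_coeff (m := (1, Multiplicative.ofAdd m))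
      (m₁ := (g, n)) (r := (1 : ℤ)) (g, Multiplicative.ofAdd (Multiplicative.toAdd n - m)) ?_
    · refine h1.trans ?_
      rw [one_mul]
    · rintro ⟨g', n'⟩ -
      constructor
      · intro h2
        have h3 : 1 * g' = g := congrArg Prod.fst h2
        have h4 : m + Multiplicative.toAdd n' = Multiplicative.toAdd n := congrArg Prod.snd h2
        rw [one_mul] at h3
        refine Prod.ext h3 ?_
        change Multiplicative.toAdd n' = Multiplicative.toAdd n - m
        omega
      · intro h2
        have h3 : g' = g := congrArg Prod.fst h2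
        have h4 : Multiplicative.toAdd n' = Multiplicative.toAdd n - m := congrArg Prod.snd h2
        refine Prod.ext ?_ ?_
        · change 1 * g' = g
          rw [one_mul, h3]
        · change m + Multiplicative.toAdd n' = Multiplicative.toAdd n
          omega
  · rw [if_neg h]
    refine MonoidAlgebra.coeff_single_mul_of_forall_mul_ne _ _ ?_
    rintro ⟨g', n'⟩ h2
    have h4 : m + Multiplicative.toAdd n' = Multiplicative.toAdd n := congrArg Prod.snd h2
    omega

theorem torZ_comm (m : ℕ) (x : ZM (GN G)) : x * zN G m = zN G m * x := by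
  induction x using MonoidAlgebra.induction_linear with
  | zero => rw [zero_mul, mul_zero]
  | add x y hx hy => rw [add_mul, mul_add, hx, hy]
  | single p c =>
    obtain ⟨g, n⟩ := p
    refine (MonoidAlgebra.single_mul_single _ _ _ _).trans
      (Eq.trans ?_ (MonoidAlgebra.single_mul_single _ _ _ _).symm)
    rw [mul_one, one_mul]
    congr 1
    refine Prod.ext ?_ (mul_comm _ _)
    change g * 1 = 1 * g
    rw [mul_one, one_mul]

theorem torLo_z {a m : ℕ} (h : a < m) (x : ZM (GN G)) : torLo a (zN G m * x) = 0 := by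
  refine MonoidAlgebra.ext (Finsupp.ext fun g => ?_)
  rw [torLo_coeff, torZ_coeff, if_neg]
  · rfl
  · change ¬ m ≤ a
    omega

theorem torDl_z (m : ℕ) (x : ZM (GN G)) : torDl m (zN G m * x) = x := by
  refine MonoidAlgebra.ext (Finsupp.ext fun p => ?_)
  obtain ⟨g, n⟩ := p
  rw [torDl_coeff, torZ_coeff, if_pos]
  · congr 1
    refine Prod.ext rfl ?_
    change Multiplicative.toAdd n + m - m = Multiplicative.toAdd n
    omega
  · change m ≤ Multiplicative.toAdd n + m
    omega

theorem tor_sum (m : ℕ) (x : ZM (GN G)) :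
    (∑ a : Fin m, torUp a (torLo a x)) + zN G m * torDl m x = x := by
  refine MonoidAlgebra.ext (Finsupp.ext fun p => ?_)
  obtain ⟨g, n⟩ := p
  rw [MonoidAlgebra.coeff_add, Finsupp.add_apply, MonoidAlgebra.coeff_sum, Finsupp.finsetSum_apply,
    torZ_coeff]
  by_cases h : m ≤ Multiplicative.toAdd n
  · rw [if_pos h, Finset.sum_eq_zero, zero_add, torDl_coeff]
    · congr 1
      refine Prod.ext rfl ?_
      change Multiplicative.toAdd n - m + m = Multiplicative.toAdd n
      omega
    · intro a _
      rw [torUp_coeff, if_neg]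
      change ¬ Multiplicative.toAdd n = a
      omega
  · rw [if_neg h, add_zero, Finset.sum_eq_single (⟨Multiplicative.toAdd n, not_le.1 h⟩ : Fin m)]
    · rw [torUp_coeff, if_pos rfl, torLo_coeff]
      rfl
    · intro a _ ha
      rw [torUp_coeff, if_neg]
      intro h1
      exact ha (Fin.ext h1.symm)
    · intro h1
      exact absurd (Finset.mem_univ _) h1

/-- Additive maps which commute with the elements of the group are linear. -/
theorem tor_lin {A A' : Type} [AddCommGroup A] [AddCommGroup A'] [Module (ZM G) A]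
    [Module (ZM G) A'] (f : A →+ A')
    (h : ∀ (g : G) (x : A), f ((MonoidAlgebra.single g (1 : ℤ) : ZM G) • x) =
      (MonoidAlgebra.single g (1 : ℤ) : ZM G) • f x) (r : ZM G) (x : A) :
    f (r • x) = r • f x := by
  induction r using MonoidAlgebra.induction_linear with
  | zero => rw [zero_smul, zero_smul, map_zero]
  | add r s hr hs => rw [add_smul, add_smul, map_add, hr, hs]
  | single g c =>
    have h1 : (MonoidAlgebra.single g c : ZM G) = c • (MonoidAlgebra.single g (1 : ℤ) : ZM G) := by
      refine MonoidAlgebra.ext (Finsupp.ext fun k => ?_)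
      rw [MonoidAlgebra.coeff_smul, MonoidAlgebra.coeff_single, MonoidAlgebra.coeff_single,
        Finsupp.smul_single, smul_eq_mul, mul_one]
    rw [h1, smul_assoc, smul_assoc, map_zsmul, h]

theorem inc_single_coeff (g : G) (x : ZM (GN G)) (p : GN G) :
    (inc G (MonoidAlgebra.single g (1 : ℤ)) * x).coeff p = x.coeff (g⁻¹ * p.1, p.2) := by
  obtain ⟨k, n⟩ := p
  have h0 : inc G (MonoidAlgebra.single g (1 : ℤ)) =
      MonoidAlgebra.single ((g, 1) : GN G) (1 : ℤ) := mdh_single _ _ _
  rw [h0]
  have h1 := x.coeff_single_mul_eq_mul_coeff (m := ((g, 1) : GN G))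
      (m₁ := (k, n)) (r := (1 : ℤ)) (g⁻¹ * k, n) ?_
  · refine h1.trans ?_
    rw [one_mul]
  · rintro ⟨g', n'⟩ -
    constructor
    · intro h2
      have h3 : g * g' = k := congrArg Prod.fst h2
      have h4 : 1 * n' = n := congrArg Prod.snd h2
      rw [one_mul] at h4
      refine Prod.ext ?_ h4
      change g' = g⁻¹ * k
      rw [← h3, inv_mul_cancel_left]
    · intro h2
      have h3 : g' = g⁻¹ * k := congrArg Prod.fst h2
      have h4 : n' = n := congrArg Prod.snd h2
      refine Prod.ext ?_ ?_
      · change g * g' = k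
        rw [h3, mul_inv_cancel_left]
      · change 1 * n' = n
        rw [one_mul, h4]

theorem torDl_inc (m : ℕ) (g : G) (x : ZM (GN G)) :
    torDl m (inc G (MonoidAlgebra.single g (1 : ℤ)) * x) =
      inc G (MonoidAlgebra.single g (1 : ℤ)) * torDl m x := by
  refine MonoidAlgebra.ext (Finsupp.ext fun p => ?_)
  rw [torDl_coeff, inc_single_coeff, inc_single_coeff, torDl_coeff]
  rfl

theorem torLo_inc (a : ℕ) (g : G) (x : ZM (GN G)) :
    torLo a (inc G (MonoidAlgebra.single g (1 : ℤ)) * x) =
      MonoidAlgebra.single g (1 : ℤ) * torLo a x := by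
  refine MonoidAlgebra.ext (Finsupp.ext fun k => ?_)
  rw [torLo_coeff, inc_single_coeff, MonoidAlgebra.coeff_single_mul_apply, torLo_coeff, one_mul]
  rfl

theorem torUp_inc (a : ℕ) (g : G) (x : ZM G) :
    torUp a (MonoidAlgebra.single g (1 : ℤ) * x) =
      inc G (MonoidAlgebra.single g (1 : ℤ)) * torUp a x := by
  refine MonoidAlgebra.ext (Finsupp.ext fun p => ?_)
  rw [torUp_coeff, inc_single_coeff, torUp_coeff, MonoidAlgebra.coeff_single_mul_apply, one_mul]

end

/-! ## Vectors -/

section

variable {G : Type} [Group G] {ι : Type} [Fintype ι] [DecidableEq ι]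

/-- Restriction of scalars. -/
@[reducible] noncomputable def torMod (G : Type) [Group G] (ι : Type) :
    Module (ZM G) (ι → ZM (GN G)) :=
  Module.compHom (ι → ZM (GN G)) (mdh (hInc G))

attribute [local instance] torMod

/-- The coefficients of `z ^ a`, `a < m`. -/
noncomputable def torQ (m : ℕ) : (ι → ZM (GN G)) →ₗ[ZM G] (ι × Fin m → ZM G) where
  toFun x k := torLo k.2 (x k.1)
  map_add' x y := funext fun k => (torLo (k.2 : ℕ)).map_add (x k.1) (y k.1)
  map_smul' r x := tor_lin
    { toFun := fun (x : ι → ZM (GN G)) (k : ι × Fin m) => torLo (k.2 : ℕ) (x k.1)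
      map_zero' := funext fun k => (torLo (k.2 : ℕ)).map_zero
      map_add' := fun x y => funext fun k => (torLo (k.2 : ℕ)).map_add (x k.1) (y k.1) }
    (fun g x => funext fun k => torLo_inc (k.2 : ℕ) g (x k.1)) r x

/-- The vector with the given coefficients of `z ^ a`, `a < m`. -/
noncomputable def torS (m : ℕ) : (ι × Fin m → ZM G) →ₗ[ZM G] (ι → ZM (GN G)) where
  toFun y b := ∑ a : Fin m, torUp (a : ℕ) (y (b, a))
  map_add' x y := funext fun b => by
    change ∑ a : Fin m, torUp (a : ℕ) (x (b, a) + y (b, a)) = _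
    simp only [map_add, Finset.sum_add_distrib]
    rfl
  map_smul' r x := tor_lin
    { toFun := fun (y : ι × Fin m → ZM G) (b : ι) => ∑ a : Fin m, torUp (a : ℕ) (y (b, a))
      map_zero' := funext fun b => Finset.sum_eq_zero fun a _ => (torUp (a : ℕ)).map_zero
      map_add' := fun x y => funext fun b => by
        change ∑ a : Fin m, torUp (a : ℕ) (x (b, a) + y (b, a)) = _
        simp only [map_add, Finset.sum_add_distrib]
        rfl }
    (fun g x => funext fun b => by
      change ∑ a : Fin m, torUp (a : ℕ) ((MonoidAlgebra.single g (1 : ℤ) : ZM G) * x (b, a))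
        = inc G (MonoidAlgebra.single g (1 : ℤ)) * ∑ a : Fin m, torUp (a : ℕ) (x (b, a))
      rw [Finset.mul_sum]
      exact Finset.sum_congr rfl fun a _ => torUp_inc (a : ℕ) g (x (b, a))) r x

/-- Division by `z ^ m`. -/
noncomputable def torDel (m : ℕ) : (ι → ZM (GN G)) →ₗ[ZM G] (ι → ZM (GN G)) where
  toFun x b := torDl m (x b)
  map_add' x y := funext fun b => (torDl m).map_add (x b) (y b)
  map_smul' r x := tor_lin
    { toFun := fun (x : ι → ZM (GN G)) (b : ι) => torDl m (x b)
      map_zero' := funext fun b => (torDl m).map_zero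
      map_add' := fun x y => funext fun b => (torDl m).map_add (x b) (y b) }
    (fun g x => funext fun b => torDl_inc m g (x b)) r x

/-- Multiplication by a matrix. -/
noncomputable def torMul (f : Matrix ι ι (ZM (GN G))) :
    (ι → ZM (GN G)) →ₗ[ZM G] (ι → ZM (GN G)) where
  toFun x := x ᵥ* f
  map_add' x y := Matrix.add_vecMul _ _ _
  map_smul' r x := Matrix.smul_vecMul (mdh (hInc G) r) x f

theorem torMul_z (f : Matrix ι ι (ZM (GN G))) (m : ℕ) (x : ι → ZM (GN G)) :
    torMul f (zN G m • x) = zN G m • torMul f x := Matrix.smul_vecMul _ _ _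

theorem torQ_z (m : ℕ) (x : ι → ZM (GN G)) : torQ m (zN G m • x) = 0 :=
  funext fun k => torLo_z k.2.2 (x k.1)

theorem torDel_z (m : ℕ) (x : ι → ZM (GN G)) : torDel m (zN G m • x) = x :=
  funext fun b => torDl_z m (x b)

theorem tor_dec (m : ℕ) (x : ι → ZM (GN G)) :
    torS m (torQ m x) + zN G m • torDel m x = x := funext fun b => tor_sum m (x b)

variable (m : ℕ) (d H : Matrix ι ι (ZM (GN G)))

/-- The differential of `K`. -/
noncomputable def torD : (ι × Fin m → ZM G) →ₗ[ZM G] (ι × Fin m → ZM G) :=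
  torQ m ∘ₗ torMul d ∘ₗ torS m

/-- The map `κ`. -/
noncomputable def torKap : (ι × Fin m → ZM G) →ₗ[ZM G] (ι → ZM (GN G)) :=
  torDel m ∘ₗ torMul d ∘ₗ torS m

/-- The map `ρ`. -/
noncomputable def torRho : (ι × Fin m → ZM G) →ₗ[ZM G] (ι → ZM (GN G)) :=
  torS m - torMul H ∘ₗ torKap m d

theorem torD_apply (y : ι × Fin m → ZM G) : torD m d y = torQ m (torMul d (torS m y)) := rfl

theorem torRho_apply (y : ι × Fin m → ZM G) :
    torRho m d H y = torS m y - torMul H (torKap m d y) := rfl

theorem tor_ds (y : ι × Fin m → ZM G) :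
    torMul d (torS m y) = torS m (torD m d y) + zN G m • torKap m d y :=
  (tor_dec m (torMul d (torS m y))).symm

theorem tor_qd (x : ι → ZM (GN G)) : torQ m (torMul d x) = torD m d (torQ m x) := by
  have h := congrArg (torMul d) (tor_dec m x)
  rw [map_add, torMul_z] at h
  rw [← h, map_add, torQ_z, add_zero]
  rfl

variable {m d H} (hd : d * d = 0) (hH : d * H + H * d = zN G m • 1)

include hd in
theorem tor_dd (x : ι → ZM (GN G)) : torMul d (torMul d x) = 0 := by
  change (x ᵥ* d) ᵥ* d = 0
  rw [Matrix.vecMul_vecMul, hd, Matrix.vecMul_zero]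

include hH in
theorem tor_dH (x : ι → ZM (GN G)) :
    torMul H (torMul d x) + torMul d (torMul H x) = zN G m • x := by
  change (x ᵥ* d) ᵥ* H + (x ᵥ* H) ᵥ* d = zN G m • x
  rw [Matrix.vecMul_vecMul, Matrix.vecMul_vecMul, ← Matrix.vecMul_add, hH]
  funext l
  change ∑ k, x k * (zN G m * (1 : Matrix ι ι (ZM (GN G))) k l) = zN G m * x l
  rw [Finset.sum_eq_single l]
  · rw [Matrix.one_apply_eq, mul_one, torZ_comm]
  · intro k _ hk
    rw [Matrix.one_apply_ne hk, mul_zero, mul_zero]
  · intro h
    exact absurd (Finset.mem_univ _) h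

include hd in
theorem torD_D (y : ι × Fin m → ZM G) : torD m d (torD m d y) = 0 := by
  rw [torD_apply m d y, ← tor_qd, tor_dd hd, map_zero]

include hd in
theorem tor_dkap (y : ι × Fin m → ZM G) :
    torKap m d (torD m d y) + torMul d (torKap m d y) = 0 := by
  have h1 := congrArg (torMul d) (tor_ds m d y)
  rw [tor_dd hd, map_add, torMul_z, tor_ds, torD_D hd, map_zero, zero_add, ← smul_add] at h1
  have h2 := congrArg (torDel m) h1
  rw [map_zero, torDel_z] at h2
  exact h2.symm

include hd hH in
theorem tor_drho (y : ι × Fin m → ZM G) :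
    torMul d (torRho m d H y) = torRho m d H (torD m d y) := by
  have h1 := tor_dH hH (torKap m d y)
  have h2 := eq_neg_of_add_eq_zero_right (tor_dkap hd y)
  rw [h2, map_neg] at h1
  rw [torRho_apply, torRho_apply, map_sub, tor_ds, ← h1]
  abel

theorem tor_deld (x : ι → ZM (GN G)) :
    torDel m (torMul d x) = torKap m d (torQ m x) + torMul d (torDel m x) := by
  have h := congrArg (torMul d) (tor_dec m x)
  rw [map_add, torMul_z] at h
  rw [← h, map_add, torDel_z]
  rfl

include hH in
theorem tor_rhoq (x : ι → ZM (GN G)) :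
    torRho m d H (torQ m x) =
      x - torMul d (torMul H (torDel m x)) - torMul H (torDel m (torMul d x)) := by
  have h1 := tor_dH hH (torDel m x)
  have h2 := tor_dec m x
  rw [tor_deld, torRho_apply, map_add]
  have h3 : torS m (torQ m x) = x - zN G m • torDel m x := eq_sub_of_add_eq h2
  rw [h3, ← h1]
  abel

end

/-! ## Control -/

section

attribute [local instance] torMod

variable {Γ : Type} [Group Γ] {D : Type} {P : D → Type} [∀ i, PartialOrder (P i)]
  [∀ i, MulAction Γ (P i)] {G : Type} [Group G] {π : G →* Γ} {U : Finset D}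

/-- The complex `B / z ^ m`. -/
noncomputable abbrev torK (m : ℕ) (B : Co P (GN G)) : Co P G where
  ι := B.ι × Fin m
  ft := inferInstance
  de := inferInstance
  deg := fun k => B.deg k.1
  sz := fun k => B.sz k.1
  d := linkMat (torD m B.d)

variable {m : ℕ} {B : Co P (GN G)} {A : Sz P} {t : ℤ}

theorem torQ_fam {x : B.ι → ZM (GN G)} (hx : x ∈ fam (pN π) U B.toOb A t) :
    torQ m x ∈ fam π U (torK m B).toOb A t := fun k g h => hx k.1 (torPt k.2 g) h

theorem torS_fam {y : B.ι × Fin m → ZM G} (hy : y ∈ fam π U (torK m B).toOb A t) :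
    torS m y ∈ fam (pN π) U B.toOb A t := by
  rintro b ⟨g, n⟩ h
  obtain ⟨a, -, h1⟩ := coeff_sum_ne h
  rw [torUp_coeff] at h1
  by_cases h2 : Multiplicative.toAdd n = (a : ℕ)
  · rw [if_pos h2] at h1
    exact hy (b, a) g h1
  · rw [if_neg h2] at h1
    exact absurd rfl h1

theorem torDel_fam {x : B.ι → ZM (GN G)} (hx : x ∈ fam (pN π) U B.toOb A t) :
    torDel m x ∈ fam (pN π) U B.toOb A t := fun b p h => hx b (torSh m p) h

variable [SzAct Γ P]

theorem torMul_fam {f : Matrix B.ι B.ι (ZM (GN G))} {r s : ℤ} (hf : Ct (pN π) U r B.toOb B.toOb f)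
    {x : B.ι → ZM (GN G)} (hx : x ∈ fam (pN π) U B.toOb A t) (hs : t + r = s) :
    torMul f x ∈ fam (pN π) U B.toOb A s := fam_vecMul' hf hx hs

theorem torKap_fam (hd : Ct (pN π) U (-1) B.toOb B.toOb B.d) {y : B.ι × Fin m → ZM G}
    (hy : y ∈ fam π U (torK m B).toOb A t) :
    torKap m B.d y ∈ fam (pN π) U B.toOb A (t - 1) :=
  torDel_fam (torMul_fam hd (torS_fam hy) rfl)

theorem torRho_fam (hd : Ct (pN π) U (-1) B.toOb B.toOb B.d) {H : Matrix B.ι B.ι (ZM (GN G))}
    (hH : Ct (pN π) U 1 B.toOb B.toOb H) {y : B.ι × Fin m → ZM G}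
    (hy : y ∈ fam π U (torK m B).toOb A t) :
    torRho m B.d H y ∈ fam (pN π) U B.toOb A t :=
  AddSubgroup.sub_mem _ (torS_fam hy) (torMul_fam hH (torKap_fam hd hy) (by ring))

/-- Controlled linear maps `K → K` give controlled matrices. -/
theorem tor_ct {r : ℤ} (f : (B.ι × Fin m → ZM G) →ₗ[ZM G] (B.ι × Fin m → ZM G))
    (hf : ∀ (A : Sz P) (t : ℤ) (y : B.ι × Fin m → ZM G), y ∈ fam π U (torK m B).toOb A t →
      f y ∈ fam π U (torK m B).toOb A (t + r)) :
    Ct π U r (torK m B).toOb (torK m B).toOb (linkMat f) := by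
  rw [ct_iff]
  intro l
  exact hf _ _ _ (basis_mem_fam (X := (torK m B).toOb) l)

end

/-- Module Tor. -/
theorem stTor : StTor := by
  intro Γ _ D P _ _ _ G _ π V B hB m H hH hdH
  letI := torMod G B.ι
  have hd := hB.2
  refine ⟨torK m B, linkMat (torQ m ∘ₗ torRho m B.d H), ⟨?_, ?_⟩, ⟨⟨?_, ?_⟩, ?_⟩, ?_, ?_⟩
  · -- control of the differential
    refine tor_ct _ fun A t y hy => ?_
    exact torQ_fam (torMul_fam hB.1 (torS_fam hy) rfl)
  · refine link_mat_ext fun y => ?_
    rw [← Matrix.vecMul_vecMul, vecMul_linkMat, vecMul_linkMat, torD_D hd, Matrix.vecMul_zero]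
  · refine tor_ct _ fun A t y hy => ?_
    rw [add_zero]
    exact torQ_fam (torRho_fam hB.1 hH hy)
  · refine link_mat_ext fun y => ?_
    rw [← Matrix.vecMul_vecMul, ← Matrix.vecMul_vecMul, vecMul_linkMat, vecMul_linkMat,
      vecMul_linkMat, vecMul_linkMat]
    change torQ m (torRho m B.d H (torD m B.d y)) = torD m B.d (torQ m (torRho m B.d H y))
    rw [← tor_drho hd hdH, tor_qd]
  · refine ⟨linkMat (torQ m ∘ₗ torMul H ∘ₗ torDel m ∘ₗ torRho m B.d H), ?_, ?_⟩
    · exact tor_ct _ fun A t y hy =>
        torQ_fam (torMul_fam hH (torDel_fam (torRho_fam hB.1 hH hy)) rfl)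
    · refine link_mat_ext fun y => ?_
      rw [Matrix.vecMul_sub, Matrix.vecMul_add, ← Matrix.vecMul_vecMul, ← Matrix.vecMul_vecMul,
        ← Matrix.vecMul_vecMul, vecMul_linkMat, vecMul_linkMat, vecMul_linkMat, vecMul_linkMat,
        vecMul_linkMat, vecMul_linkMat]
      change torQ m (torRho m B.d H y) - torQ m (torRho m B.d H (torQ m (torRho m B.d H y)))
        = torQ m (torMul H (torDel m (torRho m B.d H (torD m B.d y))))
          + torD m B.d (torQ m (torMul H (torDel m (torRho m B.d H y))))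
      rw [tor_rhoq hdH, ← tor_drho hd hdH, ← tor_qd, ← map_sub, ← map_add]
      congr 1
      abel
  · rintro V' hV' ⟨c, hc, hc1⟩
    refine ⟨linkMat (torQ m ∘ₗ torMul c ∘ₗ torRho m B.d H), ?_, ?_⟩
    · exact tor_ct _ fun A t y hy =>
        torQ_fam (torMul_fam hc (torRho_fam (hB.1.mono hV') (hH.mono hV') hy) rfl)
    · refine link_mat_ext fun y => ?_
      rw [Matrix.vecMul_add, ← Matrix.vecMul_vecMul, ← Matrix.vecMul_vecMul, vecMul_linkMat,
        vecMul_linkMat, vecMul_linkMat, vecMul_linkMat, vecMul_linkMat]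
      change torQ m (torRho m B.d H y) = torQ m (torMul c (torRho m B.d H (torD m B.d y)))
        + torD m B.d (torQ m (torMul c (torRho m B.d H y)))
      rw [← tor_drho hd hdH, ← tor_qd, ← map_add]
      congr 1
      change torRho m B.d H y = ((torRho m B.d H y) ᵥ* B.d) ᵥ* c + ((torRho m B.d H y) ᵥ* c) ᵥ* B.d
      rw [Matrix.vecMul_vecMul, Matrix.vecMul_vecMul, ← Matrix.vecMul_add, ← hc1,
        Matrix.vecMul_one]
  · intro V' hV' h
    refine ⟨torRho m B.d H, torQ m, -(torMul H ∘ₗ torDel m), 0, ?_, ?_, ?_, Ct.zero, ?_, ?_, ?_, ?_⟩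
    · intro A t y hy
      exact torRho_fam (hB.1.mono hV') (hH.mono hV') hy
    · intro A t x hx
      exact torQ_fam hx
    · intro A t x hx
      exact AddSubgroup.neg_mem _ (torMul_fam (hH.mono hV') (torDel_fam hx) rfl)
    · intro y
      rw [vecMul_linkMat]
      exact (tor_drho hd hdH y).symm
    · intro x
      rw [vecMul_linkMat]
      exact tor_qd m B.d x
    · intro y
      rw [Matrix.mul_zero, Matrix.zero_mul, add_zero, add_zero, vecMul_linkMat]
      rfl
    · intro (x : B.ι → ZM (GN G))
      have h1 := tor_rhoq hdH x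
      refine h1.trans ?_
      change x - torMul B.d (torMul H (torDel m x)) - torMul H (torDel m (torMul B.d x))
        = x + torMul B.d (-(torMul H (torDel m x))) + -(torMul H (torDel m (torMul B.d x)))
      rw [map_neg]
      abel

end Pool.Agent.Lib.MP_551055_al.MT
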