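import Mathlib
import Pool.Agent.Lib.MP_551055_al.Trim.LS.Stmts
import Pool.Agent.Lib.MP_551055_al.Trim.MT.Defs
import Pool.Agent.Lib.MP_551055_al.Trim.MT.Gen
import Pool.Agent.Lib.MP_551055_al.Trim.MT.Trees

/-!
# Many trees: acyclicity in one direction passes along isomorphisms in homology
-/

set_option autoImplicit false

namespace Pool.Agent.Lib.MP_551055_al
end Pool.Agent.Lib.MP_551055_al

namespace Pool.Agent.Lib.MP_551055_al.LS
end Pool.Agent.Lib.MP_551055_al.LS

namespace Pool.Agent.Lib.MP_551055_al.MT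

open Pool.Agent.Lib.MP_551055_al

open Pool.Agent.Lib.MP_551055_al.LS (TreeAct side)

open Matrix

/-- Multiplication of row vectors by a matrix as a homomorphism. -/
private noncomputable def trHom {α β N : Type} [Fintype α] [Monoid N] (j : Matrix α β (ZM N)) :
    (α → ZM N) →+ (β → ZM N) where
  toFun x := x ᵥ* j
  map_zero' := Matrix.zero_vecMul _
  map_add' _ _ := Matrix.add_vecMul _ _ _

private theorem trHom_apply {α β N : Type} [Fintype α] [Monoid N] (j : Matrix α β (ZM N))
    (x : α → ZM N) : trHom j x = x ᵥ* j := rfl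

/-- The inflow lies in a subgroup which contains the values on the edges. -/
private theorem tr_bd_mem (hF2 : StFlow2) {V : Type} {T : SimpleGraph V} {H : Type}
    [AddCommGroup H] {y : V → V → H} (hy : IsFlow T y) {v : V} {L : AddSubgroup H}
    (hL : ∀ u, T.Adj u v → y u v ∈ L) : bd y v ∈ L := by
  obtain ⟨s, -, hs⟩ := (hF2 V T H).2.2.2.2.2 v y hy
  rw [hs]
  refine AddSubgroup.sum_mem _ fun u _ => ?_
  by_cases huv : T.Adj u v
  · exact hL u huv
  · rw [hy.adj u v huv]
    exact AddSubgroup.zero_mem _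

private theorem tr_upd_le {Γ : Type} [Group Γ] {D : Type} [DecidableEq D] {V : D → Type}
    [∀ i, MulAction Γ (V i)] {T : ∀ i, SimpleGraph (V i)} {h : ∀ i, TreeAct Γ (V i) (T i)}
    (B : Sz (SP h)) (i : D) {A A' : Sub (h i)} (hA : A ≤ A') (i' : D) :
    upd B i A i' ≤ upd B i A' i' := by
  by_cases hi : i' = i
  · subst hi
    rw [upd, upd, Function.update_self, Function.update_self]
    exact hA
  · rw [upd, upd, Function.update_of_ne hi, Function.update_of_ne hi]

theorem stTr (hF : StFlow) (hF2 : StFlow2) : StTr := by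
  intro Γ _ D _ _ V _ T h N _ π K A j i q hK hA hj hInj hSur hEx hIn
  have hTi : (T i).IsTree := (h i).tree
  refine ⟨?_, ?_⟩
  · intro B v x hx
    obtain ⟨x', hx', hxx⟩ := hSur _ x hx
    obtain ⟨y, hy, hy1, hy2, hy3⟩ := hEx B v x' hx'
    obtain ⟨hz, hz1⟩ := (hF2 (V i) (T i) (K.ι → ZM N)).2.2.1 (A.ι → ZM N) (trHom j) y hy
    refine ⟨fun u w => trHom j (y u w), hz, ?_, ?_, ?_⟩
    · intro u w huw
      exact hj.mem_ZC (hy1 u w huw)
    · intro w hw
      rw [hz1]
      exact hj.mem_BC (hy2 w hw)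
    · rw [hz1]
      have h1 : trHom j (bd y v) - x = (bd y v - x') ᵥ* j + (x' ᵥ* j - x) := by
        rw [Matrix.sub_vecMul, trHom_apply]
        abel
      rw [h1]
      exact AddSubgroup.add_mem _ (hj.mem_BC hy3) hxx
  · intro B y hy hy1 hy2
    obtain ⟨y', hy', hR⟩ := (hF (V i) (T i) hTi (A.ι → ZM N)).2.2 (K.ι → ZM N) y
      (fun u w z x => (T i).Adj u w →
        z ∈ ZC π Finset.univ K q (upd B i (edg (h i) u w)) ∧
        z ᵥ* j - x ∈ BC π Finset.univ A q (upd B i (edg (h i) u w))) hy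
      (by
        intro u w z x hR hwu
        obtain ⟨h1, h2⟩ := hR hwu.symm
        rw [edg_comm (h i) hwu.symm] at h1 h2
        refine ⟨AddSubgroup.neg_mem _ h1, ?_⟩
        have h3 : -z ᵥ* j - -x = -(z ᵥ* j - x) := by
          rw [Matrix.neg_vecMul]
          abel
        rw [h3]
        exact AddSubgroup.neg_mem _ h2)
      (by
        intro u w _
        refine ⟨AddSubgroup.zero_mem _, ?_⟩
        rw [Matrix.zero_vecMul, sub_zero]
        exact AddSubgroup.zero_mem _)
      (by
        intro u w huw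
        obtain ⟨z, hz, hz1⟩ := hSur _ (y u w) (hy1 u w huw)
        exact ⟨z, fun _ => ⟨hz, hz1⟩⟩)
    -- the flow `y' j - y`
    obtain ⟨hz, hz1⟩ := (hF2 (V i) (T i) (K.ι → ZM N)).2.2.1 (A.ι → ZM N) (trHom j) y' hy'
    obtain ⟨hn, hn1⟩ := (hF2 (V i) (T i) (A.ι → ZM N)).2.1 y hy
    obtain ⟨hd, hd1⟩ := (hF2 (V i) (T i) (A.ι → ZM N)).1 _ _ hz hn
    have hle : ∀ u w, (T i).Adj u w → vtx (h i) w ≤ edg (h i) u w := fun u w huw =>
      (vtx_le (h i)).2 (by rw [edg_set (h i) huw]; exact Or.inr rfl)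
    have key : ∀ w, bd y' w ∈ BC π Finset.univ K q (upd B i (vtx (h i) w)) := by
      intro w
      refine hInj _ _ ?_ ?_
      · refine tr_bd_mem hF2 hy' fun u huw => ?_
        exact kerF_anti (fun i' _ => tr_upd_le B i (hle u w huw) i') (hR u w huw).1
      · have h1 : bd (fun u v => trHom j (y' u v) + -y u v) w
            ∈ BC π Finset.univ A q (upd B i (vtx (h i) w)) := by
          refine tr_bd_mem hF2 hd fun u huw => ?_
          have h2 := BC_anti (fun i' _ => tr_upd_le B i (hle u w huw) i') (hR u w huw).2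
          rw [sub_eq_add_neg] at h2
          exact h2
        rw [hd1, hz1, hn1] at h1
        have h3 : bd y' w ᵥ* j = trHom j (bd y' w) + -bd y w + bd y w := by
          rw [neg_add_cancel_right, trHom_apply]
        rw [h3]
        exact AddSubgroup.add_mem _ h1 (hy2 w)
    have hB := hIn B y' hy' (fun u w huw => (hR u w huw).1) key
    intro u w huw
    have h1 : y u w = y' u w ᵥ* j - (y' u w ᵥ* j - y u w) := by abel
    rw [h1]
    exact AddSubgroup.sub_mem _ (hj.mem_BC (hB u w huw)) (hR u w huw).2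

end Pool.Agent.Lib.MP_551055_al.MT
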