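import Mathlib
import Pool.Agent.Lib.MP_551055_al.Trim.LS.PFree
import Pool.Agent.Lib.MP_551055_al.Trim.LS.PStmts2
import Pool.Agent.Lib.MP_551055_al.Trim.MT.StA
import Pool.Agent.Lib.MP_551055_al.Trim.MT.StB

/-!
# Many trees, module Tri: triangular rings have finite resolutions
-/

set_option autoImplicit false

namespace Pool.Agent.Lib.MP_551055_al
end Pool.Agent.Lib.MP_551055_al

namespace Pool.Agent.Lib.MP_551055_al.MT

open Pool.Agent.Lib.MP_551055_al

namespace TriM

/-! ### The functor `M ↦ e M` -/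

section

variable {R E : Type} [Ring R] [Ring E] (j : R →ₙ+* E) {A B : Type} [AddCommGroup A]
  [AddCommGroup B] [Module E A] [Module E B] (φ : A →ₗ[E] B)

theorem jj : j 1 * j 1 = j 1 := by rw [← map_mul, one_mul]

/-- The map of the parts `e M`. -/
def crMap : Cr j A →ₗ[R] Cr j B where
  toFun x := ⟨φ x, by
    have h := mem_Cr.1 x.2
    rw [mem_Cr, ← map_smul, h]⟩
  map_add' x y := Subtype.ext (map_add φ _ _)
  map_smul' r x := Subtype.ext (map_smul φ _ _)

theorem crMap_val (x : Cr j A) : (crMap j φ x : B) = φ x := rfl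

/-- The part of the kernel. -/
def crKer : Cr j (LinearMap.ker φ) ≃ₗ[R] LinearMap.ker (crMap j φ) where
  toFun x := ⟨⟨x.1.1, congrArg Subtype.val (mem_Cr.1 x.2)⟩,
    LinearMap.mem_ker.2 (Subtype.ext (LinearMap.mem_ker.1 x.1.2))⟩
  invFun x := ⟨⟨x.1.1, congrArg Subtype.val (LinearMap.mem_ker.1 x.2)⟩,
    Subtype.ext (mem_Cr.1 x.1.2)⟩
  left_inv _ := rfl
  right_inv _ := rfl
  map_add' _ _ := rfl
  map_smul' _ _ := rfl

theorem crMk_surj : Function.Surjective (crMap j (LinearMap.range φ).mkQ) := by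
  intro y
  obtain ⟨x, hx⟩ := Submodule.mkQ_surjective _ (y : B ⧸ LinearMap.range φ)
  refine ⟨⟨j 1 • x, ?_⟩, Subtype.ext ?_⟩
  · rw [mem_Cr, smul_smul, jj]
  · rw [crMap_val]
    change (LinearMap.range φ).mkQ (j 1 • x) = _
    rw [map_smul, hx]
    exact mem_Cr.1 y.2

theorem ker_crMk : LinearMap.ker (crMap j (LinearMap.range φ).mkQ) =
    LinearMap.range (crMap j φ) := by
  ext x
  rw [LinearMap.mem_ker]
  constructor
  · intro h
    have h1 : (LinearMap.range φ).mkQ (x : B) = 0 := congrArg Subtype.val h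
    rw [Submodule.mkQ_apply, Submodule.Quotient.mk_eq_zero] at h1
    obtain ⟨y, hy⟩ := h1
    refine ⟨⟨j 1 • y, ?_⟩, Subtype.ext ?_⟩
    · rw [mem_Cr, smul_smul, jj]
    · rw [crMap_val]
      change φ (j 1 • y) = _
      rw [map_smul, hy]
      exact mem_Cr.1 x.2
  · rintro ⟨y, rfl⟩
    apply Subtype.ext
    rw [crMap_val, crMap_val, Submodule.mkQ_apply]
    exact (Submodule.Quotient.mk_eq_zero _).2 ⟨y, rfl⟩

/-- The part of the cokernel. -/
noncomputable def crQuot : (Cr j B ⧸ LinearMap.range (crMap j φ)) ≃ₗ[R]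
    Cr j (B ⧸ LinearMap.range φ) :=
  (Submodule.quotEquivOfEq _ _ (ker_crMk j φ).symm).trans
    ((crMap j (LinearMap.range φ).mkQ).quotKerEquivOfSurjective (crMk_surj j φ))

end

/-! ### Triangular rings -/

section

variable {E : Type} [Ring E] {n : ℕ} {R : Fin n → Type} [∀ b, Ring (R b)]
  {j : ∀ b, R b →ₙ+* E} (hT : Tri E n R j)

include hT

/-- If all parts vanish the module vanishes. -/
theorem subsing {M : Type} [AddCommGroup M] [Module E M] (h : ∀ c, ∀ x ∈ Cr (j c) M, x = 0) :
    Subsingleton M := by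
  refine subsingleton_of_forall_eq 0 fun x => ?_
  have h1 : x = ∑ c, j c 1 • x := by rw [← Finset.sum_smul, hT.sum, one_smul]
  rw [h1]
  refine Finset.sum_eq_zero fun c _ => h c _ ?_
  rw [mem_Cr, smul_smul, jj]

/-- The map from the free module to the part of a finite sum of modules `E e_b`. -/
theorem frFree (b c : Fin n) (m : ℕ) :
    LS.FFF (R c) 0 (Cr (j c) (Fin m → PE (j b 1))) := by
  obtain ⟨k, x, hx, hy⟩ := hT.free c b
  have hxb : ∀ i, x i * j b 1 = x i := fun i => by
    conv_lhs => rw [← hx i]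
    rw [mul_assoc, jj, hx i]
  let Φ : (Fin m × Fin k → R c) →ₗ[R c] Cr (j c) (Fin m → PE (j b 1)) :=
    { toFun := fun r => ⟨fun i => ⟨∑ l, j c (r (i, l)) * x l, by
        rw [mem_PE, Finset.sum_mul]
        refine Finset.sum_congr rfl fun l _ => ?_
        rw [mul_assoc, hxb]⟩, by
        rw [mem_Cr]
        funext i
        apply Subtype.ext
        change j c 1 * ∑ l, j c (r (i, l)) * x l = ∑ l, j c (r (i, l)) * x l
        rw [Finset.mul_sum]
        refine Finset.sum_congr rfl fun l _ => ?_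
        rw [← mul_assoc, ← map_mul, one_mul]⟩
      map_add' := fun r s => by
        apply Subtype.ext
        funext i
        apply Subtype.ext
        change ∑ l, j c (r (i, l) + s (i, l)) * x l =
          ∑ l, j c (r (i, l)) * x l + ∑ l, j c (s (i, l)) * x l
        rw [← Finset.sum_add_distrib]
        refine Finset.sum_congr rfl fun l _ => ?_
        rw [map_add, add_mul]
      map_smul' := fun a r => by
        apply Subtype.ext
        funext i
        apply Subtype.ext
        change ∑ l, j c (a * r (i, l)) * x l = j c a * ∑ l, j c (r (i, l)) * x l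
        rw [Finset.mul_sum]
        refine Finset.sum_congr rfl fun l _ => ?_
        rw [map_mul, mul_assoc] }
  have hΦ : ∀ r i, (((Φ r : Cr (j c) (Fin m → PE (j b 1))) : Fin m → PE (j b 1)) i : E) =
      ∑ l, j c (r (i, l)) * x l := fun r i => rfl
  have hmem : ∀ (p : Cr (j c) (Fin m → PE (j b 1))) (i : Fin m),
      j c 1 * ((p : Fin m → PE (j b 1)) i : E) * j b 1 = ((p : Fin m → PE (j b 1)) i : E) := by
    intro p i
    have h1 : j c 1 * ((p : Fin m → PE (j b 1)) i : E) = ((p : Fin m → PE (j b 1)) i : E) :=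
      congrArg (fun z : Fin m → PE (j b 1) => (z i : E)) (mem_Cr.1 p.2)
    rw [h1]
    exact mem_PE.1 ((p : Fin m → PE (j b 1)) i).2
  have hbij : Function.Bijective Φ := by
    constructor
    · intro r s hrs
      funext il
      obtain ⟨i, l⟩ := il
      have h1 := hmem (Φ r) i
      obtain ⟨r₀, -, huniq⟩ := hy _ h1
      have h2 := huniq (fun l => r (i, l)) (hΦ r i)
      have h3 := huniq (fun l => s (i, l)) (by rw [hrs]; exact hΦ s i)
      exact congrFun (h2.trans h3.symm) l
    · intro p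
      have h1 : ∀ i, ∃ r : Fin k → R c, ((p : Fin m → PE (j b 1)) i : E) =
          ∑ l, j c (r l) * x l := fun i => (hy _ (hmem p i)).exists
      choose r hr using h1
      refine ⟨fun il => r il.1 il.2, Subtype.ext ?_⟩
      funext i
      apply Subtype.ext
      rw [hΦ, hr i]
  exact LS.FFF.of_fun (ι := Fin m × Fin k) (LinearEquiv.ofBijective Φ hbij).symm

/-- The part of index `b` of a finite sum of modules `E e_b`. -/
theorem frStd (b : Fin n) (m : ℕ) :
    ∃ Ψ : (Fin m → R b) ≃ₗ[R b] Cr (j b) (Fin m → PE (j b 1)),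
      ∀ r i, (((Ψ r : Cr (j b) (Fin m → PE (j b 1))) : Fin m → PE (j b 1)) i : E) =
        j b (r i) := by
  let Ψ : (Fin m → R b) →ₗ[R b] Cr (j b) (Fin m → PE (j b 1)) :=
    { toFun := fun r => ⟨fun i => ⟨j b (r i), by
        rw [mem_PE, ← map_mul, mul_one]⟩, by
        rw [mem_Cr]
        funext i
        apply Subtype.ext
        change j b 1 * j b (r i) = j b (r i)
        rw [← map_mul, one_mul]⟩
      map_add' := fun r s => by
        apply Subtype.ext
        funext i
        apply Subtype.ext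
        exact map_add (j b) _ _
      map_smul' := fun a r => by
        apply Subtype.ext
        funext i
        apply Subtype.ext
        exact map_mul (j b) _ _ }
  have hΨ : ∀ r i, (((Ψ r : Cr (j b) (Fin m → PE (j b 1))) : Fin m → PE (j b 1)) i : E) =
      j b (r i) := fun r i => rfl
  have hbij : Function.Bijective Ψ := by
    constructor
    · intro r s hrs
      funext i
      apply hT.inj b
      rw [← hΨ, ← hΨ, hrs]
    · intro p
      have h1 : ∀ i, ∃ r : R b, j b r = ((p : Fin m → PE (j b 1)) i : E) := by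
        intro i
        apply hT.surj b
        have h1 : j b 1 * ((p : Fin m → PE (j b 1)) i : E) = ((p : Fin m → PE (j b 1)) i : E) :=
          congrArg (fun z : Fin m → PE (j b 1) => (z i : E)) (mem_Cr.1 p.2)
        rw [h1]
        exact mem_PE.1 ((p : Fin m → PE (j b 1)) i).2
      choose r hr using h1
      refine ⟨r, Subtype.ext ?_⟩
      funext i
      apply Subtype.ext
      rw [hΨ, hr i]
  exact ⟨LinearEquiv.ofBijective Ψ hbij, hΨ⟩

/-- One step: a map from a finite sum of modules `E e_b` to `M` given by generators of `M_b`. -/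
theorem step (hFX : StFX) (hAb : StAb) (hRC : ∀ b, RC (R b)) (b : Fin n) (M : Type)
    [AddCommGroup M] [Module E M] (h0 : ∀ c, b < c → ∀ x ∈ Cr (j c) M, x = 0)
    (hF : ∀ c, ∃ d, LS.FFF (R c) d (Cr (j c) M)) (m : ℕ) (g : (Fin m → R b) →ₗ[R b] Cr (j b) M)
    (hg : Function.Surjective g) :
    ∃ f : (Fin m → PE (j b 1)) →ₗ[E] M,
      (∀ c, b < c → ∀ x ∈ Cr (j c) (LinearMap.ker f), x = 0) ∧
      (∀ c, ∃ d, LS.FFF (R c) d (Cr (j c) (LinearMap.ker f))) ∧
      Nonempty (LinearMap.ker g ≃ₗ[R b] Cr (j b) (LinearMap.ker f)) ∧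
      (∀ c, b ≤ c → ∀ x ∈ Cr (j c) (M ⧸ LinearMap.range f), x = 0) ∧
      (∀ c, ∃ d, LS.FFF (R c) d (Cr (j c) (M ⧸ LinearMap.range f))) ∧
      ((∃ d, FX (fun b => j b 1) d (LinearMap.ker f)) →
        (∃ d, FX (fun b => j b 1) d (M ⧸ LinearMap.range f)) →
        ∃ d, FX (fun b => j b 1) d M) := by
  classical
  let f : (Fin m → PE (j b 1)) →ₗ[E] M :=
    ∑ i, (LinearMap.toSpanSingleton E M (g (Pi.single i 1) : M)) ∘ₗ (PE (j b 1)).subtype ∘ₗ
      LinearMap.proj i
  have hf : ∀ p, f p = ∑ i, ((p i : PE (j b 1)) : E) • (g (Pi.single i 1) : M) := by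
    intro p
    rw [LinearMap.sum_apply]
    rfl
  obtain ⟨Ψ, hΨ⟩ := frStd hT b m
  have hfg : ∀ r, crMap (j b) f (Ψ r) = g r := by
    intro r
    apply Subtype.ext
    rw [crMap_val, hf]
    have h1 : g r = ∑ i, r i • g (Pi.single i 1) := by
      conv_lhs => rw [pi_eq_sum_univ' r, map_sum]
      refine Finset.sum_congr rfl fun i _ => ?_
      rw [map_smul]
    rw [h1, AddSubgroup.val_finsetSum]
    refine Finset.sum_congr rfl fun i _ => ?_
    rw [hΨ, cr_smul]
  have hsurj : Function.Surjective (crMap (j b) f) := fun y => by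
    obtain ⟨r, rfl⟩ := hg y
    exact ⟨Ψ r, hfg r⟩
  have hAb' := fun c => (hAb (R c)).2 (hRC c) (Cr (j c) (Fin m → PE (j b 1))) (Cr (j c) M)
    (crMap (j c) f) ⟨0, frFree hT b c m⟩ (hF c)
  refine ⟨f, ?_, ?_, ?_, ?_, ?_, ?_⟩
  · intro c hc x hx
    apply Subtype.ext
    funext i
    apply Subtype.ext
    have h1 : j c 1 * ((x : Fin m → PE (j b 1)) i : E) = ((x : Fin m → PE (j b 1)) i : E) :=
      congrArg (fun z : LinearMap.ker f => ((z : Fin m → PE (j b 1)) i : E)) (mem_Cr.1 hx)
    have h2 := hT.tri c b ((x : Fin m → PE (j b 1)) i : E) hc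
    have h3 : ((x : Fin m → PE (j b 1)) i : E) * j b 1 = ((x : Fin m → PE (j b 1)) i : E) :=
      mem_PE.1 ((x : Fin m → PE (j b 1)) i).2
    rw [h1, h3] at h2
    exact h2
  · intro c
    obtain ⟨d, hd⟩ := (hAb' c).1
    exact ⟨d, hd.congr (crKer (j c) f).symm⟩
  · have hmap : (LinearMap.ker g).map (Ψ : (Fin m → R b) →ₗ[R b] Cr (j b) (Fin m → PE (j b 1)))
        = LinearMap.ker (crMap (j b) f) := by
      ext y
      constructor
      · rintro ⟨r, hr, rfl⟩
        rw [LinearMap.mem_ker]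
        exact (hfg r).trans hr
      · intro hy
        refine ⟨Ψ.symm y, ?_, Ψ.apply_symm_apply y⟩
        have h1 := hfg (Ψ.symm y)
        rw [Ψ.apply_symm_apply, LinearMap.mem_ker.1 hy] at h1
        exact h1.symm
    exact ⟨(Ψ.ofSubmodules _ _ hmap).trans (crKer (j b) f).symm⟩
  · intro c hc x hx
    obtain ⟨y, hy⟩ := crMk_surj (j c) f ⟨x, hx⟩
    have hxy : x = (LinearMap.range f).mkQ (y : M) := (congrArg Subtype.val hy).symm
    rw [hxy]
    rcases eq_or_lt_of_le hc with rfl | hlt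
    · obtain ⟨z, hz⟩ := hsurj y
      rw [Submodule.mkQ_apply, Submodule.Quotient.mk_eq_zero]
      exact ⟨z, congrArg Subtype.val hz⟩
    · rw [h0 c hlt y y.2, map_zero]
  · intro c
    obtain ⟨d, hd⟩ := (hAb' c).2.2
    exact ⟨d, hd.congr (crQuot (j c) f)⟩
  · rintro ⟨d₁, hd₁⟩ ⟨d₂, hd₂⟩
    obtain ⟨hmono, hses, -⟩ := hFX E n (fun b => j b 1) (fun b => jj (j b))
    have h1 : FX (fun b => j b 1) d₁ (Fin m → PE (j b 1)) :=
      hmono 0 d₁ _ (Nat.zero_le _) ⟨m, fun _ => b, ⟨LinearEquiv.refl E _⟩⟩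
    have h2 : FX (fun b => j b 1) (d₁ + 1) (LinearMap.range f) :=
      (hses d₁ (LinearMap.ker f) (Fin m → PE (j b 1)) (LinearMap.range f)
        (LinearMap.ker f).subtype f.rangeRestrict (Submodule.injective_subtype _)
        f.surjective_rangeRestrict (by
          rw [Submodule.range_subtype, LinearMap.ker_rangeRestrict])).2 hd₁ h1
    refine ⟨max (d₁ + 1) d₂, ?_⟩
    exact (hses (max (d₁ + 1) d₂) (LinearMap.range f) M (M ⧸ LinearMap.range f)
      (LinearMap.range f).subtype (LinearMap.range f).mkQ (Submodule.injective_subtype _)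
      (Submodule.mkQ_surjective _) (by
        rw [Submodule.range_subtype, Submodule.ker_mkQ])).1
      (hmono _ _ _ (le_max_left _ _) h2) (hmono _ _ _ (le_max_right _ _) hd₂)

theorem claim (hFX : StFX) (hAb : StAb) (hRC : ∀ b, RC (R b)) (t : ℕ) :
    ∀ (M : Type) [AddCommGroup M] [Module E M],
      (∀ c : Fin n, t ≤ (c : ℕ) → ∀ x ∈ Cr (j c) M, x = 0) →
      (∀ c, ∃ d, LS.FFF (R c) d (Cr (j c) M)) → ∃ d, FX (fun b => j b 1) d M := by
  induction t with
  | zero =>
    intro M _ _ h _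
    have := subsing hT (M := M) fun c => h c (Nat.zero_le _)
    exact ⟨0, 0, fun i => i.elim0, ⟨0⟩⟩
  | succ t ih =>
    intro M _ _ h0 hF
    by_cases ht : t < n
    swap
    · exact ih M (fun c hc => absurd c.2 (by omega)) hF
    let b : Fin n := ⟨t, ht⟩
    -- induction on the length of the resolution of the part of index `b`
    have inner : ∀ (d : ℕ) (M : Type) [AddCommGroup M] [Module E M],
        (∀ c : Fin n, b < c → ∀ x ∈ Cr (j c) M, x = 0) →
        (∀ c, ∃ d, LS.FFF (R c) d (Cr (j c) M)) → LS.FFF (R b) d (Cr (j b) M) →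
        ∃ d, FX (fun b => j b 1) d M := by
      intro d
      induction d with
      | zero =>
        intro M _ _ h0 hF hd
        obtain ⟨m, ⟨e⟩⟩ := hd
        obtain ⟨f, k1, k2, ⟨k3⟩, k4, k5, k6⟩ := step hT hFX hAb hRC b M h0 hF m
          e.symm.toLinearMap e.symm.surjective
        refine k6 (ih _ ?_ k2) (ih _ ?_ k5)
        · intro c hc x hx
          rcases Nat.eq_or_lt_of_le hc with h | h
          · obtain rfl : b = c := Fin.ext h
            have h2 : (k3.symm ⟨x, hx⟩ : LinearMap.ker e.symm.toLinearMap) = 0 :=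
              Subtype.ext (e.symm.map_eq_zero_iff.1 (LinearMap.mem_ker.1 (k3.symm ⟨x, hx⟩).2))
            have h4 : (⟨x, hx⟩ : Cr (j b) (LinearMap.ker f)) = 0 := by
              rw [← k3.apply_symm_apply ⟨x, hx⟩, h2, map_zero]
            exact congrArg Subtype.val h4
          · exact k1 c h x hx
        · intro c hc
          exact k4 c hc
      | succ d ihd =>
        intro M _ _ h0 hF hd
        obtain ⟨m, g, hg, hk⟩ := hd
        obtain ⟨f, k1, k2, ⟨k3⟩, k4, k5, k6⟩ := step hT hFX hAb hRC b M h0 hF m g hg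
        exact k6 (ihd _ k1 k2 (hk.congr k3)) (ih _ (fun c hc => k4 c hc) k5)
    obtain ⟨d, hd⟩ := hF b
    exact inner d M (fun c hc => h0 c hc) hF hd

end

end TriM

/-- Module Tri. -/
theorem stTri (h : StFX) (hAb : StAb) : StTri := by
  intro E _ n R _ j hT hRC M _ _ hM
  exact TriM.claim hT h hAb hRC n M (fun c hc => absurd c.2 (not_lt.2 hc)) hM

end Pool.Agent.Lib.MP_551055_al.MT
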