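import Mathlib
import Pool.Agent.Lib.MP_551055_al.Trim.MT.Base
import Pool.Agent.Lib.MP_551055_al.Trim.MT.Defs
import Pool.Agent.Lib.MP_551055_al.Trim.MT.Gen
import Pool.Agent.Lib.MP_551055_al.Trim.MT.StB
import Pool.Agent.Lib.MP_551055_al.Trim.MT.Tg

/-!
# Many trees: truncation
-/

set_option autoImplicit false

namespace Pool.Agent.Lib.MP_551055_al
end Pool.Agent.Lib.MP_551055_al

namespace Pool.Agent.Lib.MP_551055_al.MT.TruncM
end Pool.Agent.Lib.MP_551055_al.MT.TruncM

namespace Pool.Agent.Lib.MP_551055_al.MT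

open Pool.Agent.Lib.MP_551055_al

open Matrix

namespace TruncM

section

variable (N : Type) [Monoid N] {ι : Type} [Fintype ι] [DecidableEq ι] (p : ι → Prop)
  [DecidablePred p]

/-- the inclusion of a part of the basis -/
noncomputable def eM : Matrix {l // p l} ι (ZM N) := fun l k => if l.1 = k then 1 else 0

/-- the projection to a part of the basis -/
noncomputable def pM : Matrix ι {l // p l} (ZM N) := fun k l => if l.1 = k then 1 else 0

omit [DecidablePred p] in
theorem mul_pM {κ : Type} (f : Matrix κ ι (ZM N)) (l : κ) (k : {l // p l}) :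
    (f * pM N p : Matrix κ {l // p l} (ZM N)) l k = f l k.1 := by
  rw [Matrix.mul_apply, Finset.sum_eq_single k.1]
  · simp [pM]
  · intro j _ hj
    rw [pM, if_neg (Ne.symm hj), mul_zero]
  · intro h
    exact absurd (Finset.mem_univ _) h

theorem sbAdd : (pM N p : Matrix ι {l // p l} (ZM N)) * eM N p
    + (pM N (fun l => ¬ p l) : Matrix ι {l // ¬ p l} (ZM N)) * eM N (fun l => ¬ p l) = 1 := by
  ext1 k
  intro k'
  rw [Matrix.add_apply, Matrix.mul_apply, Matrix.mul_apply]
  have h := Fintype.sum_subtype_add_sum_subtype p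
    (fun l => (if l = k then (1 : ZM N) else 0) * (if l = k' then (1 : ZM N) else 0))
  refine h.trans ?_
  rw [Finset.sum_eq_single k]
  · rw [if_pos rfl, one_mul]
    by_cases hk : k = k'
    · rw [if_pos hk, hk, Matrix.one_apply_eq]
    · rw [if_neg hk, Matrix.one_apply_ne hk]
  · intro j _ hj
    rw [if_neg hj, zero_mul]
  · intro h
    exact absurd (Finset.mem_univ _) h

theorem eM_mul_pM : (eM N p : Matrix {l // p l} ι (ZM N)) * pM N p = 1 := by
  ext1 l
  intro k
  rw [mul_pM, eM]
  by_cases h : l = k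
  · rw [h, Matrix.one_apply_eq, if_pos rfl]
  · rw [Matrix.one_apply_ne h, if_neg fun h' => h (Subtype.ext h')]

theorem mul_pM_eM {κ : Type} (f : Matrix κ ι (ZM N)) (h : ∀ l k, ¬ p k → f l k = 0) :
    f * pM N p * eM N p = f := by
  have h1 : f * (pM N (fun l => ¬ p l) : Matrix ι {l // ¬ p l} (ZM N)) = 0 := by
    ext1 l
    intro k
    rw [mul_pM]
    exact h l k.1 k.2
  have h2 := congrArg (fun g => f * g) (sbAdd N p)
  simp only [Matrix.mul_add, Matrix.mul_one] at h2
  rw [← Matrix.mul_assoc, ← Matrix.mul_assoc, h1, Matrix.zero_mul, add_zero] at h2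
  exact h2

theorem mul_pM_zero {κ : Type} (f : Matrix κ ι (ZM N)) (h : ∀ l k, p k → f l k = 0) :
    f * pM N p = 0 := by
  ext1 l
  intro k
  rw [mul_pM]
  exact h l k.1 k.2

end

section

variable {Γ : Type} [Group Γ] {D : Type} {P : D → Type} [∀ i, PartialOrder (P i)]
  [∀ i, MulAction Γ (P i)] {N : Type} [Monoid N]
  {π : N →* Γ} {U : Finset D}

/-- a part of the basis -/
abbrev sb (X : Ob P) (p : X.ι → Prop) [DecidablePred p] : Ob P where
  ι := {l // p l}
  ft := inferInstance
  de := inferInstance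
  deg := fun l => X.deg l.1
  sz := fun l => X.sz l.1

theorem ct_eM (X : Ob P) (p : X.ι → Prop) [DecidablePred p] : Ct π U 0 (sb X p) X (eM N p) := by
  intro l k m h
  unfold eM at h
  split_ifs at h with h1
  · rw [coeff_one_ne h, map_one, ← h1]
    exact ⟨(add_zero _).symm, fun i _ => by rw [one_smul]⟩
  · exact absurd rfl h

theorem ct_pM (X : Ob P) (p : X.ι → Prop) [DecidablePred p] : Ct π U 0 X (sb X p) (pM N p) := by
  intro l k m h
  unfold pM at h
  split_ifs at h with h1
  · rw [coeff_one_ne h, map_one, ← h1]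
    exact ⟨(add_zero _).symm, fun i _ => by rw [one_smul]⟩
  · exact absurd rfl h

/-- the truncated complex -/
noncomputable abbrev cA (K R : Co P N) (r : Matrix R.ι K.ι (ZM N)) (p : K.ι → Prop)
    [DecidablePred p] : Co P N where
  ι := {l // p l} ⊕ R.ι
  ft := inferInstance
  de := inferInstance
  deg := Sum.elim (fun l => K.deg l.1) R.deg
  sz := Sum.elim (fun l => K.sz l.1) R.sz
  d := Matrix.fromBlocks (eM N p * K.d * pM N p) 0 (r * pM N p) R.d

theorem mem_sum (K R : Co P N) (r : Matrix R.ι K.ι (ZM N)) (p : K.ι → Prop) [DecidablePred p]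
    (B : Sz P) (n : ℤ) (w : {l // p l} ⊕ R.ι → ZM N) :
    w ∈ fam π U (cA K R r p).toOb B n ↔
      (w ∘ Sum.inl) ∈ fam π U (sb K.toOb p) B n ∧ (w ∘ Sum.inr) ∈ fam π U R.toOb B n := by
  constructor
  · intro h
    exact ⟨fun l m hm => h (Sum.inl l) m hm, fun l m hm => h (Sum.inr l) m hm⟩
  · rintro ⟨h1, h2⟩ (l | l) m hm
    · exact h1 l m hm
    · exact h2 l m hm

/-- a vector with entries in wrong degrees is zero -/
theorem fam_zero {X : Ob P} {B : Sz P} {n : ℤ} {x : X.ι → ZM N} (hx : x ∈ fam π U X B n)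
    (h : ∀ l, X.deg l ≠ n) : x = 0 := by
  funext l
  apply MonoidAlgebra.coeff_injective
  ext m
  by_contra hm
  exact h l (hx l m hm).1

theorem entry_zero {x : ZM N} (h : ∀ m, x.coeff m = 0) : x = 0 := by
  apply MonoidAlgebra.coeff_injective
  ext m
  exact h m

theorem vecMul_zero_of {ι κ : Type} [Fintype ι] (x : ι → ZM N) (f : Matrix ι κ (ZM N))
    (h : ∀ l, x l = 0 ∨ f l = 0) : x ᵥ* f = 0 := by
  rw [← lin_matrix, lin_apply]
  refine Finset.sum_eq_zero fun l _ => ?_
  rcases h l with h | h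
  · rw [h, zero_smul]
  · rw [h, smul_zero]

end

end TruncM

open TruncM

/-- Module Trunc. -/
theorem stTrunc (hKer : StKer) (hSolve : StSolve) : StTrunc := by
  intro Γ _ D _ P _ _ _ _ N _ π hUL hHN K hK a
  obtain ⟨R, r, hR, hRlo, hr, hdr, hrL, hrS, hrI, hRE⟩ :=
    hKer Γ D P N π hUL hHN K.toOb K.toOb (-1) K.d hK.1 (a + 1) (a + 2)
  set p : K.ι → Prop := fun l => K.deg l ≤ a + 1 with hp
  -- matrices
  have hKd : ∀ l k, K.deg k ≠ K.deg l - 1 → K.d l k = 0 := by
    intro l k h
    apply entry_zero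
    intro m
    by_contra hm
    exact h (by have := (hK.1 l k m hm).1; omega)
  have hrd : ∀ l k, (R.deg l ≠ a + 2 ∨ K.deg k ≠ a + 1) → r l k = 0 := by
    intro l k h
    apply entry_zero
    intro m
    by_contra hm
    obtain ⟨h1, h2, -⟩ := hr l k m hm
    rcases h with h | h
    · exact h h1
    · exact h h2
  have hEK : ∀ (l : {l // p l}) (k : K.ι), (eM N p * K.d : Matrix _ _ (ZM N)) l k = K.d l.1 k := by
    intro l k
    rw [Matrix.mul_apply, Finset.sum_eq_single l.1]
    · rw [eM, if_pos rfl, one_mul]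
    · intro j _ hj
      rw [eM, if_neg (Ne.symm hj), zero_mul]
    · intro h
      exact absurd (Finset.mem_univ _) h
  have e1 : (eM N p : Matrix {l // p l} K.ι (ZM N)) * K.d * pM N p * eM N p = eM N p * K.d := by
    apply mul_pM_eM
    intro l k hk
    rw [hEK]
    apply hKd
    have h1 : K.deg l.1 ≤ a + 1 := l.2
    have h2 : ¬ (K.deg k ≤ a + 1) := hk
    omega
  have e2 : (eM N p : Matrix {l // p l} K.ι (ZM N)) * K.d * pM N (fun l => ¬ p l) = 0 := by
    apply mul_pM_zero
    intro l k hk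
    rw [hEK]
    apply hKd
    have h1 : K.deg l.1 ≤ a + 1 := l.2
    have h2 : ¬ (K.deg k ≤ a + 1) := hk
    omega
  have e3 : r * pM N p * eM N p = r := by
    apply mul_pM_eM
    intro l k hk
    apply hrd
    right
    have h2 : ¬ (K.deg k ≤ a + 1) := hk
    omega
  have e4 : r * K.d = 0 := by
    ext1 l
    have h0 : (r * K.d) l = r l ᵥ* K.d := rfl
    intro k
    rw [h0]
    by_cases hl : R.deg l = a + 2
    · have h1 := hrL (R.sz l) (Pi.single l 1) (by
        rw [← hl]
        exact basis_mem_fam l)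
      have h2 := h1.2
      rw [← lin_matrix r, lin_single, one_smul] at h2
      rw [h2]
      rfl
    · have h3 : r l = 0 := by
        funext k'
        exact hrd l k' (Or.inl hl)
      rw [h3, Matrix.zero_vecMul]
      rfl
  -- the complex `A`
  have hA : IsCx π Finset.univ (cA K R r p) := by
    refine ⟨?_, ?_⟩
    · have c1 : Ct π Finset.univ (-1) (sb K.toOb p) (sb K.toOb p) (eM N p * K.d * pM N p) :=
        (((ct_eM K.toOb p).mul' hK.1 (zero_add _)).mul' (ct_pM K.toOb p) (add_zero _))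
      rintro (l | l) (k | k) m h
      · exact c1 l k m h
      · exact absurd rfl h
      · have h' : ((r * pM N p : Matrix _ _ (ZM N)) l k).coeff m ≠ 0 := h
        rw [mul_pM] at h'
        obtain ⟨h1, h2, h3⟩ := hr l k.1 m h'
        exact ⟨by change K.deg k.1 = R.deg l + -1; omega, fun i _ => h3 i⟩
      · exact hR.1 l k m h
    · change Matrix.fromBlocks (eM N p * K.d * pM N p) 0 (r * pM N p) R.d *
        Matrix.fromBlocks (eM N p * K.d * pM N p) 0 (r * pM N p) R.d = 0
      rw [Matrix.fromBlocks_multiply]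
      have c1 : (eM N p : Matrix {l // p l} K.ι (ZM N)) * K.d * pM N p * (eM N p * K.d * pM N p) = 0 := by
        calc (eM N p : Matrix {l // p l} K.ι (ZM N)) * K.d * pM N p * (eM N p * K.d * pM N p)
            = (eM N p * K.d * pM N p * eM N p) * K.d * pM N p := by simp only [Matrix.mul_assoc]
          _ = eM N p * (K.d * K.d) * pM N p := by rw [e1]; simp only [Matrix.mul_assoc]
          _ = 0 := by rw [hK.2, Matrix.mul_zero, Matrix.zero_mul]
      have c2 : r * pM N p * (eM N p * K.d * pM N p) = 0 := by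
        calc r * pM N p * (eM N p * K.d * pM N p) = (r * pM N p * eM N p) * K.d * pM N p := by
              simp only [Matrix.mul_assoc]
          _ = 0 := by rw [e3, e4, Matrix.zero_mul]
      have c3 : R.d * (r * pM N p) = 0 := by
        rw [← Matrix.mul_assoc, hdr, Matrix.zero_mul]
      rw [c1, c2, c3, hR.2, Matrix.mul_zero, Matrix.zero_mul, Matrix.mul_zero, Matrix.zero_mul,
        add_zero, add_zero, add_zero, add_zero]
      exact Matrix.fromBlocks_zero
  -- vectors killed by `r`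
  have hz : ∀ (B : Sz P) (n : ℤ), n ≠ a + 2 → ∀ z ∈ fam π Finset.univ R.toOb B n,
      z ᵥ* r = 0 := by
    intro B n hn z hz
    apply vecMul_zero_of
    intro l
    by_cases hl : R.deg l = a + 2
    · left
      apply entry_zero
      intro m
      by_contra hm
      exact hn ((hz l m hm).1.symm.trans hl)
    · right
      funext k'
      exact hrd l k' (Or.inl hl)
  have hEr : ∀ y : R.ι → ZM N, y ᵥ* (r * pM N p) = 0 → y ᵥ* r = 0 := by
    intro y hy
    have h1 : y ᵥ* r = y ᵥ* (r * pM N p) ᵥ* eM N p := by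
      rw [Matrix.vecMul_vecMul, e3]
    rw [h1, hy, Matrix.zero_vecMul]
  -- the differential of `A`
  have hAd : ∀ w : (cA K R r p).ι → ZM N, w ᵥ* (cA K R r p).d
      = Sum.elim ((w ∘ Sum.inl) ᵥ* (eM N p * K.d * pM N p) + (w ∘ Sum.inr) ᵥ* (r * pM N p))
        ((w ∘ Sum.inr) ᵥ* R.d) := by
    intro w
    change w ᵥ* Matrix.fromBlocks (eM N p * K.d * pM N p) 0 (r * pM N p) R.d = _
    rw [Matrix.vecMul_fromBlocks, Matrix.vecMul_zero, zero_add]
  -- vectors of small degree
  have hlow : ∀ (B : Sz P) (n : ℤ), n ≤ a + 1 → ∀ y ∈ fam π Finset.univ R.toOb B n, y = 0 := by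
    intro B n hn y hy
    apply fam_zero hy
    intro l
    have := hRlo l
    omega
  have hhigh : ∀ (B : Sz P) (n : ℤ), a + 1 < n → ∀ y ∈ fam π Finset.univ (sb K.toOb p) B n,
      y = 0 := by
    intro B n hn y hy
    apply fam_zero hy
    intro l
    have h1 : K.deg l.1 ≤ a + 1 := l.2
    change K.deg l.1 ≠ n
    omega
  -- exactness of `A`
  have hAE : ∀ q, a < q → Exa π Finset.univ (cA K R r p) q := by
    intro q hq B w hw
    obtain ⟨hw1, hw2⟩ := (mem_sum K R r p B q w).1 hw.1
    have hw3 := hw.2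
    rw [hAd] at hw3
    have h3 : (w ∘ Sum.inl) ᵥ* (eM N p * K.d * pM N p) + (w ∘ Sum.inr) ᵥ* (r * pM N p) = 0 := by
      funext l
      exact congrFun hw3 (Sum.inl l)
    have h4 : (w ∘ Sum.inr) ᵥ* R.d = 0 := by
      funext l
      exact congrFun hw3 (Sum.inr l)
    have hwe : w = Sum.elim (w ∘ Sum.inl) (w ∘ Sum.inr) := (Sum.elim_comp_inl_inr w).symm
    rcases lt_trichotomy q (a + 2) with hq2 | hq2 | hq2
    · -- `q = a + 1`
      have hq1 : q = a + 1 := by omega
      have hy : w ∘ Sum.inr = 0 := hlow B q (by omega) _ hw2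
      rw [hy, Matrix.zero_vecMul, add_zero] at h3
      have h5 : (w ∘ Sum.inl) ᵥ* (eM N p : Matrix {l // p l} K.ι (ZM N)) ᵥ* K.d = 0 := by
        rw [Matrix.vecMul_vecMul, ← e1, ← Matrix.vecMul_vecMul, h3, Matrix.zero_vecMul]
      have h6 : (w ∘ Sum.inl) ᵥ* (eM N p : Matrix {l // p l} K.ι (ZM N))
          ∈ kerF π Finset.univ K.toOb K.d (a + 1) B := by
        refine ⟨?_, h5⟩
        have := fam_vecMul' (ct_eM (π := π) (U := Finset.univ) K.toOb p) hw1 (add_zero q)
        rwa [hq1] at this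
      obtain ⟨y, hy1, hy2⟩ := hrS B _ h6
      refine ⟨Sum.elim 0 y, (mem_sum K R r p B (q + 1) _).2 ⟨?_, ?_⟩, ?_⟩
      · rw [Sum.elim_comp_inl]
        exact AddSubgroup.zero_mem _
      · rw [Sum.elim_comp_inr, hq1]
        have e : a + 1 + 1 = a + 2 := by ring
        rw [e]
        exact hy1
      · rw [hAd, Sum.elim_comp_inl, Sum.elim_comp_inr, Matrix.zero_vecMul, zero_add, hwe]
        congr 1
        · rw [← Matrix.vecMul_vecMul, hy2, Matrix.vecMul_vecMul, eM_mul_pM, Matrix.vecMul_one]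
        · rw [hy]
          exact hlow B (a + 2 + -1) (by omega) _ (fam_vecMul hR.1 hy1)
    · -- `q = a + 2`
      have hx : w ∘ Sum.inl = 0 := hhigh B q (by omega) _ hw1
      rw [hx, Matrix.zero_vecMul, zero_add] at h3
      rw [hq2] at hw2
      obtain ⟨z, hz1, hz2⟩ := hrI B _ hw2 (hEr _ h3)
      refine ⟨Sum.elim 0 z, (mem_sum K R r p B (q + 1) _).2 ⟨?_, ?_⟩, ?_⟩
      · rw [Sum.elim_comp_inl]
        exact AddSubgroup.zero_mem _
      · rw [Sum.elim_comp_inr, hq2]
        exact hz1
      · rw [hAd, Sum.elim_comp_inl, Sum.elim_comp_inr, Matrix.zero_vecMul, zero_add, hz2]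
        conv_rhs => rw [hwe]
        congr 1
        rw [hx, ← Matrix.vecMul_vecMul, hz B (a + 2 + 1) (by omega) z hz1, Matrix.zero_vecMul]
    · -- `q > a + 2`
      have hx : w ∘ Sum.inl = 0 := hhigh B q (by omega) _ hw1
      obtain ⟨z, hz1, hz2⟩ := hRE q hq2 B (show w ∘ Sum.inr ∈ ZC π Finset.univ R q B from
        ⟨hw2, h4⟩)
      refine ⟨Sum.elim 0 z, (mem_sum K R r p B (q + 1) _).2 ⟨?_, ?_⟩, ?_⟩
      · rw [Sum.elim_comp_inl]
        exact AddSubgroup.zero_mem _
      · rw [Sum.elim_comp_inr]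
        exact hz1
      · rw [hAd, Sum.elim_comp_inl, Sum.elim_comp_inr, Matrix.zero_vecMul, zero_add, hz2]
        conv_rhs => rw [hwe]
        congr 1
        rw [hx, ← Matrix.vecMul_vecMul, hz B (q + 1) (by omega) z hz1, Matrix.zero_vecMul]
  -- the quotient complex
  set p' : K.ι → Prop := fun l => ¬ p l with hp'
  set H : Co P N :=
    { ι := {l // p' l}
      ft := inferInstance
      de := inferInstance
      deg := fun l => K.deg l.1
      sz := fun l => K.sz l.1
      d := eM N p' * K.d * pM N p' } with hH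
  have hsplit : ∀ {α : Type} (x : Matrix α K.ι (ZM N)),
      x * (pM N p' : Matrix K.ι {l // p' l} (ZM N)) * eM N p' = x - x * pM N p * eM N p := by
    intro α x
    have h := congrArg (fun g => x * g) (sbAdd N p)
    simp only [Matrix.mul_add, Matrix.mul_one] at h
    rw [← Matrix.mul_assoc, ← Matrix.mul_assoc] at h
    rw [eq_sub_iff_add_eq, add_comm]
    exact h
  have hHd : ∀ {κ : Type} (x : Matrix K.ι κ (ZM N)),
      (eM N p' : Matrix {l // p' l} K.ι (ZM N)) * K.d * pM N p' * (eM N p' * K.d * x)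
        = -(eM N p' * K.d * pM N p * (eM N p * K.d * x)) := by
    intro κ x
    calc (eM N p' : Matrix {l // p' l} K.ι (ZM N)) * K.d * pM N p' * (eM N p' * K.d * x)
        = (eM N p' * K.d * pM N p' * eM N p') * K.d * x := by simp only [Matrix.mul_assoc]
      _ = (eM N p' * K.d - eM N p' * K.d * pM N p * eM N p) * K.d * x := by rw [hsplit]
      _ = eM N p' * (K.d * K.d) * x - eM N p' * K.d * pM N p * (eM N p * K.d * x) := by
          rw [Matrix.sub_mul, Matrix.sub_mul]
          simp only [Matrix.mul_assoc]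
      _ = _ := by rw [hK.2, Matrix.mul_zero, Matrix.zero_mul, zero_sub]
  have cH : Ct π Finset.univ (-1) (sb K.toOb p') (sb K.toOb p') (eM N p' * K.d * pM N p') :=
    (((ct_eM K.toOb p').mul' hK.1 (zero_add _)).mul' (ct_pM K.toOb p') (add_zero _))
  have hHx : IsCx π Finset.univ H := by
    refine ⟨cH, ?_⟩
    change (eM N p' : Matrix {l // p' l} K.ι (ZM N)) * K.d * pM N p' * (eM N p' * K.d * pM N p') = 0
    rw [hHd, e2, Matrix.mul_zero, neg_zero]
  set iL : Matrix {l // p l} ({l // p l} ⊕ R.ι) (ZM N) := Matrix.fromCols 1 0 with hiL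
  have hiLd : iL * (cA K R r p).d = (eM N p * K.d * pM N p) * iL := by
    change iL * Matrix.fromBlocks (eM N p * K.d * pM N p) 0 (r * pM N p) R.d = _
    rw [hiL, Matrix.fromCols_mul_fromBlocks, Matrix.mul_fromCols, Matrix.one_mul,
      Matrix.zero_mul, add_zero, Matrix.mul_zero, Matrix.zero_mul, add_zero, Matrix.mul_one,
      Matrix.mul_zero]
  have ciL : Ct π Finset.univ 0 (sb K.toOb p) (cA K R r p).toOb iL := by
    rintro l (k | k) m h
    · change ((1 : Matrix {l // p l} {l // p l} (ZM N)) l k).coeff m ≠ 0 at h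
      exact (Ct.one (π := π) (U := Finset.univ) (X := sb K.toOb p)) l k m h
    · exact absurd rfl h
  set f : Matrix {l // p' l} ({l // p l} ⊕ R.ι) (ZM N) := eM N p' * K.d * pM N p * iL with hf
  have cf : Ct π Finset.univ (-1) (sb K.toOb p') (cA K R r p).toOb f :=
    ((((ct_eM K.toOb p').mul' hK.1 (zero_add _)).mul' (ct_pM K.toOb p) (add_zero _)).mul' ciL
      (add_zero _))
  have hfd : f * (cA K R r p).d = -(H.d * f) := by
    have h1 : H.d * f = -(eM N p' * K.d * pM N p * (eM N p * K.d * (pM N p * iL))) := by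
      rw [← hHd]
      change eM N p' * K.d * pM N p' * (eM N p' * K.d * pM N p * iL) = _
      simp only [Matrix.mul_assoc]
    rw [h1, neg_neg, hf, Matrix.mul_assoc, hiLd]
    simp only [Matrix.mul_assoc]
  obtain ⟨s, hs1, hs2⟩ := hSolve Γ D P N π Finset.univ H (Tg.ofCo (cA K R r p) hA) hHx 1 0
    (fun l => f l)
    (fun l => by
      have h1 := (ct_iff.1 cf) l
      change f l ∈ fam π Finset.univ (cA K R r p).toOb (K.sz l.1) (K.deg l.1 + 0 - 1)
      rw [add_zero]
      exact h1)
    (fun x => by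
      change lin (N := N) (V := (cA K R r p).ι → ZM N) f x ᵥ* (cA K R r p).d
        = -((1 : ℤ) • lin (N := N) (V := (cA K R r p).ι → ZM N) f (x ᵥ* H.d))
      rw [one_smul, lin_matrix, lin_matrix, Matrix.vecMul_vecMul, Matrix.vecMul_vecMul, hfd,
        Matrix.vecMul_neg])
    (fun l => by
      have h1 : ¬ (K.deg l.1 ≤ a + 1) := l.2
      have h2 : a < H.deg l + 0 - 1 := by
        change a < K.deg l.1 + 0 - 1
        omega
      exact hAE _ h2 (H.sz l))
  set sM : Matrix {l // p' l} ({l // p l} ⊕ R.ι) (ZM N) := s with hsM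
  have csM : Ct π Finset.univ 0 (sb K.toOb p') (cA K R r p).toOb sM := by
    rw [ct_iff]
    exact hs1
  have hsd : sM * (cA K R r p).d = f + H.d * sM := by
    ext1 l
    have h1 := hs2 (Pi.single l 1)
    change lin (N := N) (V := (cA K R r p).ι → ZM N) s (Pi.single l 1) ᵥ* (cA K R r p).d
      = lin (N := N) (V := (cA K R r p).ι → ZM N) f (Pi.single l 1)
        + (1 : ℤ) • lin (N := N) (V := (cA K R r p).ι → ZM N) s (Pi.single l 1 ᵥ* H.d) at h1
    rw [one_smul] at h1
    have h2 : Pi.single l (1 : ZM N) ᵥ* H.d = H.d l := by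
      rw [← lin_matrix, lin_single, one_smul]
    rw [lin_single, lin_single, one_smul, one_smul, h2, lin_matrix] at h1
    intro k
    exact congrFun h1 k
  set j : Matrix K.ι ({l // p l} ⊕ R.ι) (ZM N) := pM N p * iL + pM N p' * sM with hj
  have cj : Ct π Finset.univ 0 K.toOb (cA K R r p).toOb j :=
    ((ct_pM K.toOb p).mul' ciL (add_zero _)).add ((ct_pM K.toOb p').mul' csM (add_zero _))
  have hjd : K.d * j = j * (cA K R r p).d := by
    have h1 : j * (cA K R r p).d = pM N p * (eM N p * K.d * pM N p * iL)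
        + pM N p' * (eM N p' * K.d * pM N p * iL + eM N p' * K.d * pM N p' * sM) := by
      rw [hj, Matrix.add_mul, Matrix.mul_assoc, Matrix.mul_assoc, hiLd, hsd]
    have h2 : pM N p * (eM N p * K.d * pM N p * iL)
        + pM N p' * (eM N p' * K.d * pM N p * iL + eM N p' * K.d * pM N p' * sM)
        = (pM N p * eM N p + pM N p' * eM N p') * (K.d * j) - pM N p * (eM N p * K.d * pM N p') * sM := by
      rw [hj]
      simp only [Matrix.mul_add, Matrix.add_mul, Matrix.mul_assoc]
      abel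
    rw [h1, h2, e2, Matrix.mul_zero, Matrix.zero_mul, sub_zero]
    have h3 := sbAdd N p
    change pM N p * eM N p + pM N p' * eM N p' = 1 at h3
    rw [h3, Matrix.one_mul]
  -- `E j = iL`
  have hEj : (eM N p : Matrix {l // p l} K.ι (ZM N)) * j = iL := by
    rw [hj, Matrix.mul_add, ← Matrix.mul_assoc, ← Matrix.mul_assoc, eM_mul_pM, Matrix.one_mul]
    have h1 : (eM N p : Matrix {l // p l} K.ι (ZM N)) * pM N p' = 0 := by
      apply mul_pM_zero
      intro l k hk
      have h2 : l.1 ≠ k := by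
        intro h
        exact hk (h ▸ l.2)
      rw [eM, if_neg h2]
    rw [h1, Matrix.zero_mul, add_zero]
  have hviL : ∀ u : {l // p l} → ZM N, u ᵥ* iL = Sum.elim u 0 := by
    intro u
    rw [hiL, Matrix.vecMul_fromCols, Matrix.vecMul_one, Matrix.vecMul_zero]
  refine ⟨cA K R r p, j, hA, ⟨cj, hjd⟩, fun q hq => ⟨?_, ?_⟩, hAE⟩
  · -- injectivity
    intro B x hx hxj
    obtain ⟨w, hw1, hw2⟩ := hxj
    obtain ⟨hu, hv⟩ := (mem_sum K R r p B (q + 1) w).1 hw1
    have hv0 : w ∘ Sum.inr = 0 := hlow B (q + 1) (by omega) _ hv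
    have hxE : x = x ᵥ* (pM N p : Matrix K.ι {l // p l} (ZM N)) ᵥ* eM N p := by
      have h1 := sbAdd N p
      have h2 : x ᵥ* (pM N p' : Matrix K.ι {l // p' l} (ZM N)) = 0 := by
        apply vecMul_zero_of
        intro l
        by_cases hl : p' l
        · left
          apply entry_zero
          intro m
          by_contra hm
          have h3 := (hx.1 l m hm).1
          have h4 : ¬ (K.deg l ≤ a + 1) := hl
          omega
        · right
          funext k
          have h5 : k.1 ≠ l := fun h => hl (h ▸ k.2)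
          change (if k.1 = l then (1 : ZM N) else 0) = 0
          rw [if_neg h5]
      have h6 : x ᵥ* ((pM N p : Matrix K.ι {l // p l} (ZM N)) * eM N p + pM N p' * eM N p') = x := by
        change x ᵥ* (pM N p * eM N p + pM N (fun l => ¬ p l) * eM N (fun l => ¬ p l)) = x
        rw [h1, Matrix.vecMul_one]
      rw [Matrix.vecMul_add, ← Matrix.vecMul_vecMul, ← Matrix.vecMul_vecMul, h2,
        Matrix.zero_vecMul, add_zero] at h6
      exact h6.symm
    have h7 : x ᵥ* j = Sum.elim (x ᵥ* (pM N p : Matrix K.ι {l // p l} (ZM N))) 0 := by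
      conv_lhs => rw [hxE]
      rw [Matrix.vecMul_vecMul, hEj, hviL]
    rw [hAd, hv0, Matrix.zero_vecMul, Matrix.zero_vecMul, add_zero, h7] at hw2
    have h8 : (w ∘ Sum.inl) ᵥ* (eM N p * K.d * pM N p)
        = x ᵥ* (pM N p : Matrix K.ι {l // p l} (ZM N)) := by
      funext l
      exact congrFun hw2 (Sum.inl l)
    refine ⟨(w ∘ Sum.inl) ᵥ* (eM N p : Matrix {l // p l} K.ι (ZM N)),
      fam_vecMul' (ct_eM K.toOb p) hu (add_zero _), ?_⟩
    rw [hxE, ← h8, Matrix.vecMul_vecMul, Matrix.vecMul_vecMul, e1]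
  · -- surjectivity
    intro B w hw
    obtain ⟨hu, hv⟩ := (mem_sum K R r p B q w).1 hw.1
    have hv0 : w ∘ Sum.inr = 0 := hlow B q (by omega) _ hv
    have hw3 := hw.2
    rw [hAd, hv0, Matrix.zero_vecMul, Matrix.zero_vecMul, add_zero] at hw3
    have h3 : (w ∘ Sum.inl) ᵥ* (eM N p * K.d * pM N p) = 0 := by
      funext l
      exact congrFun hw3 (Sum.inl l)
    refine ⟨(w ∘ Sum.inl) ᵥ* (eM N p : Matrix {l // p l} K.ι (ZM N)),
      ⟨fam_vecMul' (ct_eM K.toOb p) hu (add_zero _), ?_⟩, ?_⟩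
    · rw [Matrix.vecMul_vecMul, ← e1, ← Matrix.vecMul_vecMul, h3, Matrix.zero_vecMul]
    · rw [Matrix.vecMul_vecMul, hEj, hviL]
      have hwe : w = Sum.elim (w ∘ Sum.inl) 0 := by
        rw [← hv0]
        exact (Sum.elim_comp_inl_inr w).symm
      rw [← hwe, sub_self]
      exact AddSubgroup.zero_mem _

end Pool.Agent.Lib.MP_551055_al.MT
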