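import Mathlib
import Pool.Agent.Lib.MP_551055_al.Trim.MT.Base
import Pool.Agent.Lib.MP_551055_al.Trim.MT.Defs
import Pool.Agent.Lib.MP_551055_al.Trim.MT.StA

/-!
# Many trees: module W1, the combinatorial core of the construction of new directions
-/

set_option autoImplicit false

namespace Pool.Agent.Lib.MP_551055_al
end Pool.Agent.Lib.MP_551055_al

namespace Pool.Agent.Lib.MP_551055_al.MT

open Pool.Agent.Lib.MP_551055_al

open Matrix

private theorem w1_one_ne {N : Type} [Monoid N] {κ : Type} [DecidableEq κ] {l k : κ} {m : N}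
    (h : ((1 : Matrix κ κ (ZM N)) l k).coeff m ≠ 0) : m = 1 ∧ l = k := by
  by_cases hlk : l = k
  · subst hlk
    rw [Matrix.one_apply_eq] at h
    exact ⟨coeff_one_ne h, rfl⟩
  · rw [Matrix.one_apply_ne hlk] at h
    exact absurd rfl h

/-- Module W1. -/
theorem stW1 : StW1 := by
  intro Γ _ D _ P _ _ _ N _ π U C hC I
  induction I using Finset.induction_on with
  | empty =>
    intro c _
    refine ⟨C.ι, C.ft, C.de, C.deg, id, fun _ => ∅, C.d, 1, 1, fun _ => 0, hC.2, ?_, ?_, ?_, ?_,
      ?_, ?_, ?_, ?_⟩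
    · rw [Matrix.one_mul]
    · rw [Matrix.one_mul, Matrix.mul_one]
    · rw [Matrix.one_mul, Matrix.mul_one]
    · intro l
      exact Finset.Subset.refl _
    · intro l k m h
      refine ⟨?_, Or.inl ⟨rfl, h⟩⟩
      have := (hC.1 l k m h).1
      omega
    · intro l k m h
      obtain ⟨rfl, rfl⟩ := w1_one_ne h
      refine ⟨rfl, fun i _ _ => ?_⟩
      rw [map_one, one_smul]
      exact le_rfl
    · intro l k m h
      obtain ⟨rfl, rfl⟩ := w1_one_ne h
      exact ⟨rfl, rfl, rfl, rfl⟩
    · intro i hi
      exact absurd hi (Finset.notMem_empty i)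
  | insert i I hiI ih =>
    intro c hc
    obtain ⟨κ, fκ, dκ, deg, β, φ, d, s, p, t, h1, h2, h3, h4, h5, h6, h7, h8, h9⟩ :=
      ih c fun i' hi' => hc i' (Finset.mem_insert_of_mem hi')
    obtain ⟨hci, hcd⟩ := hc i (Finset.mem_insert_self i I)
    refine ⟨κ ⊕ κ, inferInstance, inferInstance, Sum.elim deg fun k => deg k - 1,
      Sum.elim β β, Sum.elim φ fun k => insert i (φ k), Matrix.fromBlocks d 1 0 (-d),
      Matrix.fromCols s (c i * s), Matrix.fromRows p 0,
      fun i' => if i' = i then Matrix.fromBlocks 0 0 1 0 else Matrix.fromBlocks (t i') 0 0 (-t i'),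
      ?_, ?_, ?_, ?_, ?_, ?_, ?_, ?_, ?_⟩
    · rw [Matrix.fromBlocks_multiply]
      simp [h1]
    · rw [Matrix.fromCols_mul_fromRows]
      simp [h2]
    · rw [Matrix.mul_fromCols, Matrix.fromCols_mul_fromBlocks]
      congr 1
      · simp [h3]
      · rw [Matrix.mul_one, Matrix.mul_neg, Matrix.mul_assoc (c i) s d, ← h3,
          ← Matrix.mul_assoc, ← Matrix.mul_assoc, ← sub_eq_add_neg, eq_sub_iff_add_eq,
          ← Matrix.add_mul, hcd, Matrix.one_mul]
    · rw [Matrix.fromBlocks_mul_fromRows, Matrix.fromRows_mul]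
      simp [h4]
    · rintro (l | l)
      · exact (h5 l).trans (Finset.subset_insert i I)
      · exact Finset.insert_subset_insert i (h5 l)
    · rintro (l | l) (k | k) m h
      · exact h6 l k m h
      · obtain ⟨rfl, rfl⟩ := w1_one_ne h
        exact ⟨rfl, Or.inr ⟨rfl, rfl, Finset.subset_insert i (φ l)⟩⟩
      · exact absurd rfl h
      · obtain ⟨h10, h11⟩ := h6 l k m (coeff_neg_ne h)
        refine ⟨by change deg k - 1 = deg l - 1 - 1; rw [h10], ?_⟩
        rcases h11 with ⟨h12, h13⟩ | ⟨h12, h13, h14⟩
        · exact Or.inl ⟨by change insert i (φ l) = insert i (φ k); rw [h12], h13⟩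
        · exact Or.inr ⟨h12, h13, Finset.insert_subset_insert i h14⟩
    · rintro l (k | k) m h
      · exact h7 l k m h
      · have h' : ((c i * s) l k).coeff m ≠ 0 := h
        obtain ⟨l', m', m'', hm', hm'', rfl⟩ := coeff_matmul_ne h'
        obtain ⟨h10, h11⟩ := hci l l' m' hm'
        obtain ⟨h12, h13⟩ := h7 l' k m'' hm''
        refine ⟨by change deg k - 1 = C.deg l; omega, fun i' hi' hi'' => ?_⟩
        have hi2 : i' ∉ insert i (φ k) := hi''
        rw [Finset.mem_insert, not_or] at hi2
        rw [map_mul, mul_smul]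
        exact (h11 i' (Finset.mem_erase.2 ⟨hi2.1, hi'⟩)).trans (SzAct.smul_le (h13 i' hi' hi2.2))
    · rintro (l | l) k m h
      · exact h8 l k m h
      · exact absurd rfl h
    · intro i' hi'
      by_cases hii : i' = i
      · subst hii
        simp only [if_pos]
        refine ⟨?_, ?_⟩
        · rw [Matrix.fromBlocks_multiply, Matrix.fromBlocks_multiply, Matrix.fromBlocks_add]
          simp
        · rintro (l | l) (k | k) m h
          · exact absurd rfl h
          · exact absurd rfl h
          · obtain ⟨rfl, rfl⟩ := w1_one_ne h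
            refine ⟨by change deg l = deg l - 1 + 1; omega, rfl, rfl, fun i'' hi'' => ?_⟩
            change i'' ∈ insert i' (φ l) ↔ i'' ∈ φ l
            rw [Finset.mem_insert]
            exact ⟨fun h => h.resolve_left hi'', Or.inr⟩
          · exact absurd rfl h
      · obtain ⟨h10, h11⟩ := h9 i' ((Finset.mem_insert.1 hi').resolve_left hii)
        simp only [if_neg hii]
        refine ⟨?_, ?_⟩
        · rw [Matrix.fromBlocks_multiply, Matrix.fromBlocks_multiply, Matrix.fromBlocks_add]
          simp [h10]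
        · rintro (l | l) (k | k) m h
          · exact h11 l k m h
          · exact absurd rfl h
          · exact absurd rfl h
          · obtain ⟨h12, h13, h14, h15⟩ := h11 l k m (coeff_neg_ne h)
            refine ⟨by change deg k - 1 = deg l - 1 + 1; omega, h13, h14, fun i'' hi'' => ?_⟩
            change i'' ∈ insert i (φ l) ↔ i'' ∈ insert i (φ k)
            rw [Finset.mem_insert, Finset.mem_insert, h15 i'' hi'']

end Pool.Agent.Lib.MP_551055_al.MT
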