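import Mathlib
import Pool.Agent.Lib.MP_551055_al.Trim.MT.Base
import Pool.Agent.Lib.MP_551055_al.Trim.MT.Defs
import Pool.Agent.Lib.MP_551055_al.Trim.MT.Gen
import Pool.Agent.Lib.MP_551055_al.Trim.MT.Map
import Pool.Agent.Lib.MP_551055_al.Trim.MT.StB

/-!
# Many trees: finite free objects give free modules over the rings of the stabilisers
-/

set_option autoImplicit false

namespace Pool.Agent.Lib.MP_551055_al
end Pool.Agent.Lib.MP_551055_al

namespace Pool.Agent.Lib.MP_551055_al.MT

open Pool.Agent.Lib.MP_551055_al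

open Matrix

section

variable {Γ : Type} [Group Γ] {D : Type} {P : D → Type} [∀ i, PartialOrder (P i)]
  [∀ i, MulAction Γ (P i)] {N : Type} [Monoid N]

/-- The vector with the coordinates `r`. -/
private noncomputable def xfVal (π : N →* Γ) (X : Ob P) (q : ℤ) (A : Sz P) {k : X.ι → ℕ}
    (u : ∀ l, Fin (k l) → Nˣ)
    (r : (Σ l : {l // X.deg l = q}, Fin (k l.1)) → ZM (stabM π A)) : X.ι → ZM N :=
  fun l => if h : X.deg l = q then ∑ i, mdh (stabM π A).subtype (r ⟨⟨l, h⟩, i⟩) *
    MonoidAlgebra.single (u l i : N) 1 else 0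

omit [∀ i, PartialOrder (P i)] in
private theorem xfVal_pos (π : N →* Γ) (X : Ob P) (q : ℤ) (A : Sz P) {k : X.ι → ℕ}
    (u : ∀ l, Fin (k l) → Nˣ)
    (r : (Σ l : {l // X.deg l = q}, Fin (k l.1)) → ZM (stabM π A)) {l : X.ι}
    (h : X.deg l = q) : xfVal π X q A u r l = ∑ i, mdh (stabM π A).subtype (r ⟨⟨l, h⟩, i⟩) *
      MonoidAlgebra.single (u l i : N) 1 := dif_pos h

omit [∀ i, PartialOrder (P i)] in
private theorem xfVal_neg (π : N →* Γ) (X : Ob P) (q : ℤ) (A : Sz P) {k : X.ι → ℕ}
    (u : ∀ l, Fin (k l) → Nˣ)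
    (r : (Σ l : {l // X.deg l = q}, Fin (k l.1)) → ZM (stabM π A)) {l : X.ι}
    (h : X.deg l ≠ q) : xfVal π X q A u r l = 0 := dif_neg h

private theorem xfVal_mem [SzAct Γ P] {π : N →* Γ} {X : Ob P} {q : ℤ} {A : Sz P}
    {U : Finset D} {k : X.ι → ℕ}
    {u : ∀ l, Fin (k l) → Nˣ} (hu : ∀ l i, A ≤ π (u l i) • X.sz l)
    (r : (Σ l : {l // X.deg l = q}, Fin (k l.1)) → ZM (stabM π A)) :
    xfVal π X q A u r ∈ fam π U X A q := by
  intro l m hm
  by_cases h : X.deg l = q
  · refine ⟨h, fun i _ => ?_⟩
    rw [xfVal_pos π X q A u r h] at hm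
    obtain ⟨j, -, hj⟩ := coeff_sum_ne hm
    obtain ⟨a, b, ha, hb, hab⟩ := coeff_mul_ne hj
    obtain ⟨a', rfl, -⟩ := coeff_mdh_ne ha
    rw [coeff_single_ne hb] at hab
    have h2 : π ((stabM π A).subtype a') • A = A := a'.2
    rw [← hab, map_mul, mul_smul]
    calc A i = (π ((stabM π A).subtype a') • A) i := by rw [h2]
      _ ≤ _ := SzAct.smul_le (hu l j i)
  · rw [xfVal_neg π X q A u r h] at hm
    exact absurd rfl hm

end

theorem stXF (h : StCos) : StXF := by
  intro Γ _ D _ P _ _ _ _ N _ π hUL X q hL A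
  choose k u hu huy using fun l => h Γ D P N π hUL A (X.sz l)
  let Ψ : ((Σ l : {l // X.deg l = q}, Fin (k l.1)) → ZM (stabM π A)) →ₗ[ZM (stabM π A)]
      famSub π (fun B => fam π Finset.univ X B q) hL A :=
    { toFun := fun r => ⟨xfVal π X q A u r, xfVal_mem hu r⟩
      map_add' := fun r s => by
        apply Subtype.ext
        change xfVal π X q A u (r + s) = xfVal π X q A u r + xfVal π X q A u s
        funext l
        rw [Pi.add_apply]
        by_cases hl : X.deg l = q
        · rw [xfVal_pos π X q A u _ hl, xfVal_pos π X q A u _ hl, xfVal_pos π X q A u _ hl,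
            ← Finset.sum_add_distrib]
          exact Finset.sum_congr rfl fun i _ => by rw [Pi.add_apply, map_add, add_mul]
        · rw [xfVal_neg π X q A u _ hl, xfVal_neg π X q A u _ hl, xfVal_neg π X q A u _ hl,
            add_zero]
      map_smul' := fun a r => by
        apply Subtype.ext
        change xfVal π X q A u (a • r) = mdh (stabM π A).subtype a • xfVal π X q A u r
        funext l
        rw [Pi.smul_apply, smul_eq_mul]
        by_cases hl : X.deg l = q
        · rw [xfVal_pos π X q A u _ hl, xfVal_pos π X q A u _ hl, Finset.mul_sum]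
          exact Finset.sum_congr rfl fun i _ => by
            rw [Pi.smul_apply, smul_eq_mul, map_mul, mul_assoc]
        · rw [xfVal_neg π X q A u _ hl, xfVal_neg π X q A u _ hl, mul_zero] }
  have hΨ : ∀ r, (show X.ι → ZM N from (Ψ r).1) = xfVal π X q A u r := fun _ => rfl
  have hbij : Function.Bijective Ψ := by
    constructor
    · intro r s hrs
      have h1 : xfVal π X q A u r = xfVal π X q A u s := congrArg Subtype.val hrs
      have h2 : ∀ (l : X.ι) (hl : X.deg l = q),
          (fun i => r ⟨⟨l, hl⟩, i⟩) = fun i => s ⟨⟨l, hl⟩, i⟩ := by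
        intro l hl
        refine (huy l (xfVal π X q A u r l) fun m hm => ?_).unique ?_ ?_
        · exact fun i => (xfVal_mem (U := Finset.univ) hu r l m hm).2 i (Finset.mem_univ i)
        · exact xfVal_pos π X q A u r hl
        · rw [h1]
          exact xfVal_pos π X q A u s hl
      funext ⟨⟨l, hl⟩, i⟩
      exact congrFun (h2 l hl) i
    · rintro ⟨x, hx⟩
      have hx' : (show X.ι → ZM N from x) ∈ fam π Finset.univ X A q := hx
      choose r hr _ using fun l => huy l ((show X.ι → ZM N from x) l) fun m hm i =>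
        (hx' l m hm).2 i (Finset.mem_univ i)
      refine ⟨fun p => r p.1.1 p.2, Subtype.ext ?_⟩
      change xfVal π X q A u (fun p => r p.1.1 p.2) = x
      funext l
      by_cases hl : X.deg l = q
      · rw [xfVal_pos π X q A u _ hl]
        exact (hr l).symm
      · rw [xfVal_neg π X q A u _ hl]
        by_contra hn
        have h1 : ∃ m, ((show X.ι → ZM N from x) l).coeff m ≠ 0 := by
          by_contra hc
          push Not at hc
          apply hn
          symm
          apply MonoidAlgebra.coeff_injective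
          ext m
          exact hc m
        obtain ⟨m, hm⟩ := h1
        exact hl (hx' l m hm).1
  refine ⟨Fintype.card (Σ l : {l // X.deg l = q}, Fin (k l.1)), ⟨?_⟩⟩
  exact (LinearEquiv.ofBijective Ψ hbij).symm.trans
    (LinearEquiv.funCongrLeft (ZM (stabM π A)) (ZM (stabM π A))
      (Fintype.equivFin (Σ l : {l // X.deg l = q}, Fin (k l.1))).symm)

end Pool.Agent.Lib.MP_551055_al.MT
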