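import Mathlib
import Pool.Agent.Lib.MP_551055_al.Trim.MT.Ab
import Pool.Agent.Lib.MP_551055_al.Trim.MT.Asm
import Pool.Agent.Lib.MP_551055_al.Trim.MT.C1
import Pool.Agent.Lib.MP_551055_al.Trim.MT.CC
import Pool.Agent.Lib.MP_551055_al.Trim.MT.CW
import Pool.Agent.Lib.MP_551055_al.Trim.MT.CWFin
import Pool.Agent.Lib.MP_551055_al.Trim.MT.CWStep
import Pool.Agent.Lib.MP_551055_al.Trim.MT.Cen
import Pool.Agent.Lib.MP_551055_al.Trim.MT.Clr
import Pool.Agent.Lib.MP_551055_al.Trim.MT.ConeH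
import Pool.Agent.Lib.MP_551055_al.Trim.MT.Cos
import Pool.Agent.Lib.MP_551055_al.Trim.MT.Cube
import Pool.Agent.Lib.MP_551055_al.Trim.MT.Eul
import Pool.Agent.Lib.MP_551055_al.Trim.MT.FX
import Pool.Agent.Lib.MP_551055_al.Trim.MT.Fin
import Pool.Agent.Lib.MP_551055_al.Trim.MT.Flow
import Pool.Agent.Lib.MP_551055_al.Trim.MT.Flow2
import Pool.Agent.Lib.MP_551055_al.Trim.MT.Fr
import Pool.Agent.Lib.MP_551055_al.Trim.MT.K1
import Pool.Agent.Lib.MP_551055_al.Trim.MT.K2
import Pool.Agent.Lib.MP_551055_al.Trim.MT.Ker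
import Pool.Agent.Lib.MP_551055_al.Trim.MT.L5
import Pool.Agent.Lib.MP_551055_al.Trim.MT.Lat
import Pool.Agent.Lib.MP_551055_al.Trim.MT.LatA
import Pool.Agent.Lib.MP_551055_al.Trim.MT.Lift
import Pool.Agent.Lib.MP_551055_al.Trim.MT.Link
import Pool.Agent.Lib.MP_551055_al.Trim.MT.LocH
import Pool.Agent.Lib.MP_551055_al.Trim.MT.MV
import Pool.Agent.Lib.MP_551055_al.Trim.MT.N1
import Pool.Agent.Lib.MP_551055_al.Trim.MT.Nest
import Pool.Agent.Lib.MP_551055_al.Trim.MT.PF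
import Pool.Agent.Lib.MP_551055_al.Trim.MT.QI
import Pool.Agent.Lib.MP_551055_al.Trim.MT.R1
import Pool.Agent.Lib.MP_551055_al.Trim.MT.R2
import Pool.Agent.Lib.MP_551055_al.Trim.MT.R2a
import Pool.Agent.Lib.MP_551055_al.Trim.MT.R2b
import Pool.Agent.Lib.MP_551055_al.Trim.MT.R3
import Pool.Agent.Lib.MP_551055_al.Trim.MT.RCE
import Pool.Agent.Lib.MP_551055_al.Trim.MT.RCF
import Pool.Agent.Lib.MP_551055_al.Trim.MT.RCT1
import Pool.Agent.Lib.MP_551055_al.Trim.MT.RCT2
import Pool.Agent.Lib.MP_551055_al.Trim.MT.Reps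
import Pool.Agent.Lib.MP_551055_al.Trim.MT.Res
import Pool.Agent.Lib.MP_551055_al.Trim.MT.ResN
import Pool.Agent.Lib.MP_551055_al.Trim.MT.ResTr
import Pool.Agent.Lib.MP_551055_al.Trim.MT.Resc
import Pool.Agent.Lib.MP_551055_al.Trim.MT.SA1
import Pool.Agent.Lib.MP_551055_al.Trim.MT.SA2
import Pool.Agent.Lib.MP_551055_al.Trim.MT.Solve
import Pool.Agent.Lib.MP_551055_al.Trim.MT.StA
import Pool.Agent.Lib.MP_551055_al.Trim.MT.StB
import Pool.Agent.Lib.MP_551055_al.Trim.MT.StC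
import Pool.Agent.Lib.MP_551055_al.Trim.MT.Step
import Pool.Agent.Lib.MP_551055_al.Trim.MT.TEa
import Pool.Agent.Lib.MP_551055_al.Trim.MT.Tel
import Pool.Agent.Lib.MP_551055_al.Trim.MT.Tor
import Pool.Agent.Lib.MP_551055_al.Trim.MT.Tr
import Pool.Agent.Lib.MP_551055_al.Trim.MT.Trees
import Pool.Agent.Lib.MP_551055_al.Trim.MT.Tri
import Pool.Agent.Lib.MP_551055_al.Trim.MT.Trunc
import Pool.Agent.Lib.MP_551055_al.Trim.MT.W1
import Pool.Agent.Lib.MP_551055_al.Trim.MT.W2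
import Pool.Agent.Lib.MP_551055_al.Trim.MT.XF

/-!
# Many trees: all modules together
-/

set_option autoImplicit false

namespace Pool.Agent.Lib.MP_551055_al.MT

/-! ## Part A -/

theorem mtC : StC := stC stCC

theorem mtW : StW := stW stW1 stNest

theorem mtTel : StTel := stTel stCC

theorem mtFr : StFr := stFr stCC stClr

theorem mtStep : StStep := stStep stCC mtC mtW mtTel mtFr stTor stK1 stK2 stLink

/-! ## Part B -/

theorem mtLift : StLift := stLift stSolve

theorem mtQI : StQI := stQI stCC stSolve stConeH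

theorem mtTri : StTri := stTri stFX stAb

theorem mtTEa : StTEa := stTEa stCos

theorem mtXF : StXF := stXF stCos

theorem mtRes : StRes := stRes stReps mtTEa mtTri stResTr

theorem mtKer : StKer := stKer mtXF stAb mtRes

theorem mtTrunc : StTrunc := stTrunc mtKer stSolve

theorem mtCW : StCW := stCW (stCWStep mtKer) (stCWFin mtKer stSolve)

theorem mtPF : StPF := stPF mtTel stK1 mtCW mtLift

theorem mtResc : StResc := stResc stClr

theorem mtCube : StCube := stCube stW1 stNest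

theorem mtN1 : StN1 := stN1 stCC stClr mtResc mtCube

theorem mtLocH : StLocH := stLocH stClr

theorem mtL5 : StL5 := stL5 mtQI

/-! ## Part T -/

theorem mtMV : StMV := stMV stFlow

theorem mtSA1 : StSA1 := stSA1 stFlow stFlow2 mtMV

theorem mtSA2 : StSA2 := stSA2 stFlow stFlow2 mtMV mtQI

theorem mtTr : StTr := stTr stFlow stFlow2

theorem mtLatA : StLatA := stLatA mtN1 mtTrunc mtSA1 mtTr mtSA2 mtLocH

theorem mtLat : StLat := stLat stCC mtQI mtLatA stConeH mtL5 stClr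

/-! ## Part C -/

theorem mtR2 : StR2 := stR2 stR2a stR2b

theorem mtR3 : StR3 := stR3 stR1 mtR2

theorem mtResN : StResN := stResN stR1 mtXF mtRes

theorem mtRCE : StRCE := stRCE stFlow stFlow2 mtMV

theorem mtRCT1 : StRCT1 := stRCT1 mtRCE stRCF mtResN stAb

theorem mtRCT2 : StRCT2 := stRCT2 stR1 mtR2 stCen mtRCT1

theorem mtFin : StFin := stFin stEul

/-- The main theorem. -/
theorem mtMain : StMain := stMain mtR3 mtPF mtStep mtLat stCen mtFin

end Pool.Agent.Lib.MP_551055_al.MT
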