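import Mathlib
import Pool.Agent.Lib.MP_551055_al.Trim.LS.PFree
import Pool.Agent.Lib.MP_551055_al.Trim.LS.PStmts2
import Pool.Agent.Lib.MP_551055_al.Trim.MT.StA

/-!
# Many trees: finite free extensions of rings and finite free resolutions
-/

set_option autoImplicit false

namespace Pool.Agent.Lib.MP_551055_al
end Pool.Agent.Lib.MP_551055_al

namespace Pool.Agent.Lib.MP_551055_al.MT

open Pool.Agent.Lib.MP_551055_al

open Matrix

namespace FNb

/-- The elements `t i` are a basis of `S` over `φ(R)` and commute with `φ(R)`. -/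
structure Ext {R S : Type} [Ring R] [Ring S] (φ : R →+* S) {r : ℕ} (t : Fin r → S) : Prop where
  comm : ∀ i x, t i * φ x = φ x * t i
  basis : ∀ s, ∃! a : Fin r → R, s = ∑ i, φ (a i) * t i

section

variable {R S : Type} [Ring R] [Ring S] {φ : R →+* S} {r : ℕ} {t : Fin r → S}

/-- The coordinates. -/
def Ps (φ : R →+* S) (t : Fin r → S) {α : Type} (a : α × Fin r → R) : α → S :=
  fun l => ∑ i, φ (a (l, i)) * t i

theorem Ps_add {α : Type} (a b : α × Fin r → R) : Ps φ t (a + b) = Ps φ t a + Ps φ t b := by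
  funext l
  rw [Pi.add_apply, Ps, Ps, Ps, ← Finset.sum_add_distrib]
  exact Finset.sum_congr rfl fun i _ => by rw [Pi.add_apply, map_add, add_mul]

theorem Ps_smul {α : Type} (x : R) (a : α × Fin r → R) : Ps φ t (x • a) = φ x • Ps φ t a := by
  funext l
  rw [Pi.smul_apply, Ps, Ps, Finset.smul_sum]
  exact Finset.sum_congr rfl fun i _ => by
    rw [Pi.smul_apply, smul_eq_mul, smul_eq_mul, map_mul, mul_assoc]

theorem Ps_zero {α : Type} : Ps φ t (0 : α × Fin r → R) = 0 := by
  funext l
  exact Finset.sum_eq_zero fun i _ => by rw [Pi.zero_apply, map_zero, zero_mul]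

theorem Ps_inj (h : Ext φ t) {α : Type} {a b : α × Fin r → R} (hab : Ps φ t a = Ps φ t b) :
    a = b := by
  funext ⟨l, i⟩
  obtain ⟨c, -, hc⟩ := h.basis (Ps φ t a l)
  have h1 := hc (fun i => a (l, i)) rfl
  have h2 := hc (fun i => b (l, i)) (by rw [hab]; rfl)
  exact congrFun (h1.trans h2.symm) i

theorem exists_Ps (h : Ext φ t) {α : Type} (s : α → S) : ∃ a : α × Fin r → R, Ps φ t a = s := by
  choose a ha using fun l => (h.basis (s l)).exists
  exact ⟨fun p => a p.1 p.2, funext fun l => (ha l).symm⟩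

/-- The kernel of a matrix over `S` in coordinates. -/
def kR (φ : R →+* S) (t : Fin r → S) {α β : Type} [Fintype α] (G : Matrix α β S) :
    Submodule R (α × Fin r → R) where
  carrier := {a | Ps φ t a ᵥ* G = 0}
  zero_mem' := by
    change Ps φ t (0 : α × Fin r → R) ᵥ* G = 0
    rw [Ps_zero, Matrix.zero_vecMul]
  add_mem' {a b} ha hb := by
    change Ps φ t (a + b) ᵥ* G = 0
    change Ps φ t a ᵥ* G = 0 at ha
    change Ps φ t b ᵥ* G = 0 at hb
    rw [Ps_add, Matrix.add_vecMul, ha, hb, add_zero]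
  smul_mem' x a ha := by
    change Ps φ t (x • a) ᵥ* G = 0
    change Ps φ t a ᵥ* G = 0 at ha
    rw [Ps_smul, Matrix.smul_vecMul, ha, smul_zero]

theorem mem_kR {α β : Type} [Fintype α] {G : Matrix α β S} {a : α × Fin r → R} :
    a ∈ kR φ t G ↔ Ps φ t a ᵥ* G = 0 := Iff.rfl

/-- The linear map of a matrix. -/
def vmS {α β : Type} [Fintype α] (G : Matrix α β S) : (α → S) →ₗ[S] (β → S) where
  toFun x := x ᵥ* G
  map_add' _ _ := Matrix.add_vecMul _ _ _
  map_smul' _ _ := Matrix.smul_vecMul _ _ _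

/-- Every linear map on a finite free module is given by a matrix. -/
theorem lin_mat {ι β : Type} [Fintype ι] [DecidableEq ι] (f : (ι → S) →ₗ[S] (β → S))
    (x : ι → S) : f x = x ᵥ* (fun i => f (Pi.single i 1) : Matrix ι β S) := by
  have h : x = ∑ l, x l • (Pi.single l (1 : S) : ι → S) := by
    funext k
    rw [Finset.sum_apply, Finset.sum_eq_single k]
    · rw [Pi.smul_apply, Pi.single_eq_same, smul_eq_mul, mul_one]
    · intro l _ hl
      rw [Pi.smul_apply, Pi.single_eq_of_ne (Ne.symm hl), smul_zero]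
    · intro h
      exact absurd (Finset.mem_univ k) h
  conv_lhs => rw [h]
  rw [map_sum]
  funext j
  rw [Finset.sum_apply]
  exact Finset.sum_congr rfl fun l _ => by
    rw [map_smul]
    rfl

theorem fff_kR (h : Ext φ t) (d : ℕ) : ∀ (α β : Type) [Fintype α] (G : Matrix α β S),
    LS.FFF S d (LinearMap.ker (vmS G)) → LS.FFF R d (kR φ t G) := by
  classical
  have step : ∀ (α β : Type) [Fintype α] (G : Matrix α β S) (k : ℕ)
      (g : (Fin k → S) →ₗ[S] LinearMap.ker (vmS G)), Function.Surjective g →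
      ∃ (G' : Matrix (Fin k) α S) (F : (Fin k × Fin r → R) →ₗ[R] kR φ t G),
        Function.Surjective F ∧ LinearMap.ker g = LinearMap.ker (vmS G') ∧
        LinearMap.ker F = kR φ t G' := by
    intro α β _ G k g hg
    let G' : Matrix (Fin k) α S := fun i => (g (Pi.single i 1)).1
    have hG' : ∀ c, (g c).1 = c ᵥ* G' := by
      intro c
      exact lin_mat ((LinearMap.ker (vmS G)).subtype ∘ₗ g) c
    have h0 : G' * G = 0 := by
      ext1 i j
      have h2 := (g (Pi.single i 1)).2
      rw [LinearMap.mem_ker] at h2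
      exact congrFun h2 j
    choose Q hQ using fun s : α → S => exists_Ps h s
    have hQadd : ∀ s s', Q (s + s') = Q s + Q s' := fun s s' => Ps_inj h (by
      rw [Ps_add, hQ, hQ, hQ])
    have hQsmul : ∀ (x : R) (s : α → S), Q (φ x • s) = x • Q s := fun x s => Ps_inj h (by
      rw [Ps_smul, hQ, hQ])
    let F : (Fin k × Fin r → R) →ₗ[R] kR φ t G :=
      { toFun := fun c => ⟨Q (Ps φ t c ᵥ* G'), by
          rw [mem_kR, hQ, Matrix.vecMul_vecMul, h0, Matrix.vecMul_zero]⟩
        map_add' := fun c c' => Subtype.ext (by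
          change Q (Ps φ t (c + c') ᵥ* G') = Q (Ps φ t c ᵥ* G') + Q (Ps φ t c' ᵥ* G')
          rw [Ps_add, Matrix.add_vecMul, hQadd])
        map_smul' := fun x c => Subtype.ext (by
          change Q (Ps φ t (x • c) ᵥ* G') = x • Q (Ps φ t c ᵥ* G')
          rw [Ps_smul, Matrix.smul_vecMul, hQsmul]) }
    refine ⟨G', F, ?_, ?_, ?_⟩
    · rintro ⟨a, ha⟩
      obtain ⟨c, hc⟩ := hg ⟨Ps φ t a, ha⟩
      obtain ⟨c', rfl⟩ := exists_Ps h c
      refine ⟨c', Subtype.ext (Ps_inj h ?_)⟩
      change Ps φ t (Q (Ps φ t c' ᵥ* G')) = Ps φ t a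
      rw [hQ, ← hG', hc]
    · ext c
      rw [LinearMap.mem_ker, LinearMap.mem_ker]
      constructor
      · intro hc
        change c ᵥ* G' = 0
        rw [← hG', hc]
        rfl
      · intro hc
        exact Subtype.ext ((hG' c).trans hc)
    · ext c
      rw [LinearMap.mem_ker, mem_kR]
      constructor
      · intro hc
        have h1 : Q (Ps φ t c ᵥ* G') = 0 := congrArg Subtype.val hc
        rw [← hQ (Ps φ t c ᵥ* G'), h1, Ps_zero]
      · intro hc
        refine Subtype.ext (Ps_inj h ?_)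
        change Ps φ t (Q (Ps φ t c ᵥ* G')) = Ps φ t 0
        rw [hQ, hc, Ps_zero]
  induction d with
  | zero =>
    intro α β _ G hG
    obtain ⟨k, ⟨e⟩⟩ := hG
    obtain ⟨G', F, hF, h1, h2⟩ := step α β G k e.symm.toLinearMap e.symm.surjective
    have h3 : LinearMap.ker (vmS G') = ⊥ := by
      rw [← h1]
      exact LinearEquiv.ker e.symm
    have h4 : LinearMap.ker F = ⊥ := by
      rw [h2, eq_bot_iff]
      intro c hc
      have h5 := LinearMap.ker_eq_bot'.1 h3 (Ps φ t c) (mem_kR.1 hc)
      exact Ps_inj h (h5.trans Ps_zero.symm)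
    exact LS.FFF.of_fun (LinearEquiv.ofBijective F ⟨LinearMap.ker_eq_bot.1 h4, hF⟩).symm
  | succ d ih =>
    intro α β _ G hG
    obtain ⟨k, g, hg, hk⟩ := hG
    obtain ⟨G', F, hF, h1, h2⟩ := step α β G k g hg
    refine LS.FFF.of_surj F hF ?_
    rw [h1] at hk
    rw [h2]
    exact ih (Fin k) α G' hk

/-- Powers of the kernel. -/
theorem fff_pow (h : Ext φ t) (hS : RC S) (n m : ℕ) (f : (Fin n → R) →ₗ[R] (Fin m → R)) :
    ∃ d, LS.FFF R d (Fin r → LinearMap.ker f) := by
  let G : Matrix (Fin n) (Fin m) R := fun i => f (Pi.single i 1)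
  obtain ⟨d, hd⟩ := hS n m (vmS (G.map φ))
  have h1 := fff_kR h d _ _ _ hd
  refine ⟨d, h1.congr ?_⟩
  have key : ∀ a : Fin n × Fin r → R, Ps φ t a ᵥ* G.map φ
      = Ps φ t (fun p : Fin m × Fin r => f (fun l => a (l, p.2)) p.1) := by
    intro a
    funext j
    change ∑ l, (∑ i, φ (a (l, i)) * t i) * φ (G l j) = ∑ i, φ (f (fun l => a (l, i)) j) * t i
    have h2 : ∀ i, φ (f (fun l => a (l, i)) j) * t i = ∑ l, φ (a (l, i)) * t i * φ (G l j) := by
      intro i
      rw [lin_mat f]
      change φ (∑ l, a (l, i) * G l j) * t i = _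
      rw [map_sum, Finset.sum_mul]
      exact Finset.sum_congr rfl fun l _ => by rw [map_mul, mul_assoc, mul_assoc, h.comm]
    rw [Finset.sum_congr rfl fun i _ => h2 i, Finset.sum_comm]
    exact Finset.sum_congr rfl fun l _ => Finset.sum_mul _ _ _
  refine
    { toFun := fun a i => ⟨fun l => a.1 (l, i), ?_⟩
      invFun := fun b => ⟨fun p => (b p.2).1 p.1, ?_⟩
      left_inv := fun a => rfl
      right_inv := fun b => rfl
      map_add' := fun a b => rfl
      map_smul' := fun x a => rfl }
  · have h2 : Ps φ t a.1 ᵥ* G.map φ = 0 := a.2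
    rw [key] at h2
    have h3 := Ps_inj h (h2.trans Ps_zero.symm)
    rw [LinearMap.mem_ker]
    funext j
    exact congrFun h3 (j, i)
  · rw [mem_kR, key]
    have h2 : (fun p : Fin m × Fin r => f (fun l => (b p.2).1 l) p.1) = 0 := by
      funext p
      have h3 := (b p.2).2
      rw [LinearMap.mem_ker] at h3
      exact congrFun h3 p.1
    exact (congrArg (Ps φ t) h2).trans Ps_zero

end

/-- If the square and the cube of a module have finite free resolutions, the module has. -/
theorem fff_of_two_three {R : Type} [Ring R] {K : Type} [AddCommGroup K] [Module R K]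
    (h2 : ∃ d, LS.FFF R d (Fin 2 → K)) (h3 : ∃ d, LS.FFF R d (Fin 3 → K)) :
    ∃ d, LS.FFF R d K := by
  obtain ⟨d₂, h2⟩ := h2
  obtain ⟨d₃, h3⟩ := h3
  let i : (Fin 2 → K) →ₗ[R] (Fin 3 → K) :=
    { toFun := fun v => Fin.cons (α := fun _ => K) 0 v
      map_add' := fun v w => by
        funext j
        induction j using Fin.cases with
        | zero => exact (add_zero _).symm
        | succ j => rfl
      map_smul' := fun x v => by
        funext j
        induction j using Fin.cases with
        | zero => exact (smul_zero x).symm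
        | succ j => rfl }
  refine ⟨max d₂ d₃ + 1, LS.stPFreeSes R (max d₂ d₃) _ _ _ i (LinearMap.proj 0) ?_ ?_ ?_
    (h2.mono (le_max_left _ _)) (h3.mono (le_max_right _ _))⟩
  · intro v w h
    funext j
    exact congrFun h j.succ
  · intro x
    exact ⟨fun _ => x, rfl⟩
  · ext v
    rw [LinearMap.mem_range, LinearMap.mem_ker]
    constructor
    · rintro ⟨w, rfl⟩
      rfl
    · intro h
      refine ⟨fun j => v j.succ, ?_⟩
      funext j
      induction j using Fin.cases with
      | zero => exact h.symm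
      | succ j => rfl

end FNb

end Pool.Agent.Lib.MP_551055_al.MT
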