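import Mathlib
import Pool.Agent.Lib.MP_551055_al.Trim.LS.PStmts2
import Pool.Agent.Lib.MP_551055_al.Trim.MT.Defs
import Pool.Agent.Lib.MP_551055_al.Trim.MT.FNb
import Pool.Agent.Lib.MP_551055_al.Trim.MT.Gen
import Pool.Agent.Lib.MP_551055_al.Trim.MT.StA

/-!
# Many trees: the Laurent polynomials as finite free extensions of the polynomials
-/

set_option autoImplicit false

set_option maxHeartbeats 200000

namespace Pool.Agent.Lib.MP_551055_al
end Pool.Agent.Lib.MP_551055_al

namespace Pool.Agent.Lib.MP_551055_al.MT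

open Pool.Agent.Lib.MP_551055_al

open Matrix

namespace FNa

variable (X : Type) [Group X]

theorem zZ_mul (a b : ℤ) : zZ X a * zZ X b = zZ X (a + b) := by
  rw [zZ, zZ, zZ, MonoidAlgebra.single_mul_single]
  congr 1
  · exact Prod.ext (mul_one 1) (ofAdd_add a b).symm
  

theorem zZ_comm (a : ℤ) (s : ZM (GZ X)) : zZ X a * s = s * zZ X a := by
  have h1 : ∀ m c, zZ X a * MonoidAlgebra.single m c = MonoidAlgebra.single m c * zZ X a := by
    intro m c
    rw [zZ, MonoidAlgebra.single_mul_single, MonoidAlgebra.single_mul_single, one_mul, mul_one]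
    congr 1
    exact Prod.ext ((one_mul _).trans (mul_one _).symm) (mul_comm _ _)
  rw [zm_sum s, Finset.mul_sum, Finset.sum_mul]
  exact Finset.sum_congr rfl fun m _ => h1 m _

theorem zN_comm (a : ℕ) (s : ZM (GN X)) : zN X a * s = s * zN X a := by
  have h1 : ∀ m c, zN X a * MonoidAlgebra.single m c = MonoidAlgebra.single m c * zN X a := by
    intro m c
    rw [zN, MonoidAlgebra.single_mul_single, MonoidAlgebra.single_mul_single, one_mul, mul_one]
    congr 1
    exact Prod.ext ((one_mul _).trans (mul_one _).symm) (mul_comm _ _)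
  rw [zm_sum s, Finset.mul_sum, Finset.sum_mul]
  exact Finset.sum_congr rfl fun m _ => h1 m _

/-- The image of the variable. -/
noncomputable def yy (r : ℕ) : ZM (GZ X) := zZ X 1 + zZ X (1 - r)

theorem yy_comm (r : ℕ) (s : ZM (GZ X)) : yy X r * s = s * yy X r := by
  rw [yy, add_mul, mul_add, zZ_comm, zZ_comm]

/-- The monoid homomorphism. -/
noncomputable def ph0 (r : ℕ) : GN X →* ZM (GZ X) where
  toFun m := MonoidAlgebra.single (m.1, 1) 1 * yy X r ^ (Multiplicative.toAdd m.2)
  map_one' := by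
    change MonoidAlgebra.single (1, 1) 1 * yy X r ^ 0 = 1
    rw [pow_zero, mul_one]
    rfl
  map_mul' m m' := by
    have h1 : (MonoidAlgebra.single (m.1 * m'.1, 1) 1 : ZM (GZ X))
        = MonoidAlgebra.single (m.1, 1) 1 * MonoidAlgebra.single (m'.1, 1) 1 := by
      rw [MonoidAlgebra.single_mul_single, one_mul]
      congr 1
    have h2 : ∀ (n : ℕ) (s : ZM (GZ X)), yy X r ^ n * s = s * yy X r ^ n := fun n s =>
      ((show Commute (yy X r) s from yy_comm X r s).pow_left n).eq
    change MonoidAlgebra.single (m.1 * m'.1, 1) 1 *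
      yy X r ^ (Multiplicative.toAdd m.2 + Multiplicative.toAdd m'.2) = _
    change _ = (MonoidAlgebra.single (m.1, 1) 1 * yy X r ^ (Multiplicative.toAdd m.2)) *
      (MonoidAlgebra.single (m'.1, 1) 1 * yy X r ^ (Multiplicative.toAdd m'.2))
    rw [h1, pow_add, mul_assoc (MonoidAlgebra.single (m.1, 1) 1 : ZM (GZ X)),
      mul_assoc (MonoidAlgebra.single (m.1, 1) 1 : ZM (GZ X)),
      ← mul_assoc (yy X r ^ (Multiplicative.toAdd m.2)) (MonoidAlgebra.single (m'.1, 1) 1),
      h2 (Multiplicative.toAdd m.2) (MonoidAlgebra.single (m'.1, 1) 1), mul_assoc]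

/-- The ring homomorphism. -/
noncomputable def ph (r : ℕ) : ZM (GN X) →+* ZM (GZ X) :=
  (MonoidAlgebra.lift ℤ (ZM (GZ X)) (GN X) (ph0 X r)).toRingHom

theorem ph_single (r : ℕ) (g : X) (n : ℕ) (c : ℤ) :
    ph X r (MonoidAlgebra.single (g, Multiplicative.ofAdd n) c)
      = MonoidAlgebra.single (g, 1) c * yy X r ^ n := by
  have h1 : ph X r (MonoidAlgebra.single (g, Multiplicative.ofAdd n) c)
      = c • ph0 X r (g, Multiplicative.ofAdd n) := MonoidAlgebra.lift_single _ _ _
  rw [h1]
  change c • (MonoidAlgebra.single (g, 1) 1 * yy X r ^ n) = _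
  rw [← smul_mul_assoc, MonoidAlgebra.smul_single, smul_eq_mul, mul_one]

theorem ph_zN (r : ℕ) : ph X r (zN X 1) = yy X r := by
  have h1 := ph_single X r 1 1 1
  rw [pow_one] at h1
  exact h1.trans (by
    rw [show (MonoidAlgebra.single ((1 : X), (1 : Multiplicative ℤ)) (1 : ℤ) : ZM (GZ X)) = 1
      from rfl, one_mul])

variable {X}

/-! ## The operator -/

/-- The multiplication by the variable in coordinates. -/
structure TT {r : ℕ} (T : (Fin (r + 1) → ZM (GN X)) ≃ₗ[ZM (GN X)] (Fin (r + 1) → ZM (GN X))) :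
    Prop where
  pow : ∀ i : Fin (r + 1), (T ^ ((i : ℕ) : ℤ)) (Pi.single 0 1) = Pi.single i 1
  rel : T (Pi.single 0 1) + (T ^ (1 - ((r + 1 : ℕ) : ℤ))) (Pi.single 0 1)
    = zN X 1 • Pi.single 0 1

section

variable {r : ℕ} {T : (Fin (r + 1) → ZM (GN X)) ≃ₗ[ZM (GN X)] (Fin (r + 1) → ZM (GN X))}

theorem T_zpow_add (a b : ℤ) (v : Fin (r + 1) → ZM (GN X)) :
    (T ^ (a + b)) v = (T ^ a) ((T ^ b) v) := by
  rw [_root_.zpow_add]
  rfl

/-- The map `θ`. -/
noncomputable def th (T : (Fin (r + 1) → ZM (GN X)) ≃ₗ[ZM (GN X)] (Fin (r + 1) → ZM (GN X))) :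
    ZM (GZ X) →+ (Fin (r + 1) → ZM (GN X)) where
  toFun s := s.coeff.sum fun m c => (MonoidAlgebra.single (m.1, 1) c : ZM (GN X)) •
    (T ^ (Multiplicative.toAdd m.2)) (Pi.single 0 1)
  map_zero' := rfl
  map_add' x y := by
    rw [MonoidAlgebra.coeff_add]
    refine Finsupp.sum_add_index' (fun m => ?_) fun m c c' => ?_
    · rw [MonoidAlgebra.single_zero, zero_smul]
    · rw [MonoidAlgebra.single_add, add_smul]

theorem th_single (m : GZ X) (c : ℤ) : th T (MonoidAlgebra.single m c)
    = (MonoidAlgebra.single (m.1, 1) c : ZM (GN X)) •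
      (T ^ (Multiplicative.toAdd m.2)) (Pi.single 0 1) := by
  refine (Finsupp.sum_single_index (h := fun (m : GZ X) c =>
    (MonoidAlgebra.single (m.1, 1) c : ZM (GN X)) •
      (T ^ (Multiplicative.toAdd m.2)) (Pi.single 0 1)) ?_)
  rw [MonoidAlgebra.single_zero, zero_smul]

/-- `θ(z s) = T θ(s)`. -/
theorem th_zZ (a : ℤ) (s : ZM (GZ X)) : th T (zZ X a * s) = (T ^ a) (th T s) := by
  induction s using MonoidAlgebra.induction_linear with
  | zero => rw [mul_zero, map_zero, map_zero]
  | add x y hx hy => rw [mul_add, map_add, map_add, map_add, hx, hy]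
  | single m c =>
    rw [zZ, MonoidAlgebra.single_mul_single, one_mul, th_single, th_single, map_smul,
      ← T_zpow_add, Prod.fst_mul, Prod.snd_mul, one_mul, toAdd_mul, toAdd_ofAdd]

/-- `θ` is linear over `ℤ[X]`. -/
theorem th_single_mul (g : X) (c : ℤ) (s : ZM (GZ X)) :
    th T (MonoidAlgebra.single (g, 1) c * s)
      = (MonoidAlgebra.single (g, 1) c : ZM (GN X)) • th T s := by
  induction s using MonoidAlgebra.induction_linear with
  | zero => rw [mul_zero, map_zero, smul_zero]
  | add x y hx hy => rw [mul_add, map_add, map_add, smul_add, hx, hy]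
  | single m c' =>
    rw [MonoidAlgebra.single_mul_single, th_single, th_single, Prod.fst_mul, Prod.snd_mul,
      one_mul, smul_smul, MonoidAlgebra.single_mul_single, Prod.mk_mul_mk, one_mul]

/-- `θ(y s) = x θ(s)`. -/
theorem th_yy (hT : TT T) (s : ZM (GZ X)) : th T (yy X (r + 1) * s) = zN X 1 • th T s := by
  induction s using MonoidAlgebra.induction_linear with
  | zero => rw [mul_zero, map_zero, smul_zero]
  | add x y hx hy => rw [mul_add, map_add, map_add, smul_add, hx, hy]
  | single m c =>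
    have h2 : (T ^ (1 : ℤ)) (Pi.single 0 1) = T (Pi.single 0 1) := by rw [zpow_one]
    rw [yy, add_mul, map_add, th_zZ, th_zZ, th_single, map_smul, map_smul, ← T_zpow_add,
      ← T_zpow_add, add_comm (1 : ℤ), add_comm (1 - ((r + 1 : ℕ) : ℤ)), T_zpow_add, T_zpow_add,
      ← smul_add, ← map_add, h2, hT.rel, map_smul, smul_smul, smul_smul, zN_comm]

theorem th_yy_pow (hT : TT T) (n : ℕ) (s : ZM (GZ X)) :
    th T (yy X (r + 1) ^ n * s) = (zN X 1) ^ n • th T s := by
  induction n generalizing s with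
  | zero => rw [pow_zero, pow_zero, one_mul, one_smul]
  | succ n ih => rw [pow_succ, mul_assoc, ih, th_yy hT, smul_smul, ← pow_succ]

theorem zN_pow (n : ℕ) : (zN X 1) ^ n = zN X n := by
  induction n with
  | zero => rfl
  | succ n ih =>
    rw [pow_succ, ih, zN, zN, zN, MonoidAlgebra.single_mul_single, Prod.mk_mul_mk, one_mul,
      one_mul, ← ofAdd_add]

theorem th_ph (hT : TT T) (a : ZM (GN X)) (s : ZM (GZ X)) :
    th T (ph X (r + 1) a * s) = a • th T s := by
  induction a using MonoidAlgebra.induction_linear with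
  | zero => rw [map_zero, zero_mul, map_zero, zero_smul]
  | add x y hx hy => rw [map_add, add_mul, map_add, add_smul, hx, hy]
  | single m c =>
    obtain ⟨g, n⟩ := m
    have h1 : (MonoidAlgebra.single (g, n) c : ZM (GN X))
        = MonoidAlgebra.single (g, 1) c * zN X (Multiplicative.toAdd n) := by
      rw [zN, MonoidAlgebra.single_mul_single, Prod.mk_mul_mk, mul_one, one_mul, mul_one,
        ofAdd_toAdd]
    have h2 : ph X (r + 1) (MonoidAlgebra.single (g, n) c)
        = MonoidAlgebra.single (g, 1) c * yy X (r + 1) ^ (Multiplicative.toAdd n) :=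
      ph_single X (r + 1) g (Multiplicative.toAdd n) c
    rw [h2, mul_assoc, th_single_mul, th_yy_pow hT, h1, smul_smul, zN_pow]

/-- The basis property, uniqueness. -/
theorem th_sum (hT : TT T) (a : Fin (r + 1) → ZM (GN X)) :
    th T (∑ i : Fin (r + 1), ph X (r + 1) (a i) * zZ X ((i : ℕ) : ℤ)) = a := by
  rw [map_sum]
  have h1 : ∀ i : Fin (r + 1), th T (ph X (r + 1) (a i) * zZ X ((i : ℕ) : ℤ))
      = Pi.single i (a i) := by
    intro i
    have h2 : th T (zZ X ((i : ℕ) : ℤ)) = Pi.single i 1 := by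
      have h3 : th T 1 = Pi.single 0 1 := by
        have h4 := th_single (T := T) (1 : GZ X) 1
        rw [← MonoidAlgebra.one_def] at h4
        rw [h4]
        change (1 : ZM (GN X)) • (T ^ (0 : ℤ)) (Pi.single 0 1) = _
        rw [one_smul, zpow_zero]
        rfl
      have h4 := th_zZ (T := T) ((i : ℕ) : ℤ) 1
      rw [mul_one, h3, hT.pow] at h4
      exact h4
    rw [th_ph hT, h2]
    funext j
    rw [Pi.smul_apply, smul_eq_mul]
    by_cases hj : j = i
    · subst hj
      rw [Pi.single_eq_same, Pi.single_eq_same, mul_one]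
    · rw [Pi.single_eq_of_ne hj, Pi.single_eq_of_ne hj, mul_zero]
  rw [Finset.sum_congr rfl fun i _ => h1 i]
  exact Finset.univ_sum_single a

/-- The map `Ψ`. -/
noncomputable def psi (X : Type) [Group X] {r : ℕ} (v : Fin (r + 1) → ZM (GN X)) : ZM (GZ X) :=
  ∑ i : Fin (r + 1), ph X (r + 1) (v i) * zZ X ((i : ℕ) : ℤ)

theorem psi_add (v w : Fin (r + 1) → ZM (GN X)) : psi X (v + w) = psi X v + psi X w := by
  rw [psi, psi, psi, ← Finset.sum_add_distrib]
  exact Finset.sum_congr rfl fun i _ => by rw [Pi.add_apply, map_add, add_mul]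

theorem psi_smul (a : ZM (GN X)) (v : Fin (r + 1) → ZM (GN X)) :
    psi X (a • v) = ph X (r + 1) a * psi X v := by
  rw [psi, psi, Finset.mul_sum]
  exact Finset.sum_congr rfl fun i _ => by rw [Pi.smul_apply, smul_eq_mul, map_mul, mul_assoc]

theorem psi_sum {α : Type} (s : Finset α) (v : α → Fin (r + 1) → ZM (GN X)) :
    psi X (∑ a ∈ s, v a) = ∑ a ∈ s, psi X (v a) := by
  classical
  induction s using Finset.induction_on with
  | empty =>
    rw [Finset.sum_empty, Finset.sum_empty]
    exact Finset.sum_eq_zero fun i _ => by rw [Pi.zero_apply, map_zero, zero_mul]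
  | insert a s ha ih => rw [Finset.sum_insert ha, Finset.sum_insert ha, psi_add, ih]

theorem psi_single (i : Fin (r + 1)) :
    psi X (Pi.single i 1 : Fin (r + 1) → ZM (GN X)) = zZ X ((i : ℕ) : ℤ) := by
  rw [psi, Finset.sum_eq_single i]
  · rw [Pi.single_eq_same, map_one, one_mul]
  · intro j _ hj
    rw [Pi.single_eq_of_ne hj, map_zero, zero_mul]
  · intro h
    exact absurd (Finset.mem_univ i) h

theorem psi_T (hT : TT T) (v : Fin (r + 1) → ZM (GN X)) :
    psi X (T v) = zZ X 1 * psi X v := by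
  have hb : ∀ i : Fin (r + 1), psi X (T (Pi.single i 1)) = zZ X 1 * zZ X ((i : ℕ) : ℤ) := by
    intro i
    have h1 : T (Pi.single i 1) = (T ^ (((i : ℕ) : ℤ) + 1)) (Pi.single 0 1) := by
      rw [← hT.pow i, add_comm ((i : ℕ) : ℤ) 1, T_zpow_add, zpow_one]
    rw [h1, zZ_mul]
    by_cases hi : (i : ℕ) + 1 < r + 1
    · have h2 := hT.pow ⟨(i : ℕ) + 1, hi⟩
      have h3 : ((i : ℕ) : ℤ) + 1 = (((⟨(i : ℕ) + 1, hi⟩ : Fin (r + 1)) : ℕ) : ℤ) := by
        push_cast
        rfl
      rw [h3, h2, psi_single]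
      congr 1
      push_cast
      ring
    · have hir : (i : ℕ) = r := by
        have := i.2
        omega
      have h4 : (T ^ ((r : ℤ) + 1)) (Pi.single 0 1) + Pi.single 0 1
          = zN X 1 • (Pi.single (Fin.last r) 1 : Fin (r + 1) → ZM (GN X)) := by
        have h5 := congrArg (fun w => (T ^ (r : ℤ)) w) hT.rel
        have h6 := hT.pow (Fin.last r)
        rw [Fin.val_last] at h6
        simp only [map_add, map_smul, h6] at h5
        have h7 : (r : ℤ) + (1 - ((r + 1 : ℕ) : ℤ)) = 0 := by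
          push_cast
          ring
        have h8 : (T ^ (r : ℤ)) ((T ^ (1 - ((r + 1 : ℕ) : ℤ))) (Pi.single 0 1)) = Pi.single 0 1 := by
          rw [← T_zpow_add, h7, zpow_zero]
          rfl
        have h9 : (T ^ ((r : ℤ) + 1)) (Pi.single 0 1) = (T ^ (r : ℤ)) (T (Pi.single 0 1)) := by
          rw [T_zpow_add, zpow_one]
        rw [← h5, h8, h9]
      have h5 := congrArg (psi X) h4
      rw [psi_add, psi_smul, psi_single, psi_single, Fin.val_last, ph_zN, yy, add_mul, zZ_mul,
        zZ_mul] at h5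
      rw [hir]
      have h8 : (1 : ℤ) - ((r + 1 : ℕ) : ℤ) + (r : ℤ) = 0 := by
        push_cast
        ring
      have h9 : (((0 : Fin (r + 1)) : ℕ) : ℤ) = 0 := by
        rw [Fin.val_zero]
        rfl
      rw [h8, h9] at h5
      exact add_right_cancel h5
  have hv : v = ∑ i, v i • (Pi.single i 1 : Fin (r + 1) → ZM (GN X)) := by
    funext j
    rw [Finset.sum_apply, Finset.sum_eq_single j]
    · rw [Pi.smul_apply, Pi.single_eq_same, smul_eq_mul, mul_one]
    · intro l _ hl
      rw [Pi.smul_apply, Pi.single_eq_of_ne (Ne.symm hl), smul_zero]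
    · intro h
      exact absurd (Finset.mem_univ j) h
  conv_lhs => rw [hv]
  rw [map_sum, psi_sum, psi, Finset.mul_sum]
  refine Finset.sum_congr rfl fun i _ => ?_
  rw [map_smul, psi_smul, hb, ← mul_assoc, ← mul_assoc, zZ_comm X 1 (ph X (r + 1) (v i))]

theorem psi_T_pow (hT : TT T) (k : ℤ) (v : Fin (r + 1) → ZM (GN X)) :
    psi X ((T ^ k) v) = zZ X k * psi X v := by
  have hn : ∀ (n : ℕ) (v : Fin (r + 1) → ZM (GN X)),
      psi X ((T ^ (n : ℤ)) v) = zZ X n * psi X v := by
    intro n
    induction n with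
    | zero =>
      intro v
      change psi X ((T ^ (0 : ℤ)) v) = zZ X 0 * psi X v
      rw [zpow_zero, show zZ X 0 = 1 from rfl, one_mul]
      rfl
    | succ n ih =>
      intro v
      rw [Nat.cast_succ, T_zpow_add, ih, zpow_one, psi_T hT, ← mul_assoc, zZ_mul]
  rcases Int.eq_nat_or_neg k with ⟨n, rfl | rfl⟩
  · exact hn n v
  · have h1 := hn n ((T ^ (-(n : ℤ))) v)
    rw [← T_zpow_add, add_neg_cancel, zpow_zero] at h1
    have h2 : psi X v = zZ X n * psi X ((T ^ (-(n : ℤ))) v) := h1
    rw [h2, ← mul_assoc, zZ_mul, neg_add_cancel, show zZ X 0 = 1 from rfl, one_mul]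

theorem psi_th (hT : TT T) (s : ZM (GZ X)) : psi X (th T s) = s := by
  induction s using MonoidAlgebra.induction_linear with
  | zero =>
    rw [map_zero]
    exact Finset.sum_eq_zero fun i _ => by rw [Pi.zero_apply, map_zero, zero_mul]
  | add x y hx hy => rw [map_add, psi_add, hx, hy]
  | single m c =>
    obtain ⟨g, k⟩ := m
    have h0 : (((0 : Fin (r + 1)) : ℕ) : ℤ) = 0 := by
      rw [Fin.val_zero]
      rfl
    have h1 : ph X (r + 1) (MonoidAlgebra.single (g, 1) c) = MonoidAlgebra.single (g, 1) c := by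
      have h2 := ph_single X (r + 1) g 0 c
      rw [pow_zero, mul_one] at h2
      exact h2
    rw [th_single, psi_smul, psi_T_pow hT, psi_single, h0, h1, zZ_mul, zZ,
      MonoidAlgebra.single_mul_single, Prod.mk_mul_mk, mul_one, one_mul, mul_one, add_zero,
      ofAdd_toAdd]

theorem ext_of_TT (hT : TT T) :
    FNb.Ext (ph X (r + 1)) (fun i : Fin (r + 1) => zZ X ((i : ℕ) : ℤ)) where
  comm i x := zZ_comm X _ _
  basis s := ⟨th T s, (psi_th hT s).symm, fun a ha => by rw [ha, th_sum hT]⟩

end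

/-! ## Rank two and rank three -/

section

theorem exists_T2 : ∃ T : (Fin 2 → ZM (GN X)) ≃ₗ[ZM (GN X)] (Fin 2 → ZM (GN X)), TT (r := 1) T := by
  let T : (Fin 2 → ZM (GN X)) ≃ₗ[ZM (GN X)] (Fin 2 → ZM (GN X)) :=
    { toFun := fun v => ![-v 1, v 0 + v 1 * zN X 1]
      invFun := fun v => ![v 0 * zN X 1 + v 1, -v 0]
      left_inv := fun v => by
        funext i
        fin_cases i
        · change -v 1 * zN X 1 + (v 0 + v 1 * zN X 1) = v 0
          rw [neg_mul]
          abel
        · change - -v 1 = v 1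
          rw [neg_neg]
      right_inv := fun v => by
        funext i
        fin_cases i
        · change - -v 0 = v 0
          rw [neg_neg]
        · change v 0 * zN X 1 + v 1 + -v 0 * zN X 1 = v 1
          rw [neg_mul]
          abel
      map_add' := fun v w => by
        funext i
        fin_cases i
        · change -(v 1 + w 1) = -v 1 + -w 1
          abel
        · change v 0 + w 0 + (v 1 + w 1) * zN X 1 = v 0 + v 1 * zN X 1 + (w 0 + w 1 * zN X 1)
          rw [add_mul]
          abel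
      map_smul' := fun a v => by
        funext i
        fin_cases i
        · change -(a * v 1) = a * -v 1
          rw [mul_neg]
        · change a * v 0 + a * v 1 * zN X 1 = a * (v 0 + v 1 * zN X 1)
          rw [mul_add, mul_assoc] }
  have h1 : T (Pi.single 0 1) = Pi.single 1 1 := by
    funext i
    fin_cases i
    · change -(0 : ZM (GN X)) = 0
      rw [neg_zero]
    · change (1 : ZM (GN X)) + 0 * zN X 1 = 1
      rw [zero_mul, add_zero]
  refine ⟨T, ⟨fun i => ?_, ?_⟩⟩
  · fin_cases i
    · change (T ^ (0 : ℤ)) (Pi.single 0 1) = Pi.single 0 1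
      rw [zpow_zero]
      rfl
    · change (T ^ (1 : ℤ)) (Pi.single 0 1) = Pi.single 1 1
      rw [zpow_one, h1]
  · have h2 : (T ^ (1 - ((1 + 1 : ℕ) : ℤ))) (Pi.single 0 1) = T.symm (Pi.single 0 1) := by
      have h3 : (1 : ℤ) - ((1 + 1 : ℕ) : ℤ) = -1 := by norm_num
      rw [h3, _root_.zpow_neg_one]
      rfl
    rw [h2, h1]
    funext i
    fin_cases i
    · change (0 : ZM (GN X)) + (1 * zN X 1 + 0) = zN X 1 * 1
      rw [one_mul, mul_one, add_zero, zero_add]
    · change (1 : ZM (GN X)) + -1 = zN X 1 * 0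
      rw [mul_zero, add_neg_cancel]

theorem exists_T3 : ∃ T : (Fin 3 → ZM (GN X)) ≃ₗ[ZM (GN X)] (Fin 3 → ZM (GN X)), TT (r := 2) T := by
  let T : (Fin 3 → ZM (GN X)) ≃ₗ[ZM (GN X)] (Fin 3 → ZM (GN X)) :=
    { toFun := fun v => ![-v 2, v 0, v 1 + v 2 * zN X 1]
      invFun := fun v => ![v 1, v 0 * zN X 1 + v 2, -v 0]
      left_inv := fun v => by
        funext i
        fin_cases i
        · rfl
        · change -v 2 * zN X 1 + (v 1 + v 2 * zN X 1) = v 1
          rw [neg_mul]
          abel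
        · change - -v 2 = v 2
          rw [neg_neg]
      right_inv := fun v => by
        funext i
        fin_cases i
        · change - -v 0 = v 0
          rw [neg_neg]
        · rfl
        · change v 0 * zN X 1 + v 2 + -v 0 * zN X 1 = v 2
          rw [neg_mul]
          abel
      map_add' := fun v w => by
        funext i
        fin_cases i
        · change -(v 2 + w 2) = -v 2 + -w 2
          abel
        · rfl
        · change v 1 + w 1 + (v 2 + w 2) * zN X 1 = v 1 + v 2 * zN X 1 + (w 1 + w 2 * zN X 1)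
          rw [add_mul]
          abel
      map_smul' := fun a v => by
        funext i
        fin_cases i
        · change -(a * v 2) = a * -v 2
          rw [mul_neg]
        · rfl
        · change a * v 1 + a * v 2 * zN X 1 = a * (v 1 + v 2 * zN X 1)
          rw [mul_add, mul_assoc] }
  have h1 : T (Pi.single 0 1) = Pi.single 1 1 := by
    funext i
    fin_cases i
    · change -(0 : ZM (GN X)) = 0
      rw [neg_zero]
    · rfl
    · change (0 : ZM (GN X)) + 0 * zN X 1 = 0
      rw [zero_mul, add_zero]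
  have h2 : T (Pi.single 1 1) = Pi.single 2 1 := by
    funext i
    fin_cases i
    · change -(0 : ZM (GN X)) = 0
      rw [neg_zero]
    · rfl
    · change (1 : ZM (GN X)) + 0 * zN X 1 = 1
      rw [zero_mul, add_zero]
  refine ⟨T, ⟨fun i => ?_, ?_⟩⟩
  · fin_cases i
    · change (T ^ (0 : ℤ)) (Pi.single 0 1) = Pi.single 0 1
      rw [zpow_zero]
      rfl
    · change (T ^ (1 : ℤ)) (Pi.single 0 1) = Pi.single 1 1
      rw [zpow_one, h1]
    · change (T ^ ((1 : ℤ) + 1)) (Pi.single 0 1) = Pi.single 2 1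
      rw [T_zpow_add (r := 2), zpow_one, h1, h2]
  · have h3 : (T ^ (1 - ((2 + 1 : ℕ) : ℤ))) (Pi.single 0 1)
        = T.symm (T.symm (Pi.single 0 1)) := by
      have h4 : (1 : ℤ) - ((2 + 1 : ℕ) : ℤ) = -1 + -1 := by norm_num
      rw [h4, T_zpow_add (r := 2), _root_.zpow_neg_one]
      rfl
    rw [h3, h1]
    funext i
    fin_cases i
    · change (0 : ZM (GN X)) + (1 * zN X 1 + 0) = zN X 1 * 1
      rw [one_mul, mul_one, add_zero, zero_add]
    · change (1 : ZM (GN X)) + (0 * zN X 1 + -1) = zN X 1 * 0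
      rw [zero_mul, mul_zero, zero_add, add_neg_cancel]
    · change (0 : ZM (GN X)) + -0 = zN X 1 * 0
      rw [neg_zero, mul_zero, add_zero]

/-- If kernels over the Laurent polynomials have finite free resolutions, kernels over the
polynomials have. -/
theorem rc_poly (X : Type) [Group X] (h : RC (ZM (GZ X))) : RC (ZM (GN X)) := by
  intro n m f
  obtain ⟨T2, hT2⟩ := exists_T2 (X := X)
  obtain ⟨T3, hT3⟩ := exists_T3 (X := X)
  exact FNb.fff_of_two_three (FNb.fff_pow (ext_of_TT hT2) h n m f)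
    (FNb.fff_pow (ext_of_TT hT3) h n m f)

end

end FNa

end Pool.Agent.Lib.MP_551055_al.MT
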