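import Mathlib
import Pool.Agent.Lib.MP_551055_al.Trim.LS.Clo
import Pool.Agent.Lib.MP_551055_al.Trim.LS.PStmts
import Pool.Agent.Lib.MP_551055_al.Trim.MT.Defs
import Pool.Agent.Lib.MP_551055_al.Trim.MT.FNa
import Pool.Agent.Lib.MP_551055_al.Trim.MT.R1
import Pool.Agent.Lib.MP_551055_al.Trim.MT.R3
import Pool.Agent.Lib.MP_551055_al.Trim.MT.StA
import Pool.Agent.Lib.MP_551055_al.Trim.MT.StC
import Pool.Agent.Lib.MP_551055_al.Trim.OneRelation

/-!
# Many trees: the property `RC` of the rings `ℤ[H × ℤ^m]` is enough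
-/

set_option autoImplicit false

namespace Pool.Agent.Lib.MP_551055_al
end Pool.Agent.Lib.MP_551055_al

namespace Pool.Agent.Lib.MP_551055_al.LS
end Pool.Agent.Lib.MP_551055_al.LS

namespace Pool.Agent.Lib.MP_551055_al.MT

open Pool.Agent.Lib.MP_551055_al

open Pool.Agent.Lib.MP_551055_al.LS (ZN)

theorem rcs_of_rc {H : Type} [Group H] (h : ∀ m : ℕ, RC (ZM (H × ZN m))) : RCs H := fun m =>
  ⟨h m, FNa.rc_poly _ (stR1.2.2.2.1 _ _ (r3_ring (LS.znSucc H m).symm) (h (m + 1)))⟩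

theorem rcs_iff (H : Type) [Group H] : RCs H ↔ ∀ m : ℕ, RC (ZM (H × ZN m)) :=
  ⟨fun h m => (h m).1, rcs_of_rc⟩

end Pool.Agent.Lib.MP_551055_al.MT
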