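import Mathlib
import Pool.Agent.Lib.MP_551055_al.Trim.LS.PFree
import Pool.Agent.Lib.MP_551055_al.Trim.LS.PStmts2
import Pool.Agent.Lib.MP_551055_al.Trim.MT.Base
import Pool.Agent.Lib.MP_551055_al.Trim.MT.Defs
import Pool.Agent.Lib.MP_551055_al.Trim.MT.Gen
import Pool.Agent.Lib.MP_551055_al.Trim.MT.Map
import Pool.Agent.Lib.MP_551055_al.Trim.MT.StA
import Pool.Agent.Lib.MP_551055_al.Trim.MT.StB

/-!
# Many trees, module Ker: kernels have finite resolutions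
-/

set_option autoImplicit false

namespace Pool.Agent.Lib.MP_551055_al
end Pool.Agent.Lib.MP_551055_al

namespace Pool.Agent.Lib.MP_551055_al.MT

open Pool.Agent.Lib.MP_551055_al

open Matrix

namespace KerAux

variable {Γ : Type} [Group Γ] {D : Type} {P : D → Type} [∀ i, PartialOrder (P i)]
  [∀ i, MulAction Γ (P i)] [SzAct Γ P] {N : Type} [Monoid N] (π : N →* Γ) (U : Finset D)

/-- The map `x ↦ x f` on the elements of degree `q` and size at least `A`. -/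
noncomputable def Φ (X Y : Ob P) (r : ℤ) (f : Matrix X.ι Y.ι (ZM N)) (hf : Ct π U r X Y f) (q : ℤ)
    (A : Sz P) :
    famSub π (fun B => fam π U X B q) (fam_fam X q) A →ₗ[ZM (stabM π A)]
      famSub π (fun B => fam π U Y B (q + r)) (fam_fam Y (q + r)) A where
  toFun x := ⟨(show Rs (stabM π A) (Y.ι → ZM N) from
    (show X.ι → ZM N from x.1) ᵥ* f), fam_vecMul hf x.2⟩
  map_add' x y := Subtype.ext (Matrix.add_vecMul f (show X.ι → ZM N from x.1)
    (show X.ι → ZM N from y.1))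
  map_smul' c x := Subtype.ext (Matrix.smul_vecMul (mdh (stabM π A).subtype c)
    (show X.ι → ZM N from x.1) f)

/-- The kernel of this map. -/
noncomputable def kerEquiv (X Y : Ob P) (r : ℤ) (f : Matrix X.ι Y.ι (ZM N))
    (hf : Ct π U r X Y f) (q : ℤ) (A : Sz P) :
    LinearMap.ker (Φ π U X Y r f hf q A) ≃ₗ[ZM (stabM π A)]
      famSub π (kerF π U X f q) (kerF_fam X f q) A where
  toFun x := ⟨x.1.1, ⟨x.1.2, congrArg Subtype.val (LinearMap.mem_ker.1 x.2)⟩⟩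
  invFun y := ⟨⟨y.1, y.2.1⟩, LinearMap.mem_ker.2 (Subtype.ext y.2.2)⟩
  left_inv _ := rfl
  right_inv _ := rfl
  map_add' _ _ := rfl
  map_smul' _ _ := rfl

end KerAux

theorem stKer (hXF : StXF) (hAb : StAb) (hRes : StRes) : StKer := by
  intro Γ _ D _ P _ _ _ _ N _ π hU hN X Y r f hf q c
  refine hRes Γ D P N π hU hN X q (kerF π Finset.univ X f q) (kerF_fam X f q)
    (fun B => kerF_le_fam X f q B) (fun A => ?_) c
  obtain ⟨a, ⟨ea⟩⟩ := hXF Γ D P N π hU X q (fam_fam X q) A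
  obtain ⟨b, ⟨eb⟩⟩ := hXF Γ D P N π hU Y (q + r) (fam_fam Y (q + r)) A
  obtain ⟨⟨d, hd⟩, -, -⟩ := (hAb (ZM (stabM π A))).2 (hN A) _ _
    (KerAux.Φ π Finset.univ X Y r f hf q A) ⟨0, a, ⟨ea⟩⟩ ⟨0, b, ⟨eb⟩⟩
  exact ⟨d, hd.congr (KerAux.kerEquiv π Finset.univ X Y r f hf q A)⟩

end Pool.Agent.Lib.MP_551055_al.MT
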