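import Mathlib
import Pool.Agent.Lib.MP_551055_al.Trim.MT.Base
import Pool.Agent.Lib.MP_551055_al.Trim.MT.Defs
import Pool.Agent.Lib.MP_551055_al.Trim.MT.Gen
import Pool.Agent.Lib.MP_551055_al.Trim.MT.Map
import Pool.Agent.Lib.MP_551055_al.Trim.MT.StA
import Pool.Agent.Lib.MP_551055_al.Trim.MT.StB
import Pool.Agent.Lib.MP_551055_al.Trim.MT.Tg

/-!
# Many trees, module PF: homotopy idempotents with full control split
-/

set_option autoImplicit false

namespace Pool.Agent.Lib.MP_551055_al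
end Pool.Agent.Lib.MP_551055_al

namespace Pool.Agent.Lib.MP_551055_al.MT

open Pool.Agent.Lib.MP_551055_al

open Matrix

namespace PFAux

section

variable {Γ : Type} [Group Γ] {D : Type} {P : D → Type} [∀ i, PartialOrder (P i)]
  [∀ i, MulAction Γ (P i)] {N : Type} [Monoid N] {π : N →* Γ} {U : Finset D}

theorem mat_ext {ι κ : Type} [Fintype ι] [DecidableEq ι] {a b : Matrix ι κ (ZM N)}
    (h : ∀ x : ι → ZM N, x ᵥ* a = x ᵥ* b) : a = b := by
  ext1 i
  have h1 := h (Pi.single i 1)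
  rw [← lin_matrix, ← lin_matrix, lin_single, lin_single, one_smul, one_smul] at h1
  intro j
  exact congrFun h1 j

/-- A linear map after `lin g`. -/
theorem map_lin {V W : Type} [AddCommGroup V] [Module (ZM N) V] [AddCommGroup W]
    [Module (ZM N) W] (f : V →ₗ[ZM N] W) {κ : Type} [Fintype κ] (g : κ → V) (x : κ → ZM N) :
    f (lin (N := N) g x) = lin (N := N) (fun l => f (g l)) x := by
  rw [lin_apply, map_sum, lin_apply]
  exact Finset.sum_congr rfl fun l _ => map_smul _ _ _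

/-- A linear map to a free module after `lin g`, as a matrix. -/
theorem map_lin' {V : Type} [AddCommGroup V] [Module (ZM N) V] {ι : Type}
    (f : V →ₗ[ZM N] (ι → ZM N)) {κ : Type} [Fintype κ] (g : κ → V) (x : κ → ZM N) :
    f (lin (N := N) g x) = x ᵥ* (fun l => f (g l) : Matrix κ ι (ZM N)) := by
  rw [map_lin]
  exact lin_matrix _ x

theorem lin_comp {V : Type} [AddCommGroup V] [Module (ZM N) V] {ι : Type} [Fintype ι]
    (g : ι → V) {κ : Type} [Fintype κ] (a : Matrix κ ι (ZM N)) (x : κ → ZM N) :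
    lin (N := N) (fun l => lin (N := N) g (a l)) x = lin (N := N) g (x ᵥ* a) := by
  rw [← lin_matrix, lin_apply a x, map_sum, lin_apply]
  exact Finset.sum_congr rfl fun l _ => (map_smul _ _ _).symm

theorem lin_sub {V : Type} [AddCommGroup V] [Module (ZM N) V] {ι : Type} [Fintype ι]
    (g h : ι → V) (x : ι → ZM N) :
    lin (N := N) (fun l => g l - h l) x = lin (N := N) g x - lin (N := N) h x := by
  rw [lin_apply, lin_apply, lin_apply, ← Finset.sum_sub_distrib]
  exact Finset.sum_congr rfl fun l _ => smul_sub _ _ _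

theorem iso_of_isoL [SzAct Γ P] (hLift : StLift) (T : Tg P π U) {K Q : Co P N}
    {e : Matrix K.ι K.ι (ZM N)} {g : Q.ι → T.V} (hK : IsCx π U K) (hQ : IsCx π U Q)
    (hi : IsoL T K e) (hg : ChT Q T g) (hI : ∀ q, InjT Q T g q) (hS : ∀ q, SurT Q T g q) :
    Iso π U K e Q 1 := by
  obtain ⟨u, v, r, s, hu, hv, hr, hs, hud, hvd, hvu, huv⟩ := hi
  have hul : ∀ x : K.ι → ZM N, lin (N := N) (fun l => u (Pi.single l 1)) x = u x :=
    fun x => (lin_ext u x).symm
  obtain ⟨a, ha, t, ht1, ht2⟩ := (hLift Γ D P N π U Q K T g hQ hK hg hI hS).1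
    (fun l => u (Pi.single l 1)) ⟨fun l => hu _ _ _ (basis_mem_fam l), fun x => by
      rw [hul, hul, hud]⟩
  have ha2 : ∀ x : K.ι → ZM N, lin (N := N) g (x ᵥ* a) =
      u x - (lin (N := N) t (x ᵥ* K.d) + T.d (lin (N := N) t x)) := by
    intro x
    have h1 := ht2 x
    rw [lin_sub, lin_comp, hul] at h1
    rw [← h1, sub_sub_cancel]
  -- the map back
  let b : Matrix Q.ι K.ι (ZM N) := fun l => v (g l)
  have hb : ∀ x : Q.ι → ZM N, x ᵥ* b = v (lin (N := N) g x) := fun x => (map_lin' v g x).symm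
  let w : Matrix K.ι K.ι (ZM N) := fun l => v (t l)
  have hw : ∀ x : K.ι → ZM N, x ᵥ* w = v (lin (N := N) t x) := fun x => (map_lin' v t x).symm
  have hbc : Ch π U Q K b := by
    refine ⟨ct_iff.2 fun l => ?_, mat_ext fun x => ?_⟩
    · rw [add_zero]
      exact hv _ _ _ (hg.1 l)
    · rw [← Matrix.vecMul_vecMul, ← Matrix.vecMul_vecMul, hb, hb, hg.2, hvd]
  have hwc : Ct π U 1 K.toOb K.toOb w := ct_iff.2 fun l => hv _ _ _ (ht1 l)
  refine ⟨a, b, ha, hbc, ?_, ?_⟩
  · refine ⟨s - w, hs.sub hwc, mat_ext fun x => ?_⟩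
    have h1 := hvu x
    have h2 : x ᵥ* (a * b) = x ᵥ* (e + K.d * s + s * K.d) -
        ((x ᵥ* K.d) ᵥ* w + (x ᵥ* w) ᵥ* K.d) := by
      rw [← Matrix.vecMul_vecMul, hb, ha2, map_sub, map_add, hvu, hw, hw, hvd]
    rw [Matrix.vecMul_sub, h2, Matrix.mul_sub, Matrix.sub_mul]
    simp only [Matrix.vecMul_add, Matrix.vecMul_sub, Matrix.vecMul_vecMul]
    abel
  · have h3 : Ch π U Q Q (b * a - 1) := (hbc.mul ha).sub Ch.one
    refine (hLift Γ D P N π U Q Q T g hQ hQ hg hI hS).2 _ h3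
      ⟨fun l => r (g l) - lin (N := N) t (b l), fun l => ?_, fun x => ?_⟩
    · refine AddSubgroup.sub_mem _ (hr _ _ _ (hg.1 l)) ?_
      refine T.lin_mem' (X := K.toOb) (r := 1) ht1 (q := Q.deg l) ?_ rfl
      have h4 := (ct_iff.1 hbc.1) l
      rwa [add_zero] at h4
    · have h5 : ∀ y : Q.ι → ZM N, lin (N := N) (fun l => r (g l) - lin (N := N) t (b l)) y =
          r (lin (N := N) g y) - lin (N := N) t (y ᵥ* b) := by
        intro y
        rw [lin_sub, lin_comp, map_lin]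
      rw [h5, h5, lin_comp, Matrix.vecMul_sub, Matrix.vecMul_one, map_sub,
        ← Matrix.vecMul_vecMul, ha2]
      have h6 : u (x ᵥ* b) = lin (N := N) g x + T.d (r (lin (N := N) g x)) +
          r (T.d (lin (N := N) g x)) := by
        rw [hb, huv]
      have h7 : x ᵥ* b ᵥ* K.d = x ᵥ* Q.d ᵥ* b := by
        rw [Matrix.vecMul_vecMul, Matrix.vecMul_vecMul, hbc.2]
      rw [h6, h7, hg.2, map_sub]
      abel

end

end PFAux

/-- Module PF. -/
theorem stPF (hTel : StTel) (hK1 : StK1) (hCW : StCW) (hLift : StLift) : StPF := by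
  intro Γ _ D _ _ P _ _ _ _ hHN G _ π hG I _ K e hK he hnul
  have hT := hTel Γ D P G π Finset.univ K K.sz e hK hK (fun _ _ _ => le_refl _) he.1.1 he.1.2
  have hT1 := hT.1
  have hi := hK1 Γ D P G π Finset.univ K K.sz e hK (fun _ _ _ => rfl) he hT1
  obtain ⟨Q, g, hQ, hg, hI, hS⟩ := hCW Γ D P G π (ul_group π) (hHN G π hG) _ K e hK hi
  have hiso := PFAux.iso_of_isoL hLift _ hK hQ hi hg hI hS
  exact ⟨Q, hQ, fun i hi => (hiso.mono (Finset.erase_subset i Finset.univ)).nul HI.one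
    (hnul i hi), hiso⟩

end Pool.Agent.Lib.MP_551055_al.MT
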