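import Mathlib
import Pool.Agent.Lib.MP_551055_al.Trim.MT.Base
import Pool.Agent.Lib.MP_551055_al.Trim.MT.Defs
import Pool.Agent.Lib.MP_551055_al.Trim.MT.Gen
import Pool.Agent.Lib.MP_551055_al.Trim.MT.StB

/-!
# Many trees: module Reps (sorted representatives of sizes)
-/

set_option autoImplicit false

namespace Pool.Agent.Lib.MP_551055_al
end Pool.Agent.Lib.MP_551055_al

namespace Pool.Agent.Lib.MP_551055_al.MT

open Pool.Agent.Lib.MP_551055_al

open Matrix

section

variable {Γ : Type} [Group Γ] {D : Type} {P : D → Type} [∀ i, PartialOrder (P i)]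
  [∀ i, MulAction Γ (P i)] {N : Type} [Monoid N]

theorem reps_smul_le [SzAct Γ P] (γ : Γ) {B B' : Sz P} (h : B ≤ B') : γ • B ≤ γ • B' :=
  fun i => SzAct.smul_le (h i)

/-- Being translates by elements of the image of `π`. -/
def repsRel (π : N →* Γ) (B B' : Sz P) : Prop := ∃ u : Nˣ, B = π u • B'

theorem repsRel.symm {π : N →* Γ} {B B' : Sz P} (h : repsRel π B B') : repsRel π B' B := by
  obtain ⟨u, rfl⟩ := h
  refine ⟨u⁻¹, ?_⟩
  rw [← mul_smul, ← map_mul, Units.inv_mul, map_one, one_smul]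

theorem repsRel.trans {π : N →* Γ} {B B' B'' : Sz P} (h : repsRel π B B')
    (h' : repsRel π B' B'') : repsRel π B B'' := by
  obtain ⟨u, rfl⟩ := h
  obtain ⟨v, rfl⟩ := h'
  refine ⟨u * v, ?_⟩
  rw [← mul_smul, ← map_mul, Units.val_mul]

theorem repsRel.refl (π : N →* Γ) (B : Sz P) : repsRel π B B :=
  ⟨1, by rw [Units.val_one, map_one, one_smul]⟩

/-- The setoid on a set of sizes. -/
def repsSetoid (π : N →* Γ) (F : Set (Sz P)) : Setoid F where
  r B B' := repsRel π (B : Sz P) (B' : Sz P)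
  iseqv := ⟨fun B => repsRel.refl π _, fun h => h.symm, fun h h' => h.trans h'⟩

end

/-- Module Reps. -/
theorem stReps : StReps := by
  intro Γ _ D _ P _ _ _ _ N _ π hUL ι _ A
  classical
  obtain ⟨rk, hrk, hrk'⟩ := SzRk.rk (Γ := Γ) (P := P)
  -- the sizes below the given ones
  set F : Set (Sz P) := {B | ∃ l, B ≤ A l} with hF
  have hFfin : F.Finite := by
    have h1 : F = ⋃ l, {B | B ≤ A l} := by
      ext B
      simp [hF]
    rw [h1]
    refine Set.finite_iUnion fun l => ?_
    refine (Set.Finite.pi' fun i => SzRk.fin (Γ := Γ) (P := P) i (A l i)).subset ?_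
    intro B hB i
    exact hB i
  have hFf : Finite F := hFfin
  -- the rank
  let R : Sz P → ℕ := fun B => ∑ i, rk i (B i)
  have hmono : ∀ i (a b : P i), a ≤ b → rk i a ≤ rk i b := by
    intro i a b hab
    rcases hab.eq_or_lt with h | h
    · rw [h]
    · exact (hrk i a b h).le
  have hRle : ∀ B B' : Sz P, B ≤ B' → R B ≤ R B' := fun B B' h =>
    Finset.sum_le_sum fun i _ => hmono i _ _ (h i)
  have hRinv : ∀ (γ : Γ) (B : Sz P), R (γ • B) = R B := fun γ B =>
    Finset.sum_congr rfl fun i _ => hrk' i γ (B i)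
  have hReq : ∀ B B' : Sz P, B ≤ B' → R B = R B' → B = B' := by
    intro B B' h he
    funext i
    by_contra hne
    have h1 : R B < R B' := Finset.sum_lt_sum (fun i _ => hmono i _ _ (h i))
      ⟨i, Finset.mem_univ i, hrk i _ _ (lt_of_le_of_ne (h i) hne)⟩
    omega
  -- the quotient
  have hQf : Finite (Quotient (repsSetoid π F)) := inferInstance
  obtain ⟨n, ⟨e⟩⟩ := Finite.exists_equiv_fin (Quotient (repsSetoid π F))
  let f : Fin n → ℕ := fun a => R ((e.symm a).out : Sz P)
  have hsort : Monotone (f ∘ Tuple.sort f) := Tuple.monotone_sort f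
  let o : Fin n → Sz P := fun a => ((e.symm (Tuple.sort f a)).out : Sz P)
  have hoF : ∀ a, o a ∈ F := fun a => (e.symm (Tuple.sort f a)).out.2
  -- every element of `F` is equivalent to a representative
  have hex : ∀ B ∈ F, ∃ b, ∃ u : Nˣ, B = π u • o b := by
    intro B hB
    refine ⟨(Tuple.sort f).symm (e (Quotient.mk (repsSetoid π F) ⟨B, hB⟩)), ?_⟩
    have h1 : repsRel π B (o ((Tuple.sort f).symm (e (Quotient.mk (repsSetoid π F) ⟨B, hB⟩)))) := by
      have h2 : (e.symm (Tuple.sort f ((Tuple.sort f).symm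
          (e (Quotient.mk (repsSetoid π F) ⟨B, hB⟩))))) =
          Quotient.mk (repsSetoid π F) ⟨B, hB⟩ := by
        rw [Equiv.apply_symm_apply, Equiv.symm_apply_apply]
      show repsRel π B ((e.symm (Tuple.sort f ((Tuple.sort f).symm
          (e (Quotient.mk (repsSetoid π F) ⟨B, hB⟩))))).out : Sz P)
      rw [h2]
      exact (Quotient.exact (Quotient.out_eq (Quotient.mk (repsSetoid π F) ⟨B, hB⟩))).symm
    exact h1
  have hinj : ∀ a b m, π m • o a = o b → a = b := by
    intro a b m h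
    obtain ⟨u, hu⟩ := hUL m
    have h1 : repsRel π (o b) (o a) := ⟨u, by rw [hu, h]⟩
    have h2 : e.symm (Tuple.sort f b) = e.symm (Tuple.sort f a) := by
      rw [← Quotient.out_eq (e.symm (Tuple.sort f b)), ← Quotient.out_eq (e.symm (Tuple.sort f a))]
      exact Quotient.sound h1
    exact ((Tuple.sort f).injective (e.symm.injective h2)).symm
  refine ⟨n, o, ⟨hinj, ?_, ?_⟩, fun l => hex (A l) ⟨l, le_refl _⟩⟩
  · intro a b m h
    by_contra hba
    push Not at hba
    have h1 : R (o a) ≤ R (o b) := by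
      have := hRle _ _ h
      rwa [hRinv] at this
    have h2 : R (o b) ≤ R (o a) := hsort hba.le
    have h3 : o a = π m • o b := hReq _ _ h (by rw [hRinv]; omega)
    exact hba.ne (hinj b a m h3.symm)
  · intro a m B h
    obtain ⟨l, hl⟩ := hoF a
    have h1 : (π m)⁻¹ • B ≤ o a := by
      have := reps_smul_le (π m)⁻¹ h
      rwa [inv_smul_smul] at this
    obtain ⟨b, u, hu⟩ := hex ((π m)⁻¹ • B) ⟨l, h1.trans hl⟩
    obtain ⟨v, hv⟩ := hUL m
    refine ⟨b, v * u, ?_⟩
    rw [Units.val_mul, map_mul, mul_smul, ← hu, hv, smul_inv_smul]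

end Pool.Agent.Lib.MP_551055_al.MT
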