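import Mathlib
import Pool.Agent.Lib.MP_551055_al.Trim.MT.Base
import Pool.Agent.Lib.MP_551055_al.Trim.MT.Defs
import Pool.Agent.Lib.MP_551055_al.Trim.MT.StA

/-!
# Many trees: a new direction
-/

set_option autoImplicit false

namespace Pool.Agent.Lib.MP_551055_al
end Pool.Agent.Lib.MP_551055_al

namespace Pool.Agent.Lib.MP_551055_al.MT

open Pool.Agent.Lib.MP_551055_al

open Matrix

/-- The demands of the terms of a matrix are finite in number. -/
private theorem w2_finite {Γ : Type} [Group Γ] {N : Type} [Monoid N] (π : N →* Γ)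
    {α κ ι Q : Type} [Finite α] [Finite κ] [MulAction Γ Q] (f : Matrix α κ (ZM N)) (β : κ → ι)
    (g : α → Q) (b : ι) (a : Q) :
    (insert a {x : Q | ∃ l k m, (f l k).coeff m ≠ 0 ∧ β k = b ∧ x = (π m)⁻¹ • g l}).Finite := by
  refine Set.Finite.insert a ?_
  refine Set.Finite.subset (s := ⋃ l, ⋃ k, (fun m => (π m)⁻¹ • g l) ''
    ((f l k).coeff.support : Set N)) ?_ ?_
  · exact Set.finite_iUnion fun l => Set.finite_iUnion fun k =>
      (Finset.finite_toSet _).image _
  · rintro x ⟨l, k, m, hm, -, rfl⟩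
    exact Set.mem_iUnion.2 ⟨l, Set.mem_iUnion.2 ⟨k, ⟨m, Finsupp.mem_support_iff.2 hm, rfl⟩⟩⟩

private theorem w2_smul {Γ : Type} [Group Γ] {D : Type} {P : D → Type} [∀ i, PartialOrder (P i)]
    [∀ i, MulAction Γ (P i)] [SzAct Γ P] {i : D} {γ : Γ} {a b : P i} (h : γ⁻¹ • a ≤ b) :
    a ≤ γ • b := by
  have h1 := SzAct.smul_le (Γ := Γ) (γ := γ) h
  rwa [smul_inv_smul] at h1

theorem stW (h1 : StW1) (h2 : StNest) : StW := by
  intro Γ _ D _ P _ _ _ N _ π U I j hj hI C e hC he hI2
  -- the contractions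
  have hI3 : ∀ i ∈ I, ∃ s : Matrix C.ι C.ι (ZM N), Ct π (U.erase i) 1 C.toOb C.toOb s ∧
      1 = C.d * s + s * C.d := hI2
  choose! c hc using hI3
  obtain ⟨κ, hκ1, hκ2, deg, β, φ, d, s, p, t, hdd, hsp, hCs, hdp, hφ, hd, hs, hp, ht⟩ :=
    h1 Γ D P N π U C hC I c fun i hi => ⟨(hc i hi).1, (hc i hi).2.symm⟩
  have hCd : ∀ l k m, (C.d l k).coeff m ≠ 0 → C.deg k = C.deg l - 1 := fun l k m h => by
    have h3 := (hC.1 l k m h).1
    rw [h3, sub_eq_add_neg]
  have hjφ : ∀ k, ∀ i ∈ φ k, i ≠ j := fun k i hi hij => hj (hij ▸ hI (hφ k hi))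
  -- the sizes
  have hA' : ∀ i : D, ∃ A : C.ι → P i, (∀ l, ∀ a ∈ (insert (C.sz l i) {x : P i |
      ∃ l' k m, (s l' k).coeff m ≠ 0 ∧ β k = l ∧ x = (π m)⁻¹ • C.sz l' i}), a ≤ A l) ∧
      ∀ l k m, (C.d l k).coeff m ≠ 0 → A l ≤ π m • A k := fun i =>
    h2 Γ D P N π C.ι C.deg C.d hCd i _ fun l => w2_finite π s β (fun l' => C.sz l' i) l _
  choose A' hA'1 hA'2 using hA'
  obtain ⟨Aj, -, hAj⟩ := h2 Γ D P N π C.ι C.deg C.d hCd j (fun _ => ∅) fun _ => Set.finite_empty
  obtain ⟨Bj, hBj1, hBj2⟩ := h2 Γ D P N π C.ι C.deg C.d hCd j (fun b => insert (Aj b) {x : P j |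
      ∃ l k m, ((p * e * s) l k).coeff m ≠ 0 ∧ β k = b ∧ x = (π m)⁻¹ • Aj (β l)})
      fun b => w2_finite π (p * e * s) β (fun l => Aj (β l)) b _
  set base : κ → Sz P := fun k i => if i ∈ φ k then A' i (β k) else C.sz (β k) i with hbase
  have key : ∀ Q : C.ι → P j, (∀ l k m, (C.d l k).coeff m ≠ 0 → Q l ≤ π m • Q k) →
      IsCx π (insert j U) (⟨⟨κ, hκ1, hκ2, deg,
        fun k => Function.update (base k) j (Q (β k))⟩, d⟩ : Co P N) ∧
      ∀ i ∈ I, Contr π ((insert j U).erase i) (⟨⟨κ, hκ1, hκ2, deg,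
        fun k => Function.update (base k) j (Q (β k))⟩, d⟩ : Co P N) := by
    intro Q hQ
    refine ⟨⟨?_, hdd⟩, ?_⟩
    · intro l k m h
      obtain ⟨h3, h4⟩ := hd l k m h
      refine ⟨by change deg k = deg l + -1; omega, fun i hi => ?_⟩
      change Function.update (base l) j (Q (β l)) i ≤
        π m • Function.update (base k) j (Q (β k)) i
      by_cases hij : i = j
      · subst hij
        rw [Function.update_self, Function.update_self]
        rcases h4 with ⟨-, h5⟩ | ⟨rfl, h5, -⟩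
        · exact hQ _ _ _ h5
        · rw [map_one, one_smul, h5]
      · rw [Function.update_of_ne hij, Function.update_of_ne hij]
        have hiU : i ∈ U := (Finset.mem_insert.1 hi).resolve_left hij
        rcases h4 with ⟨h5, h6⟩ | ⟨rfl, h5, h6⟩
        · simp only [hbase, h5]
          split_ifs with h7
          · exact hA'2 i _ _ _ h6
          · exact (hC.1 _ _ _ h6).2 i hiU
        · rw [map_one, one_smul]
          simp only [hbase, h5]
          split_ifs with h7 h8 h8
          · exact le_refl _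
          · exact absurd (h6 h7) h8
          · exact hA'1 i _ _ (Set.mem_insert _ _)
          · exact le_refl _
    · intro i hi
      obtain ⟨h3, h4⟩ := ht i hi
      refine ⟨t i, ?_, h3.symm⟩
      intro l k m h
      obtain ⟨h5, rfl, h6, h7⟩ := h4 l k m h
      refine ⟨h5, fun i' hi' => ?_⟩
      have hi'i : i' ≠ i := (Finset.mem_erase.1 hi').1
      rw [map_one, one_smul]
      change Function.update (base l) j (Q (β l)) i' ≤ Function.update (base k) j (Q (β k)) i'
      by_cases hij : i' = j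
      · subst hij
        rw [Function.update_self, Function.update_self, h6]
      · rw [Function.update_of_ne hij, Function.update_of_ne hij]
        simp only [hbase, h6, h7 i' hi'i]
        exact le_refl _
  have hsW : ∀ l k m, (s l k).coeff m ≠ 0 → deg k = C.deg l ∧
      ∀ i ∈ U, C.sz l i ≤ π m • base k i := by
    intro l k m h
    obtain ⟨h3, h4⟩ := hs l k m h
    refine ⟨h3, fun i hi => ?_⟩
    simp only [hbase]
    split_ifs with h5
    · exact w2_smul (hA'1 i _ _ (Set.mem_insert_of_mem _ ⟨l, k, m, h, rfl, rfl⟩))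
    · exact h4 i hi h5
  have hpW : ∀ l k m, (p l k).coeff m ≠ 0 → C.deg k = deg l ∧
      ∀ i ∈ U, base l i ≤ π m • C.sz k i := by
    intro l k m h
    obtain ⟨h3, rfl, rfl, h5⟩ := hp l k m h
    refine ⟨h3, fun i hi => ?_⟩
    rw [map_one, one_smul]
    simp only [hbase, h5, Finset.notMem_empty, if_false]
    exact le_refl _
  obtain ⟨hW1, hW2⟩ := key Aj hAj
  obtain ⟨hW3, hW4⟩ := key Bj hBj2
  refine ⟨⟨⟨κ, hκ1, hκ2, deg, fun k => Function.update (base k) j (Aj (β k))⟩, d⟩,
    fun k => Function.update (base k) j (Bj (β k)), s, p, hW1, hW3, ?_, ?_, ?_, ?_, hsp, ?_,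
    fun i hi => ⟨hW2 i hi, hW4 i hi⟩⟩
  · intro l i hij
    change Function.update (base l) j (Bj (β l)) i = Function.update (base l) j (Aj (β l)) i
    rw [Function.update_of_ne hij, Function.update_of_ne hij]
  · intro l
    change Function.update (base l) j (Aj (β l)) j ≤ Function.update (base l) j (Bj (β l)) j
    rw [Function.update_self, Function.update_self]
    exact hBj1 _ _ (Set.mem_insert _ _)
  · refine ⟨?_, hCs⟩
    intro l k m h
    obtain ⟨h3, h4⟩ := hsW l k m h
    refine ⟨by change deg k = C.deg l + 0; omega, fun i hi => ?_⟩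
    have hij : i ≠ j := fun h5 => hj (h5 ▸ hi)
    change C.sz l i ≤ π m • Function.update (base k) j (Aj (β k)) i
    rw [Function.update_of_ne hij]
    exact h4 i hi
  · refine ⟨?_, hdp⟩
    intro l k m h
    obtain ⟨h3, h4⟩ := hpW l k m h
    refine ⟨by change C.deg k = deg l + 0; omega, fun i hi => ?_⟩
    have hij : i ≠ j := fun h5 => hj (h5 ▸ hi)
    change Function.update (base l) j (Aj (β l)) i ≤ π m • C.sz k i
    rw [Function.update_of_ne hij]
    exact h4 i hi
  · intro l k m h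
    obtain ⟨j1, a, b, ha, hb, hab⟩ := coeff_matmul_ne h
    obtain ⟨j2, a1, a2, ha1, ha2, haa⟩ := coeff_matmul_ne ha
    obtain ⟨h3, h4⟩ := hpW l j2 a1 ha1
    obtain ⟨h5, h6⟩ := he j2 j1 a2 ha2
    obtain ⟨h7, h8⟩ := hsW j1 k b hb
    refine ⟨by change deg k = deg l + 0; omega, fun i hi => ?_⟩
    change Function.update (base l) j (Aj (β l)) i ≤
      π m • Function.update (base k) j (Bj (β k)) i
    by_cases hij : i = j
    · subst hij
      rw [Function.update_self, Function.update_self]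
      exact w2_smul (hBj1 _ _ (Set.mem_insert_of_mem _ ⟨l, k, m, h, rfl, rfl⟩))
    · rw [Function.update_of_ne hij, Function.update_of_ne hij]
      have hiU : i ∈ U := (Finset.mem_insert.1 hi).resolve_left hij
      rw [← hab, ← haa, map_mul, map_mul, mul_smul, mul_smul]
      exact (h4 i hiU).trans (SzAct.smul_le ((h6 i hiU).trans (SzAct.smul_le (h8 i hiU))))

end Pool.Agent.Lib.MP_551055_al.MT
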